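import Mathlib
import Pool.Agent.Helper7.DioGraph

set_option autoImplicit false

namespace Pool.Agent.Tri

/-- The plane vector `(x, y) / n`. -/
structure Vec where
  x : ℤ
  y : ℤ
  n : ℤ

/-- Numerator of the determinant of two plane vectors. -/
def det (u v : Vec) : ℤ := u.x * v.y - u.y * v.x

/-- The determinant of `u` and `v` is `1` or `-1`. -/
def Touch (u v : Vec) : Prop := |det u v| = u.n * v.n

/-- The determinant of `u` and `v` is none of `0`, `1`, `-1`. -/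
def Far (u v : Vec) : Prop := det u v ≠ 0 ∧ |det u v| ≠ u.n * v.n

/-- Reduced presentation of a nonzero vector. -/
def Red (u : Vec) : Prop := 0 < u.n ∧ (u.x ≠ 0 ∨ u.y ≠ 0) ∧
  ∀ p : ℕ, p.Prime → (p : ℤ) ∣ u.n → ¬ ((p : ℤ) ∣ u.x ∧ (p : ℤ) ∣ u.y)

/-- `v` represents the graph `G` on the finite set `K` by plane vectors. -/
structure Conf {V : Type*} (G : SimpleGraph V) (K : Finset V) (v : V → Vec) : Prop where
  red : ∀ a ∈ K, Red (v a)
  adj : ∀ a ∈ K, ∀ b ∈ K, a ≠ b → (G.Adj a b ↔ Touch (v a) (v b))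
  dist : ∀ a ∈ K, ∀ b ∈ K, a ≠ b → det (v a) (v b) ≠ 0 ∨
    ((v a).x = (v b).x ∧ (v a).y = (v b).y ∧ (v a).n ≠ (v b).n)
  lat : ∀ a ∈ K, ∀ b ∈ K, ((Int.gcd (v a).n (v b).n : ℕ) : ℤ) ^ 2 ∣ det (v a) (v b)

/-- The vectors placed so far: `P` all of them, `F` the free ones, `Z` the primes used as
denominators, all larger than `B`. -/
structure Old {ι : Type*} (P F : Finset ι) (Z : Finset ℕ) (B : ℕ) (v : ι → Vec) : Prop where
  sub : F ⊆ P
  pos : ∀ i ∈ P, 0 < (v i).n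
  prim : ∀ i ∈ P, IsCoprime (v i).x (v i).y
  den : ∀ i ∈ P, (v i).n = 1 ∨ ∃ p ∈ Z, (v i).n = (p : ℤ)
  prime : ∀ p ∈ Z, p.Prime ∧ B < p
  bound : 4 * F.card + 10 ≤ B

end Pool.Agent.Tri
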