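import Mathlib
import Pool.Agent.Tri.Defs

set_option autoImplicit false

open Finset Pool.Agent.Helper7.Dio

namespace Pool.Agent.Tri

/-- A bound and a common multiple for finitely many integers. -/
lemma exists_big_mul {ι : Type*} (I : Finset ι) (a b : ι → ℤ) :
    ∃ K : ℤ, 2 < K ∧ (∀ i ∈ I, |a i| < K) ∧ ∀ i ∈ I, b i ≠ 0 → b i ∣ K := by
  classical
  have hP : 0 < ∏ i ∈ I, (if b i = 0 then (1 : ℤ) else |b i|) := by
    apply Finset.prod_pos
    intro i _
    split_ifs with h
    · norm_num
    · exact abs_pos.2 h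
  have hS : 0 ≤ ∑ i ∈ I, |a i| := Finset.sum_nonneg fun i _ => abs_nonneg _
  have hK : 3 + ∑ i ∈ I, |a i| ≤
      (3 + ∑ i ∈ I, |a i|) * ∏ i ∈ I, (if b i = 0 then (1 : ℤ) else |b i|) := by
    nlinarith
  refine ⟨(3 + ∑ i ∈ I, |a i|) * ∏ i ∈ I, (if b i = 0 then 1 else |b i|), by linarith, ?_, ?_⟩
  · intro i hi
    have : |a i| ≤ ∑ i ∈ I, |a i| :=
      Finset.single_le_sum (f := fun i => |a i|) (fun i _ => abs_nonneg _) hi
    linarith
  · intro i hi hb
    have h1 : (if b i = 0 then (1 : ℤ) else |b i|) ∣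
        ∏ i ∈ I, (if b i = 0 then (1 : ℤ) else |b i|) :=
      Finset.dvd_prod_of_mem (fun i => if b i = 0 then (1 : ℤ) else |b i|) hi
    rw [if_neg hb, abs_dvd] at h1
    exact h1.mul_left _

/-- Points and non-vertical lines with integral coordinates. -/
theorem conf_incid_int {V : Type*} {G : SimpleGraph V} {K : Finset V} (A : V → Prop)
    (x y : V → ℤ) (hx0 : ∀ u ∈ K, A u → x u ≠ 0) (hy0 : ∀ u ∈ K, ¬ A u → 0 < y u)
    (hP : ∀ u ∈ K, ∀ w ∈ K, A u → A w → x u = x w → y u = y w → u = w)
    (hL : ∀ u ∈ K, ∀ w ∈ K, ¬ A u → ¬ A w → y u = y w → u = w)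
    (hadj : ∀ u ∈ K, ∀ w ∈ K, G.Adj u w ↔
      (A u ∧ ¬ A w ∧ y u = x w * x u + y w) ∨ (¬ A u ∧ A w ∧ y w = x u * x w + y u)) :
    ∃ v, Conf G K v := by
  classical
  obtain ⟨k, hk2, hka, hkb⟩ := exists_big_mul (K ×ˢ K) (fun i => x i.1 - x i.2)
    (fun i => y i.1 - y i.2)
  have hka' : ∀ u ∈ K, ∀ w ∈ K, |x u - x w| < k := fun u hu w hw => hka (u, w) (by simp [hu, hw])
  have hkb' : ∀ u ∈ K, ∀ w ∈ K, y u - y w ≠ 0 → (y u - y w) ∣ k :=
    fun u hu w hw h => hkb (u, w) (by simp [hu, hw]) h
  set v : V → Vec := fun u => if A u then ⟨k * x u, 1 + k * y u, 1⟩ else ⟨1, x u, 1 + k * y u⟩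
    with hv
  have vA : ∀ u, A u → v u = ⟨k * x u, 1 + k * y u, 1⟩ := fun u hu => by simp [hv, hu]
  have vL : ∀ u, ¬ A u → v u = ⟨1, x u, 1 + k * y u⟩ := fun u hu => by simp [hv, hu]
  have hn : ∀ u ∈ K, ¬ A u → k < 1 + k * y u := fun u hu hA => by
    have := hy0 u hu hA
    nlinarith
  -- a point and a line
  have hPL : ∀ u ∈ K, ∀ w ∈ K, A u → ¬ A w →
      (Touch (v u) (v w) ↔ y u = x w * x u + y w) ∧ det (v u) (v w) ≠ 0 := by
    intro u hu w hw hAu hAw
    have hnw := hn w hw hAw
    have e : det (v u) (v w) = k * (x w * x u - y u) - 1 := by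
      rw [vA u hAu, vL w hAw]; simp only [det]; ring
    refine ⟨?_, ?_⟩
    · unfold Touch
      rw [e, vA u hAu, vL w hAw]
      simp only [one_mul]
      constructor
      · intro h
        rcases (abs_eq (by linarith)).1 h with h | h
        · exfalso
          have h1 : k * (x w * x u - y u - y w) = 2 := by linarith
          have h2 : k ∣ 2 := ⟨_, h1.symm⟩
          have := Int.le_of_dvd (by norm_num) h2
          omega
        · have h1 : k * (x w * x u - y u + y w) = 0 := by linarith
          rcases mul_eq_zero.1 h1 with h2 | h2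
          · omega
          · linarith
      · intro h
        rw [h, show k * (x w * x u - (x w * x u + y w)) - 1 = -(1 + k * y w) by ring, abs_neg,
          abs_of_pos (by linarith)]
    · rw [e]
      intro h
      have h2 : k ∣ 1 := ⟨x w * x u - y u, by linarith⟩
      have := Int.le_of_dvd (by norm_num) h2
      omega
  have hsymT : ∀ u w : V, Touch (v u) (v w) ↔ Touch (v w) (v u) := by
    intro u w
    unfold Touch
    rw [show det (v u) (v w) = - det (v w) (v u) by simp only [det]; ring, abs_neg, mul_comm]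
  have hsymD : ∀ u w : V, det (v u) (v w) ≠ 0 ↔ det (v w) (v u) ≠ 0 := by
    intro u w
    rw [show det (v u) (v w) = - det (v w) (v u) by simp only [det]; ring, neg_ne_zero]
  -- two points
  have hPP : ∀ u ∈ K, ∀ w ∈ K, u ≠ w → A u → A w →
      ¬ Touch (v u) (v w) ∧ det (v u) (v w) ≠ 0 := by
    intro u hu w hw huw hAu hAw
    have e : det (v u) (v w) = k * (x u - x w + k * (x u * y w - x w * y u)) := by
      rw [vA u hAu, vA w hAw]; simp only [det]; ring
    refine ⟨?_, ?_⟩
    · unfold Touch
      rw [e, vA u hAu, vA w hAw]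
      simp only [one_mul]
      intro h
      have h2 : k ∣ 1 := by
        rw [← h, dvd_abs]; exact Dvd.intro _ rfl
      have := Int.le_of_dvd (by norm_num) h2
      omega
    · rw [e]
      intro h
      rcases mul_eq_zero.1 h with h | h
      · omega
      · have h1 : x u - x w = k * -(x u * y w - x w * y u) := by linarith
        have h2 : x u - x w = 0 := by
          apply Int.eq_zero_of_abs_lt_dvd ⟨_, h1⟩ (hka' u hu w hw)
        have h3 : x u = x w := by linarith
        rw [h2] at h1
        have h4 : x u * y w - x w * y u = 0 := by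
          rcases mul_eq_zero.1 h1.symm with h5 | h5
          · omega
          · linarith
        rw [← h3] at h4
        have h5 : x u * (y w - y u) = 0 := by linarith
        rcases mul_eq_zero.1 h5 with h6 | h6
        · exact hx0 u hu hAu h6
        · exact huw (hP u hu w hw hAu hAw h3 (by linarith))
  -- two lines
  have hLL : ∀ u ∈ K, ∀ w ∈ K, ¬ A u → ¬ A w → ¬ Touch (v u) (v w) := by
    intro u hu w hw hAu hAw
    have e : det (v u) (v w) = x w - x u := by
      rw [vL u hAu, vL w hAw]; simp only [det]; ring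
    unfold Touch
    rw [e, vL u hAu, vL w hAw]
    simp only
    intro h
    have h1 := hka' w hw u hu
    have h2 := hn u hu hAu
    have h3 := hn w hw hAw
    nlinarith
  refine ⟨v, ?_, ?_, ?_, ?_⟩
  · intro u hu
    by_cases hA : A u
    · rw [vA u hA]
      refine ⟨by norm_num, Or.inl ?_, ?_⟩
      · exact mul_ne_zero (by omega) (hx0 u hu hA)
      · intro p hp h
        exact absurd (Int.le_of_dvd (by norm_num) h) (by have := hp.two_le; push_cast; omega)
    · rw [vL u hA]
      refine ⟨by have := hn u hu hA; simp only; omega, Or.inl (by norm_num), ?_⟩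
      intro p hp _ h
      exact absurd (Int.le_of_dvd (by norm_num) h.1) (by have := hp.two_le; push_cast; omega)
  · intro u hu w hw huw
    rw [hadj u hu w hw]
    by_cases hAu : A u
    · by_cases hAw : A w
      · simp only [hAu, hAw, not_true_eq_false, false_and, and_false, or_self, false_iff]
        exact (hPP u hu w hw huw hAu hAw).1
      · simp only [hAu, hAw, not_true_eq_false, false_and, or_false, not_false_eq_true, true_and]
        exact ((hPL u hu w hw hAu hAw).1).symm
    · by_cases hAw : A w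
      · simp only [hAu, hAw, false_and, false_or, not_false_eq_true, true_and]
        rw [hsymT]
        exact ((hPL w hw u hu hAw hAu).1).symm
      · simp only [hAu, hAw, false_and, and_false, or_self, false_iff]
        exact hLL u hu w hw hAu hAw
  · intro u hu w hw huw
    by_cases hAu : A u
    · by_cases hAw : A w
      · exact Or.inl (hPP u hu w hw huw hAu hAw).2
      · exact Or.inl (hPL u hu w hw hAu hAw).2
    · by_cases hAw : A w
      · exact Or.inl ((hsymD u w).2 (hPL w hw u hu hAw hAu).2)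
      · by_cases hx : x u = x w
        · right
          rw [vL u hAu, vL w hAw]
          refine ⟨rfl, hx, ?_⟩
          simp only
          intro h
          apply huw
          apply hL u hu w hw hAu hAw
          have h1 : k * (y u - y w) = 0 := by linarith
          rcases mul_eq_zero.1 h1 with h2 | h2
          · omega
          · linarith
        · left
          rw [vL u hAu, vL w hAw]
          simp only [det]
          intro h
          apply hx
          linarith
  · intro u hu w hw
    by_cases hAu : A u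
    · have : Int.gcd (v u).n (v w).n = 1 := by
        rw [vA u hAu]; simp
      rw [this]; simp
    · by_cases hAw : A w
      · have : Int.gcd (v u).n (v w).n = 1 := by
          rw [vA w hAw]; simp
        rw [this]; simp
      · by_cases huw : u = w
        · subst huw
          have : det (v u) (v u) = 0 := by simp only [det]; ring
          rw [this]; exact dvd_zero _
        · have hne : y u - y w ≠ 0 := fun h => huw (hL u hu w hw hAu hAw (by linarith))
          have hdk := hkb' u hu w hw hne
          have hg : IsCoprime (v u).n (v w).n := by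
            rw [vL u hAu, vL w hAw]
            simp only
            have h1 : IsCoprime (1 + k * y u) (y u - y w) := by
              obtain ⟨c, hc⟩ := hdk
              refine ⟨1, -(c * y u), ?_⟩
              rw [hc]; ring
            have h2 : IsCoprime (1 + k * y u) k := ⟨1, -(y u), by ring⟩
            have h3 := (h2.mul_right h1)
            have h4 : (1 + k * y w) = (1 + k * y u) * 1 + -(k * (y u - y w)) := by ring
            rw [h4]
            exact (IsCoprime.mul_add_left_right (h3.neg_right) 1)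
          have : Int.gcd (v u).n (v w).n = 1 := Int.isCoprime_iff_gcd_eq_one.1 hg
          rw [this]; simp

/-- Points and non-vertical lines with rational coordinates. -/
theorem conf_incid {V : Type*} {G : SimpleGraph V} {K : Finset V} (A : V → Prop)
    (x y : V → ℚ)
    (hinj : ∀ u ∈ K, ∀ w ∈ K, (A u ↔ A w) → x u = x w → y u = y w → u = w)
    (hadj : ∀ u ∈ K, ∀ w ∈ K, G.Adj u w ↔
      (A u ∧ ¬ A w ∧ y u = x w * x u + y w) ∨ (¬ A u ∧ A w ∧ y w = x u * x w + y u)) :
    ∃ v, Conf G K v := by
  classical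
  -- a good translation
  obtain ⟨t, ht⟩ : ∃ t : ℚ, t ∉ K.image (fun u => - x u) ∪
      (K ×ˢ K).image (fun i => (y i.1 - y i.2) / (x i.1 - x i.2)) :=
    Infinite.exists_notMem_finset _
  rw [mem_union, not_or] at ht
  have ht1 : ∀ u ∈ K, x u + t ≠ 0 := by
    intro u hu h
    apply ht.1
    rw [mem_image]
    exact ⟨u, hu, by linarith⟩
  have ht2 : ∀ u ∈ K, ∀ w ∈ K, x u ≠ x w → y u - x u * t ≠ y w - x w * t := by
    intro u hu w hw hx h
    apply ht.2
    rw [mem_image]
    refine ⟨(u, w), by simp [hu, hw], ?_⟩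
    simp only
    rw [div_eq_iff (sub_ne_zero.2 hx)]
    linarith
  obtain ⟨c, hc⟩ : ∃ c : ℚ, ∀ u ∈ K, 0 < y u - x u * t + c := by
    refine ⟨1 + ∑ u ∈ K, |y u - x u * t|, fun u hu => ?_⟩
    have h1 : |y u - x u * t| ≤ ∑ u ∈ K, |y u - x u * t| :=
      Finset.single_le_sum (f := fun u => |y u - x u * t|) (fun i _ => abs_nonneg _) hu
    have h2 := neg_abs_le (y u - x u * t)
    linarith
  set X : V → ℚ := fun u => if A u then x u + t else x u with hX
  set Y : V → ℚ := fun u => if A u then y u + c else y u - x u * t + c with hY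
  have hden : ∀ q : ℚ, ∀ M : ℕ, q.den ∣ M → ∃ z : ℤ, (z : ℚ) = M * q := by
    rintro q M ⟨r, rfl⟩
    refine ⟨r * q.num, ?_⟩
    push_cast
    have := Rat.mul_den_eq_num q
    rw [← this]; ring
  set M : ℕ := ∏ u ∈ K, ((X u).den * (Y u).den) with hM
  have hM0 : 0 < M := Finset.prod_pos fun u _ => Nat.mul_pos (X u).den_pos (Y u).den_pos
  have hMX : ∀ u ∈ K, (X u).den ∣ M := fun u hu =>
    (Dvd.intro _ rfl).trans (Finset.dvd_prod_of_mem (fun u => (X u).den * (Y u).den) hu)
  have hMY : ∀ u ∈ K, (Y u).den ∣ M * M := fun u hu =>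
    ((Dvd.intro_left _ rfl).trans
      (Finset.dvd_prod_of_mem (fun u => (X u).den * (Y u).den) hu)).mul_left _
  have hx' : ∀ u : V, ∃ z : ℤ, u ∈ K → (z : ℚ) = M * X u := by
    intro u
    by_cases hu : u ∈ K
    · obtain ⟨z, hz⟩ := hden (X u) M (hMX u hu)
      exact ⟨z, fun _ => hz⟩
    · exact ⟨0, fun h => absurd h hu⟩
  have hy' : ∀ u : V, ∃ z : ℤ, u ∈ K → (z : ℚ) = (M * M : ℕ) * Y u := by
    intro u
    by_cases hu : u ∈ K
    · obtain ⟨z, hz⟩ := hden (Y u) (M * M) (hMY u hu)
      exact ⟨z, fun _ => hz⟩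
    · exact ⟨0, fun h => absurd h hu⟩
  choose x' hx' using hx'
  choose y' hy' using hy'
  have hMQ : (M : ℚ) ≠ 0 := by exact_mod_cast hM0.ne'
  have hMMQ : ((M * M : ℕ) : ℚ) ≠ 0 := by exact_mod_cast (Nat.mul_pos hM0 hM0).ne'
  have hxe : ∀ u ∈ K, ∀ w ∈ K, x' u = x' w → X u = X w := by
    intro u hu w hw h
    have h1 : (x' u : ℚ) = x' w := by rw [h]
    rw [hx' u hu, hx' w hw] at h1
    exact mul_left_cancel₀ hMQ h1
  have hye : ∀ u ∈ K, ∀ w ∈ K, y' u = y' w → Y u = Y w := by
    intro u hu w hw h
    have h1 : (y' u : ℚ) = y' w := by rw [h]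
    rw [hy' u hu, hy' w hw] at h1
    exact mul_left_cancel₀ hMMQ h1
  have hinc : ∀ u ∈ K, ∀ w ∈ K, A u → ¬ A w →
      (y u = x w * x u + y w ↔ y' u = x' w * x' u + y' w) := by
    intro u hu w hw hAu hAw
    have h1 : (y' u = x' w * x' u + y' w) ↔ ((y' u : ℚ) = x' w * x' u + y' w) := by
      exact_mod_cast Iff.rfl
    rw [h1, hx' u hu, hx' w hw, hy' u hu, hy' w hw]
    simp only [hX, hY, hAu, hAw, if_true, if_false]
    push_cast
    have h2 : (M : ℚ) * M * (y u + c) = M * x w * (M * (x u + t)) + M * M * (y w - x w * t + c) ↔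
        (M : ℚ) * M * (y u - (x w * x u + y w)) = 0 := by
      constructor <;> intro h <;> linear_combination h
    rw [h2, mul_eq_zero, mul_self_eq_zero]
    constructor
    · intro h; right; linarith
    · rintro (h | h)
      · exact absurd h hMQ
      · linarith
  refine conf_incid_int A x' y' ?_ ?_ ?_ ?_ ?_
  · intro u hu hA h
    have h1 : (x' u : ℚ) = 0 := by rw [h]; simp
    rw [hx' u hu, mul_eq_zero] at h1
    rcases h1 with h1 | h1
    · exact hMQ h1
    · simp only [hX, hA, if_true] at h1
      exact ht1 u hu h1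
  · intro u hu hA
    have h1 : (0 : ℚ) < y' u := by
      rw [hy' u hu]
      simp only [hY, hA, if_false]
      have := hc u hu
      have h2 : (0 : ℚ) < ((M * M : ℕ) : ℚ) := by exact_mod_cast Nat.mul_pos hM0 hM0
      positivity
    exact_mod_cast h1
  · intro u hu w hw hAu hAw hxx hyy
    have h1 := hxe u hu w hw hxx
    have h2 := hye u hu w hw hyy
    simp only [hX, hY, hAu, hAw, if_true] at h1 h2
    exact hinj u hu w hw (by simp [hAu, hAw]) (by linarith) (by linarith)
  · intro u hu w hw hAu hAw hyy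
    have h2 := hye u hu w hw hyy
    simp only [hY, hAu, hAw, if_false] at h2
    by_cases hxx : x u = x w
    · rw [hxx] at h2
      exact hinj u hu w hw (by simp [hAu, hAw]) hxx (by linarith)
    · exact absurd (by linarith) (ht2 u hu w hw hxx)
  · intro u hu w hw
    rw [hadj u hu w hw]
    constructor
    · rintro (⟨h1, h2, h3⟩ | ⟨h1, h2, h3⟩)
      · exact Or.inl ⟨h1, h2, (hinc u hu w hw h1 h2).1 h3⟩
      · exact Or.inr ⟨h1, h2, (hinc w hw u hu h2 h1).1 h3⟩
    · rintro (⟨h1, h2, h3⟩ | ⟨h1, h2, h3⟩)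
      · exact Or.inl ⟨h1, h2, (hinc u hu w hw h1 h2).2 h3⟩
      · exact Or.inr ⟨h1, h2, (hinc w hw u hu h2 h1).2 h3⟩

end Pool.Agent.Tri
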