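import Mathlib
import Pool.Agent.Tri.Defs

set_option autoImplicit false

namespace Pool.Agent.Tri

/-! The one parameter family of triangles `P1 s, P2 s, P3 s` whose first vector touches `W1`
and whose second vector touches `W2` (`e = 1` or `e = -1`) or is parallel to `W2` (`e = 0`).
`(f1, f2)` is an integer vector with `f1 * W1.y - f2 * W1.x = 1`. -/

section
variable (W1 W2 : Vec) (f1 f2 e : ℤ)

def P1 (s : ℤ) : Vec := ⟨W1.n * f1 + s * W1.x, W1.n * f2 + s * W1.y, 1⟩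

def NN (s : ℤ) : ℤ := det (P1 W1 f1 f2 s) W2

def P2 (s : ℤ) : Vec :=
  ⟨W2.x + e * W2.n * (P1 W1 f1 f2 s).x, W2.y + e * W2.n * (P1 W1 f1 f2 s).y, NN W1 W2 f1 f2 s⟩

def P3 (s : ℤ) : Vec :=
  ⟨-NN W1 W2 f1 f2 s * (P1 W1 f1 f2 s).x - (P2 W1 W2 f1 f2 e s).x,
    -NN W1 W2 f1 f2 s * (P1 W1 f1 f2 s).y - (P2 W1 W2 f1 f2 e s).y, NN W1 W2 f1 f2 s⟩

end

section
variable {W1 W2 : Vec} {f1 f2 e : ℤ}

lemma det_self (u : Vec) : det u u = 0 := by simp only [det]; ring

lemma det_swap (u v : Vec) : det u v = - det v u := by simp only [det]; ring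

lemma NN_eq (s : ℤ) : NN W1 W2 f1 f2 s = W1.n * (f1 * W2.y - f2 * W2.x) + s * det W1 W2 := by
  simp only [NN, P1, det]; ring

lemma det_P1_W1 (hf : f1 * W1.y - f2 * W1.x = 1) (s : ℤ) : det (P1 W1 f1 f2 s) W1 = W1.n := by
  simp only [P1, det]; linear_combination W1.n * hf

lemma det_P1_W2 (s : ℤ) : det (P1 W1 f1 f2 s) W2 = NN W1 W2 f1 f2 s := rfl

lemma det_P1_P2 (s : ℤ) :
    det (P1 W1 f1 f2 s) (P2 W1 W2 f1 f2 e s) = NN W1 W2 f1 f2 s := by
  simp only [P2, NN, det]; ring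

lemma det_P1_P3 (s : ℤ) :
    det (P1 W1 f1 f2 s) (P3 W1 W2 f1 f2 e s) = - NN W1 W2 f1 f2 s := by
  simp only [P3, P2, NN, det]; ring

lemma det_P2_P3 (s : ℤ) :
    det (P2 W1 W2 f1 f2 e s) (P3 W1 W2 f1 f2 e s) = NN W1 W2 f1 f2 s * NN W1 W2 f1 f2 s := by
  simp only [P3, P2, NN, det]; ring

lemma det_P2_W2 (s : ℤ) :
    det (P2 W1 W2 f1 f2 e s) W2 = e * W2.n * NN W1 W2 f1 f2 s := by
  simp only [P2, NN, det]; ring

lemma det_P2_W1 (hf : f1 * W1.y - f2 * W1.x = 1) (s : ℤ) :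
    det (P2 W1 W2 f1 f2 e s) W1 = - (det W1 W2 - e * W1.n * W2.n) := by
  simp only [P2, P1, det]; linear_combination e * W2.n * W1.n * hf

/-- Linearity in `s` of the determinants with `P1`. -/
lemma det_P1 (V : Vec) (s : ℤ) :
    det (P1 W1 f1 f2 s) V = W1.n * (f1 * V.y - f2 * V.x) + s * det W1 V := by
  simp only [P1, det]; ring

lemma det_P2 (V : Vec) (s : ℤ) :
    det (P2 W1 W2 f1 f2 e s) V = det W2 V + e * W2.n * det (P1 W1 f1 f2 s) V := by
  simp only [P2, det]; ring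

lemma det_P3 (V : Vec) (s : ℤ) :
    det (P3 W1 W2 f1 f2 e s) V =
      - NN W1 W2 f1 f2 s * det (P1 W1 f1 f2 s) V - det (P2 W1 W2 f1 f2 e s) V := by
  simp only [P3, det]; ring

/-- Pluecker relation. -/
lemma pluck (hf : f1 * W1.y - f2 * W1.x = 1) (V : Vec) :
    det W1 W2 * (f1 * V.y - f2 * V.x) = (f1 * W2.y - f2 * W2.x) * det W1 V - det W2 V := by
  simp only [det]; linear_combination (-(W2.x * V.y - W2.y * V.x)) * hf

lemma finite_lin {a b : ℤ} (h : a ≠ 0 ∨ b ≠ 0) : {s : ℤ | a + s * b = 0}.Finite := by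
  by_cases hb : b = 0
  · have ha : a ≠ 0 := by tauto
    have : {s : ℤ | a + s * b = 0} = ∅ := by
      ext s; simp [hb, ha]
    rw [this]; exact Set.finite_empty
  · apply Set.Subsingleton.finite
    intro s hs t ht
    simp only [Set.mem_ofPred_eq] at hs ht
    have h1 : (s - t) * b = 0 := by linear_combination hs - ht
    rcases mul_eq_zero.1 h1 with h2 | h2
    · linarith
    · exact absurd h2 hb

lemma finite_quad {a b c : ℤ} (h : a ≠ 0 ∨ b ≠ 0 ∨ c ≠ 0) :
    {s : ℤ | a + b * s + c * s ^ 2 = 0}.Finite := by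
  have hp : (Polynomial.C a + Polynomial.C b * Polynomial.X +
      Polynomial.C c * Polynomial.X ^ 2 : Polynomial ℤ) ≠ 0 := by
    intro h0
    have hev : ∀ x : ℤ, a + b * x + c * x ^ 2 = 0 := by
      intro x
      have := congrArg (Polynomial.eval x) h0
      simpa using this
    have h1 := hev 0
    have h2 := hev 1
    have h3 := hev (-1)
    rcases h with h | h | h
    · apply h; linarith
    · apply h; linarith
    · apply h; linarith
  apply (Polynomial.finite_setOfPred_isRoot hp).subset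
  intro s hs
  simp only [Set.mem_ofPred_eq, Polynomial.IsRoot, Polynomial.eval_add, Polynomial.eval_mul,
    Polynomial.eval_C, Polynomial.eval_X, Polynomial.eval_pow] at hs ⊢
  linarith

/-- `P1 s` is far from every fixed vector not parallel to `W1`. -/
lemma fin_P1 {V : Vec} (hV : det W1 V ≠ 0) (k : ℤ) :
    {s : ℤ | det (P1 W1 f1 f2 s) V = k}.Finite := by
  apply (finite_lin (a := W1.n * (f1 * V.y - f2 * V.x) - k) (b := det W1 V) (Or.inr hV)).subset
  intro s hs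
  simp only [Set.mem_ofPred_eq] at hs ⊢
  rw [det_P1] at hs
  linarith

lemma fin_NN (h12 : det W1 W2 ≠ 0) (k : ℤ) : {s : ℤ | NN W1 W2 f1 f2 s = k}.Finite :=
  fin_P1 h12 k

/-- `P2 s` is far from every fixed vector not parallel to `W2`. -/
lemma fin_P2 (hf : f1 * W1.y - f2 * W1.x = 1)
    (he : det W1 W2 ≠ e * W1.n * W2.n) {V : Vec} (hV : det W2 V ≠ 0) (k : ℤ) :
    {s : ℤ | det (P2 W1 W2 f1 f2 e s) V = k * NN W1 W2 f1 f2 s}.Finite := by
  apply (finite_lin (a := det W2 V + e * W2.n * (W1.n * (f1 * V.y - f2 * V.x)) -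
    k * (W1.n * (f1 * W2.y - f2 * W2.x))) (b := e * W2.n * det W1 V - k * det W1 W2) ?_).subset
  · intro s hs
    simp only [Set.mem_ofPred_eq] at hs ⊢
    rw [det_P2, det_P1, NN_eq] at hs
    linear_combination hs
  · by_contra hcon
    push Not at hcon
    obtain ⟨h1, h2⟩ := hcon
    have h3 : (det W1 W2 - e * W1.n * W2.n) * det W2 V = 0 := by
      have hp := pluck (W2 := W2) hf V
      linear_combination (det W1 W2) * h1 - W1.n * (f1 * W2.y - f2 * W2.x) * h2 -
        e * W2.n * W1.n * hp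
    rcases mul_eq_zero.1 h3 with h4 | h4
    · exact he (by linarith)
    · exact hV h4

/-- The vectors `P3 s` trace a conic which is contained in no line. -/
lemma fin_P3 (hf : f1 * W1.y - f2 * W1.x = 1) (h12 : det W1 W2 ≠ 0)
    (he : det W1 W2 ≠ e * W1.n * W2.n) {V : Vec} (hV : V.x ≠ 0 ∨ V.y ≠ 0) (k : ℤ) :
    {s : ℤ | det (P3 W1 W2 f1 f2 e s) V = k * NN W1 W2 f1 f2 s}.Finite := by
  set α := f1 * W2.y - f2 * W2.x with hα
  set β := det W1 W2 with hβ
  set φ := f1 * V.y - f2 * V.x with hφ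
  -- coefficients of the quadratic
  apply (finite_quad
    (a := -(W1.n * α) * (W1.n * φ) - (det W2 V + e * W2.n * (W1.n * φ)) - k * (W1.n * α))
    (b := -(W1.n * α) * det W1 V - β * (W1.n * φ) - e * W2.n * det W1 V - k * β)
    (c := -β * det W1 V) ?_).subset
  · intro s hs
    simp only [Set.mem_ofPred_eq] at hs ⊢
    rw [det_P3, det_P2, det_P1, NN_eq] at hs
    linear_combination hs
  · by_contra hcon
    push Not at hcon
    obtain ⟨ha, hb, hc⟩ := hcon
    have hw1 : det W1 V = 0 := by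
      rcases mul_eq_zero.1 hc with h | h
      · exact absurd (neg_eq_zero.1 h) h12
      · exact h
    have hp := pluck (W2 := W2) hf V
    rw [← hα, ← hβ, ← hφ, hw1] at hp
    rw [hw1] at hb
    -- hp : β * φ = α * 0 - det W2 V
    have h5 : (β - e * W1.n * W2.n) * det W2 V = 0 := by
      linear_combination (-β) * ha + W1.n * α * hb - e * W1.n * W2.n * hp
    have hw2 : det W2 V = 0 := by
      rcases mul_eq_zero.1 h5 with h | h
      · exact absurd (by linarith : β = e * W1.n * W2.n) he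
      · exact h
    -- V parallel to both
    have hx : β * V.x = 0 := by
      simp only [det] at hw1 hw2 hβ
      rw [hβ]
      linear_combination W2.x * hw1 - W1.x * hw2
    have hy : β * V.y = 0 := by
      simp only [det] at hw1 hw2 hβ
      rw [hβ]
      linear_combination W2.y * hw1 - W1.y * hw2
    rcases hV with h | h
    · exact h ((mul_eq_zero.1 hx).resolve_left h12)
    · exact h ((mul_eq_zero.1 hy).resolve_left h12)

/-- Quadratic expression of the determinants with `P3`. -/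
lemma quad_P3 (V : Vec) : ∃ b c : ℤ, ∀ s, det (P3 W1 W2 f1 f2 e s) V =
    (-(det W1 W2 * det W1 V)) * s ^ 2 + b * s + c := by
  refine ⟨-(W1.n * (f1 * W2.y - f2 * W2.x)) * det W1 V -
      det W1 W2 * (W1.n * (f1 * V.y - f2 * V.x)) - e * W2.n * det W1 V,
    -(W1.n * (f1 * W2.y - f2 * W2.x)) * (W1.n * (f1 * V.y - f2 * V.x)) -
      (det W2 V + e * W2.n * (W1.n * (f1 * V.y - f2 * V.x))), fun s => ?_⟩
  rw [det_P3, det_P2, det_P1, NN_eq]; ring

/-- `det (P3 s) W1` is linear in `s`. -/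
lemma det_P3_W1 (hf : f1 * W1.y - f2 * W1.x = 1) (s : ℤ) :
    det (P3 W1 W2 f1 f2 e s) W1 =
      - NN W1 W2 f1 f2 s * W1.n + (det W1 W2 - e * W1.n * W2.n) := by
  rw [det_P3, det_P1_W1 hf, det_P2_W1 hf]; ring

lemma det_P3_W2 (s : ℤ) :
    det (P3 W1 W2 f1 f2 e s) W2 =
      - NN W1 W2 f1 f2 s * (NN W1 W2 f1 f2 s + e * W2.n) := by
  rw [det_P3, det_P1_W2, det_P2_W2]; ring

/-- Divisibility by the new prime. -/
lemma dvd_P3 (hf : f1 * W1.y - f2 * W1.x = 1) {V : Vec} {s : ℤ}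
    (h : NN W1 W2 f1 f2 s ∣ det (P3 W1 W2 f1 f2 e s) V) :
    NN W1 W2 f1 f2 s ∣ (det W1 W2 - e * W1.n * W2.n) * det W2 V := by
  obtain ⟨c, hc⟩ := h
  have hp := pluck (W2 := W2) hf V
  rw [det_P3, det_P2] at hc
  have h1 := det_P1 (W1 := W1) (f1 := f1) (f2 := f2) V s
  have hN := NN_eq (W1 := W1) (W2 := W2) (f1 := f1) (f2 := f2) s
  refine ⟨-det W1 W2 * (c + det (P1 W1 f1 f2 s) V) - e * W2.n * det W1 V, ?_⟩
  linear_combination (-det W1 W2) * hc - (e * W2.n * W1.n) * hp - (e * W2.n * det W1 W2) * h1 +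
    (e * W2.n * det W1 V) * hN

lemma dvd_P1 (hf : f1 * W1.y - f2 * W1.x = 1) {V : Vec} {s : ℤ}
    (h : NN W1 W2 f1 f2 s ∣ det (P1 W1 f1 f2 s) V) :
    NN W1 W2 f1 f2 s ∣ W1.n * det W2 V := by
  obtain ⟨c, hc⟩ := h
  have hp := pluck (W2 := W2) hf V
  have h1 := det_P1 (W1 := W1) (f1 := f1) (f2 := f2) V s
  have hN := NN_eq (W1 := W1) (W2 := W2) (f1 := f1) (f2 := f2) s
  refine ⟨det W1 V - det W1 W2 * c, ?_⟩
  linear_combination (det W1 W2) * (h1 - hc) + W1.n * hp - det W1 V * hN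

end

end Pool.Agent.Tri
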