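import Mathlib

set_option autoImplicit false

namespace Pool.Agent.Tri

/-- Chinese remainder theorem for integers and finitely many moduli. -/
theorem crt_finset (T : Finset ℕ) (m : ℕ → ℕ)
    (hm : ∀ p ∈ T, ∀ q ∈ T, p ≠ q → Nat.Coprime (m p) (m q)) (c : ℕ → ℤ) :
    ∃ x : ℤ, ∀ p ∈ T, (m p : ℤ) ∣ x - c p := by
  classical
  induction T using Finset.induction_on with
  | empty => exact ⟨0, by simp⟩
  | insert p T hp ih =>
    obtain ⟨x, hx⟩ := ih fun q hq r hr => hm q (Finset.mem_insert_of_mem hq) r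
      (Finset.mem_insert_of_mem hr)
    have hco : IsCoprime (∏ q ∈ T, (m q : ℤ)) (m p : ℤ) := by
      refine IsCoprime.prod_left fun q hq => ?_
      rw [Nat.isCoprime_iff_coprime]
      refine hm q (Finset.mem_insert_of_mem hq) p (Finset.mem_insert_self _ _) ?_
      rintro rfl
      exact hp hq
    obtain ⟨u, w, huw⟩ := hco
    refine ⟨x + (∏ q ∈ T, (m q : ℤ)) * (u * (c p - x)), fun q hq => ?_⟩
    rcases Finset.mem_insert.1 hq with rfl | hq
    · refine ⟨-(w * (c q - x)), ?_⟩
      linear_combination (c q - x) * huw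
    · have h1 := hx q hq
      have h2 : (m q : ℤ) ∣ ∏ q ∈ T, (m q : ℤ) := Finset.dvd_prod_of_mem (fun q => (m q : ℤ)) hq
      rw [show x + (∏ q ∈ T, (m q : ℤ)) * (u * (c p - x)) - c q =
        (x - c q) + (∏ q ∈ T, (m q : ℤ)) * (u * (c p - x)) by ring]
      exact dvd_add h1 (h2.mul_right _)

end Pool.Agent.Tri
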