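import Mathlib
import Pool.Agent.Tri.Defs
import Pool.Agent.Tri.Crt
import Pool.Agent.Tri.Core

set_option autoImplicit false

namespace Pool.Agent.Tri

theorem sq_dvd_of_prime_pow (n : ℕ) (hn : n ≠ 0) (D : ℤ)
    (h : ∀ p : ℕ, p.Prime → p ∣ n → (p : ℤ) ^ (2 * n.factorization p) ∣ D) : (n : ℤ) ^ 2 ∣ D := by
  rw [← Int.dvd_natAbs, ← Int.natCast_pow, Int.natCast_dvd_natCast,
    Nat.dvd_iff_prime_pow_dvd_dvd]
  intro p k hp hk
  by_cases hpn : p ∣ n
  · have h1 : k ≤ 2 * n.factorization p := by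
      have := (hp.pow_dvd_iff_le_factorization (pow_ne_zero 2 hn)).1 hk
      rwa [Nat.factorization_pow, Finsupp.smul_apply, smul_eq_mul] at this
    have h2 := h p hp hpn
    have h3 : p ^ (2 * n.factorization p) ∣ D.natAbs := by
      rw [← Int.natCast_dvd_natCast, Int.dvd_natAbs]
      exact_mod_cast h2
    exact (pow_dvd_pow p h1).trans h3
  · have : k = 0 := by
      by_contra hk0
      apply hpn
      exact hp.dvd_of_dvd_pow ((dvd_pow_self p hk0).trans hk)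
    rw [this, pow_zero]
    exact one_dvd _

theorem exists_frame {V : Type*} (K : Finset V) (v : V → Vec) (hred : ∀ a ∈ K, Red (v a))
    (hlat : ∀ a ∈ K, ∀ b ∈ K, ((Int.gcd (v a).n (v b).n : ℕ) : ℤ) ^ 2 ∣ det (v a) (v b)) :
    ∃ e1 e2 o1 o2 : ℤ, e1 * o2 - e2 * o1 = 1 ∧ ∀ a ∈ K,
      (v a).n ^ 2 ∣ e1 * (v a).y - e2 * (v a).x ∧ e1 * (v a).y - e2 * (v a).x ≠ 0 := by
  classical
  rcases K.eq_empty_or_nonempty with rfl | hne
  · exact ⟨1, 0, 0, 1, by norm_num, by simp⟩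
  -- the denominators as natural numbers
  set nn : V → ℕ := fun a => (v a).n.natAbs with hnn
  have hnn' : ∀ a ∈ K, ((nn a : ℕ) : ℤ) = (v a).n := fun a ha => by
    rw [hnn]
    exact Int.natAbs_of_nonneg (hred a ha).1.le
  have hnn0 : ∀ a ∈ K, nn a ≠ 0 := fun a ha => by
    have := (hred a ha).1
    rw [hnn]
    simp only [ne_eq, Int.natAbs_eq_zero]
    exact this.ne'
  have hmax : ∀ p : ℕ, ∃ A ∈ K, ∀ a ∈ K, (nn a).factorization p ≤ (nn A).factorization p :=
    fun p => Finset.exists_max_image K (fun a => (nn a).factorization p) hne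
  choose A hA hAmax using hmax
  set T : Finset ℕ := (∏ a ∈ K, nn a).primeFactors with hT
  have hM0 : (∏ a ∈ K, nn a) ≠ 0 := Finset.prod_ne_zero_iff.2 hnn0
  have hTp : ∀ p ∈ T, p.Prime := fun p hp => Nat.prime_of_mem_primeFactors hp
  have hTmem : ∀ p : ℕ, p.Prime → ∀ a ∈ K, p ∣ nn a → p ∈ T := fun p hp a ha hd =>
    Nat.mem_primeFactors.2 ⟨hp, hd.trans (Finset.dvd_prod_of_mem _ ha), hM0⟩
  have hco : ∀ p ∈ T, ∀ q ∈ T, p ≠ q →
      Nat.Coprime (p ^ (2 * (nn (A p)).factorization p)) (q ^ (2 * (nn (A q)).factorization q)) :=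
    fun p hp q hq hpq => Nat.Coprime.pow _ _ ((Nat.coprime_primes (hTp p hp) (hTp q hq)).2 hpq)
  obtain ⟨e1, he1⟩ := crt_finset T _ hco fun p => (v (A p)).x
  obtain ⟨e2, he2⟩ := crt_finset T _ hco fun p => (v (A p)).y
  -- divisibility for the pair `(e1, e2)`
  have hdiv : ∀ a ∈ K, (v a).n ^ 2 ∣ e1 * (v a).y - e2 * (v a).x := by
    intro a ha
    rw [← hnn' a ha]
    refine sq_dvd_of_prime_pow _ (hnn0 a ha) _ fun p hp hpa => ?_
    have hpT := hTmem p hp a ha hpa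
    have h1 := he1 p hpT
    have h2 := he2 p hpT
    have h3 : (p : ℤ) ^ (2 * (nn a).factorization p) ∣
        ((p ^ (2 * (nn (A p)).factorization p) : ℕ) : ℤ) := by
      push_cast
      exact pow_dvd_pow _ (Nat.mul_le_mul_left 2 (hAmax p a ha))
    have h4 : (p : ℤ) ^ (2 * (nn a).factorization p) ∣ det (v (A p)) (v a) := by
      refine dvd_trans ?_ (hlat _ (hA p) a ha)
      rw [mul_comm 2, pow_mul]
      refine pow_dvd_pow_of_dvd ?_ 2
      rw [← Int.natCast_pow, Int.natCast_dvd_natCast]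
      refine Nat.dvd_gcd ?_ ?_
      · exact (pow_dvd_pow p (hAmax p a ha)).trans (Nat.ordProj_dvd (nn (A p)) p)
      · exact Nat.ordProj_dvd (nn a) p
    have h5 : e1 * (v a).y - e2 * (v a).x = (e1 - (v (A p)).x) * (v a).y -
        (e2 - (v (A p)).y) * (v a).x + det (v (A p)) (v a) := by
      rw [det]
      ring
    rw [h5]
    exact dvd_add (dvd_sub ((h3.trans h1).mul_right _) ((h3.trans h2).mul_right _)) h4
  -- nonzero modulo every prime
  have hnz : ∀ p ∈ T, ¬ ((p : ℤ) ∣ e1 ∧ (p : ℤ) ∣ e2) := by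
    rintro p hpT ⟨h1, h2⟩
    obtain ⟨a, ha, hpa⟩ : ∃ a ∈ K, p ∣ nn a :=
      ((hTp p hpT).prime.dvd_finsetProd_iff _).1 (Nat.dvd_of_mem_primeFactors hpT)
    have h3 : 1 ≤ (nn (A p)).factorization p := by
      refine le_trans ?_ (hAmax p a ha)
      exact (hTp p hpT).factorization_pos_of_dvd (hnn0 a ha) hpa
    have h4 : (p : ℤ) ∣ ((p ^ (2 * (nn (A p)).factorization p) : ℕ) : ℤ) := by
      rw [Int.natCast_dvd_natCast]
      exact dvd_pow_self p (by omega)
    have h5 : (p : ℤ) ∣ (v (A p)).n := by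
      rw [← hnn' _ (hA p), Int.natCast_dvd_natCast]
      exact Nat.dvd_of_factorization_pos (by omega)
    refine (hred _ (hA p)).2.2 p (hTp p hpT) h5 ⟨?_, ?_⟩
    · have := dvd_sub h1 (h4.trans (he1 p hpT))
      simpa using this
    · have := dvd_sub h2 (h4.trans (he2 p hpT))
      simpa using this
  -- perturbation
  set M : ℤ := ((∏ a ∈ K, nn a : ℕ) : ℤ) ^ 2 with hM
  have hMne : M ≠ 0 := pow_ne_zero 2 (by exact_mod_cast hM0)
  have hMdiv : ∀ a ∈ K, (v a).n ^ 2 ∣ M := fun a ha => by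
    rw [hM, ← hnn' a ha]
    exact pow_dvd_pow_of_dvd (by exact_mod_cast Finset.dvd_prod_of_mem nn ha) 2
  have hfin : (({s : ℤ | e1 + M * s = 0}) ∪ ⋃ a ∈ K,
      {s : ℤ | (e1 * (v a).y - e2 * (v a).x) + (M * (v a).y) * s + (-(M * (v a).x)) * s ^ 2 = 0}).Finite := by
    refine Set.Finite.union ?_ (K.finite_toSet.biUnion fun a ha => ?_)
    · refine (finite_quad (a := e1) (b := M) (c := 0) (Or.inr (Or.inl hMne))).subset ?_
      intro s hs
      simp only [Set.mem_ofPred_eq] at hs ⊢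
      linarith
    · refine finite_quad ?_
      rcases (hred a ha).2.1 with h | h
      · exact Or.inr (Or.inr (neg_ne_zero.2 (mul_ne_zero hMne h)))
      · exact Or.inr (Or.inl (mul_ne_zero hMne h))
  obtain ⟨s, hs⟩ := hfin.exists_notMem
  simp only [Set.mem_union, Set.mem_iUnion, Set.mem_ofPred_eq, not_or, not_exists] at hs
  obtain ⟨hs1, hs2⟩ := hs
  set E1 : ℤ := e1 + M * s with hE1
  set E2 : ℤ := e2 + M * s ^ 2 with hE2
  have hD : ∀ a ∈ K, (v a).n ^ 2 ∣ E1 * (v a).y - E2 * (v a).x := by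
    intro a ha
    have h1 := dvd_add (hdiv a ha) ((hMdiv a ha).mul_right (s * (v a).y - s ^ 2 * (v a).x))
    have h2 : E1 * (v a).y - E2 * (v a).x = e1 * (v a).y - e2 * (v a).x +
      M * (s * (v a).y - s ^ 2 * (v a).x) := by rw [hE1, hE2]; ring
    rw [h2]
    exact h1
  have hDne : ∀ a ∈ K, E1 * (v a).y - E2 * (v a).x ≠ 0 := by
    intro a ha h0
    refine hs2 a ha ?_
    rw [hE1, hE2] at h0
    linear_combination h0
  -- divide by the greatest common divisor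
  set g : ℕ := Int.gcd E1 E2 with hg
  have hg0 : g ≠ 0 := fun h => hs1 (Int.gcd_eq_zero_iff.1 h).1
  obtain ⟨x, hx⟩ : (g : ℤ) ∣ E1 := Int.gcd_dvd_left _ _
  obtain ⟨y, hy⟩ : (g : ℤ) ∣ E2 := Int.gcd_dvd_right _ _
  have hgz : (g : ℤ) ≠ 0 := by exact_mod_cast hg0
  have hbez : x * (Int.gcdA E1 E2) + y * (Int.gcdB E1 E2) = 1 := by
    have h1 := Int.gcd_eq_gcd_ab E1 E2
    rw [← hg] at h1
    have h2 : (g : ℤ) * (x * (Int.gcdA E1 E2) + y * (Int.gcdB E1 E2)) = g * 1 := by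
      rw [mul_one]
      linear_combination (-(Int.gcdA E1 E2)) * hx - (Int.gcdB E1 E2) * hy - h1
    exact mul_left_cancel₀ hgz h2
  refine ⟨x, y, -(Int.gcdB E1 E2), Int.gcdA E1 E2, by linear_combination hbez, fun a ha => ?_⟩
  have hxy : E1 * (v a).y - E2 * (v a).x = g * (x * (v a).y - y * (v a).x) := by
    rw [mul_sub, ← mul_assoc, ← mul_assoc, ← hx, ← hy]
  constructor
  · have h1 := hD a ha
    rw [hxy] at h1
    refine IsCoprime.dvd_of_dvd_mul_left ?_ h1
    refine IsCoprime.pow_left ?_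
    rw [← hnn' a ha, Nat.isCoprime_iff_coprime]
    refine Nat.Coprime.symm (Nat.coprime_of_dvd fun p hp hpg hpa => ?_)
    have hpT := hTmem p hp a ha hpa
    have hpM : (p : ℤ) ∣ M := by
      rw [hM]
      refine dvd_pow ?_ two_ne_zero
      rw [Int.natCast_dvd_natCast]
      exact hpa.trans (Finset.dvd_prod_of_mem nn ha)
    have hpg' : (p : ℤ) ∣ g := by exact_mod_cast hpg
    refine hnz p hpT ⟨?_, ?_⟩
    · have h2 : (p : ℤ) ∣ E1 := hpg'.trans ⟨x, hx⟩
      have h3 := dvd_sub h2 (hpM.mul_right s)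
      rw [hE1] at h3
      simpa using h3
    · have h2 : (p : ℤ) ∣ E2 := hpg'.trans ⟨y, hy⟩
      have h3 := dvd_sub h2 (hpM.mul_right (s ^ 2))
      rw [hE2] at h3
      simpa using h3
  · intro h0
    refine hDne a ha ?_
    rw [hxy, h0, mul_zero]

end Pool.Agent.Tri
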