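import Mathlib
import Pool.Agent.Tri.Defs
import Pool.Agent.Tri.Frame
import Pool.Agent.Helper7.DioDiamond

set_option autoImplicit false

open Finset Pool.Agent.Helper7.Dio

namespace Pool.Agent.Tri

/-- Arithmetic progressions on which finitely many increasing linear functions take only
nonsquare values. -/
lemma lb_exists_prog {κ : Type*} (T : Finset κ) (A B : κ → ℤ) (hA : ∀ i ∈ T, 0 < A i) (K0 : ℤ) :
    ∃ r q : ℤ, K0 ≤ r ∧ 0 < q ∧ ∀ i ∈ T, ∀ t : ℤ, 0 ≤ t → ¬ IsSquare (A i * (r + q * t) + B i) := by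
  classical
  induction T using Finset.induction_on with
  | empty => exact ⟨K0, 1, le_refl _, one_pos, by simp⟩
  | insert i T hi ih =>
    obtain ⟨r, q, hr, hq, hT⟩ := ih (fun j hj => hA j (mem_insert_of_mem hj))
    have hAi := hA i (mem_insert_self _ _)
    have hAq : 0 < A i * q := mul_pos hAi hq
    -- a large index
    obtain ⟨t0, ht0, hN0, hN⟩ : ∃ t0 : ℤ, 0 ≤ t0 ∧ 0 < A i * (r + q * t0) + B i ∧
        ¬ IsSquare (A i * (r + q * t0) + B i) := by
      set c := A i * r + B i with hc
      set t1 : ℤ := |c| + (A i * q) ^ 2 + 1 with ht1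
      have hc0 : -|c| ≤ c := neg_abs_le c
      have hcn : 0 ≤ |c| := abs_nonneg c
      have hge : ∀ t : ℤ, t1 ≤ t → (A i * q) ^ 2 < A i * (r + q * t) + B i := by
        intro t ht
        have h1 : A i * (r + q * t) + B i = c + A i * q * t := by rw [hc]; ring
        rw [h1]
        have ht0 : 0 ≤ t := by nlinarith [sq_nonneg (A i * q)]
        have h2 : t ≤ A i * q * t := by nlinarith
        linarith
      have ht1n : 0 ≤ t1 := by nlinarith [sq_nonneg (A i * q)]
      by_cases hs : IsSquare (A i * (r + q * t1) + B i)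
      · refine ⟨t1 + 1, by linarith, ?_, ?_⟩
        · have := hge (t1 + 1) (by linarith)
          nlinarith [sq_nonneg (A i * q)]
        · intro hs2
          obtain ⟨x, hx⟩ := hs
          obtain ⟨y, hy⟩ := hs2
          have h1 := hge t1 le_rfl
          rw [hx] at h1
          have h2 : |y| * |y| - |x| * |x| = A i * q := by
            rw [abs_mul_abs_self, abs_mul_abs_self]; linear_combination hx - hy
          rw [← abs_mul_abs_self x] at h1
          have hx0 := abs_nonneg x
          have hy0 := abs_nonneg y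
          have hxq : A i * q < |x| := by nlinarith
          have hyx : |x| < |y| := by nlinarith
          nlinarith
      · refine ⟨t1, ht1n, ?_, hs⟩
        have := hge t1 le_rfl
        nlinarith [sq_nonneg (A i * q)]
    obtain ⟨m, hm, hmN⟩ := nonsq_mod hN0 hN
    refine ⟨r + q * t0, q * m, by nlinarith, mul_pos hq hm, ?_⟩
    intro j hj t ht
    rcases Finset.mem_insert.1 hj with rfl | hj
    · apply hmN
      exact ⟨A j * q * t, by ring⟩
    · have h1 := hT j hj (t0 + m * t) (by positivity)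
      have h2 : r + q * t0 + q * m * t = r + q * (t0 + m * t) := by ring
      rw [h2]; exact h1

lemma lb_lin_large {A : ℤ} (hA : 0 < A) (B c : ℤ) : ∀ᶠ k : ℤ in Filter.atTop, c < A * k + B := by
  filter_upwards [Filter.eventually_ge_atTop (|c| + |B| + 1)] with k hk
  have h1 := le_abs_self c
  have h2 := neg_abs_le B
  have h3 := abs_nonneg c
  have h4 := abs_nonneg B
  have h5 : k ≤ A * k := by nlinarith
  linarith

lemma lb_lin_abs_large {A : ℤ} (hA : A ≠ 0) (B c : ℤ) :
    ∀ᶠ k : ℤ in Filter.atTop, c < |A * k + B| := by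
  rcases lt_or_gt_of_ne hA with h | h
  · filter_upwards [lb_lin_large (A := -A) (by linarith) (-B) c] with k hk
    refine lt_of_lt_of_le hk ?_
    have := neg_le_abs (A * k + B)
    linarith
  · filter_upwards [lb_lin_large h B c] with k hk
    exact lt_of_lt_of_le hk (le_abs_self _)

/-- A small nonzero number is not a difference of squares of a large number and another one. -/
lemma lb_not_sq_near {S c T : ℤ} (hc : c ≠ 0) (hS : |c| < |S|) : T * T ≠ S * S + c := by
  intro h
  rw [← abs_mul_abs_self T, ← abs_mul_abs_self S] at h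
  have hT := abs_nonneg T
  have hS0 := abs_nonneg S
  have h1 := le_abs_self c
  have h2 := neg_abs_le c
  rcases lt_trichotomy |T| |S| with h3 | h3 | h3
  · nlinarith
  · apply hc; rw [h3] at h; linarith
  · nlinarith

theorem Conf.extend {V : Type*} [DecidableEq V] {G : SimpleGraph V} {S K : Finset V} {f : V → ℤ}
    (h : State G S ∅ f) {v : V → Vec} (hc : Conf G K v) (hKS : ∀ a ∈ K, a ∉ S)
    (hsep : ∀ a ∈ K, ∀ b ∈ S, ¬ G.Adj a b) :
    ∃ f', State G (K ∪ S) ∅ f' := by
  classical
  obtain ⟨e1, e2, o1, o2, heo, hfr⟩ := exists_frame K v hc.red hc.lat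
  have hpos : ∀ a ∈ K, 0 < (v a).n := fun a ha => (hc.red a ha).1
  -- the integers `d a`
  have hd : ∀ a : V, ∃ d : ℤ, a ∈ K → e1 * (v a).y - e2 * (v a).x = (v a).n ^ 2 * d := by
    intro a
    by_cases ha : a ∈ K
    · obtain ⟨d, hd⟩ := (hfr a ha).1
      exact ⟨d, fun _ => hd⟩
    · exact ⟨0, fun h => absurd h ha⟩
  choose d hd using hd
  set D : V → ℤ := fun a => e1 * (v a).y - e2 * (v a).x with hD
  set C : V → ℤ := fun a => (v a).x * o2 - (v a).y * o1 with hC
  have hDd : ∀ a ∈ K, D a = (v a).n ^ 2 * d a := fun a ha => hd a ha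
  have hD0 : ∀ a ∈ K, D a ≠ 0 := fun a ha => (hfr a ha).2
  have hd0 : ∀ a ∈ K, d a ≠ 0 := by
    intro a ha h0
    apply hD0 a ha
    rw [hDd a ha, h0, mul_zero]
  have hdet : ∀ a b, det (v a) (v b) = C a * D b - D a * C b := by
    intro a b
    simp only [hC, hD, det]
    linear_combination (-((v a).x * (v b).y - (v a).y * (v b).x)) * heo
  set L : V → ℤ → ℤ := fun a k => 2 * d a * (C a + k * D a) with hL
  have hLlin : ∀ a ∈ K, ∀ k, L a k = (2 * (d a) ^ 2 * (v a).n ^ 2) * k + 2 * d a * C a := by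
    intro a ha k
    simp only [hL]
    rw [hDd a ha]; ring
  have hslope : ∀ a ∈ K, 0 < 2 * (d a) ^ 2 * (v a).n ^ 2 := by
    intro a ha
    have h1 := hpos a ha
    have h2 := hd0 a ha
    positivity
  have hid : ∀ a ∈ K, ∀ b ∈ K, ∀ k, ((v a).n * (v b).n) ^ 2 * (L a k * L b k) =
      (D a * (C b + k * D b) + D b * (C a + k * D a)) ^ 2 - (det (v a) (v b)) ^ 2 := by
    intro a ha b hb k
    rw [hdet a b]
    simp only [hL]
    have h1 := hDd a ha
    have h2 := hDd b hb
    linear_combination (-4 * (C a + k * D a) * (C b + k * D b)) * (D b * h1 +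
      (v a).n ^ 2 * d a * h2)
  -- adjacency inside
  have hadj : ∀ a ∈ K, ∀ b ∈ K, Touch (v a) (v b) → ∀ k, IsSquare (L a k * L b k + 1) := by
    intro a ha b hb ht k
    have hn : (v a).n * (v b).n ≠ 0 := (mul_pos (hpos a ha) (hpos b hb)).ne'
    have h1 : (det (v a) (v b)) ^ 2 = ((v a).n * (v b).n) ^ 2 := by
      rw [← sq_abs, ht]
    have h2 := hid a ha b hb k
    rw [h1] at h2
    set T := D a * (C b + k * D b) + D b * (C a + k * D a) with hT
    have h3 : ((v a).n * (v b).n) ^ 2 * (L a k * L b k + 1) = T ^ 2 := by linarith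
    have h4 : ((v a).n * (v b).n) ^ 2 ∣ T ^ 2 := ⟨_, h3.symm⟩
    have h5 := (Int.pow_dvd_pow_iff (by norm_num)).1 h4
    obtain ⟨t, ht⟩ := h5
    refine ⟨t, ?_⟩
    rw [ht] at h3
    have h6 : ((v a).n * (v b).n) ^ 2 ≠ 0 := pow_ne_zero 2 hn
    apply mul_left_cancel₀ h6
    rw [h3]; ring
  have hnadj : ∀ a ∈ K, ∀ b ∈ K, ¬ Touch (v a) (v b) → ∀ᶠ k : ℤ in Filter.atTop,
      ¬ IsSquare (L a k * L b k + 1) := by
    intro a ha b hb ht
    have hn : 0 < (v a).n * (v b).n := mul_pos (hpos a ha) (hpos b hb)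
    set c := ((v a).n * (v b).n) ^ 2 - (det (v a) (v b)) ^ 2 with hcdef
    have hc0 : c ≠ 0 := by
      intro h0
      apply ht
      have h1 : (det (v a) (v b)) ^ 2 = ((v a).n * (v b).n) ^ 2 := by linarith
      have h2 := (sq_eq_sq_iff_abs_eq_abs _ _).1 h1
      rw [abs_of_pos hn] at h2
      exact h2
    have hA : 2 * D a * D b ≠ 0 :=
      mul_ne_zero (mul_ne_zero two_ne_zero (hD0 a ha)) (hD0 b hb)
    filter_upwards [lb_lin_abs_large hA (D a * C b + D b * C a) |c|] with k hk
    rintro ⟨r, hr⟩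
    have h2 := hid a ha b hb k
    apply lb_not_sq_near hc0 hk (T := (v a).n * (v b).n * r)
    rw [hcdef]
    linear_combination (-((v a).n * (v b).n) ^ 2) * hr + h2
  -- distinct labels
  have hne : ∀ a ∈ K, ∀ b ∈ K, a ≠ b → ∀ᶠ k : ℤ in Filter.atTop, L a k ≠ L b k := by
    intro a ha b hb hab
    by_cases hA : 2 * (d a) ^ 2 * (v a).n ^ 2 - 2 * (d b) ^ 2 * (v b).n ^ 2 = 0
    · -- constant difference
      refine Filter.Eventually.of_forall ?_
      intro k hk
      rw [hLlin a ha, hLlin b hb] at hk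
      have h1 : d a * C a = d b * C b := by
        have h2 : (2 * (d a) ^ 2 * (v a).n ^ 2 - 2 * (d b) ^ 2 * (v b).n ^ 2) * k = 0 := by
          rw [hA, zero_mul]
        linarith
      have h2 : (d a) ^ 2 * (v a).n ^ 2 = (d b) ^ 2 * (v b).n ^ 2 := by linarith
      have h3 : det (v a) (v b) = 0 := by
        have h4 : (d a * d b) * det (v a) (v b) = 0 := by
          rw [hdet, hDd a ha, hDd b hb]
          linear_combination (d b) ^ 2 * (v b).n ^ 2 * h1 - (d b * C b) * h2
        exact (mul_eq_zero.1 h4).resolve_left (mul_ne_zero (hd0 a ha) (hd0 b hb))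
      rcases hc.dist a ha b hb hab with h4 | ⟨hx, hy, hn⟩
      · exact h4 h3
      · apply hn
        have h5 : D a = D b := by simp only [hD]; rw [hx, hy]
        have h6 : (D a) ^ 2 * (v b).n ^ 2 = (D a) ^ 2 * (v a).n ^ 2 := by
          have h7 : (D a) ^ 2 * (v b).n ^ 2 =
              (v a).n ^ 2 * (v b).n ^ 2 * ((d a) ^ 2 * (v a).n ^ 2) := by
            rw [hDd a ha]; ring
          have h8 : (D a) ^ 2 * (v a).n ^ 2 =
              (v a).n ^ 2 * (v b).n ^ 2 * ((d b) ^ 2 * (v b).n ^ 2) := by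
            rw [h5, hDd b hb]; ring
          rw [h7, h8, h2]
        have h7 := mul_left_cancel₀ (pow_ne_zero 2 (hD0 a ha)) h6
        have h8 := (sq_eq_sq_iff_abs_eq_abs _ _).1 h7
        rw [abs_of_pos (hpos a ha), abs_of_pos (hpos b hb)] at h8
        exact h8.symm
    · filter_upwards [lb_lin_abs_large hA (2 * d a * C a - 2 * d b * C b) 0] with k hk hk2
      rw [hLlin a ha, hLlin b hb] at hk2
      have h0 : (2 * (d a) ^ 2 * (v a).n ^ 2 - 2 * (d b) ^ 2 * (v b).n ^ 2) * k +
          (2 * d a * C a - 2 * d b * C b) = 0 := by linarith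
      rw [h0, abs_zero] at hk
      exact lt_irrefl _ hk
  -- all eventual conditions
  have hbig : ∀ a ∈ K, ∀ᶠ k : ℤ in Filter.atTop, 48 < L a k := by
    intro a ha
    filter_upwards [lb_lin_large (hslope a ha) (2 * d a * C a) 48] with k hk
    rw [hLlin a ha]; exact hk
  have hold : ∀ a ∈ K, ∀ w ∈ S, ∀ᶠ k : ℤ in Filter.atTop, L a k ≠ f w := by
    intro a ha w hw
    filter_upwards [lb_lin_large (hslope a ha) (2 * d a * C a) (f w)] with k hk
    rw [hLlin a ha]; exact hk.ne'
  have hall : ∀ᶠ k : ℤ in Filter.atTop, (∀ a ∈ K, 48 < L a k) ∧ (∀ a ∈ K, ∀ w ∈ S, L a k ≠ f w) ∧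
      (∀ a ∈ K, ∀ b ∈ K, a ≠ b → L a k ≠ L b k) ∧
      (∀ a ∈ K, ∀ b ∈ K, ¬ Touch (v a) (v b) → ¬ IsSquare (L a k * L b k + 1)) := by
    refine Filter.Eventually.and ?_ (Filter.Eventually.and ?_ (Filter.Eventually.and ?_ ?_))
    · rw [Filter.eventually_all_finset]; exact hbig
    · rw [Filter.eventually_all_finset]
      intro a ha
      rw [Filter.eventually_all_finset]
      exact hold a ha
    · rw [Filter.eventually_all_finset]
      intro a ha
      rw [Filter.eventually_all_finset]
      intro b hb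
      by_cases hab : a = b
      · exact Filter.Eventually.of_forall (fun k h => absurd hab h)
      · filter_upwards [hne a ha b hb hab] with k hk _
        exact hk
    · rw [Filter.eventually_all_finset]
      intro a ha
      rw [Filter.eventually_all_finset]
      intro b hb
      by_cases hab : Touch (v a) (v b)
      · exact Filter.Eventually.of_forall (fun k h => absurd hab h)
      · filter_upwards [hnadj a ha b hb hab] with k hk _
        exact hk
  obtain ⟨K0, hK0⟩ := Filter.eventually_atTop.1 hall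
  -- the nonsquare conditions
  set M : Finset ℤ := insert 12 (S.image f) with hM
  have hMpos : ∀ m ∈ M, 0 < m := by
    intro m hm
    rcases mem_insert.1 hm with rfl | hm
    · norm_num
    · obtain ⟨w, hw, rfl⟩ := mem_image.1 hm
      have := h.big w hw
      linarith
  obtain ⟨k, q, hk0, hq, hk⟩ := lb_exists_prog (K ×ˢ M)
    (fun i => i.2 * (2 * (d i.1) ^ 2 * (v i.1).n ^ 2)) (fun i => i.2 * (2 * d i.1 * C i.1) + 1)
    (by
      intro i hi
      obtain ⟨h1, h2⟩ := mem_product.1 hi
      exact mul_pos (hMpos _ h2) (hslope _ h1)) K0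
  have hns : ∀ a ∈ K, ∀ m ∈ M, ¬ IsSquare (m * L a k + 1) := by
    intro a ha m hm
    have h1 := hk (a, m) (mem_product.2 ⟨ha, hm⟩) 0 le_rfl
    rw [hLlin a ha]
    have h2 : m * (2 * (d a) ^ 2 * (v a).n ^ 2 * k + 2 * d a * C a) + 1 =
        m * (2 * (d a) ^ 2 * (v a).n ^ 2) * (k + q * 0) + (m * (2 * d a * C a) + 1) := by ring
    rw [h2]; exact h1
  obtain ⟨hb, ho, hn, hsq⟩ := hK0 k hk0
  refine ⟨fun u => if u ∈ K then L u k else f u, h.extend ?_ ?_ ?_ ?_ ?_⟩
  · intro u hu
    have : u ∉ K := fun hK => hKS u hK hu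
    simp [this]
  · intro u hu
    simp only [hu, if_true]
    exact hb u hu
  · intro u hu w hw
    simp only [hu, if_true]
    refine ⟨ho u hu w hw, ?_⟩
    constructor
    · intro h1; exact absurd h1 (hsep u hu w hw)
    · intro h1
      exfalso
      apply hns u hu (f w) (mem_insert_of_mem (mem_image_of_mem f hw))
      rw [mul_comm (f w)]; exact h1
  · intro u hu w hw huw
    simp only [hu, hw, if_true]
    refine ⟨hn u hu w hw huw, ?_⟩
    rw [hc.adj u hu w hw huw]
    constructor
    · intro ht; exact hadj u hu w hw ht k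
    · intro h1
      by_contra ht
      exact hsq u hu w hw ht h1
  · intro u hu
    simp only [hu, if_true]
    exact hns u hu 12 (mem_insert_self _ _)

end Pool.Agent.Tri
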