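import Mathlib
import Pool.Agent.Tri.Label
import Pool.Agent.Helper7.SqClass

/-!
# Labels with pairwise different square classes from plane vectors

If the plane vectors of `Conf G K v` are pairwise not parallel, the labels can be chosen such that
no product of two of them is a square.
-/

set_option autoImplicit false

open Finset Pool.Agent.Helper7.Dio

namespace Pool.Agent.Tri

theorem Conf.rep {V : Type*} {G : SimpleGraph V} {K : Finset V} {v : V → Vec} (hc : Conf G K v)
    (hpar : ∀ a ∈ K, ∀ b ∈ K, a ≠ b → det (v a) (v b) ≠ 0) :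
    ∃ f : V → ℤ, Rep G K f := by
  classical
  obtain ⟨e1, e2, o1, o2, heo, hfr⟩ := exists_frame K v hc.red hc.lat
  have hpos : ∀ a ∈ K, 0 < (v a).n := fun a ha => (hc.red a ha).1
  -- the integers `d a`
  have hd : ∀ a : V, ∃ d : ℤ, a ∈ K → e1 * (v a).y - e2 * (v a).x = (v a).n ^ 2 * d := by
    intro a
    by_cases ha : a ∈ K
    · obtain ⟨d, hd⟩ := (hfr a ha).1
      exact ⟨d, fun _ => hd⟩
    · exact ⟨0, fun h => absurd h ha⟩
  choose d hd using hd
  set D : V → ℤ := fun a => e1 * (v a).y - e2 * (v a).x with hD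
  set C : V → ℤ := fun a => (v a).x * o2 - (v a).y * o1 with hC
  have hDd : ∀ a ∈ K, D a = (v a).n ^ 2 * d a := fun a ha => hd a ha
  have hD0 : ∀ a ∈ K, D a ≠ 0 := fun a ha => (hfr a ha).2
  have hd0 : ∀ a ∈ K, d a ≠ 0 := by
    intro a ha h0
    apply hD0 a ha
    rw [hDd a ha, h0, mul_zero]
  have hdet : ∀ a b, det (v a) (v b) = C a * D b - D a * C b := by
    intro a b
    simp only [hC, hD, det]
    linear_combination (-((v a).x * (v b).y - (v a).y * (v b).x)) * heo
  set L : V → ℤ → ℤ := fun a k => 2 * d a * (C a + k * D a) with hL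
  have hLlin : ∀ a ∈ K, ∀ k, L a k = (2 * (d a) ^ 2 * (v a).n ^ 2) * k + 2 * d a * C a := by
    intro a ha k
    simp only [hL]
    rw [hDd a ha]; ring
  have hslope : ∀ a ∈ K, 0 < 2 * (d a) ^ 2 * (v a).n ^ 2 := by
    intro a ha
    have h1 := hpos a ha
    have h2 := hd0 a ha
    positivity
  have hid : ∀ a ∈ K, ∀ b ∈ K, ∀ k, ((v a).n * (v b).n) ^ 2 * (L a k * L b k) =
      (D a * (C b + k * D b) + D b * (C a + k * D a)) ^ 2 - (det (v a) (v b)) ^ 2 := by
    intro a ha b hb k
    rw [hdet a b]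
    simp only [hL]
    have h1 := hDd a ha
    have h2 := hDd b hb
    linear_combination (-4 * (C a + k * D a) * (C b + k * D b)) * (D b * h1 +
      (v a).n ^ 2 * d a * h2)
  -- adjacency inside
  have hadj : ∀ a ∈ K, ∀ b ∈ K, Touch (v a) (v b) → ∀ k, IsSquare (L a k * L b k + 1) := by
    intro a ha b hb ht k
    have hn : (v a).n * (v b).n ≠ 0 := (mul_pos (hpos a ha) (hpos b hb)).ne'
    have h1 : (det (v a) (v b)) ^ 2 = ((v a).n * (v b).n) ^ 2 := by
      rw [← sq_abs, ht]
    have h2 := hid a ha b hb k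
    rw [h1] at h2
    set T := D a * (C b + k * D b) + D b * (C a + k * D a) with hT
    have h3 : ((v a).n * (v b).n) ^ 2 * (L a k * L b k + 1) = T ^ 2 := by linarith
    have h4 : ((v a).n * (v b).n) ^ 2 ∣ T ^ 2 := ⟨_, h3.symm⟩
    have h5 := (Int.pow_dvd_pow_iff (by norm_num)).1 h4
    obtain ⟨t, ht⟩ := h5
    refine ⟨t, ?_⟩
    rw [ht] at h3
    have h6 : ((v a).n * (v b).n) ^ 2 ≠ 0 := pow_ne_zero 2 hn
    apply mul_left_cancel₀ h6
    rw [h3]; ring
  have hnadj : ∀ a ∈ K, ∀ b ∈ K, ¬ Touch (v a) (v b) → ∀ᶠ k : ℤ in Filter.atTop,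
      ¬ IsSquare (L a k * L b k + 1) := by
    intro a ha b hb ht
    have hn : 0 < (v a).n * (v b).n := mul_pos (hpos a ha) (hpos b hb)
    set c := ((v a).n * (v b).n) ^ 2 - (det (v a) (v b)) ^ 2 with hcdef
    have hc0 : c ≠ 0 := by
      intro h0
      apply ht
      have h1 : (det (v a) (v b)) ^ 2 = ((v a).n * (v b).n) ^ 2 := by linarith
      have h2 := (sq_eq_sq_iff_abs_eq_abs _ _).1 h1
      rw [abs_of_pos hn] at h2
      exact h2
    have hA : 2 * D a * D b ≠ 0 :=
      mul_ne_zero (mul_ne_zero two_ne_zero (hD0 a ha)) (hD0 b hb)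
    filter_upwards [lb_lin_abs_large hA (D a * C b + D b * C a) |c|] with k hk
    rintro ⟨r, hr⟩
    have h2 := hid a ha b hb k
    apply lb_not_sq_near hc0 hk (T := (v a).n * (v b).n * r)
    rw [hcdef]
    linear_combination (-((v a).n * (v b).n) ^ 2) * hr + h2
  -- products of labels
  have hnsq : ∀ a ∈ K, ∀ b ∈ K, a ≠ b → ∀ᶠ k : ℤ in Filter.atTop, ¬ IsSquare (L a k * L b k) := by
    intro a ha b hb hab
    have hc0 : -(det (v a) (v b)) ^ 2 ≠ 0 := neg_ne_zero.2 (pow_ne_zero 2 (hpar a ha b hb hab))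
    have hA : 2 * D a * D b ≠ 0 :=
      mul_ne_zero (mul_ne_zero two_ne_zero (hD0 a ha)) (hD0 b hb)
    filter_upwards [lb_lin_abs_large hA (D a * C b + D b * C a) |-(det (v a) (v b)) ^ 2|] with k hk
    rintro ⟨r, hr⟩
    have h2 := hid a ha b hb k
    apply lb_not_sq_near hc0 hk (T := (v a).n * (v b).n * r)
    linear_combination (-((v a).n * (v b).n) ^ 2) * hr + h2
  have hbig : ∀ a ∈ K, ∀ᶠ k : ℤ in Filter.atTop, 0 < L a k := by
    intro a ha
    filter_upwards [lb_lin_large (hslope a ha) (2 * d a * C a) 0] with k hk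
    rw [hLlin a ha]; exact hk
  have hall : ∀ᶠ k : ℤ in Filter.atTop, (∀ a ∈ K, 0 < L a k) ∧
      (∀ a ∈ K, ∀ b ∈ K, a ≠ b → ¬ IsSquare (L a k * L b k)) ∧
      (∀ a ∈ K, ∀ b ∈ K, ¬ Touch (v a) (v b) → ¬ IsSquare (L a k * L b k + 1)) := by
    refine Filter.Eventually.and ?_ (Filter.Eventually.and ?_ ?_)
    · rw [Filter.eventually_all_finset]; exact hbig
    · rw [Filter.eventually_all_finset]
      intro a ha
      rw [Filter.eventually_all_finset]
      intro b hb
      by_cases hab : a = b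
      · exact Filter.Eventually.of_forall (fun k h => absurd hab h)
      · filter_upwards [hnsq a ha b hb hab] with k hk _
        exact hk
    · rw [Filter.eventually_all_finset]
      intro a ha
      rw [Filter.eventually_all_finset]
      intro b hb
      by_cases hab : Touch (v a) (v b)
      · exact Filter.Eventually.of_forall (fun k h => absurd hab h)
      · filter_upwards [hnadj a ha b hb hab] with k hk _
        exact hk
  obtain ⟨k, hk1, hk2, hk3⟩ := hall.exists
  refine ⟨fun u => L u k, hk1, ?_, hk2⟩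
  intro u hu w hw huw
  rw [hc.adj u hu w hw huw]
  constructor
  · intro ht; exact hadj u hu w hw ht k
  · intro h1
    by_contra ht
    exact hk3 u hu w hw ht h1

end Pool.Agent.Tri
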