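import Mathlib
import Pool.Agent.Tri.Defs

set_option autoImplicit false

namespace Pool.Agent.Tri

/-- `K` is partitioned into triangles `T x`, every vertex has one further neighbour `m x`. -/
structure TriK {V : Type*} (G : SimpleGraph V) (K : Finset V) (T : V → Finset V)
    (m : V → V) : Prop where
  self : ∀ x ∈ K, x ∈ T x
  card : ∀ x ∈ K, (T x).card = 3
  sub : ∀ x ∈ K, T x ⊆ K
  part : ∀ x ∈ K, ∀ y ∈ T x, T y = T x
  mK : ∀ x ∈ K, m x ∈ K
  minv : ∀ x ∈ K, m (m x) = x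
  mT : ∀ x ∈ K, m x ∉ T x
  adj : ∀ x ∈ K, ∀ y, x ≠ y → (G.Adj x y ↔ y ∈ T x ∨ y = m x)

/-- A union of triangles. -/
def Uni {V : Type*} (T : V → Finset V) (W : Finset V) : Prop := ∀ x ∈ W, T x ⊆ W

/-- Every proper nonempty union of triangles inside a connected `K` has a link going out. -/
def Linked {V : Type*} (K : Finset V) (T : V → Finset V) (m : V → V) : Prop :=
  ∀ W : Finset V, W.Nonempty → W ⊆ K → Uni T W → W ≠ K → ∃ x ∈ K, x ∉ W ∧ m x ∈ W

end Pool.Agent.Tri
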