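import Mathlib
import Pool.Agent.Tri.TriK

set_option autoImplicit false

open Finset

namespace Pool.Agent.Tri

variable {V : Type*} [DecidableEq V]

theorem grow {G : SimpleGraph V} {K : Finset V} {T : V → Finset V}
    {m : V → V} (hK : TriK G K T m) {K' U0 : Finset V} (h0 : U0 ⊆ K') (hK' : K' ⊆ K)
    (hU0 : Uni T U0) (hUK' : Uni T K')
    (hconn : ∀ W, U0 ⊆ W → W ⊆ K' → Uni T W → W ≠ K' → ∃ x ∈ K', x ∉ W ∧ m x ∈ W)
    (C : Finset V → Prop) (hstart : C K')
    (hstep : ∀ U x, U0 ⊆ U → U ⊆ K' → Uni T U → x ∈ K' → x ∉ U → m x ∈ U → C (U ∪ T x) → C U) :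
    C U0 := by
  have key : ∀ n : ℕ, ∀ U : Finset V, U0 ⊆ U → U ⊆ K' → Uni T U → (K' \ U).card = n → C U := by
    intro n
    induction n using Nat.strong_induction_on with
    | _ n ih =>
      intro U h1 h2 h3 hn
      by_cases hU : U = K'
      · rw [hU]; exact hstart
      · obtain ⟨x, hx, hxU, hmx⟩ := hconn U h1 h2 h3 hU
        refine hstep U x h1 h2 h3 hx hxU hmx ?_
        have hlt : (K' \ (U ∪ T x)).card < n := by
          rw [← hn]
          apply Finset.card_lt_card
          refine ⟨?_, ?_⟩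
          · intro y hy
            simp only [mem_sdiff, mem_union, not_or] at hy ⊢
            exact ⟨hy.1, hy.2.1⟩
          · intro hsub
            have := hsub (mem_sdiff.2 ⟨hx, hxU⟩)
            simp only [mem_sdiff, mem_union, not_or] at this
            exact this.2.2 (hK.self x (hK' hx))
        refine ih _ hlt _ (h1.trans subset_union_left) (union_subset h2 (hUK' x hx)) ?_ rfl
        intro y hy
        rcases mem_union.1 hy with h | h
        · exact (h3 y h).trans subset_union_left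
        · rw [hK.part x (hK' hx) y h]
          exact subset_union_right
  exact key _ U0 (Subset.refl _) h0 hU0 rfl

/-- A witness that `K \ T s` is not linked. -/
def Bad (K : Finset V) (T : V → Finset V) (m : V → V) (s : V) (W : Finset V) : Prop :=
  s ∈ K ∧ W.Nonempty ∧ W ⊆ K \ T s ∧ Uni T W ∧ W ≠ K \ T s ∧
    ∀ y ∈ K \ T s, y ∉ W → m y ∉ W

theorem bad_step {G : SimpleGraph V} {K : Finset V} {T : V → Finset V} {m : V → V}
    (hK : TriK G K T m) (hL : Linked K T m) {s : V} {W : Finset V} (hW : Bad K T m s W)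
    {x : V} (hx : x ∈ K \ T s) (hxW : x ∉ W) {A : Finset V} (hA : Bad K T m x A) (hs : s ∉ A) :
    ∃ A', Bad K T m x A' ∧ W.card < A'.card := by
  obtain ⟨hsK, -, hWs, hWU, -, hWc⟩ := hW
  obtain ⟨hxK, hAn, hAx, hAU, hAne, hAc⟩ := hA
  have hxs : x ∉ T s := (mem_sdiff.1 hx).2
  have hsx : s ∉ T x := by
    intro h
    have := hK.part x hxK s h
    exact hxs (this ▸ hK.self x hxK)
  -- `y ∈ A` forces `m y ∈ A` or `m y ∈ T x`
  have hA1 : ∀ y ∈ A, m y ∈ A ∨ m y ∈ T x := by
    intro y hy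
    by_contra hcon
    rw [not_or] at hcon
    have hyK : y ∈ K := (mem_sdiff.1 (hAx hy)).1
    have := hAc (m y) (mem_sdiff.2 ⟨hK.mK y hyK, hcon.2⟩) hcon.1
    rw [hK.minv y hyK] at this
    exact this hy
  have hW1 : ∀ y ∈ W, m y ∈ W ∨ m y ∈ T s := by
    intro y hy
    by_contra hcon
    rw [not_or] at hcon
    have hyK : y ∈ K := (mem_sdiff.1 (hWs hy)).1
    have := hWc (m y) (mem_sdiff.2 ⟨hK.mK y hyK, hcon.2⟩) hcon.1
    rw [hK.minv y hyK] at this
    exact this hy
  -- `T s` and `A` are disjoint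
  have hTs : ∀ y ∈ T s, y ∉ A := by
    intro y hy hyA
    have h1 := hAU y hyA
    rw [hK.part s hsK y hy] at h1
    exact hs (h1 (hK.self s hsK))
  have hTsx : ∀ y ∈ T s, y ∉ T x := by
    intro y hy hyx
    have h1 := hK.part s hsK y hy
    have h2 := hK.part x hxK y hyx
    exact hxs (h1 ▸ h2 ▸ hK.self x hxK)
  have hWx : ∀ y ∈ W, y ∉ T x := by
    intro y hy hyx
    have h1 := hWU y hy
    rw [hK.part x hxK y hyx] at h1
    exact hxW (h1 (hK.self x hxK))
  -- `W ∩ A` is empty
  have hWA : ∀ y ∈ W, y ∉ A := by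
    intro y0 hy0 hy0A
    have hne : (W ∩ A).Nonempty := ⟨y0, mem_inter.2 ⟨hy0, hy0A⟩⟩
    have hsub : W ∩ A ⊆ K := fun y hy => (mem_sdiff.1 (hWs (mem_inter.1 hy).1)).1
    have huni : Uni T (W ∩ A) := fun y hy =>
      subset_inter (hWU y (mem_inter.1 hy).1) (hAU y (mem_inter.1 hy).2)
    have hneK : W ∩ A ≠ K := by
      intro h
      have : s ∈ W ∩ A := by rw [h]; exact hsK
      exact hs (mem_inter.1 this).2
    obtain ⟨z, hzK, hz, hmz⟩ := hL _ hne hsub huni hneK
    apply hz
    obtain ⟨h1, h2⟩ := mem_inter.1 hmz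
    have h3 := hW1 _ h1
    have h4 := hA1 _ h2
    rw [hK.minv z hzK] at h3 h4
    rcases h3 with h3 | h3
    · rcases h4 with h4 | h4
      · exact mem_inter.2 ⟨h3, h4⟩
      · exact absurd h4 (hWx z h3)
    · rcases h4 with h4 | h4
      · exact absurd h4 (hTs z h3)
      · exact absurd h4 (hTsx z h3)
  have hsub : W ⊆ (K \ T x) \ A := fun y hy =>
    mem_sdiff.2 ⟨mem_sdiff.2 ⟨(mem_sdiff.1 (hWs hy)).1, hWx y hy⟩, hWA y hy⟩
  have hsA' : s ∈ (K \ T x) \ A := mem_sdiff.2 ⟨mem_sdiff.2 ⟨hsK, hsx⟩, hs⟩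
  have hsW : s ∉ W := fun h => (mem_sdiff.1 (hWs h)).2 (hK.self s hsK)
  refine ⟨(K \ T x) \ A, ⟨hxK, ⟨s, hsA'⟩, sdiff_subset, ?_, ?_, ?_⟩, ?_⟩
  · intro y hy z hz
    obtain ⟨hy1, hy2⟩ := mem_sdiff.1 hy
    obtain ⟨hyK, hyx⟩ := mem_sdiff.1 hy1
    have hzT := hK.part y hyK z hz
    have hzK := hK.sub y hyK hz
    refine mem_sdiff.2 ⟨mem_sdiff.2 ⟨hzK, ?_⟩, ?_⟩
    · intro h
      have h1 := hK.part x hxK z h
      exact hyx (h1 ▸ hzT ▸ hK.self y hyK)
    · intro h
      have h1 := hAU z h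
      rw [hzT] at h1
      exact hy2 (h1 (hK.self y hyK))
  · intro h
    obtain ⟨y, hy⟩ := hAn
    have : y ∈ (K \ T x) \ A := by rw [h]; exact hAx hy
    exact (mem_sdiff.1 this).2 hy
  · intro y hy hyA' hmy
    obtain ⟨hyK, hyx⟩ := mem_sdiff.1 hy
    have hyA : y ∈ A := by
      by_contra h
      exact hyA' (mem_sdiff.2 ⟨hy, h⟩)
    obtain ⟨h1, h2⟩ := mem_sdiff.1 hmy
    rcases hA1 y hyA with h | h
    · exact h2 h
    · exact (mem_sdiff.1 h1).2 h
  · exact Finset.card_lt_card ⟨hsub, fun h => hsW (h hsA')⟩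

theorem noncut {G : SimpleGraph V} {K : Finset V}
    {T : V → Finset V} {m : V → V} (hK : TriK G K T m) (hL : Linked K T m) (hne : K.Nonempty) :
    ∃ s ∈ K, Linked (K \ T s) T m := by
  by_contra hcon
  have hbad : ∀ s ∈ K, ∃ W, Bad K T m s W := by
    intro s hs
    by_contra h
    apply hcon
    refine ⟨s, hs, ?_⟩
    intro W hW1 hW2 hW3 hW4
    by_contra h5
    apply h
    refine ⟨W, hs, hW1, hW2, hW3, hW4, ?_⟩
    intro y hy hyW hmy
    exact h5 ⟨y, hy, hyW, hmy⟩
  have key : ∀ n : ℕ, ∃ s W, Bad K T m s W ∧ n ≤ W.card := by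
    intro n
    induction n with
    | zero =>
      obtain ⟨s, hs⟩ := hne
      obtain ⟨W, hW⟩ := hbad s hs
      exact ⟨s, W, hW, Nat.zero_le _⟩
    | succ n ih =>
      obtain ⟨s, W, hW, hn⟩ := ih
      have hW' := hW
      obtain ⟨hsK, hWn, hWs, hWU, hWne, hWc⟩ := hW'
      have hex : ∃ x ∈ K \ T s, x ∉ W := by
        by_contra h
        apply hWne
        refine Subset.antisymm hWs ?_
        intro y hy
        by_contra hyW
        exact h ⟨y, hy, hyW⟩
      obtain ⟨x, hx, hxW⟩ := hex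
      have hxK : x ∈ K := (mem_sdiff.1 hx).1
      have hxs : x ∉ T s := (mem_sdiff.1 hx).2
      have hsx : s ∉ T x := by
        intro h
        have := hK.part x hxK s h
        exact hxs (this ▸ hK.self x hxK)
      obtain ⟨A, hA⟩ := hbad x hxK
      by_cases hs : s ∈ A
      · -- replace `A` by its complement
        have hA2 := hA
        obtain ⟨-, hAn, hAx, hAU, hAne, hAc⟩ := hA2
        have hA1 : ∀ y ∈ A, m y ∈ A ∨ m y ∈ T x := by
          intro y hy
          by_contra hcon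
          rw [not_or] at hcon
          have hyK : y ∈ K := (mem_sdiff.1 (hAx hy)).1
          have := hAc (m y) (mem_sdiff.2 ⟨hK.mK y hyK, hcon.2⟩) hcon.1
          rw [hK.minv y hyK] at this
          exact this hy
        have hB : Bad K T m x ((K \ T x) \ A) := by
          refine ⟨hxK, ?_, sdiff_subset, ?_, ?_, ?_⟩
          · by_contra h
            rw [not_nonempty_iff_eq_empty, sdiff_eq_empty_iff_subset] at h
            exact hAne (Subset.antisymm hAx h)
          · intro y hy z hz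
            obtain ⟨hy1, hy2⟩ := mem_sdiff.1 hy
            obtain ⟨hyK, hyx⟩ := mem_sdiff.1 hy1
            have hzT := hK.part y hyK z hz
            have hzK := hK.sub y hyK hz
            refine mem_sdiff.2 ⟨mem_sdiff.2 ⟨hzK, ?_⟩, ?_⟩
            · intro h
              have h1 := hK.part x hxK z h
              exact hyx (h1 ▸ hzT ▸ hK.self y hyK)
            · intro h
              have h1 := hAU z h
              rw [hzT] at h1
              exact hy2 (h1 (hK.self y hyK))
          · intro h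
            obtain ⟨y, hy⟩ := hAn
            have : y ∈ (K \ T x) \ A := by rw [h]; exact hAx hy
            exact (mem_sdiff.1 this).2 hy
          · intro y hy hyA' hmy
            have hyA : y ∈ A := by
              by_contra h
              exact hyA' (mem_sdiff.2 ⟨hy, h⟩)
            obtain ⟨h1, h2⟩ := mem_sdiff.1 hmy
            rcases hA1 y hyA with h | h
            · exact h2 h
            · exact (mem_sdiff.1 h1).2 h
        obtain ⟨A', hA', hlt⟩ := bad_step hK hL hW hx hxW hB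
          (fun h => (mem_sdiff.1 h).2 hs)
        exact ⟨x, A', hA', by omega⟩
      · obtain ⟨A', hA', hlt⟩ := bad_step hK hL hW hx hxW hA hs
        exact ⟨x, A', hA', by omega⟩
  obtain ⟨s, W, hW, hn⟩ := key (K.card + 1)
  have : W.card ≤ K.card := Finset.card_le_card (hW.2.2.1.trans sdiff_subset)
  omega

end Pool.Agent.Tri
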