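import Mathlib
import Pool.Agent.Tri.Defs

set_option autoImplicit false

namespace Pool.Agent.Tri

theorem exists_red (X Y M : ℤ) (hM : M ≠ 0) (hXY : X ≠ 0 ∨ Y ≠ 0) :
    ∃ (u : Vec) (t : ℤ), Red u ∧ t ≠ 0 ∧ t * u.x = X ∧ t * u.y = Y ∧ t * u.n = M := by
  set g : ℕ := Int.gcd (Int.gcd X Y) M with hg
  have hg0 : g ≠ 0 := by
    rw [hg]
    intro h
    exact hM (Int.gcd_eq_zero_iff.1 h).2
  have hgM : (g : ℤ) ∣ M := Int.gcd_dvd_right _ _
  have hgX : (g : ℤ) ∣ X := (Int.gcd_dvd_left _ _).trans (Int.gcd_dvd_left _ _)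
  have hgY : (g : ℤ) ∣ Y := (Int.gcd_dvd_left _ _).trans (Int.gcd_dvd_right _ _)
  have hgpos : (0 : ℤ) < g := by positivity
  obtain ⟨e, he, heM⟩ : ∃ e : ℤ, (e = 1 ∨ e = -1) ∧ 0 < e * M := by
    rcases lt_or_gt_of_ne hM with h | h
    · exact ⟨-1, Or.inr rfl, by linarith⟩
    · exact ⟨1, Or.inl rfl, by linarith⟩
  have hee : e * e = 1 := by rcases he with rfl | rfl <;> norm_num
  obtain ⟨x, hx⟩ := hgX
  obtain ⟨y, hy⟩ := hgY
  obtain ⟨m, hm⟩ := hgM
  refine ⟨⟨e * x, e * y, e * m⟩, g * e, ⟨?_, ?_, ?_⟩, ?_, ?_, ?_, ?_⟩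
  · show 0 < e * m
    rw [hm] at heM
    by_contra hcon
    push Not at hcon
    nlinarith
  · show e * x ≠ 0 ∨ e * y ≠ 0
    have he0 : e ≠ 0 := by rcases he with rfl | rfl <;> norm_num
    rcases hXY with h | h
    · left
      refine mul_ne_zero he0 ?_
      rintro rfl
      exact h (by rw [hx, mul_zero])
    · right
      refine mul_ne_zero he0 ?_
      rintro rfl
      exact h (by rw [hy, mul_zero])
  · rintro p hp hpm ⟨hpx, hpy⟩
    change (p : ℤ) ∣ e * m at hpm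
    change (p : ℤ) ∣ e * x at hpx
    change (p : ℤ) ∣ e * y at hpy
    have key : ∀ z : ℤ, (p : ℤ) ∣ e * z → (p : ℤ) ∣ z := by
      intro z hz
      have := hz.mul_left e
      rwa [← mul_assoc, hee, one_mul] at this
    have h1 : (g : ℤ) * p ∣ X := by rw [hx]; exact mul_dvd_mul_left _ (key x hpx)
    have h2 : (g : ℤ) * p ∣ Y := by rw [hy]; exact mul_dvd_mul_left _ (key y hpy)
    have h3 : (g : ℤ) * p ∣ M := by rw [hm]; exact mul_dvd_mul_left _ (key m hpm)
    have h4 : (g : ℤ) * p ∣ (g : ℤ) := by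
      have h5 : (g : ℤ) * p ∣ (Int.gcd X Y : ℤ) := Int.dvd_coe_gcd h1 h2
      exact Int.dvd_coe_gcd h5 h3
    have h5 := Int.le_of_dvd hgpos h4
    have h6 : (2 : ℤ) ≤ p := by exact_mod_cast hp.two_le
    nlinarith
  · rcases he with rfl | rfl
    · simpa using hg0
    · simpa using hg0
  · show g * e * (e * x) = X
    rw [hx]
    linear_combination (g * x : ℤ) * hee
  · show g * e * (e * y) = Y
    rw [hy]
    linear_combination (g * y : ℤ) * hee
  · show g * e * (e * m) = M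
    rw [hm]
    linear_combination (g * m : ℤ) * hee

end Pool.Agent.Tri
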