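import Mathlib
import Pool.Agent.Tri.Crt

set_option autoImplicit false

namespace Pool.Agent.Tri

theorem root2 {p : ℕ} [Fact p.Prime] (A B C : ZMod p) (h : ¬ (A = 0 ∧ B = 0 ∧ C = 0)) :
    (Finset.univ.filter fun r : ZMod p => A * r ^ 2 + B * r + C = 0).card ≤ 2 := by
  classical
  set P : Polynomial (ZMod p) := Polynomial.C A * Polynomial.X ^ 2 + Polynomial.C B * Polynomial.X +
    Polynomial.C C with hP
  have hP0 : P ≠ 0 := by
    intro h0
    apply h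
    refine ⟨?_, ?_, ?_⟩
    · have := congrArg (fun Q => Polynomial.coeff Q 2) h0
      simpa [hP, Polynomial.coeff_X, Polynomial.coeff_C] using this
    · have := congrArg (fun Q => Polynomial.coeff Q 1) h0
      simpa [hP, Polynomial.coeff_X, Polynomial.coeff_C, Polynomial.coeff_X_pow] using this
    · have := congrArg (fun Q => Polynomial.coeff Q 0) h0
      simpa [hP, Polynomial.coeff_X, Polynomial.coeff_C, Polynomial.coeff_X_pow] using this
  have hdeg : P.natDegree ≤ 2 := by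
    rw [hP]
    compute_degree
  calc _ ≤ P.roots.toFinset.card := Finset.card_le_card fun r hr => by
        rw [Multiset.mem_toFinset, Polynomial.mem_roots hP0, Polynomial.IsRoot, hP]
        simpa using (Finset.mem_filter.1 hr).2
    _ ≤ P.roots.card := Multiset.toFinset_card_le _
    _ ≤ P.natDegree := Polynomial.card_roots' P
    _ ≤ 2 := hdeg

theorem root1 {p : ℕ} [Fact p.Prime] (A B : ZMod p) (h : ¬ (A = 0 ∧ B = 0)) :
    (Finset.univ.filter fun r : ZMod p => A + B * r = 0).card ≤ 1 := by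
  classical
  rw [Finset.card_le_one]
  intro r hr s hs
  have h1 := (Finset.mem_filter.1 hr).2
  have h2 := (Finset.mem_filter.1 hs).2
  have h3 : B * (r - s) = 0 := by linear_combination h1 - h2
  rcases mul_eq_zero.1 h3 with h3 | h3
  · exfalso
    apply h
    rw [h3, zero_mul, add_zero] at h1
    exact ⟨h1, h3⟩
  · exact sub_eq_zero.1 h3

theorem exists_res {p : ℕ} (hp : p.Prime) (Q : Finset (ℤ × ℤ × ℤ)) (hcard : 2 * Q.card + 1 < p)
    (hQ : ∀ q ∈ Q, ¬ ((p : ℤ) ∣ q.1 ∧ (p : ℤ) ∣ q.2.1 ∧ (p : ℤ) ∣ q.2.2))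
    (a b : ℤ) (hab : IsCoprime a b) :
    ∃ r : ℤ, (∀ q ∈ Q, ∀ s : ℤ, (p : ℤ) ∣ s - r → ¬ (p : ℤ) ∣ q.1 * s ^ 2 + q.2.1 * s + q.2.2) ∧
      ∀ s : ℤ, (p : ℤ) ∣ s - r → ¬ (p : ℤ) ∣ a + b * s := by
  classical
  have : Fact p.Prime := ⟨hp⟩
  set bad : Finset (ZMod p) :=
    (Q.biUnion fun q => Finset.univ.filter fun r : ZMod p =>
      (q.1 : ZMod p) * r ^ 2 + (q.2.1 : ZMod p) * r + (q.2.2 : ZMod p) = 0) ∪
    Finset.univ.filter fun r : ZMod p => (a : ZMod p) + (b : ZMod p) * r = 0 with hbad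
  have hc : bad.card < Fintype.card (ZMod p) := by
    rw [ZMod.card]
    refine lt_of_le_of_lt ?_ hcard
    rw [hbad]
    refine (Finset.card_union_le _ _).trans (add_le_add ?_ ?_)
    · refine (Finset.card_biUnion_le).trans ?_
      rw [mul_comm, ← smul_eq_mul, ← Finset.sum_const]
      refine Finset.sum_le_sum fun q hq => root2 _ _ _ ?_
      simpa only [ZMod.intCast_zmod_eq_zero_iff_dvd] using hQ q hq
    · refine root1 _ _ ?_
      rintro ⟨h1, h2⟩
      rw [ZMod.intCast_zmod_eq_zero_iff_dvd] at h1 h2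
      have := hab.isUnit_of_dvd' h1 h2
      rw [Int.isUnit_iff] at this
      have := hp.two_le
      omega
  obtain ⟨r, hr⟩ : ∃ r : ZMod p, r ∉ bad := by
    by_contra hcon
    push Not at hcon
    have : bad = Finset.univ := Finset.eq_univ_iff_forall.2 hcon
    rw [this, Finset.card_univ] at hc
    exact lt_irrefl _ hc
  have hrr : ∀ s : ℤ, (p : ℤ) ∣ s - (r.val : ℤ) → (s : ZMod p) = r := by
    intro s hs
    have := (ZMod.intCast_zmod_eq_zero_iff_dvd _ _).2 hs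
    push_cast at this
    rw [ZMod.natCast_zmod_val, sub_eq_zero] at this
    exact this
  rw [hbad, Finset.mem_union, not_or] at hr
  refine ⟨r.val, fun q hq s hs hd => hr.1 ?_, fun s hs hd => hr.2 ?_⟩
  · refine Finset.mem_biUnion.2 ⟨q, hq, Finset.mem_filter.2 ⟨Finset.mem_univ _, ?_⟩⟩
    have := (ZMod.intCast_zmod_eq_zero_iff_dvd _ _).2 hd
    push_cast at this
    rw [hrr s hs] at this
    exact this
  · refine Finset.mem_filter.2 ⟨Finset.mem_univ _, ?_⟩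
    have := (ZMod.intCast_zmod_eq_zero_iff_dvd _ _).2 hd
    push_cast at this
    rw [hrr s hs] at this
    exact this

theorem sel (Z : Finset ℕ) (hZ : ∀ p ∈ Z, p.Prime) (Q : ℕ → Finset (ℤ × ℤ × ℤ))
    (hcard : ∀ p ∈ Z, 2 * (Q p).card + 1 < p)
    (hQ : ∀ p ∈ Z, ∀ q ∈ Q p, ¬ ((p : ℤ) ∣ q.1 ∧ (p : ℤ) ∣ q.2.1 ∧ (p : ℤ) ∣ q.2.2))
    (a b : ℤ) (hab : IsCoprime a b) (hb : b ≠ 0) (E : Set ℤ) (hE : E.Finite) (S0 : ℤ) :
    ∃ (s : ℤ) (N : ℕ), N.Prime ∧ S0 < (N : ℤ) ∧ a + b * s = N ∧ s ∉ E ∧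
      ∀ p ∈ Z, ∀ q ∈ Q p, ¬ (p : ℤ) ∣ q.1 * s ^ 2 + q.2.1 * s + q.2.2 := by
  classical
  have hres : ∀ p : ℕ, ∃ r : ℤ, p ∈ Z →
      (∀ q ∈ Q p, ∀ s : ℤ, (p : ℤ) ∣ s - r → ¬ (p : ℤ) ∣ q.1 * s ^ 2 + q.2.1 * s + q.2.2) ∧
      ∀ s : ℤ, (p : ℤ) ∣ s - r → ¬ (p : ℤ) ∣ a + b * s := by
    intro p
    by_cases hp : p ∈ Z
    · obtain ⟨r, hr⟩ := exists_res (hZ p hp) (Q p) (hcard p hp) (hQ p hp) a b hab
      exact ⟨r, fun _ => hr⟩
    · exact ⟨0, fun h => absurd h hp⟩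
  choose r hr using hres
  obtain ⟨s0, hs0⟩ := crt_finset Z id
    (fun p hp q hq hpq => (Nat.coprime_primes (hZ p hp) (hZ q hq)).2 hpq) r
  simp only [id] at hs0
  set M : ℤ := ∏ p ∈ Z, (p : ℤ) with hM
  have hMpos : 0 < M := Finset.prod_pos fun p hp => by exact_mod_cast (hZ p hp).pos
  set m : ℕ := (b * M).natAbs with hm
  have hbM : b * M ≠ 0 := mul_ne_zero hb hMpos.ne'
  have : NeZero m := ⟨by rw [hm]; exact Int.natAbs_ne_zero.2 hbM⟩
  have hco : IsCoprime (b * M) (a + b * s0) := by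
    refine IsCoprime.mul_left ?_ ?_
    · obtain ⟨u, w, huw⟩ := hab
      exact ⟨w - u * s0, u, by linear_combination huw⟩
    · refine IsCoprime.prod_left fun p hp => ?_
      rw [(Nat.prime_iff_prime_int.1 (hZ p hp)).coprime_iff_not_dvd]
      exact (hr p hp).2 s0 (hs0 p hp)
  have hunit : IsUnit ((a + b * s0 : ℤ) : ZMod m) := by
    rw [ZMod.coe_int_isUnit_iff_isCoprime, hm, Int.natCast_natAbs, IsCoprime.abs_left_iff]
    exact hco
  obtain ⟨C, hC⟩ : ∃ C : ℕ, ∀ e ∈ E, a + b * e ≤ C := by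
    obtain ⟨C, hC⟩ := (hE.image fun e => a + b * e).bddAbove
    refine ⟨C.toNat, fun e he => (hC ⟨e, he, rfl⟩).trans (Int.self_le_toNat C)⟩
  obtain ⟨N, hN, hNp, hNm⟩ := Nat.forall_exists_prime_gt_and_eq_mod hunit (C + S0.toNat)
  have hd : b * M ∣ (N : ℤ) - (a + b * s0) := by
    have h1 : ((N : ℤ) : ZMod m) = ((a + b * s0 : ℤ) : ZMod m) := by
      rw [Int.cast_natCast]
      exact hNm
    rw [← sub_eq_zero, ← Int.cast_sub, ZMod.intCast_zmod_eq_zero_iff_dvd, hm, Int.natAbs_dvd] at h1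
    exact h1
  obtain ⟨t, ht⟩ := hd
  refine ⟨s0 + M * t, N, hNp, ?_, by linear_combination -ht, fun hE' => ?_, fun p hp q hq => ?_⟩
  · have := Int.self_le_toNat S0
    omega
  · have := hC _ hE'
    have h2 : a + b * (s0 + M * t) = N := by linear_combination -ht
    rw [h2] at this
    omega
  · refine (hr p hp).1 q hq _ ?_
    have h1 := hs0 p hp
    have h2 : (p : ℤ) ∣ M := Finset.dvd_prod_of_mem (fun p : ℕ => (p : ℤ)) hp
    rw [show s0 + M * t - r p = (s0 - r p) + M * t by ring]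
    exact dvd_add h1 (h2.mul_right _)

theorem finite_quartic (c0 c1 c2 c3 c4 : ℤ) (hc : ¬ (c0 = 0 ∧ c1 = 0 ∧ c2 = 0 ∧ c3 = 0 ∧ c4 = 0)) :
    {s : ℤ | c0 + c1 * s + c2 * s ^ 2 + c3 * s ^ 3 + c4 * s ^ 4 = 0}.Finite := by
  have hp : (Polynomial.C c0 + Polynomial.C c1 * Polynomial.X +
      Polynomial.C c2 * Polynomial.X ^ 2 + Polynomial.C c3 * Polynomial.X ^ 3 +
      Polynomial.C c4 * Polynomial.X ^ 4 : Polynomial ℤ) ≠ 0 := by
    intro h0
    have hev : ∀ x : ℤ, c0 + c1 * x + c2 * x ^ 2 + c3 * x ^ 3 + c4 * x ^ 4 = 0 := by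
      intro x
      have := congrArg (Polynomial.eval x) h0
      simpa using this
    have h1 := hev 0
    have h2 := hev 1
    have h3 := hev (-1)
    have h4 := hev 2
    have h5 := hev (-2)
    apply hc
    refine ⟨?_, ?_, ?_, ?_, ?_⟩ <;> linarith
  apply (Polynomial.finite_setOfPred_isRoot hp).subset
  intro s hs
  simp only [Set.mem_ofPred_eq, Polynomial.IsRoot, Polynomial.eval_add, Polynomial.eval_mul,
    Polynomial.eval_C, Polynomial.eval_X, Polynomial.eval_pow] at hs ⊢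
  linarith

end Pool.Agent.Tri
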