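import Mathlib
import Pool.Agent.Tri.Core
import Pool.Agent.Tri.Sel
import Pool.Agent.Tri.Red

set_option autoImplicit false

open Finset

namespace Pool.Agent.Tri

namespace FD

/-- `q` is a reduced presentation of `(a W + b X) / M`. -/
structure Rep (W X : Vec) (a b M : ℤ) (q : Vec) : Prop where
  red : Red q
  rep : ∃ t : ℤ, t ≠ 0 ∧ t * q.x = a * W.x + b * X.x ∧ t * q.y = a * W.y + b * X.y ∧
    t * q.n = M

lemma Rep.dvd {W X q : Vec} {a b M : ℤ} (h : Rep W X a b M q) : q.n ∣ M := by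
  obtain ⟨t, _, _, _, hn⟩ := h.rep
  exact ⟨t, by rw [← hn]; ring⟩

lemma rel {W X q r : Vec} {a b M a' b' M' A k N : ℤ} (hq : Rep W X a b M q)
    (hr : Rep W X a' b' M' r) (hN : det X W = N)
    (hk : -(A * (a * b' - b * a') * N) = k * (M * M')) :
    A * det q r = k * (q.n * r.n) := by
  obtain ⟨t, ht, hx, hy, hn⟩ := hq.rep
  obtain ⟨t', ht', hx', hy', hn'⟩ := hr.rep
  have h : t * t' * (A * det q r) = t * t' * (k * (q.n * r.n)) := by
    have e1 : t * t' * (A * det q r) =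
        A * ((t * q.x) * (t' * r.y) - (t * q.y) * (t' * r.x)) := by
      simp only [det]; ring
    have e2 : t * t' * (k * (q.n * r.n)) = k * ((t * q.n) * (t' * r.n)) := by ring
    rw [e1, e2, hx, hy, hx', hy', hn, hn', ← hk, ← hN]
    simp only [det]; ring
  exact mul_left_cancel₀ (mul_ne_zero ht ht') h

lemma exists_rep {W X : Vec} (hN : det X W ≠ 0) {a b M : ℤ} (hM : M ≠ 0)
    (hab : a ≠ 0 ∨ b ≠ 0) : ∃ q, Rep W X a b M q := by
  have hXY : a * W.x + b * X.x ≠ 0 ∨ a * W.y + b * X.y ≠ 0 := by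
    by_contra hcon
    push Not at hcon
    obtain ⟨h1, h2⟩ := hcon
    have ha : a * det X W = 0 := by
      simp only [det]; linear_combination X.x * h2 - X.y * h1
    have hb : b * det X W = 0 := by
      simp only [det]; linear_combination W.y * h1 - W.x * h2
    rcases hab with h | h
    · exact h ((mul_eq_zero.1 ha).resolve_right hN)
    · exact h ((mul_eq_zero.1 hb).resolve_right hN)
  obtain ⟨u, t, hu, ht, hx, hy, hn⟩ := exists_red _ _ M hM hXY
  exact ⟨u, hu, t, ht, hx, hy, hn⟩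

lemma touch_of_rel {q r : Vec} {A k : ℤ} (hA : 0 < A) (h : A * det q r = k * (q.n * r.n))
    (hk : |k| = A) (hq : Red q) (hr : Red r) : Touch q r := by
  have hp : 0 < q.n * r.n := mul_pos hq.1 hr.1
  have h1 : A * |det q r| = A * (q.n * r.n) := by
    have := congrArg abs h
    rw [abs_mul, abs_mul, abs_of_pos hA, abs_of_pos hp, hk] at this
    exact this
  exact mul_left_cancel₀ hA.ne' h1

lemma far_of_rel {q r : Vec} {A k : ℤ} (hA : 0 < A) (h : A * det q r = k * (q.n * r.n))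
    (hk0 : k ≠ 0) (hk : |k| ≠ A) (hq : Red q) (hr : Red r) : Far q r := by
  have hp : 0 < q.n * r.n := mul_pos hq.1 hr.1
  refine ⟨fun h0 => ?_, fun h0 => ?_⟩
  · rw [h0, mul_zero] at h
    rcases mul_eq_zero.1 h.symm with h1 | h1
    · exact hk0 h1
    · exact hp.ne' h1
  · have := congrArg abs h
    rw [abs_mul, abs_mul, abs_of_pos hA, abs_of_pos hp, h0] at this
    exact hk (mul_right_cancel₀ hp.ne' this).symm

lemma far_old {W X q V : Vec} {a b M : ℤ} (hq : Rep W X a b M q)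
    (h0 : a * det W V + b * det X V ≠ 0 * (M * V.n))
    (h1 : a * det W V + b * det X V ≠ 1 * (M * V.n))
    (h2 : a * det W V + b * det X V ≠ (-1) * (M * V.n)) : Far q V := by
  obtain ⟨t, ht, hx, hy, hn⟩ := hq.rep
  have key : a * det W V + b * det X V = t * det q V := by
    simp only [det]
    linear_combination (-V.y) * hx + V.x * hy
  rw [key, ← hn] at h0 h1 h2
  refine ⟨fun h => ?_, fun h => ?_⟩
  · apply h0
    rw [h]; ring
  · rcases abs_choice (det q V) with h3 | h3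
    · apply h1
      rw [h3] at h
      rw [h]; ring
    · apply h2
      rw [h3] at h
      have : det q V = -(q.n * V.n) := by linarith
      rw [this]; ring

lemma lat_of_rel {q r : Vec} {A k M : ℤ} (h : A * det q r = k * (q.n * r.n))
    (hM : q.n ∣ M) (hc : IsCoprime M A) : ((Int.gcd q.n r.n : ℕ) : ℤ) ^ 2 ∣ det q r := by
  have h1 : ((Int.gcd q.n r.n : ℕ) : ℤ) ∣ q.n := Int.gcd_dvd_left _ _
  have h2 : ((Int.gcd q.n r.n : ℕ) : ℤ) ∣ r.n := Int.gcd_dvd_right _ _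
  have h3 : ((Int.gcd q.n r.n : ℕ) : ℤ) ^ 2 ∣ A * det q r := by
    rw [h, sq]
    exact Dvd.dvd.mul_left (mul_dvd_mul h1 h2) _
  have h4 : IsCoprime (((Int.gcd q.n r.n : ℕ) : ℤ) ^ 2) A :=
    (IsCoprime.of_isCoprime_of_dvd_left hc (h1.trans hM)).pow_left
  exact h4.dvd_of_dvd_mul_left h3

section
variable {W1 W2 : Vec} {f1 f2 : ℤ}

lemma fin_gen (hf : f1 * W1.y - f2 * W1.x = 1) (hn : W1.n ≠ 0) (h12 : det W1 W2 ≠ 0) {V : Vec}
    (hV : det W1 V ≠ 0 ∨ V = W1) (a b0 b1 M0 σ : ℤ) (hb : b1 ≠ 0) (hbM : b1 - σ * M0 ≠ 0) :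
    {s : ℤ | a * det W2 V + (b0 + b1 * NN W1 W2 f1 f2 s) * det (P1 W1 f1 f2 s) V =
      σ * (M0 * NN W1 W2 f1 f2 s * V.n)}.Finite := by
  rcases hV with hV | rfl
  · apply (finite_quad
      (a := a * det W2 V + (b0 + b1 * (W1.n * (f1 * W2.y - f2 * W2.x))) *
        (W1.n * (f1 * V.y - f2 * V.x)) - σ * (M0 * (W1.n * (f1 * W2.y - f2 * W2.x)) * V.n))
      (b := (b0 + b1 * (W1.n * (f1 * W2.y - f2 * W2.x))) * det W1 V +
        b1 * det W1 W2 * (W1.n * (f1 * V.y - f2 * V.x)) - σ * (M0 * det W1 W2 * V.n))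
      (c := b1 * det W1 W2 * det W1 V)
      (Or.inr (Or.inr (mul_ne_zero (mul_ne_zero hb h12) hV)))).subset
    intro s hs
    simp only [Set.mem_ofPred_eq] at hs ⊢
    rw [det_P1 V, NN_eq] at hs
    linear_combination hs
  · apply (finite_lin
      (a := a * det W2 V + b0 * V.n + (b1 - σ * M0) * V.n * (V.n * (f1 * W2.y - f2 * W2.x)))
      (b := (b1 - σ * M0) * V.n * det V W2)
      (Or.inr (mul_ne_zero (mul_ne_zero hbM hn) h12))).subset
    intro s hs
    simp only [Set.mem_ofPred_eq] at hs ⊢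
    rw [det_P1_W1 hf, NN_eq] at hs
    linear_combination hs

lemma fin_y3 (hf : f1 * W1.y - f2 * W1.x = 1) {ρ A e : ℤ}
    (he : ρ * det W1 W2 ≠ A * e * W1.n * W2.n) {V : Vec} (hV : det W2 V ≠ 0) (σ : ℤ) :
    {s : ℤ | ρ * det W2 V + A * e * W2.n * det (P1 W1 f1 f2 s) V =
      σ * (A * NN W1 W2 f1 f2 s * V.n)}.Finite := by
  apply (finite_lin
    (a := ρ * det W2 V + A * e * W2.n * (W1.n * (f1 * V.y - f2 * V.x)) -
      σ * (A * (W1.n * (f1 * W2.y - f2 * W2.x)) * V.n))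
    (b := A * e * W2.n * det W1 V - σ * (A * det W1 W2 * V.n)) ?_).subset
  · intro s hs
    simp only [Set.mem_ofPred_eq] at hs ⊢
    rw [det_P1 V, NN_eq] at hs
    linear_combination hs
  · by_contra hcon
    push Not at hcon
    obtain ⟨h1, h2⟩ := hcon
    have hp := pluck (W2 := W2) hf V
    have h3 : (ρ * det W1 W2 - A * e * W1.n * W2.n) * det W2 V = 0 := by
      linear_combination (det W1 W2) * h1 - W1.n * (f1 * W2.y - f2 * W2.x) * h2 -
        A * e * W2.n * W1.n * hp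
    rcases mul_eq_zero.1 h3 with h4 | h4
    · exact he (by linarith)
    · exact hV h4

end

end FD

section

variable {ι : Type*} [DecidableEq ι] {P F : Finset ι} {Z : Finset ℕ} {B : ℕ} {v : ι → Vec}

open FD in
theorem finalD (h : Old P F Z B v) {w1 w2 : ι} (h1 : w1 ∈ F) (h2 : w2 ∈ F) (h12 : w1 ≠ w2)
    (hpar : ∀ i ∈ P, ∀ j ∈ P, i ≠ j → det (v i) (v j) ≠ 0)
    (hg : ∀ p ∈ Z, ¬ (p : ℤ) ∣ det (v w1) (v w2)) :
    ∃ x1 x2 x3 y1 y2 y3 : Vec,
      (Red x1 ∧ Red x2 ∧ Red x3 ∧ Red y1 ∧ Red y2 ∧ Red y3) ∧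
      (Touch x1 x2 ∧ Touch x1 x3 ∧ Touch x2 x3) ∧ (Touch y1 y2 ∧ Touch y1 y3 ∧ Touch y2 y3) ∧
      (Touch x1 y1 ∧ Touch x2 y2 ∧ Touch x3 (v w1) ∧ Touch y3 (v w2)) ∧
      (Far x1 y2 ∧ Far x1 y3 ∧ Far x2 y1 ∧ Far x2 y3 ∧ Far x3 y1 ∧ Far x3 y2 ∧ Far x3 y3) ∧
      (∀ i ∈ P, Far x1 (v i) ∧ Far x2 (v i) ∧ (i ≠ w1 → Far x3 (v i)) ∧
        Far y1 (v i) ∧ Far y2 (v i) ∧ (i ≠ w2 → Far y3 (v i))) ∧
      (∀ i ∈ P, ∀ q : Vec, (q = x1 ∨ q = x2 ∨ q = x3 ∨ q = y1 ∨ q = y2 ∨ q = y3) →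
        IsCoprime q.n (v i).n) ∧
      (∀ q r : Vec, (q = x1 ∨ q = x2 ∨ q = x3) → (r = y1 ∨ r = y2 ∨ r = y3) →
        ((Int.gcd q.n r.n : ℕ) : ℤ) ^ 2 ∣ det q r) := by
  have hw1P : w1 ∈ P := h.sub h1
  have hw2P : w2 ∈ P := h.sub h2
  set W1 := v w1 with hW1
  set W2 := v w2 with hW2
  have hn1 : 0 < W1.n := h.pos _ hw1P
  have hn2 : 0 < W2.n := h.pos _ hw2P
  have hβ : det W1 W2 ≠ 0 := hpar _ hw1P _ hw2P h12
  -- a vector `f` with `f1 W1.y - f2 W1.x = 1`
  obtain ⟨f1, f2, hf⟩ : ∃ f1 f2 : ℤ, f1 * W1.y - f2 * W1.x = 1 := by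
    obtain ⟨a, b, hab⟩ := h.prim _ hw1P
    exact ⟨b, -a, by linarith⟩
  -- coprimality for the choice of `s`
  have hcop : IsCoprime (W1.n * (f1 * W2.y - f2 * W2.x)) (det W1 W2) := by
    apply IsCoprime.mul_left
    · rcases h.den _ hw1P with hd | ⟨p, hp, hd⟩
      · rw [← hW1] at hd
        rw [hd]; exact isCoprime_one_left
      · rw [← hW1] at hd
        rw [hd]
        have hpp : Prime (p : ℤ) := Nat.prime_iff_prime_int.1 (h.prime p hp).1
        exact (Prime.coprime_iff_not_dvd hpp).2 (hg p hp)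
    · obtain ⟨c, d, hcd⟩ := h.prim _ hw2P
      rw [← hW2] at hcd
      refine ⟨c * W1.x + d * W1.y, -(c * f1 + d * f2), ?_⟩
      simp only [det]
      linear_combination hcd + (c * W2.x + d * W2.y) * hf
  -- the constant `A`
  obtain ⟨A, hA5, hAodd, hAZ⟩ : ∃ A : ℤ, 5 ≤ A ∧ IsCoprime (2 : ℤ) A ∧
      ∀ p ∈ Z, ∃ c : ℤ, A - 1 = p * c := by
    have hprod : 0 < ∏ p ∈ Z, p := Finset.prod_pos fun p hp => (h.prime p hp).1.pos
    refine ⟨1 + 4 * ((∏ p ∈ Z, p : ℕ) : ℤ), by omega,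
      ⟨-2 * ((∏ p ∈ Z, p : ℕ) : ℤ), 1, by ring⟩, fun p hp => ?_⟩
    obtain ⟨c, hc⟩ := Finset.dvd_prod_of_mem (fun p : ℕ => p) hp
    refine ⟨4 * c, ?_⟩
    rw [hc]; push_cast; ring
  obtain ⟨ρ, hρ⟩ : ∃ ρ : ℤ, ρ = 2 - A ^ 2 := ⟨_, rfl⟩
  have hA0 : 0 < A := by linarith
  have hρneg : ρ < 0 := by rw [hρ]; nlinarith
  -- the sign `e`
  obtain ⟨e, he1, he⟩ : ∃ e : ℤ, |e| = 1 ∧ ρ * det W1 W2 ≠ A * e * W1.n * W2.n := by
    rcases lt_or_gt_of_ne hβ with hb | hb
    · refine ⟨-1, by simp, fun hc => ?_⟩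
      have e1 : 0 < ρ * det W1 W2 := mul_pos_of_neg_of_neg hρneg hb
      have e2 : 0 < A * W1.n * W2.n := mul_pos (mul_pos hA0 hn1) hn2
      linarith
    · refine ⟨1, by simp, fun hc => ?_⟩
      have e1 : ρ * det W1 W2 < 0 := mul_neg_of_neg_of_pos hρneg hb
      have e2 : 0 < A * W1.n * W2.n := mul_pos (mul_pos hA0 hn1) hn2
      linarith
  -- the bad values of `s`
  let NNs : ℤ → ℤ := fun s => NN W1 W2 f1 f2 s
  let D : ι → ℤ → ℤ := fun i s => det (P1 W1 f1 f2 s) (v i)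
  let bad : ι → ℤ → ℤ → Prop := fun i σ s =>
    (-ρ * det W2 (v i) + (-(A * e * W2.n) + (A + 2) * NNs s) * D i s =
      σ * (ρ * NNs s * (v i).n)) ∨
    (ρ * det W2 (v i) + (A * e * W2.n + -(A * (A + 1)) * NNs s) * D i s =
      σ * (ρ * NNs s * (v i).n)) ∨
    (-((A - 1) * ρ) * det W2 (v i) + (-(A * (A - 1) * e * W2.n) + A * NNs s) * D i s =
      σ * (ρ * NNs s * (v i).n)) ∨
    ((2 - A) * ρ * det W2 (v i) + (A * (2 - A) * e * W2.n + -(A ^ 2) * NNs s) * D i s =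
      σ * (A * ρ * NNs s * (v i).n)) ∨
    (i ≠ w1 ∧ D i s = σ * (v i).n) ∨
    (i ≠ w2 ∧ ρ * det W2 (v i) + A * e * W2.n * D i s = σ * (A * NNs s * (v i).n))
  have hfin : {s : ℤ | ∃ i ∈ P, ∃ σ ∈ ({0, 1, -1} : Finset ℤ), bad i σ s}.Finite := by
    have hrw : {s : ℤ | ∃ i ∈ P, ∃ σ ∈ ({0, 1, -1} : Finset ℤ), bad i σ s} =
        ⋃ i ∈ P, ⋃ σ ∈ ({0, 1, -1} : Finset ℤ), {s | bad i σ s} := by
      ext s; simp
    rw [hrw]
    refine Set.Finite.biUnion P.finite_toSet fun i hi => ?_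
    refine Set.Finite.biUnion (Finset.finite_toSet _) fun σ hσ => ?_
    have hσ' : σ = 0 ∨ σ = 1 ∨ σ = -1 := by simpa using hσ
    have hV : det W1 (v i) ≠ 0 ∨ v i = W1 := by
      by_cases hi1 : i = w1
      · right; rw [hi1]
      · left; exact hpar _ hw1P _ hi (Ne.symm hi1)
    have hσM : ∀ b M : ℤ, b ≠ 0 → b ≠ M → b ≠ -M → b - σ * M ≠ 0 := by
      intro b M h0 h1 h2 h3
      rcases hσ' with hs | hs | hs
      · rw [hs] at h3; apply h0; linarith
      · rw [hs] at h3; apply h1; linarith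
      · rw [hs] at h3; apply h2; linarith
    have hfa := fin_gen hf hn1.ne' hβ hV (-ρ) (-(A * e * W2.n)) (A + 2) ρ σ (by positivity)
      (hσM _ _ (by positivity) (by rw [hρ]; nlinarith) (by rw [hρ]; nlinarith))
    have hfb := fin_gen hf hn1.ne' hβ hV ρ (A * e * W2.n) (-(A * (A + 1))) ρ σ
      (neg_ne_zero.2 (by positivity))
      (hσM _ _ (neg_ne_zero.2 (by positivity)) (by rw [hρ]; nlinarith) (by rw [hρ]; nlinarith))
    have hfc := fin_gen hf hn1.ne' hβ hV (-((A - 1) * ρ)) (-(A * (A - 1) * e * W2.n)) A ρ σ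
      (by positivity)
      (hσM _ _ (by positivity) (by rw [hρ]; nlinarith) (by rw [hρ]; nlinarith))
    have hfd := fin_gen hf hn1.ne' hβ hV ((2 - A) * ρ) (A * (2 - A) * e * W2.n) (-(A ^ 2))
      (A * ρ) σ (neg_ne_zero.2 (by positivity))
      (hσM _ _ (neg_ne_zero.2 (by positivity))
        (by
          intro hc
          have : A * (A + ρ) = 0 := by linarith
          rcases mul_eq_zero.1 this with h3 | h3
          · linarith
          · rw [hρ] at h3; nlinarith)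
        (by
          intro hc
          have : A * (A - ρ) = 0 := by linarith
          rcases mul_eq_zero.1 this with h3 | h3
          · linarith
          · rw [hρ] at h3; nlinarith))
    have hfe : {s : ℤ | i ≠ w1 ∧ D i s = σ * (v i).n}.Finite := by
      by_cases hi1 : i = w1
      · convert Set.finite_empty
        ext s; simp [hi1]
      · apply (fin_P1 (W1 := W1) (f1 := f1) (f2 := f2)
          (hpar _ hw1P _ hi (Ne.symm hi1)) (σ * (v i).n)).subset
        intro s hs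
        exact hs.2
    have hff : {s : ℤ | i ≠ w2 ∧ ρ * det W2 (v i) + A * e * W2.n * D i s =
        σ * (A * NNs s * (v i).n)}.Finite := by
      by_cases hi2 : i = w2
      · convert Set.finite_empty
        ext s; simp [hi2]
      · apply (fin_y3 hf he (hpar _ hw2P _ hi (Ne.symm hi2)) σ).subset
        intro s hs
        exact hs.2
    refine (hfa.union (hfb.union (hfc.union (hfd.union (hfe.union hff))))).subset ?_
    intro s hs
    exact hs
  -- choice of `s`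
  obtain ⟨s, Np, hNp, hNbig, hNs, hsE, -⟩ := sel Z (fun p hp => (h.prime p hp).1) (fun _ => ∅)
    (fun p hp => by
      have := (h.prime p hp).2
      have := h.bound
      simp only [Finset.card_empty]
      omega)
    (fun p _ q hq => absurd hq (Finset.notMem_empty q)) _ _ hcop hβ _ hfin
    (A + ((∑ p ∈ Z, p : ℕ) : ℤ))
  have hNs' : NN W1 W2 f1 f2 s = (Np : ℤ) := by rw [NN_eq, ← hNs]; ring
  obtain ⟨N, hN⟩ : ∃ N : ℤ, N = (Np : ℤ) := ⟨_, rfl⟩
  rw [← hN] at hNs' hNbig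
  have hsum0 : (0 : ℤ) ≤ ((∑ p ∈ Z, p : ℕ) : ℤ) := Int.natCast_nonneg _
  have hNA : A < N := by linarith
  have hN0 : 0 < N := by linarith
  have hNprime : Prime N := by rw [hN]; exact Nat.prime_iff_prime_int.1 hNp
  have hNZ : ∀ p ∈ Z, (p : ℤ) < N := by
    intro p hp
    have : p ≤ ∑ p ∈ Z, p := Finset.single_le_sum (f := fun p : ℕ => p) (fun _ _ => Nat.zero_le _) hp
    have : (p : ℤ) ≤ ((∑ p ∈ Z, p : ℕ) : ℤ) := by exact_mod_cast this
    linarith
  -- coprimality facts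
  have hcNA : IsCoprime N A := by
    rw [Prime.coprime_iff_not_dvd hNprime]
    intro hd
    exact absurd (Int.le_of_dvd hA0 hd) (by linarith)
  have hcρA : IsCoprime ρ A := by
    have h3 : IsCoprime (2 + (-A) * A) A := (IsCoprime.add_mul_right_left_iff (z := -A)).2 hAodd
    rw [hρ]
    convert h3 using 1
    ring
  have hcM : IsCoprime (N * ρ) A := hcNA.mul_left hcρA
  have hcp : ∀ p ∈ Z, IsCoprime (N * A * ρ) (p : ℤ) := by
    intro p hp
    have hpp : Prime (p : ℤ) := Nat.prime_iff_prime_int.1 (h.prime p hp).1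
    have hp0 : (0 : ℤ) < p := by exact_mod_cast (h.prime p hp).1.pos
    obtain ⟨c, hc⟩ := hAZ p hp
    refine IsCoprime.mul_left (IsCoprime.mul_left ?_ ?_) ?_
    · rw [Prime.coprime_iff_not_dvd hNprime]
      intro hd
      exact absurd (Int.le_of_dvd hp0 hd) (by linarith [hNZ p hp])
    · exact ⟨1, -c, by linarith⟩
    · refine ⟨1, c * (A + 1), ?_⟩
      rw [hρ]
      linear_combination (A + 1) * (-hc)
  -- the six vectors
  set X := P1 W1 f1 f2 s with hX
  have hXW2 : det X W2 = N := hNs'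
  have hXW1 : det X W1 = W1.n := det_P1_W1 hf s
  have hXN : det X W2 ≠ 0 := by rw [hXW2]; exact hN0.ne'
  have hρ0 : ρ ≠ 0 := hρneg.ne
  have hMx : N * ρ ≠ 0 := mul_ne_zero hN0.ne' hρ0
  obtain ⟨x1, hx1⟩ := exists_rep (a := -ρ) (b := (A + 2) * N - A * e * W2.n) hXN hMx
    (Or.inl (neg_ne_zero.2 hρ0))
  obtain ⟨x2, hx2⟩ := exists_rep (a := ρ) (b := A * (e * W2.n - (A + 1) * N)) hXN hMx
    (Or.inl hρ0)
  obtain ⟨x3, hx3⟩ := exists_rep (a := 0) (b := 1) hXN (M := 1) one_ne_zero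
    (Or.inr one_ne_zero)
  obtain ⟨y1, hy1⟩ := exists_rep (a := -((A - 1) * ρ)) (b := A * (N - (A - 1) * e * W2.n)) hXN
    hMx (Or.inl (neg_ne_zero.2 (mul_ne_zero (by linarith) hρ0)))
  obtain ⟨y2, hy2⟩ := exists_rep (a := (2 - A) * ρ) (b := A * (e * W2.n * (2 - A) - N * A)) hXN
    (M := N * A * ρ) (mul_ne_zero (mul_ne_zero hN0.ne' hA0.ne') hρ0)
    (Or.inl (mul_ne_zero (by linarith) hρ0))
  obtain ⟨y3, hy3⟩ := exists_rep (a := ρ) (b := A * e * W2.n) hXN (M := N * A)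
    (mul_ne_zero hN0.ne' hA0.ne') (Or.inl hρ0)
  have r12 : A * det x1 x2 = A * (x1.n * x2.n) := rel hx1 hx2 hXW2 (by rw [hρ]; ring)
  have r13 : A * det x1 x3 = A * (x1.n * x3.n) := rel hx1 hx3 hXW2 (by ring)
  have r23 : A * det x2 x3 = -A * (x2.n * x3.n) := rel hx2 hx3 hXW2 (by ring)
  have s12 : A * det y1 y2 = A * (y1.n * y2.n) := rel hy1 hy2 hXW2 (by rw [hρ]; ring)
  have s13 : A * det y1 y3 = A * (y1.n * y3.n) := rel hy1 hy3 hXW2 (by rw [hρ]; ring)
  have s23 : A * det y2 y3 = -A * (y2.n * y3.n) := rel hy2 hy3 hXW2 (by rw [hρ]; ring)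
  have c11 : A * det x1 y1 = A * (x1.n * y1.n) := rel hx1 hy1 hXW2 (by rw [hρ]; ring)
  have c12 : A * det x1 y2 = 2 * (x1.n * y2.n) := rel hx1 hy2 hXW2 (by rw [hρ]; ring)
  have c13 : A * det x1 y3 = (A + 2) * (x1.n * y3.n) := rel hx1 hy3 hXW2 (by rw [hρ]; ring)
  have c21 : A * det x2 y1 = -(A ^ 2) * (x2.n * y1.n) := rel hx2 hy1 hXW2 (by rw [hρ]; ring)
  have c22 : A * det x2 y2 = -A * (x2.n * y2.n) := rel hx2 hy2 hXW2 (by rw [hρ]; ring)
  have c23 : A * det x2 y3 = -(A * (A + 1)) * (x2.n * y3.n) :=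
    rel hx2 hy3 hXW2 (by rw [hρ]; ring)
  have c31 : A * det x3 y1 = A * (1 - A) * (x3.n * y1.n) := rel hx3 hy1 hXW2 (by rw [hρ]; ring)
  have c32 : A * det x3 y2 = (2 - A) * (x3.n * y2.n) := rel hx3 hy2 hXW2 (by rw [hρ]; ring)
  have c33 : A * det x3 y3 = ρ * (x3.n * y3.n) := rel hx3 hy3 hXW2 (by ring)
  have habsA : |A| = A := abs_of_pos hA0
  have habsA' : |-A| = A := by rw [abs_neg, habsA]
  -- membership of the good value
  have hgood : ∀ i ∈ P, ∀ σ : ℤ, (σ = 0 ∨ σ = 1 ∨ σ = -1) → ¬ bad i σ s := by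
    intro i hi σ hσ hb
    apply hsE
    exact ⟨i, hi, σ, by simpa using hσ, hb⟩
  have hNNs : NNs s = N := hNs'
  refine ⟨x1, x2, x3, y1, y2, y3, ⟨hx1.red, hx2.red, hx3.red, hy1.red, hy2.red, hy3.red⟩,
    ⟨touch_of_rel hA0 r12 habsA hx1.red hx2.red, touch_of_rel hA0 r13 habsA hx1.red hx3.red,
      touch_of_rel hA0 r23 habsA' hx2.red hx3.red⟩,
    ⟨touch_of_rel hA0 s12 habsA hy1.red hy2.red, touch_of_rel hA0 s13 habsA hy1.red hy3.red,
      touch_of_rel hA0 s23 habsA' hy2.red hy3.red⟩,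
    ⟨touch_of_rel hA0 c11 habsA hx1.red hy1.red, touch_of_rel hA0 c22 habsA' hx2.red hy2.red,
      ?_, ?_⟩, ⟨?_, ?_, ?_, ?_, ?_, ?_, ?_⟩, ?_, ?_, ?_⟩
  · -- `x3` touches `w1`
    obtain ⟨t, ht, hx, hy, hn⟩ := hx3.rep
    have e1 : t * det x3 W1 = W1.n := by
      rw [← hXW1]; simp only [det]; linear_combination W1.y * hx - W1.x * hy
    have e2 : |t| * |det x3 W1| = |t| * (x3.n * W1.n) := by
      have a1 : |t| * |det x3 W1| = W1.n := by rw [← abs_mul, e1, abs_of_pos hn1]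
      have a2 : |t| * x3.n = 1 := by
        have := congrArg abs hn
        rw [abs_mul, abs_of_pos hx3.red.1, abs_one] at this
        exact this
      rw [a1]; linear_combination (-W1.n) * a2
    exact mul_left_cancel₀ (abs_ne_zero.2 ht) e2
  · -- `y3` touches `w2`
    obtain ⟨t, ht, hx, hy, hn⟩ := hy3.rep
    have e1 : t * det y3 W2 = e * (N * A * W2.n) := by
      have : t * det y3 W2 = A * e * W2.n * det X W2 := by
        simp only [det]; linear_combination W2.y * hx - W2.x * hy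
      rw [this, hXW2]; ring
    have hpos : 0 < N * A * W2.n := mul_pos (mul_pos hN0 hA0) hn2
    have e2 : |t| * |det y3 W2| = |t| * (y3.n * W2.n) := by
      have a1 : |t| * |det y3 W2| = N * A * W2.n := by
        rw [← abs_mul, e1, abs_mul, he1, abs_of_pos hpos, one_mul]
      have a2 : |t| * y3.n = N * A := by
        have := congrArg abs hn
        rw [abs_mul, abs_of_pos hy3.red.1, abs_of_pos (mul_pos hN0 hA0)] at this
        exact this
      rw [a1]; linear_combination (-W2.n) * a2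
    exact mul_left_cancel₀ (abs_ne_zero.2 ht) e2
  · exact far_of_rel hA0 c12 two_ne_zero (by rw [abs_of_pos two_pos]; linarith) hx1.red hy2.red
  · exact far_of_rel hA0 c13 (by linarith) (by rw [abs_of_pos (by linarith)]; linarith)
      hx1.red hy3.red
  · refine far_of_rel hA0 c21 (neg_ne_zero.2 (by positivity)) ?_ hx2.red hy1.red
    rw [abs_neg, abs_of_pos (by positivity)]; nlinarith
  · refine far_of_rel hA0 c23 (neg_ne_zero.2 (by positivity)) ?_ hx2.red hy3.red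
    rw [abs_neg, abs_of_pos (by positivity)]; nlinarith
  · refine far_of_rel hA0 c31 (mul_ne_zero hA0.ne' (by linarith)) ?_ hx3.red hy1.red
    rw [abs_mul, habsA, abs_of_neg (by linarith)]; nlinarith
  · refine far_of_rel hA0 c32 (by linarith) ?_ hx3.red hy2.red
    rw [abs_of_neg (by linarith)]; linarith
  · refine far_of_rel hA0 c33 hρ0 ?_ hx3.red hy3.red
    rw [abs_of_neg hρneg, hρ]; nlinarith
  · intro i hi
    have g0 := hgood i hi 0 (Or.inl rfl)
    have g1 := hgood i hi 1 (Or.inr (Or.inl rfl))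
    have g2 := hgood i hi (-1) (Or.inr (Or.inr rfl))
    simp only [bad, D, hNNs, not_or, not_and] at g0 g1 g2
    obtain ⟨ga0, gb0, gc0, gd0, ge0, gf0⟩ := g0
    obtain ⟨ga1, gb1, gc1, gd1, ge1, gf1⟩ := g1
    obtain ⟨ga2, gb2, gc2, gd2, ge2, gf2⟩ := g2
    refine ⟨far_old hx1 ?_ ?_ ?_, far_old hx2 ?_ ?_ ?_, fun hi1 => far_old hx3 ?_ ?_ ?_,
      far_old hy1 ?_ ?_ ?_, far_old hy2 ?_ ?_ ?_, fun hi2 => far_old hy3 ?_ ?_ ?_⟩
    · exact fun hb => ga0 (by linear_combination hb)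
    · exact fun hb => ga1 (by linear_combination hb)
    · exact fun hb => ga2 (by linear_combination hb)
    · exact fun hb => gb0 (by linear_combination hb)
    · exact fun hb => gb1 (by linear_combination hb)
    · exact fun hb => gb2 (by linear_combination hb)
    · exact fun hb => ge0 hi1 (by linear_combination hb)
    · exact fun hb => ge1 hi1 (by linear_combination hb)
    · exact fun hb => ge2 hi1 (by linear_combination hb)
    · exact fun hb => gc0 (by linear_combination hb)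
    · exact fun hb => gc1 (by linear_combination hb)
    · exact fun hb => gc2 (by linear_combination hb)
    · exact fun hb => gd0 (by linear_combination hb)
    · exact fun hb => gd1 (by linear_combination hb)
    · exact fun hb => gd2 (by linear_combination hb)
    · exact fun hb => gf0 hi2 (by linear_combination hb)
    · exact fun hb => gf1 hi2 (by linear_combination hb)
    · exact fun hb => gf2 hi2 (by linear_combination hb)
  · intro i hi q hq
    have hdvd : q.n ∣ N * A * ρ := by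
      have hxd : N * ρ ∣ N * A * ρ := ⟨A, by ring⟩
      rcases hq with rfl | rfl | rfl | rfl | rfl | rfl
      · exact hx1.dvd.trans hxd
      · exact hx2.dvd.trans hxd
      · exact hx3.dvd.trans (one_dvd _)
      · exact hy1.dvd.trans hxd
      · exact hy2.dvd
      · exact hy3.dvd.trans ⟨ρ, rfl⟩
    rcases h.den i hi with hd | ⟨p, hp, hd⟩
    · rw [hd]; exact isCoprime_one_right
    · rw [hd]; exact IsCoprime.of_isCoprime_of_dvd_left (hcp p hp) hdvd
  · intro q r hq hr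
    have hqM : q.n ∣ N * ρ := by
      rcases hq with rfl | rfl | rfl
      · exact hx1.dvd
      · exact hx2.dvd
      · exact hx3.dvd.trans (one_dvd _)
    obtain ⟨k, hk⟩ : ∃ k, A * det q r = k * (q.n * r.n) := by
      rcases hq with rfl | rfl | rfl <;> rcases hr with rfl | rfl | rfl
      exacts [⟨_, c11⟩, ⟨_, c12⟩, ⟨_, c13⟩, ⟨_, c21⟩, ⟨_, c22⟩, ⟨_, c23⟩, ⟨_, c31⟩, ⟨_, c32⟩,
        ⟨_, c33⟩]
    exact lat_of_rel hk hqM hcM

end

end Pool.Agent.Tri
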