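import Mathlib
import Pool.Agent.Tri.TriK

set_option autoImplicit false

open Finset

namespace Pool.Agent.Tri

variable {V : Type*} [DecidableEq V]

/-- Free vertices of the placed set `P`, and the dummy vertex `d`. -/
def Fr (m : V → V) (d : V) (P : Finset V) : Finset V := insert d (P.filter fun x => m x ∉ P)

/-- `v b` is `v a` divided by a prime `N`. -/
def Spec (T : V → Finset V) (a b : V) (P : Finset V) (Z : Finset ℕ) (v : V → Vec)
    (Sp : Finset V) : Prop :=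
  a ∈ P ∧ b ∈ P ∧ a ∉ T b ∧ Sp = insert a (T b) ∧ (v b).x = (v a).x ∧ (v b).y = (v a).y ∧
    (v a).n = 1 ∧ ∃ N ∈ Z, (v b).n = (N : ℤ) ∧ ∀ p ∈ Z, ¬ (p : ℤ) ∣ (N : ℤ) + 1

/-- Partial placement: the triangles in `P` are placed; `d` is a dummy vertex, `a, b` the two
vertices whose vectors will be parallel (`Sp` is empty as long as they are not both placed). -/
structure PS (G : SimpleGraph V) (K : Finset V) (T : V → Finset V) (m : V → V) (B : ℕ)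
    (d a b : V) (P : Finset V) (Z : Finset ℕ) (v : V → Vec) (Sp : Finset V) : Prop where
  PK : P ⊆ K
  uni : Uni T P
  dP : d ∉ P
  dn : v d = ⟨0, 1, 1⟩
  old : Old (insert d P) (Fr m d P) Z B v
  adj : ∀ x ∈ P, ∀ y ∈ P, x ≠ y → (G.Adj x y ↔ Touch (v x) (v y))
  par : ∀ x ∈ insert d P, ∀ y ∈ insert d P, x ≠ y → det (v x) (v y) = 0 →
    x ∈ Sp ∧ y ∈ Sp ∧ ((x = a ∧ y = b) ∨ (x = b ∧ y = a))
  good : ∀ p ∈ Z, ∀ x ∈ Fr m d P, ∀ y ∈ Fr m d P, x ≠ y → ¬ (x ∈ Sp ∧ y ∈ Sp) →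
    ¬ (p : ℤ) ∣ det (v x) (v y)
  cop : ∀ x ∈ P, ∀ y ∈ P, y ∉ T x → IsCoprime (v x).n (v y).n
  one : ∀ x ∈ P, (x = a ∨ x = b) → Sp = ∅ → (v x).n = 1
  sp : Sp = ∅ ∨ Spec T a b P Z v Sp ∨ Spec T b a P Z v Sp

end Pool.Agent.Tri
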