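import Mathlib
import Pool.Agent.Tri.PSDefs
import Pool.Agent.Tri.FinalD

set_option autoImplicit false

open Finset

namespace Pool.Agent.Tri

namespace PSD

lemma touch_symm {u w : Vec} (h : Touch u w) : Touch w u := by
  have e : det w u = - det u w := by simp only [det]; ring
  unfold Touch at *
  rw [e, abs_neg, h, mul_comm]

lemma far_symm {u w : Vec} (h : Far u w) : Far w u := by
  have e : det w u = - det u w := by simp only [det]; ring
  unfold Far at *
  rw [e, abs_neg, mul_comm]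
  exact ⟨neg_ne_zero.2 h.1, h.2⟩

lemma det_ne_of_touch {u w : Vec} (h : Touch u w) (hu : 0 < u.n) (hw : 0 < w.n) :
    det u w ≠ 0 := by
  intro h0
  unfold Touch at h
  rw [h0, abs_zero] at h
  have := mul_pos hu hw
  omega

lemma gcd_dvd_of_touch {u w : Vec} (h : Touch u w) :
    ((Int.gcd u.n w.n : ℕ) : ℤ) ^ 2 ∣ det u w := by
  rw [← dvd_abs, h, sq]
  exact mul_dvd_mul (Int.gcd_dvd_left ..) (Int.gcd_dvd_right ..)

lemma gcd_dvd_of_coprime {u w : Vec} (h : IsCoprime u.n w.n) :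
    ((Int.gcd u.n w.n : ℕ) : ℤ) ^ 2 ∣ det u w := by
  rw [Int.isCoprime_iff_gcd_eq_one.1 h]
  simp

lemma red_of_coprime {u : Vec} (hn : 0 < u.n) (h : IsCoprime u.x u.y) : Red u := by
  refine ⟨hn, ?_, ?_⟩
  · by_contra hc
    push Not at hc
    rw [hc.1, hc.2] at h
    obtain ⟨p, q, hpq⟩ := h
    simp at hpq
  · rintro p hp - ⟨hx, hy⟩
    have := h.isUnit_of_dvd' hx hy
    rw [Int.isUnit_iff] at this
    have := hp.two_le
    omega

variable {V : Type*}

/-- All that `Conf` requires of a pair. -/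
def Pair (G : SimpleGraph V) (v : V → Vec) (x y : V) : Prop :=
  (G.Adj x y ↔ Touch (v x) (v y)) ∧
  (det (v x) (v y) ≠ 0 ∨ ((v x).x = (v y).x ∧ (v x).y = (v y).y ∧ (v x).n ≠ (v y).n)) ∧
  ((Int.gcd (v x).n (v y).n : ℕ) : ℤ) ^ 2 ∣ det (v x) (v y)

variable {G : SimpleGraph V} {v : V → Vec} {x y : V}

lemma Pair.symm (h : Pair G v x y) : Pair G v y x := by
  obtain ⟨h1, h2, h3⟩ := h
  have e : det (v y) (v x) = - det (v x) (v y) := by simp only [det]; ring
  refine ⟨?_, ?_, ?_⟩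
  · rw [G.adj_comm, h1]
    exact ⟨touch_symm, touch_symm⟩
  · rcases h2 with h2 | ⟨h4, h5, h6⟩
    · left; rw [e]; exact neg_ne_zero.2 h2
    · right; exact ⟨h4.symm, h5.symm, h6.symm⟩
  · rw [e, dvd_neg, Int.gcd_comm]; exact h3

lemma Pair.of_touch (ha : G.Adj x y) (h : Touch (v x) (v y)) (hx : 0 < (v x).n)
    (hy : 0 < (v y).n) : Pair G v x y :=
  ⟨⟨fun _ => h, fun _ => ha⟩, Or.inl (det_ne_of_touch h hx hy), gcd_dvd_of_touch h⟩

lemma Pair.of_far (ha : ¬ G.Adj x y) (h : Far (v x) (v y))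
    (hc : IsCoprime (v x).n (v y).n) : Pair G v x y :=
  ⟨⟨fun h' => absurd h' ha, fun h' => absurd h' h.2⟩, Or.inl h.1, gcd_dvd_of_coprime hc⟩

lemma Pair.of_far' (ha : ¬ G.Adj x y) (h : Far (v x) (v y))
    (hc : ((Int.gcd (v x).n (v y).n : ℕ) : ℤ) ^ 2 ∣ det (v x) (v y)) : Pair G v x y :=
  ⟨⟨fun h' => absurd h' ha, fun h' => absurd h' h.2⟩, Or.inl h.1, hc⟩

lemma conf_of_pair {K : Finset V} (hred : ∀ a ∈ K, Red (v a))
    (h : ∀ a ∈ K, ∀ b ∈ K, a ≠ b → Pair G v a b) : Conf G K v where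
  red := hred
  adj a ha b hb hab := (h a ha b hb hab).1
  dist a ha b hb hab := (h a ha b hb hab).2.1
  lat a ha b hb := by
    by_cases hab : a = b
    · subst hab
      have : det (v a) (v a) = 0 := by simp only [det]; ring
      rw [this]; exact dvd_zero _
    · exact (h a ha b hb hab).2.2

lemma ne_of_card [DecidableEq V] {x y z : V} (h : ({x, y, z} : Finset V).card = 3) :
    x ≠ y ∧ x ≠ z ∧ y ≠ z := by
  refine ⟨?_, ?_, ?_⟩
  · rintro rfl
    rw [insert_eq_of_mem (by simp)] at h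
    have := Finset.card_le_two (a := x) (b := z)
    omega
  · rintro rfl
    rw [insert_eq_of_mem (by simp)] at h
    have := Finset.card_le_two (a := y) (b := x)
    omega
  · rintro rfl
    rw [pair_eq_singleton] at h
    have := Finset.card_le_two (a := x) (b := y)
    omega

variable [DecidableEq V] {K : Finset V} {T : V → Finset V}
  {m : V → V} {B : ℕ} {d a b : V} {P : Finset V} {Z : Finset ℕ}

theorem core (hK : TriK G K T m)
    (h : PS G K T m B d a b P Z v ∅) {s1 s2 s3 y1 y2 y3 : V}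
    (hs1 : s1 ∈ K) (hT : T s1 = {s1, s2, s3}) (hT' : T y1 = {y1, y2, y3}) (h1 : m s1 = y1)
    (h2 : m s2 = y2) (hne : y1 ∉ T s1) (h3 : m s3 ∈ P) (h3' : m y3 ∈ P)
    (hP : P = K \ (T s1 ∪ T y1)) :
    ∃ v', Conf G K v' := by
  -- the six new vertices
  have s1T : s1 ∈ T s1 := by rw [hT]; simp
  have s2T : s2 ∈ T s1 := by rw [hT]; simp
  have s3T : s3 ∈ T s1 := by rw [hT]; simp
  have y1T : y1 ∈ T y1 := by rw [hT']; simp
  have y2T : y2 ∈ T y1 := by rw [hT']; simp
  have y3T : y3 ∈ T y1 := by rw [hT']; simp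
  have s2K : s2 ∈ K := hK.sub s1 hs1 s2T
  have s3K : s3 ∈ K := hK.sub s1 hs1 s3T
  have y1K : y1 ∈ K := h1 ▸ hK.mK s1 hs1
  have y2K : y2 ∈ K := hK.sub y1 y1K y2T
  have y3K : y3 ∈ K := hK.sub y1 y1K y3T
  have Ts : ∀ x ∈ T s1, T x = T s1 := hK.part s1 hs1
  have Ty : ∀ x ∈ T y1, T x = T y1 := hK.part y1 y1K
  have disj : ∀ x ∈ T s1, ∀ y ∈ T y1, x ≠ y := by
    rintro x hx y hy rfl
    apply hne
    rw [← Ts x hx, Ty x hy]; exact y1T
  have nPs : ∀ x ∈ T s1, x ∉ P := by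
    intro x hx; rw [hP]; simp [hx]
  have nPy : ∀ x ∈ T y1, x ∉ P := by
    intro x hx; rw [hP]; simp [hx]
  have nsP : ∀ i ∈ P, i ∉ T s1 := fun i hi hx => nPs i hx hi
  have nyP : ∀ i ∈ P, i ∉ T y1 := fun i hi hx => nPy i hx hi
  have minj : ∀ x ∈ K, ∀ y ∈ K, m x = m y → x = y := by
    intro x hx y hy e
    rw [← hK.minv x hx, e, hK.minv y hy]
  have my1 : m y1 = s1 := by rw [← h1]; exact hK.minv s1 hs1
  have my2 : m y2 = s2 := by rw [← h2]; exact hK.minv s2 s2K
  obtain ⟨s12, s13, s23⟩ := ne_of_card (hT ▸ hK.card s1 hs1)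
  obtain ⟨y12, y13, y23⟩ := ne_of_card (hT' ▸ hK.card y1 y1K)
  have e11 := disj s1 s1T y1 y1T
  have e12 := disj s1 s1T y2 y2T
  have e13 := disj s1 s1T y3 y3T
  have e21 := disj s2 s2T y1 y1T
  have e22 := disj s2 s2T y2 y2T
  have e23 := disj s2 s2T y3 y3T
  have e31 := disj s3 s3T y1 y1T
  have e32 := disj s3 s3T y2 y2T
  have e33 := disj s3 s3T y3 y3T
  have memF : ∀ x ∈ K, m x ∈ P → x ∉ P → m x ∈ Fr m d P := by
    intro x hx hmx hxP
    exact mem_insert_of_mem (mem_filter.2 ⟨hmx, by rw [hK.minv x hx]; exact hxP⟩)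
  have w1F : m s3 ∈ Fr m d P := memF s3 s3K h3 (nPs s3 s3T)
  have w2F : m y3 ∈ Fr m d P := memF y3 y3K h3' (nPy y3 y3T)
  have w12 : m s3 ≠ m y3 := fun e => e33 (minj s3 s3K y3 y3K e)
  have hem : ∀ i : V, i ∉ (∅ : Finset V) := fun i => notMem_empty i
  obtain ⟨u1, u2, u3, p1, p2, p3, ⟨ru1, ru2, ru3, rp1, rp2, rp3⟩, ⟨tu12, tu13, tu23⟩,
    ⟨tp12, tp13, tp23⟩, ⟨t11, t22, tu3w, tp3w⟩, ⟨f12, f13, f21, f23, f31, f32, f33⟩,
    hfar, cop, cop2⟩ := finalD h.old w1F w2F w12
      (fun i hi j hj hij h0 => hem i (h.par i hi j hj hij h0).1)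
      (fun p hp => h.good p hp (m s3) w1F (m y3) w2F w12 fun h' => hem _ h'.1)
  have hv : ∃ v' : V → Vec, v' y1 = p1 ∧ v' y2 = p2 ∧ v' y3 = p3 ∧ v' s1 = u1 ∧ v' s2 = u2 ∧
      v' s3 = u3 ∧ ∀ i ∈ P, v' i = v i := by
    refine ⟨fun x => if x = y1 then p1 else if x = y2 then p2 else if x = y3 then p3 else
      if x = s1 then u1 else if x = s2 then u2 else if x = s3 then u3 else v x,
      ?_, ?_, ?_, ?_, ?_, ?_, ?_⟩
    · simp
    · simp [y12.symm]
    · simp [y13.symm, y23.symm]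
    · simp [e11, e12, e13]
    · simp [e21, e22, e23, s12.symm]
    · simp [e31, e32, e33, s13.symm, s23.symm]
    · intro i hi
      have i1 : i ≠ y1 := by rintro rfl; exact nyP i hi y1T
      have i2 : i ≠ y2 := by rintro rfl; exact nyP i hi y2T
      have i3 : i ≠ y3 := by rintro rfl; exact nyP i hi y3T
      have i4 : i ≠ s1 := by rintro rfl; exact nsP i hi s1T
      have i5 : i ≠ s2 := by rintro rfl; exact nsP i hi s2T
      have i6 : i ≠ s3 := by rintro rfl; exact nsP i hi s3T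
      simp [i1, i2, i3, i4, i5, i6]
  obtain ⟨v', vy1, vy2, vy3, vs1, vs2, vs3, vP⟩ := hv
  have key : ∀ x ∈ K, x ∈ P ∨ x = s1 ∨ x = s2 ∨ x = s3 ∨ x = y1 ∨ x = y2 ∨ x = y3 := by
    intro x hx
    by_cases hxs : x ∈ T s1
    · rw [hT] at hxs; simp only [mem_insert, mem_singleton] at hxs
      rcases hxs with h | h | h <;> simp [h]
    · by_cases hxy : x ∈ T y1
      · rw [hT'] at hxy; simp only [mem_insert, mem_singleton] at hxy
        rcases hxy with h | h | h <;> simp [h]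
      · left; rw [hP]; simp [hx, hxs, hxy]
  have posP : ∀ i ∈ P, 0 < (v' i).n := by
    intro i hi; rw [vP i hi]; exact h.old.pos i (mem_insert_of_mem hi)
  -- adjacency
  have nadj : ∀ y ∈ K, ∀ x, y ≠ x → x ∉ T y → m y ≠ x → ¬ G.Adj y x := by
    intro y hy x hyx hx hm hadj
    rcases (hK.adj y hy x hyx).1 hadj with h' | h'
    · exact hx h'
    · exact hm h'.symm
  have adjT : ∀ x ∈ K, ∀ y ∈ T x, x ≠ y → G.Adj x y := fun x hx y hy hxy =>
    (hK.adj x hx y hxy).2 (Or.inl hy)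
  have adjm : ∀ x ∈ K, G.Adj x (m x) := fun x hx =>
    (hK.adj x hx (m x) (fun e => hK.mT x hx (by rw [← e]; exact hK.self x hx))).2 (Or.inr rfl)
  -- old pairs
  have old : ∀ x ∈ P, ∀ y ∈ P, x ≠ y → Pair G v' x y := by
    intro x hx y hy hxy
    have hxd := mem_insert_of_mem (a := x) (b := d) hx
    have hyd := mem_insert_of_mem (a := y) (b := d) hy
    have cv : Pair G v x y := by
      refine ⟨h.adj x hx y hy hxy, Or.inl fun h0 => hem x (h.par x hxd y hyd hxy h0).1, ?_⟩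
      by_cases hT2 : y ∈ T x
      · exact gcd_dvd_of_touch ((h.adj x hx y hy hxy).1 (adjT x (h.PK hx) y hT2 hxy))
      · exact gcd_dvd_of_coprime (h.cop x hx y hy hT2)
    unfold Pair at cv ⊢
    rw [vP x hx, vP y hy]
    exact cv
  -- new against old
  have no : ∀ x ∈ K, x ∉ P → ∀ i ∈ P, i ∉ T x → 0 < (v' x).n →
      (i = m x → Touch (v' x) (v i)) → (i ≠ m x → Far (v' x) (v i)) →
      IsCoprime (v' x).n (v i).n → Pair G v' x i := by
    intro x hx hxP i hi hiT hn ht hf hc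
    have hxi : x ≠ i := fun e => hxP (e ▸ hi)
    by_cases him : i = m x
    · refine Pair.of_touch ?_ ?_ hn (posP i hi)
      · rw [him]; exact adjm x hx
      · rw [vP i hi]; exact ht him
    · refine Pair.of_far (nadj x hx i hxi hiT (Ne.symm him)) ?_ ?_
      · rw [vP i hi]; exact hf him
      · rw [vP i hi]; exact hc
  have insP : ∀ i ∈ P, i ∈ insert d P := fun i hi => mem_insert_of_mem hi
  have ny1 : ∀ i ∈ P, Pair G v' y1 i := by
    intro i hi
    refine no y1 y1K (nPy y1 y1T) i hi ?_ ?_ ?_ ?_ ?_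
    · exact nyP i hi
    · rw [vy1]; exact rp1.1
    · intro hi'; rw [hi', my1] at hi; exact absurd hi (nPs s1 s1T)
    · intro hi'; rw [vy1]; exact (hfar i (insP i hi)).2.2.2.1
    · rw [vy1]; exact cop i (insP i hi) p1 (by simp)
  have ny2 : ∀ i ∈ P, Pair G v' y2 i := by
    intro i hi
    refine no y2 y2K (nPy y2 y2T) i hi ?_ ?_ ?_ ?_ ?_
    · rw [Ty y2 y2T]; exact nyP i hi
    · rw [vy2]; exact rp2.1
    · intro hi'; rw [hi', my2] at hi; exact absurd hi (nPs s2 s2T)
    · intro hi'; rw [vy2]; exact (hfar i (insP i hi)).2.2.2.2.1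
    · rw [vy2]; exact cop i (insP i hi) p2 (by simp)
  have ny3 : ∀ i ∈ P, Pair G v' y3 i := by
    intro i hi
    refine no y3 y3K (nPy y3 y3T) i hi ?_ ?_ ?_ ?_ ?_
    · rw [Ty y3 y3T]; exact nyP i hi
    · rw [vy3]; exact rp3.1
    · rintro rfl; rw [vy3]; exact tp3w
    · intro hi'; rw [vy3]; exact (hfar i (insP i hi)).2.2.2.2.2 hi'
    · rw [vy3]; exact cop i (insP i hi) p3 (by simp)
  have ns1 : ∀ i ∈ P, Pair G v' s1 i := by
    intro i hi
    refine no s1 hs1 (nPs s1 s1T) i hi ?_ ?_ ?_ ?_ ?_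
    · exact nsP i hi
    · rw [vs1]; exact ru1.1
    · intro hi'; rw [hi', h1] at hi; exact absurd hi (nPy y1 y1T)
    · intro hi'; rw [vs1]; exact (hfar i (insP i hi)).1
    · rw [vs1]; exact cop i (insP i hi) u1 (by simp)
  have ns2 : ∀ i ∈ P, Pair G v' s2 i := by
    intro i hi
    refine no s2 s2K (nPs s2 s2T) i hi ?_ ?_ ?_ ?_ ?_
    · rw [Ts s2 s2T]; exact nsP i hi
    · rw [vs2]; exact ru2.1
    · intro hi'; rw [hi', h2] at hi; exact absurd hi (nPy y2 y2T)
    · intro hi'; rw [vs2]; exact (hfar i (insP i hi)).2.1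
    · rw [vs2]; exact cop i (insP i hi) u2 (by simp)
  have ns3 : ∀ i ∈ P, Pair G v' s3 i := by
    intro i hi
    refine no s3 s3K (nPs s3 s3T) i hi ?_ ?_ ?_ ?_ ?_
    · rw [Ts s3 s3T]; exact nsP i hi
    · rw [vs3]; exact ru3.1
    · rintro rfl; rw [vs3]; exact tu3w
    · intro hi'; rw [vs3]; exact (hfar i (insP i hi)).2.2.1 hi'
    · rw [vs3]; exact cop i (insP i hi) u3 (by simp)
  -- new pairs in a triangle
  have q12 : Pair G v' y1 y2 := Pair.of_touch (adjT y1 y1K y2 (by exact y2T) y12)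
    (by rw [vy1, vy2]; exact tp12) (by rw [vy1]; exact rp1.1) (by rw [vy2]; exact rp2.1)
  have q13 : Pair G v' y1 y3 := Pair.of_touch (adjT y1 y1K y3 (by exact y3T) y13)
    (by rw [vy1, vy3]; exact tp13) (by rw [vy1]; exact rp1.1) (by rw [vy3]; exact rp3.1)
  have q23 : Pair G v' y2 y3 := Pair.of_touch (adjT y2 y2K y3 (by rw [Ty y2 y2T]; exact y3T) y23)
    (by rw [vy2, vy3]; exact tp23) (by rw [vy2]; exact rp2.1) (by rw [vy3]; exact rp3.1)
  have r12 : Pair G v' s1 s2 := Pair.of_touch (adjT s1 hs1 s2 s2T s12)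
    (by rw [vs1, vs2]; exact tu12) (by rw [vs1]; exact ru1.1) (by rw [vs2]; exact ru2.1)
  have r13 : Pair G v' s1 s3 := Pair.of_touch (adjT s1 hs1 s3 s3T s13)
    (by rw [vs1, vs3]; exact tu13) (by rw [vs1]; exact ru1.1) (by rw [vs3]; exact ru3.1)
  have r23 : Pair G v' s2 s3 := Pair.of_touch (adjT s2 s2K s3 (by rw [Ts s2 s2T]; exact s3T) s23)
    (by rw [vs2, vs3]; exact tu23) (by rw [vs2]; exact ru2.1) (by rw [vs3]; exact ru3.1)
  -- new pairs across
  have c11 : Pair G v' s1 y1 := Pair.of_touch (by rw [← h1]; exact adjm s1 hs1)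
    (by rw [vs1, vy1]; exact t11) (by rw [vs1]; exact ru1.1) (by rw [vy1]; exact rp1.1)
  have c22 : Pair G v' s2 y2 := Pair.of_touch (by rw [← h2]; exact adjm s2 s2K)
    (by rw [vs2, vy2]; exact t22) (by rw [vs2]; exact ru2.1) (by rw [vy2]; exact rp2.1)
  have cr : ∀ x ∈ K, x ∈ T s1 → ∀ y ∈ T y1, m x ≠ y → Far (v' x) (v' y) →
      ((Int.gcd (v' x).n (v' y).n : ℕ) : ℤ) ^ 2 ∣ det (v' x) (v' y) → Pair G v' x y := by
    intro x hx hxT y hy hm hf hc
    refine Pair.of_far' (nadj x hx y (disj x hxT y hy) ?_ hm) hf hc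
    rw [Ts x hxT]
    exact fun hy' => disj y hy' y hy rfl
  have n3 : ∀ y ∈ T y1, m s3 ≠ y := fun y hy e => nPy y hy (by rw [← e]; exact h3)
  have c12 : Pair G v' s1 y2 := cr s1 hs1 s1T y2 y2T (by rw [h1]; exact y12)
    (by rw [vs1, vy2]; exact f12) (by rw [vs1, vy2]; exact cop2 u1 p2 (by simp) (by simp))
  have c13 : Pair G v' s1 y3 := cr s1 hs1 s1T y3 y3T (by rw [h1]; exact y13)
    (by rw [vs1, vy3]; exact f13) (by rw [vs1, vy3]; exact cop2 u1 p3 (by simp) (by simp))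
  have c21 : Pair G v' s2 y1 := cr s2 s2K s2T y1 y1T (by rw [h2]; exact y12.symm)
    (by rw [vs2, vy1]; exact f21) (by rw [vs2, vy1]; exact cop2 u2 p1 (by simp) (by simp))
  have c23 : Pair G v' s2 y3 := cr s2 s2K s2T y3 y3T (by rw [h2]; exact y23)
    (by rw [vs2, vy3]; exact f23) (by rw [vs2, vy3]; exact cop2 u2 p3 (by simp) (by simp))
  have c31 : Pair G v' s3 y1 := cr s3 s3K s3T y1 y1T (n3 y1 y1T)
    (by rw [vs3, vy1]; exact f31) (by rw [vs3, vy1]; exact cop2 u3 p1 (by simp) (by simp))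
  have c32 : Pair G v' s3 y2 := cr s3 s3K s3T y2 y2T (n3 y2 y2T)
    (by rw [vs3, vy2]; exact f32) (by rw [vs3, vy2]; exact cop2 u3 p2 (by simp) (by simp))
  have c33 : Pair G v' s3 y3 := cr s3 s3K s3T y3 y3T (n3 y3 y3T)
    (by rw [vs3, vy3]; exact f33) (by rw [vs3, vy3]; exact cop2 u3 p3 (by simp) (by simp))
  refine ⟨v', conf_of_pair ?_ ?_⟩
  · intro x hx
    rcases key x hx with h' | h' | h' | h' | h' | h' | h'
    · rw [vP x h']
      exact red_of_coprime (h.old.pos x (insP x h')) (h.old.prim x (insP x h'))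
    · rw [h', vs1]; exact ru1
    · rw [h', vs2]; exact ru2
    · rw [h', vs3]; exact ru3
    · rw [h', vy1]; exact rp1
    · rw [h', vy2]; exact rp2
    · rw [h', vy3]; exact rp3
  · intro x hx y hy hxy
    rcases key x hx with h' | h' | h' | h' | h' | h' | h'
    · rcases key y hy with g | g | g | g | g | g | g
      · exact old x h' y g hxy
      · rw [g]; exact (ns1 x h').symm
      · rw [g]; exact (ns2 x h').symm
      · rw [g]; exact (ns3 x h').symm
      · rw [g]; exact (ny1 x h').symm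
      · rw [g]; exact (ny2 x h').symm
      · rw [g]; exact (ny3 x h').symm
    · rw [h'] at hxy ⊢
      rcases key y hy with g | g | g | g | g | g | g
      · exact ns1 y g
      · exact absurd g.symm hxy
      · rw [g]; exact r12
      · rw [g]; exact r13
      · rw [g]; exact c11
      · rw [g]; exact c12
      · rw [g]; exact c13
    · rw [h'] at hxy ⊢
      rcases key y hy with g | g | g | g | g | g | g
      · exact ns2 y g
      · rw [g]; exact r12.symm
      · exact absurd g.symm hxy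
      · rw [g]; exact r23
      · rw [g]; exact c21
      · rw [g]; exact c22
      · rw [g]; exact c23
    · rw [h'] at hxy ⊢
      rcases key y hy with g | g | g | g | g | g | g
      · exact ns3 y g
      · rw [g]; exact r13.symm
      · rw [g]; exact r23.symm
      · exact absurd g.symm hxy
      · rw [g]; exact c31
      · rw [g]; exact c32
      · rw [g]; exact c33
    · rw [h'] at hxy ⊢
      rcases key y hy with g | g | g | g | g | g | g
      · exact ny1 y g
      · rw [g]; exact c11.symm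
      · rw [g]; exact c21.symm
      · rw [g]; exact c31.symm
      · exact absurd g.symm hxy
      · rw [g]; exact q12
      · rw [g]; exact q13
    · rw [h'] at hxy ⊢
      rcases key y hy with g | g | g | g | g | g | g
      · exact ny2 y g
      · rw [g]; exact c12.symm
      · rw [g]; exact c22.symm
      · rw [g]; exact c32.symm
      · rw [g]; exact q12.symm
      · exact absurd g.symm hxy
      · rw [g]; exact q23
    · rw [h'] at hxy ⊢
      rcases key y hy with g | g | g | g | g | g | g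
      · exact ny3 y g
      · rw [g]; exact c13.symm
      · rw [g]; exact c23.symm
      · rw [g]; exact c33.symm
      · rw [g]; exact q13.symm
      · rw [g]; exact q23.symm
      · exact absurd g.symm hxy

end PSD

section
variable {V : Type*} [DecidableEq V] {G : SimpleGraph V} {K : Finset V} {T : V → Finset V}
  {m : V → V} {B : ℕ} {d a b : V} {P : Finset V} {Z : Finset ℕ} {v : V → Vec} {Sp : Finset V}

/-- Last two triangles joined by exactly two links. -/
theorem PS.finalD (hK : TriK G K T m) (hB : 4 * K.card + 18 ≤ B)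
    (h : PS G K T m B d a b P Z v ∅) {x1 x2 x3 y3 : V} (hx1 : x1 ∈ K)
    (hT : T x1 = {x1, x2, x3}) (hT' : T (m x1) = {m x1, m x2, y3}) (hne : m x1 ∉ T x1)
    (h3 : m x3 ∈ P) (h3' : m y3 ∈ P) (hd : d ∈ T x1 ∪ T (m x1))
    (hP : P = K \ (T x1 ∪ T (m x1))) :
    ∃ v', Conf G K v' :=
  PSD.core hK h hx1 hT hT' rfl rfl hne h3 h3' hP

end

end Pool.Agent.Tri
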