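import Mathlib
import Pool.Agent.Tri.Core
import Pool.Agent.Tri.Sel

set_option autoImplicit false
set_option maxHeartbeats 4000000

open Finset

namespace Pool.Agent.Tri

lemma fv_coprime_of_prime {x y : ℤ} (h : ∀ q : ℕ, q.Prime → (q : ℤ) ∣ x → (q : ℤ) ∣ y → False) :
    IsCoprime x y := by
  rw [Int.isCoprime_iff_gcd_eq_one]
  by_contra hne
  obtain ⟨q, hq, hd⟩ := Nat.exists_prime_and_dvd hne
  have hd' : (q : ℤ) ∣ (Int.gcd x y : ℤ) := Int.natCast_dvd_natCast.2 hd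
  exact h q hq (hd'.trans (Int.gcd_dvd_left ..)) (hd'.trans (Int.gcd_dvd_right ..))

lemma fv_not_dvd_small {N m : ℤ} (hm : m ≠ 0) (h : |m| < N) : ¬ N ∣ m := fun hd =>
  hm (Int.eq_zero_of_abs_lt_dvd hd h)

lemma fv_far_of {u w : Vec} (h0 : det u w ≠ 0) (h1 : det u w ≠ u.n * w.n)
    (h2 : det u w ≠ -(u.n * w.n)) : Far u w :=
  ⟨h0, fun h => (eq_or_eq_neg_of_abs_eq h).elim h1 h2⟩

/-- A frame vector. -/
lemma fv_exists_frame1 {W : Vec} (h : IsCoprime W.x W.y) :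
    ∃ f1 f2 : ℤ, f1 * W.y - f2 * W.x = 1 := by
  obtain ⟨a, b, hab⟩ := h
  exact ⟨b, -a, by linear_combination hab⟩

/-- The choice of the sign. -/
lemma fv_exists_sign (x y : ℤ) (hy : 0 < y) (hx : x ≠ 0) :
    ∃ e : ℤ, (e = 1 ∨ e = -1) ∧ x ≠ e * y := by
  rcases lt_or_gt_of_ne hx with h | h
  · exact ⟨1, Or.inl rfl, by intro h'; nlinarith⟩
  · exact ⟨-1, Or.inr rfl, by intro h'; nlinarith⟩

section

variable {ι : Type*} [DecidableEq ι] {P F : Finset ι} {Z : Finset ℕ} {B : ℕ} {v : ι → Vec}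

/-- The common part of STEPB and FINALV. -/
theorem stepB_core (h : Old P F Z B v) {w1 w2 : ι} (h1 : w1 ∈ F) (h2 : w2 ∈ F) (h12 : w1 ≠ w2)
    (hpar1 : ∀ i ∈ P, i ≠ w1 → det (v i) (v w1) ≠ 0)
    (hpar2 : ∀ i ∈ P, i ≠ w2 → det (v i) (v w2) ≠ 0)
    (hg : ∀ p ∈ Z, ∀ i ∈ F, i ≠ w1 → ¬ (p : ℤ) ∣ det (v i) (v w1))
    {f1 f2 e : ℤ} (hf : f1 * (v w1).y - f2 * (v w1).x = 1) (he : det (v w1) (v w2) ≠ e * (v w1).n * (v w2).n) (S0 : ℤ) (E : Set ℤ) (hE : E.Finite) :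
    ∃ (s : ℤ) (N : ℕ), N.Prime ∧ S0 < (N : ℤ) ∧ NN (v w1) (v w2) f1 f2 s = N ∧ s ∉ E ∧
      (IsCoprime (P1 (v w1) f1 f2 s).x (P1 (v w1) f1 f2 s).y ∧
        IsCoprime (P2 (v w1) (v w2) f1 f2 e s).x (P2 (v w1) (v w2) f1 f2 e s).y ∧
        IsCoprime (P3 (v w1) (v w2) f1 f2 e s).x (P3 (v w1) (v w2) f1 f2 e s).y) ∧
      (∀ i ∈ P, i ≠ w1 → Far (P1 (v w1) f1 f2 s) (v i)) ∧
      (∀ i ∈ P, i ≠ w2 → Far (P2 (v w1) (v w2) f1 f2 e s) (v i)) ∧
      (∀ i ∈ P, Far (P3 (v w1) (v w2) f1 f2 e s) (v i)) ∧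
      (∀ p ∈ Z, ∀ i ∈ F, i ≠ w1 → i ≠ w2 →
        ¬ (p : ℤ) ∣ det (P3 (v w1) (v w2) f1 f2 e s) (v i)) ∧
      (∀ i ∈ F, i ≠ w1 → i ≠ w2 → ¬ (N : ℤ) ∣ det (P3 (v w1) (v w2) f1 f2 e s) (v i)) ∧
      (∀ i ∈ P, ∀ j ∈ P, det (v i) (v j) ≠ 0 → ¬ (N : ℤ) ∣ det (v i) (v j)) ∧
      ∀ p ∈ Z, ¬ (p : ℤ) ∣ s := by
  classical
  have hP1 := h.sub h1
  have hP2 := h.sub h2
  set W1 := v w1 with hW1
  set W2 := v w2 with hW2
  have hn1 : 0 < W1.n := h.pos _ hP1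
  have hn2 : 0 < W2.n := h.pos _ hP2
  set β := det W1 W2 with hβ
  have hβ0 : β ≠ 0 := by
    have := hpar2 w1 hP1 h12
    exact this
  set α := f1 * W2.y - f2 * W2.x with hα
  -- coprimality
  have hαβ : IsCoprime α β := by
    obtain ⟨a, b, hab⟩ := h.prim _ hP2
    refine ⟨a * W1.x + b * W1.y, -(a * f1 + b * f2), ?_⟩
    rw [← hW2] at hab
    rw [hα, hβ, ← hab]
    simp only [det]
    linear_combination (-(a * W2.x + b * W2.y)) * hf + (0 : ℤ) * hab + 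
      (2 * (a * W2.x + b * W2.y)) * hf
  have hpβ : ∀ p ∈ Z, ¬ (p : ℤ) ∣ β := by
    intro p hp hd
    refine hg p hp w2 h2 (Ne.symm h12) ?_
    rw [det_swap]
    exact (dvd_neg).2 hd
  have hnβ : IsCoprime W1.n β := by
    rcases h.den _ hP1 with hn | ⟨p, hp, hn⟩
    · rw [← hW1] at hn
      rw [hn]
      exact isCoprime_one_left
    · rw [← hW1] at hn
      rw [hn]
      exact (Nat.prime_iff_prime_int.1 (h.prime p hp).1).coprime_iff_not_dvd.2 (hpβ p hp)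
  have hab : IsCoprime (W1.n * α) β := hnβ.mul_left hαβ
  -- quadratics
  choose bq cq hq using fun V : Vec => quad_P3 (W1 := W1) (W2 := W2) (f1 := f1) (f2 := f2)
    (e := e) V
  set Q : ℕ → Finset (ℤ × ℤ × ℤ) := fun _ => insert (0, 1, 0)
    (((F.erase w1).erase w2).image fun i => (-(β * det W1 (v i)), bq (v i), cq (v i))) with hQ
  set E' : Set ℤ := E ∪ ⋃ i ∈ P, ((if i = w1 then ∅ else
      ({s | det (P1 W1 f1 f2 s) (v i) = 0} ∪ {s | det (P1 W1 f1 f2 s) (v i) = (v i).n} ∪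
      {s | det (P1 W1 f1 f2 s) (v i) = -(v i).n})) ∪ (if i = w2 then ∅ else
      ({s | det (P2 W1 W2 f1 f2 e s) (v i) = 0 * NN W1 W2 f1 f2 s} ∪
      {s | det (P2 W1 W2 f1 f2 e s) (v i) = (v i).n * NN W1 W2 f1 f2 s} ∪
      {s | det (P2 W1 W2 f1 f2 e s) (v i) = -(v i).n * NN W1 W2 f1 f2 s})) ∪
      ({s | det (P3 W1 W2 f1 f2 e s) (v i) = 0 * NN W1 W2 f1 f2 s} ∪
      {s | det (P3 W1 W2 f1 f2 e s) (v i) = (v i).n * NN W1 W2 f1 f2 s} ∪
      {s | det (P3 W1 W2 f1 f2 e s) (v i) = -(v i).n * NN W1 W2 f1 f2 s})) with hE'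
  have hE'f : E'.Finite := by
    refine hE.union ((P.finite_toSet).biUnion fun i hi => ?_)
    have hi' : i ∈ P := hi
    have hV : (v i).x ≠ 0 ∨ (v i).y ≠ 0 := by
      by_contra hcon
      push Not at hcon
      have := h.prim i hi'
      rw [hcon.1, hcon.2] at this
      exact not_isCoprime_zero_zero this
    refine ((?_ : Set.Finite _).union ?_).union ?_
    · split_ifs with hi1
      · exact Set.finite_empty
      · have hd : det W1 (v i) ≠ 0 := by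
          rw [det_swap]
          exact neg_ne_zero.2 (hpar1 i hi' hi1)
        exact ((fin_P1 hd _).union (fin_P1 hd _)).union (fin_P1 hd _)
    · split_ifs with hi1
      · exact Set.finite_empty
      · have hd : det W2 (v i) ≠ 0 := by
          rw [det_swap]
          exact neg_ne_zero.2 (hpar2 i hi' hi1)
        exact ((fin_P2 hf he hd _).union (fin_P2 hf he hd _)).union (fin_P2 hf he hd _)
    · exact ((fin_P3 hf hβ0 he hV _).union (fin_P3 hf hβ0 he hV _)).union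
        (fin_P3 hf hβ0 he hV _)
  set S1 : ℤ := |S0| + ∑ i ∈ P, ∑ j ∈ P, |det (v i) (v j)| + |β - e * W1.n * W2.n| with hS1
  obtain ⟨s, N, hNp, hN, hNs, hsE, hsQ⟩ := sel Z (fun p hp => (h.prime p hp).1) Q (by
      intro p hp
      have hb := h.bound
      have hp' := (h.prime p hp).2
      have hc : (Q p).card ≤ F.card + 1 := by
        refine (card_insert_le _ _).trans (Nat.add_le_add_right ?_ 1)
        refine card_image_le.trans ?_
        exact card_le_card ((erase_subset _ _).trans (erase_subset _ _))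
      omega) (by
      intro p hp q hq'
      rw [hQ] at hq'
      simp only [mem_insert, mem_image, mem_erase] at hq'
      rcases hq' with rfl | ⟨i, ⟨hi2, hi1, hi⟩, rfl⟩
      · rintro ⟨_, hd, _⟩
        have := (h.prime p hp).1.one_lt
        have h3 := Int.le_of_dvd one_pos hd
        omega
      · rintro ⟨hd, _, _⟩
        have hd' := dvd_neg.1 hd
        rcases (Nat.prime_iff_prime_int.1 (h.prime p hp).1).dvd_or_dvd hd' with h3 | h3
        · exact hpβ p hp h3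
        · refine hg p hp i hi hi1 ?_
          rw [det_swap]
          exact dvd_neg.2 h3)
    (W1.n * α) β hab hβ0 E' hE'f S1
  have hNN : NN W1 W2 f1 f2 s = N := by
    rw [NN_eq, ← hNs]
    ring
  have hS0N : S0 < N := by
    refine lt_of_le_of_lt ?_ hN
    rw [hS1]
    have h3 : 0 ≤ ∑ i ∈ P, ∑ j ∈ P, |det (v i) (v j)| :=
      sum_nonneg fun i _ => sum_nonneg fun j _ => abs_nonneg _
    have h4 := abs_nonneg (β - e * W1.n * W2.n)
    have h5 := le_abs_self S0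
    linarith
  have hdetN : ∀ i ∈ P, ∀ j ∈ P, |det (v i) (v j)| < N := by
    intro i hi j hj
    refine lt_of_le_of_lt ?_ hN
    have h3 : |det (v i) (v j)| ≤ ∑ i ∈ P, ∑ j ∈ P, |det (v i) (v j)| := by
      refine le_trans ?_ (single_le_sum (f := fun i => ∑ j ∈ P, |det (v i) (v j)|)
        (fun i _ => sum_nonneg fun j _ => abs_nonneg _) hi)
      exact single_le_sum (f := fun j => |det (v i) (v j)|) (fun j _ => abs_nonneg _) hj
    rw [hS1]
    have h4 := abs_nonneg (β - e * W1.n * W2.n)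
    have h5 := abs_nonneg S0
    linarith
  have hβN : |β - e * W1.n * W2.n| < N := by
    refine lt_of_le_of_lt ?_ hN
    rw [hS1]
    have h3 : 0 ≤ ∑ i ∈ P, ∑ j ∈ P, |det (v i) (v j)| :=
      sum_nonneg fun i _ => sum_nonneg fun j _ => abs_nonneg _
    have h5 := abs_nonneg S0
    linarith
  have hβe : β - e * W1.n * W2.n ≠ 0 := sub_ne_zero.2 he
  have hNint : Prime (N : ℤ) := Nat.prime_iff_prime_int.1 hNp
  have hNβ : ¬ (N : ℤ) ∣ β - e * W1.n * W2.n := fv_not_dvd_small hβe hβN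
  have hps : ∀ p ∈ Z, ¬ (p : ℤ) ∣ s := by
    intro p hp hd
    refine hsQ p hp (0, 1, 0) (mem_insert_self _ _) ?_
    simpa using hd
  have hEnot := hsE
  rw [hE'] at hEnot
  simp only [Set.mem_union, Set.mem_iUnion, not_or, not_exists] at hEnot
  obtain ⟨hsE0, hsE1⟩ := hEnot
  refine ⟨s, N, hNp, hS0N, hNN, hsE0, ⟨?_, ?_, ?_⟩, ?_, ?_, ?_, ?_, ?_, ?_, hps⟩
  · -- primitivity of u1
    refine fv_coprime_of_prime fun q hq hx hy => ?_
    have hqint : Prime (q : ℤ) := Nat.prime_iff_prime_int.1 hq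
    have hd : (q : ℤ) ∣ W1.n := by
      rw [← det_P1_W1 hf s, det]
      exact dvd_sub (hx.mul_right _) (hy.mul_right _)
    rcases h.den _ hP1 with hn | ⟨p, hp, hn⟩
    · rw [← hW1] at hn
      rw [hn] at hd
      exact hqint.not_isUnit (isUnit_of_dvd_one hd)
    · rw [← hW1] at hn
      rw [hn] at hd
      have hqp : q = p := (Nat.prime_dvd_prime_iff_eq hq (h.prime p hp).1).1
        (Int.natCast_dvd_natCast.1 hd)
      subst hqp
      have hx' : (q : ℤ) ∣ s * W1.x := by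
        have h3 : s * W1.x = (P1 W1 f1 f2 s).x - q * f1 := by
          simp only [P1, hn]
          ring
        rw [h3]
        exact dvd_sub hx (dvd_mul_right _ _)
      have hy' : (q : ℤ) ∣ s * W1.y := by
        have h3 : s * W1.y = (P1 W1 f1 f2 s).y - q * f2 := by
          simp only [P1, hn]
          ring
        rw [h3]
        exact dvd_sub hy (dvd_mul_right _ _)
      have h4 := (hqint.dvd_or_dvd hx').resolve_left (hps q hp)
      have h5 := (hqint.dvd_or_dvd hy').resolve_left (hps q hp)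
      obtain ⟨a, b, hab'⟩ := h.prim _ hP1
      refine hqint.not_isUnit (isUnit_of_dvd_one ?_)
      rw [← hab']
      exact dvd_add (h4.mul_left _) (h5.mul_left _)
  · refine fv_coprime_of_prime fun q hq hx hy => ?_
    have hd : (q : ℤ) ∣ N := by
      rw [← hNN, ← det_P1_P2 (e := e) s, det]
      exact dvd_sub (hy.mul_left _) (hx.mul_left _)
    have hqN : q = N := (Nat.prime_dvd_prime_iff_eq hq hNp).1 (Int.natCast_dvd_natCast.1 hd)
    subst hqN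
    apply hNβ
    rw [← dvd_neg, ← det_P2_W1 hf s, det]
    exact dvd_sub (hx.mul_right _) (hy.mul_right _)
  · refine fv_coprime_of_prime fun q hq hx hy => ?_
    have hd : (q : ℤ) ∣ N := by
      rw [← dvd_neg, ← hNN, ← det_P1_P3 (e := e) s, det]
      exact dvd_sub (hy.mul_left _) (hx.mul_left _)
    have hqN : q = N := (Nat.prime_dvd_prime_iff_eq hq hNp).1 (Int.natCast_dvd_natCast.1 hd)
    subst hqN
    apply hNβ
    have h3 : β - e * W1.n * W2.n = det (P3 W1 W2 f1 f2 e s) W1 + q * W1.n := by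
      rw [det_P3_W1 hf s, hNN]
      ring
    rw [h3]
    refine dvd_add ?_ (dvd_mul_right _ _)
    rw [det]
    exact dvd_sub (hx.mul_right _) (hy.mul_right _)
  · intro i hi hi1
    have h3 := hsE1 i hi
    simp only [if_neg hi1, Set.mem_union, Set.mem_ofPred_eq, not_or] at h3
    obtain ⟨⟨⟨⟨k0, k1⟩, k2⟩, _⟩, _⟩ := h3
    refine fv_far_of k0 ?_ ?_
    · simpa [P1] using k1
    · simpa [P1] using k2
  · intro i hi hi1
    have h3 := hsE1 i hi
    simp only [if_neg hi1, Set.mem_union, Set.mem_ofPred_eq, not_or] at h3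
    obtain ⟨⟨_, ⟨⟨k0, k1⟩, k2⟩⟩, _⟩ := h3
    refine fv_far_of (by simpa using k0) ?_ ?_
    · show det _ _ ≠ NN W1 W2 f1 f2 s * (v i).n
      rw [mul_comm]
      exact k1
    · show det _ _ ≠ -(NN W1 W2 f1 f2 s * (v i).n)
      rw [mul_comm, ← neg_mul]
      exact k2
  · intro i hi
    have h3 := hsE1 i hi
    simp only [Set.mem_union, Set.mem_ofPred_eq, not_or] at h3
    obtain ⟨_, ⟨⟨k0, k1⟩, k2⟩⟩ := h3
    refine fv_far_of (by simpa using k0) ?_ ?_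
    · show det _ _ ≠ NN W1 W2 f1 f2 s * (v i).n
      rw [mul_comm]
      exact k1
    · show det _ _ ≠ -(NN W1 W2 f1 f2 s * (v i).n)
      rw [mul_comm, ← neg_mul]
      exact k2
  · intro p hp i hi hi1 hi2
    rw [hq]
    refine hsQ p hp (-(β * det W1 (v i)), bq (v i), cq (v i)) (mem_insert_of_mem ?_)
    exact mem_image.2 ⟨i, mem_erase.2 ⟨hi2, mem_erase.2 ⟨hi1, hi⟩⟩, rfl⟩
  · intro i hi hi1 hi2 hd
    rw [← hNN] at hd
    have h3 := dvd_P3 hf hd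
    rw [hNN] at h3
    rcases hNint.dvd_or_dvd h3 with h4 | h4
    · exact hNβ h4
    · have h5 : det W2 (v i) ≠ 0 := by
        rw [det_swap]
        exact neg_ne_zero.2 (hpar2 i (h.sub hi) hi2)
      exact fv_not_dvd_small h5 (hdetN w2 hP2 i (h.sub hi)) h4
  · intro i hi j hj hd
    exact fv_not_dvd_small hd (hdetN i hi j hj)

theorem stepB (h : Old P F Z B v) {w1 w2 : ι} (h1 : w1 ∈ F) (h2 : w2 ∈ F) (h12 : w1 ≠ w2)
    (hpar1 : ∀ i ∈ P, i ≠ w1 → det (v i) (v w1) ≠ 0)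
    (hpar2 : ∀ i ∈ P, i ≠ w2 → det (v i) (v w2) ≠ 0)
    (hg : ∀ p ∈ Z, ∀ i ∈ F, i ≠ w1 → ¬ (p : ℤ) ∣ det (v i) (v w1)) (S0 : ℤ) :
    ∃ (N : ℕ) (u1 u2 u3 : Vec), N.Prime ∧ S0 < (N : ℤ) ∧ (u1.n = 1 ∧ u2.n = N ∧ u3.n = N) ∧
      (IsCoprime u1.x u1.y ∧ IsCoprime u2.x u2.y ∧ IsCoprime u3.x u3.y) ∧
      (Touch u1 u2 ∧ Touch u1 u3 ∧ Touch u2 u3) ∧ Touch u1 (v w1) ∧ Touch u2 (v w2) ∧
      (∀ i ∈ P, i ≠ w1 → Far u1 (v i)) ∧ (∀ i ∈ P, i ≠ w2 → Far u2 (v i)) ∧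
      (∀ i ∈ P, Far u3 (v i)) ∧
      (∀ p ∈ Z, ∀ i ∈ F, i ≠ w1 → i ≠ w2 → ¬ (p : ℤ) ∣ det u3 (v i)) ∧
      (∀ i ∈ F, i ≠ w1 → i ≠ w2 → ¬ (N : ℤ) ∣ det u3 (v i)) ∧
      (∀ i ∈ P, ∀ j ∈ P, det (v i) (v j) ≠ 0 → ¬ (N : ℤ) ∣ det (v i) (v j)) := by
  have hP1 := h.sub h1
  have hP2 := h.sub h2
  obtain ⟨f1, f2, hf⟩ := fv_exists_frame1 (h.prim _ hP1)
  obtain ⟨e, he1, he⟩ := fv_exists_sign (det (v w1) (v w2)) ((v w1).n * (v w2).n)
    (mul_pos (h.pos _ hP1) (h.pos _ hP2)) (hpar2 w1 hP1 h12)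
  rw [← mul_assoc] at he
  obtain ⟨s, N, hNp, hS0, hNN, -, hprim, hfar1, hfar2, hfar3, hZ, hNd, hNP, -⟩ :=
    stepB_core h h1 h2 h12 hpar1 hpar2 hg hf he S0 ∅ Set.finite_empty
  have hN0 : (0 : ℤ) ≤ N := Int.natCast_nonneg N
  refine ⟨N, P1 (v w1) f1 f2 s, P2 (v w1) (v w2) f1 f2 e s, P3 (v w1) (v w2) f1 f2 e s, hNp, hS0,
    ⟨rfl, hNN, hNN⟩, hprim, ⟨?_, ?_, ?_⟩, ?_, ?_, hfar1, hfar2, hfar3, hZ, hNd, hNP⟩
  · show |det _ _| = 1 * NN (v w1) (v w2) f1 f2 s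
    rw [det_P1_P2, hNN, abs_of_nonneg hN0, one_mul]
  · show |det _ _| = 1 * NN (v w1) (v w2) f1 f2 s
    rw [det_P1_P3, hNN, abs_neg, abs_of_nonneg hN0, one_mul]
  · show |det _ _| = NN (v w1) (v w2) f1 f2 s * NN (v w1) (v w2) f1 f2 s
    rw [det_P2_P3, hNN, abs_of_nonneg (mul_nonneg hN0 hN0)]
  · show |det _ _| = 1 * (v w1).n
    rw [det_P1_W1 hf, abs_of_pos (h.pos _ hP1), one_mul]
  · show |det _ _| = NN (v w1) (v w2) f1 f2 s * (v w2).n
    rw [det_P2_W2, hNN, abs_mul, abs_mul, abs_of_nonneg hN0, abs_of_pos (h.pos _ hP2)]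
    rcases he1 with rfl | rfl <;> simp [mul_comm]

end

end Pool.Agent.Tri
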