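import Mathlib
import Pool.Agent.Tri.Core
import Pool.Agent.Tri.Sel
import Pool.Agent.Tri.Red
import Pool.Agent.Tri.StepB

set_option autoImplicit false
set_option maxHeartbeats 4000000

open Finset

namespace Pool.Agent.Tri

/-! ### Polynomials -/

section poly

variable {ν β a0 a1 b0 b1 : ℤ}

lemma fv_evq {g : ℤ → ℤ} (c0 c1 c2 c3 : ℤ) (hc : ¬ (c0 = 0 ∧ c1 = 0 ∧ c2 = 0 ∧ c3 = 0))
    (hg : ∀ s, g s = c0 + c1 * s + c2 * s ^ 2 + c3 * s ^ 3) :
    ∀ᶠ s in Filter.cofinite, g s ≠ 0 := by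
  rw [Filter.eventually_cofinite]
  refine (finite_quartic c0 c1 c2 c3 0 (by tauto)).subset fun s hs => ?_
  simp only [Set.mem_ofPred_eq, not_not] at hs ⊢
  rw [hg] at hs
  linarith

/-- cubic leading term -/
lemma fv_ev1 (hβ : β ≠ 0) (ha : a1 ≠ 0) (α l μ γ : ℤ) (hl : l ≠ 0) :
    ∀ᶠ s in Filter.cofinite,
      α * (ν + s * β) + (l * (-(ν + s * β) * (a0 + s * a1) - (b0 + s * b1)) + μ * (ν + s * β)) *
        (a0 + s * a1) + γ * (-(ν + s * β) * (a0 + s * a1) - (b0 + s * b1)) ≠ 0 := by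
  refine fv_evq (α * ν + (l * (-ν * a0 - b0) + μ * ν) * a0 + γ * (-ν * a0 - b0))
    (α * β + (l * (-ν * a0 - b0) + μ * ν) * a1 + (l * (-(ν * a1 + β * a0) - b1) + μ * β) * a0 +
      γ * (-(ν * a1 + β * a0) - b1))
    ((l * (-(ν * a1 + β * a0) - b1) + μ * β) * a1 + l * (-(β * a1)) * a0 + γ * (-(β * a1)))
    (-(l * β * a1 * a1)) ?_ fun s => by ring
  rintro ⟨_, _, _, h⟩
  have : l * β * a1 * a1 ≠ 0 := by positivity
  exact this (by linarith)

/-- value at the zero of `N` -/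
lemma fv_ev2 (hβ : β ≠ 0) (hκ : β * b0 - ν * b1 ≠ 0) (α l μ γ : ℤ) (hl : l ≠ 0) :
    ∀ᶠ s in Filter.cofinite,
      α * (ν + s * β) ^ 2 + (l * (-(ν + s * β) * (a0 + s * a1) - (b0 + s * b1)) +
        μ * (ν + s * β)) * (b0 + s * b1) +
        γ * ((-(ν + s * β) * (a0 + s * a1) - (b0 + s * b1)) * (ν + s * β)) ≠ 0 := by
  refine fv_evq (α * ν ^ 2 + (l * (-ν * a0 - b0) + μ * ν) * b0 + γ * ((-ν * a0 - b0) * ν))
    (2 * α * ν * β + (l * (-ν * a0 - b0) + μ * ν) * b1 +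
      (l * (-(ν * a1 + β * a0) - b1) + μ * β) * b0 +
      γ * ((-ν * a0 - b0) * β + (-(ν * a1 + β * a0) - b1) * ν))
    (α * β ^ 2 + (l * (-(ν * a1 + β * a0) - b1) + μ * β) * b1 + l * (-(β * a1)) * b0 +
      γ * ((-(ν * a1 + β * a0) - b1) * β + (-(β * a1)) * ν))
    (l * (-(β * a1)) * b1 + γ * (-(β * a1) * β)) ?_ fun s => by ring
  rintro ⟨h0, h1, h2, h3⟩
  have h4 : l * β * (β * b0 - ν * b1) ^ 2 = 0 := by
    linear_combination (-β ^ 3) * h0 + (ν * β ^ 2) * h1 - (ν ^ 2 * β) * h2 + ν ^ 3 * h3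
  have : l * β * (β * b0 - ν * b1) ^ 2 ≠ 0 := by positivity
  exact this h4

/-- quadratic leading term -/
lemma fv_ev3 (hβ : β ≠ 0) (ha : a1 ≠ 0) (μ : ℤ) :
    ∀ᶠ s in Filter.cofinite,
      (-(ν + s * β) * (a0 + s * a1) - (b0 + s * b1)) + μ * (ν + s * β) ≠ 0 := by
  refine fv_evq (-ν * a0 - b0 + μ * ν) (-(ν * a1 + β * a0) - b1 + μ * β) (-(β * a1)) 0 ?_
    fun s => by ring
  rintro ⟨_, _, h, _⟩
  have : β * a1 ≠ 0 := by positivity
  exact this (by linarith)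

lemma fv_ev7 (hβ : β ≠ 0) (hκ : β * b0 - ν * b1 ≠ 0) (μ γ : ℤ) (hγ : γ ≠ 0) :
    ∀ᶠ s in Filter.cofinite,
      (ν + s * β) * (a0 + s * a1 + μ) + γ * (-(ν + s * β) * (a0 + s * a1) - (b0 + s * b1)) ≠
        0 := by
  refine fv_evq (ν * (a0 + μ) + γ * (-ν * a0 - b0))
    (β * (a0 + μ) + ν * a1 + γ * (-(ν * a1 + β * a0) - b1))
    (β * a1 + γ * (-(β * a1))) 0 ?_ fun s => by ring
  rintro ⟨h0, h1, h2, _⟩
  have h4 : γ * β * (β * b0 - ν * b1) = 0 := by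
    linear_combination (-β ^ 2) * h0 + (ν * β) * h1 - (ν ^ 2) * h2
  have : γ * β * (β * b0 - ν * b1) ≠ 0 := by positivity
  exact this h4

lemma fv_ev8 (hβ : β ≠ 0) (ha : a1 ≠ 0) (hκ : β * b0 - ν * b1 ≠ 0) (α γ : ℤ) :
    ∀ᶠ s in Filter.cofinite,
      α * (ν + s * β) + (b0 + s * b1) + γ * (-(ν + s * β) * (a0 + s * a1) - (b0 + s * b1)) ≠
        0 := by
  refine fv_evq (α * ν + b0 + γ * (-ν * a0 - b0)) (α * β + b1 + γ * (-(ν * a1 + β * a0) - b1))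
    (γ * (-(β * a1))) 0 ?_ fun s => by ring
  rintro ⟨h0, h1, h2, _⟩
  have hγ : γ = 0 := by
    by_contra hγ
    have : γ * (β * a1) ≠ 0 := by positivity
    exact this (by linarith)
  subst hγ
  exact hκ (by linear_combination β * h0 - ν * h1)

lemma fv_ev9 (ha : a1 ≠ 0) (μ : ℤ) : ∀ᶠ s in Filter.cofinite, a0 + s * a1 + μ ≠ 0 := by
  refine fv_evq (a0 + μ) a1 0 0 ?_ fun s => by ring
  rintro ⟨_, h, _, _⟩
  exact ha h

end poly

/-! ### Reduction of vectors -/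

/-- `u` is a reduced form of `X`. -/
def FvRedTo (u X : Vec) : Prop := 0 < u.n ∧ ∃ t : ℤ, t ≠ 0 ∧ t * u.x = X.x ∧ t * u.y = X.y ∧
  t * u.n = X.n

lemma FvRedTo.self {u : Vec} (h : 0 < u.n) : FvRedTo u u :=
  ⟨h, 1, one_ne_zero, one_mul _, one_mul _, one_mul _⟩

lemma FvRedTo.dvd {u X : Vec} (h : FvRedTo u X) : u.n ∣ X.n := by
  obtain ⟨_, t, _, _, _, h⟩ := h
  exact ⟨t, by rw [← h]; ring⟩

lemma FvRedTo.touch {u w X Y : Vec} (hu : FvRedTo u X) (hw : FvRedTo w Y)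
    (h : det X Y = X.n * Y.n ∨ det X Y = -(X.n * Y.n)) : Touch u w := by
  obtain ⟨hu0, t, ht, hx, hy, hn⟩ := hu
  obtain ⟨hw0, r, hr, kx, ky, kn⟩ := hw
  have h1 : det X Y = (t * r) * det u w := by
    simp only [det, ← hx, ← hy, ← kx, ← ky]
    ring
  have htr : t * r ≠ 0 := mul_ne_zero ht hr
  have h2 : det u w = u.n * w.n ∨ det u w = -(u.n * w.n) := by
    rcases h with h | h
    · left
      apply mul_left_cancel₀ htr
      rw [← h1, h, ← hn, ← kn]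
      ring
    · right
      apply mul_left_cancel₀ htr
      rw [← h1, h, ← hn, ← kn]
      ring
  unfold Touch
  rcases h2 with h2 | h2
  · rw [h2, abs_of_pos (mul_pos hu0 hw0)]
  · rw [h2, abs_neg, abs_of_pos (mul_pos hu0 hw0)]

lemma FvRedTo.far {u w X Y : Vec} (hu : FvRedTo u X) (hw : FvRedTo w Y) (h0 : det X Y ≠ 0)
    (h1 : det X Y ≠ X.n * Y.n) (h2 : det X Y ≠ -(X.n * Y.n)) : Far u w := by
  obtain ⟨hu0, t, ht, hx, hy, hn⟩ := hu
  obtain ⟨hw0, r, hr, kx, ky, kn⟩ := hw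
  have e1 : det X Y = (t * r) * det u w := by
    simp only [det, ← hx, ← hy, ← kx, ← ky]
    ring
  refine fv_far_of ?_ ?_ ?_
  · intro h
    rw [h, mul_zero] at e1
    exact h0 e1
  · intro h
    apply h1
    rw [e1, h, ← hn, ← kn]
    ring
  · intro h
    apply h2
    rw [e1, h, ← hn, ← kn]
    ring

/-- Three inequalities at once. -/
lemma FvRedTo.far' {u w X Y : Vec} (hu : FvRedTo u X) (hw : FvRedTo w Y)
    (h : ∀ k : ℤ, k = 0 ∨ k = 1 ∨ k = -1 → det X Y - k * (X.n * Y.n) ≠ 0) : Far u w := by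
  refine hu.far hw ?_ ?_ ?_
  · simpa using h 0 (by tauto)
  · intro h'
    exact h 1 (by tauto) (by rw [h']; ring)
  · intro h'
    exact h (-1) (by tauto) (by rw [h']; ring)

lemma fv_red_of_coprime {u : Vec} (h0 : 0 < u.n) (h : IsCoprime u.x u.y) : Red u := by
  refine ⟨h0, ?_, ?_⟩
  · by_contra hcon
    push Not at hcon
    rw [hcon.1, hcon.2] at h
    exact not_isCoprime_zero_zero h
  · rintro p hp - ⟨hx, hy⟩
    exact (Nat.prime_iff_prime_int.1 hp).not_isUnit (h.isUnit_of_dvd' hx hy)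

lemma fv_exists_redTo (X : Vec) (hn : X.n ≠ 0) (hX : X.x ≠ 0 ∨ X.y ≠ 0) :
    ∃ u, Red u ∧ FvRedTo u X := by
  obtain ⟨u, t, h1, h2, h3, h4, h5⟩ := exists_red X.x X.y X.n hn hX
  exact ⟨u, h1, h1.1, t, h2, h3, h4, h5⟩

/-- Integer combination of two vectors. -/
def fv_comb (l m n : ℤ) (C A : Vec) : Vec := ⟨l * C.x + m * A.x, l * C.y + m * A.y, n⟩

lemma fv_det_comb (l m n : ℤ) (C A V : Vec) :
    det (fv_comb l m n C A) V = l * det C V + m * det A V := by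
  simp only [fv_comb, det]
  ring

lemma fv_det_comb_comb (l m n l' m' n' : ℤ) (C A : Vec) :
    det (fv_comb l m n C A) (fv_comb l' m' n' C A) = (l * m' - m * l') * det C A := by
  simp only [fv_comb, det]
  ring

lemma fv_det_comb' (C : Vec) (l m n : ℤ) (V A : Vec) :
    det C (fv_comb l m n V A) = l * det C V + m * det C A := by
  simp only [fv_comb, det]
  ring

lemma fv_ne_of_det {X V : Vec} (h : det X V ≠ 0) : X.x ≠ 0 ∨ X.y ≠ 0 := by
  by_contra hcon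
  push Not at hcon
  apply h
  simp only [det, hcon.1, hcon.2]
  ring

section

variable {ι : Type*} [DecidableEq ι] {P F : Finset ι} {Z : Finset ℕ} {B : ℕ} {v : ι → Vec}

theorem finalV (h : Old P F Z B v) {w1 w2 a b : ι} (h1 : w1 ∈ F) (h2 : w2 ∈ F) (ha : a ∈ F)
    (hb : b ∈ F) (h12 : w1 ≠ w2) (h1a : w1 ≠ a) (h1b : w1 ≠ b) (h2a : w2 ≠ a) (h2b : w2 ≠ b)
    (hab : a ≠ b) (han : (v a).n = 1) (hbx : (v b).x = (v a).x) (hby : (v b).y = (v a).y)
    {Nb : ℕ} (hNb : Nb ∈ Z) (hbn : (v b).n = Nb) (hNb1 : ∀ p ∈ Z, ¬ (p : ℤ) ∣ (Nb : ℤ) + 1)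
    (hpar : ∀ i ∈ P, ∀ j ∈ P, i ≠ j → ¬ (i = a ∧ j = b) → ¬ (i = b ∧ j = a) →
      det (v i) (v j) ≠ 0)
    (hg : ∀ p ∈ Z, ∀ i ∈ F, i ≠ w1 → ¬ (p : ℤ) ∣ det (v i) (v w1)) :
    ∃ p1 p2 p3 u1 u2 u3 : Vec,
      (Red p1 ∧ Red p2 ∧ Red p3 ∧ Red u1 ∧ Red u2 ∧ Red u3) ∧
      (Touch p1 p2 ∧ Touch p1 p3 ∧ Touch p2 p3) ∧ (Touch u1 u2 ∧ Touch u1 u3 ∧ Touch u2 u3) ∧
      (Touch p1 (v w1) ∧ Touch p2 (v w2) ∧ Touch u1 (v a) ∧ Touch u2 (v b) ∧ Touch u3 p3) ∧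
      (Far u1 p1 ∧ Far u1 p2 ∧ Far u1 p3) ∧ (Far u2 p1 ∧ Far u2 p2 ∧ Far u2 p3) ∧
      (Far u3 p1 ∧ Far u3 p2) ∧
      (∀ i ∈ P, (i ≠ w1 → Far p1 (v i)) ∧ (i ≠ w2 → Far p2 (v i)) ∧ Far p3 (v i) ∧
        (i ≠ a → Far u1 (v i)) ∧ (i ≠ b → Far u2 (v i)) ∧ Far u3 (v i)) ∧
      (∀ i ∈ P, ∀ q : Vec, (q = p1 ∨ q = p2 ∨ q = p3 ∨ q = u1 ∨ q = u2 ∨ q = u3) →
        IsCoprime q.n (v i).n) ∧
      (∀ q r : Vec, (q = p1 ∨ q = p2 ∨ q = p3) → (r = u1 ∨ r = u2 ∨ r = u3) →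
        IsCoprime q.n r.n) := by
  classical
  have hP1 := h.sub h1
  have hP2 := h.sub h2
  have hPa := h.sub ha
  have hPb := h.sub hb
  have hpar1 : ∀ i ∈ P, i ≠ w1 → det (v i) (v w1) ≠ 0 := fun i hi hne =>
    hpar i hi w1 hP1 hne (fun h => h1b h.2) (fun h => h1a h.2)
  have hpar2 : ∀ i ∈ P, i ≠ w2 → det (v i) (v w2) ≠ 0 := fun i hi hne =>
    hpar i hi w2 hP2 hne (fun h => h2b h.2) (fun h => h2a h.2)
  obtain ⟨f1, f2, hf⟩ := fv_exists_frame1 (h.prim _ hP1)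
  obtain ⟨e, he1, he⟩ := fv_exists_sign (det (v w1) (v w2)) ((v w1).n * (v w2).n)
    (mul_pos (h.pos _ hP1) (h.pos _ hP2)) (hpar2 w1 hP1 h12)
  rw [← mul_assoc] at he
  set W1 := v w1 with hW1
  set W2 := v w2 with hW2
  set A := v a with hA
  set L : ℤ := 1 + Nb with hL
  have hNb2 : (2 : ℤ) ≤ Nb := by exact_mod_cast (h.prime Nb hNb).1.two_le
  have hβ : det W1 W2 ≠ 0 := hpar2 w1 hP1 h12
  have hW1A : det W1 A ≠ 0 := by
    rw [det_swap]
    exact neg_ne_zero.2 (hpar1 a hPa (Ne.symm h1a))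
  have hW2A : det W2 A ≠ 0 := by
    rw [det_swap]
    exact neg_ne_zero.2 (hpar2 a hPa (Ne.symm h2a))
  -- abbreviations
  obtain ⟨N, hNd⟩ : ∃ N : ℤ → ℤ, ∀ s, N s = NN W1 W2 f1 f2 s := ⟨_, fun _ => rfl⟩
  obtain ⟨C, hCd⟩ : ∃ C : ℤ → Vec, ∀ s, C s = P3 W1 W2 f1 f2 e s := ⟨_, fun _ => rfl⟩
  obtain ⟨D, hDd⟩ : ∃ D : ℤ → ℤ, ∀ s, D s = det (C s) A := ⟨_, fun _ => rfl⟩
  obtain ⟨A1, hA1d⟩ : ∃ A1 : ℤ → ℤ, ∀ s, A1 s = det (P1 W1 f1 f2 s) A := ⟨_, fun _ => rfl⟩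
  obtain ⟨A2, hA2d⟩ : ∃ A2 : ℤ → ℤ, ∀ s, A2 s = det (P2 W1 W2 f1 f2 e s) A :=
    ⟨_, fun _ => rfl⟩
  obtain ⟨ν, hν⟩ : ∃ ν : ℤ, ν = W1.n * (f1 * W2.y - f2 * W2.x) := ⟨_, rfl⟩
  obtain ⟨β, hβd⟩ : ∃ β : ℤ, β = det W1 W2 := ⟨_, rfl⟩
  obtain ⟨a0, ha0⟩ : ∃ a0 : ℤ, a0 = W1.n * (f1 * A.y - f2 * A.x) := ⟨_, rfl⟩
  obtain ⟨a1, ha1⟩ : ∃ a1 : ℤ, a1 = det W1 A := ⟨_, rfl⟩
  obtain ⟨b0, hb0⟩ : ∃ b0 : ℤ, b0 = det W2 A + e * W2.n * a0 := ⟨_, rfl⟩
  obtain ⟨b1, hb1⟩ : ∃ b1 : ℤ, b1 = e * W2.n * a1 := ⟨_, rfl⟩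
  have hN : ∀ s, N s = ν + s * β := fun s => by rw [hNd, NN_eq, hν, hβd]
  have hA1 : ∀ s, A1 s = a0 + s * a1 := fun s => by rw [hA1d, det_P1, ha0, ha1]
  have hA2 : ∀ s, A2 s = b0 + s * b1 := fun s => by
    rw [hA2d, det_P2, ← hA1d, hA1, hb0, hb1]
    ring
  have hD : ∀ s, D s = -(ν + s * β) * (a0 + s * a1) - (b0 + s * b1) := fun s => by
    rw [hDd, hCd, det_P3, ← hA1d, ← hA2d, ← hNd, hN, hA1, hA2]
  have hβ0 : β ≠ 0 := hβd ▸ hβ
  have ha10 : a1 ≠ 0 := ha1 ▸ hW1A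
  have hκ : β * b0 - ν * b1 ≠ 0 := by
    have hp := pluck (W2 := W2) hf A
    have h3 : β * b0 - ν * b1 = (det W1 W2 - e * W1.n * W2.n) * det W2 A := by
      rw [hb0, hb1, hν, ha0, ha1, hβd]
      linear_combination (e * W2.n * W1.n) * hp
    rw [h3]
    exact mul_ne_zero (sub_ne_zero.2 he) hW2A
  have E1 : ∀ α l μ γ : ℤ, l ≠ 0 → ∀ᶠ s in Filter.cofinite,
      α * N s + (l * D s + μ * N s) * A1 s + γ * D s ≠ 0 := by
    intro α l μ γ hl
    simp only [hD, hN, hA1]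
    exact fv_ev1 hβ0 ha10 α l μ γ hl
  have E2 : ∀ α l μ γ : ℤ, l ≠ 0 → ∀ᶠ s in Filter.cofinite,
      α * N s ^ 2 + (l * D s + μ * N s) * A2 s + γ * (D s * N s) ≠ 0 := by
    intro α l μ γ hl
    simp only [hD, hN, hA2]
    exact fv_ev2 hβ0 hκ α l μ γ hl
  have E3 : ∀ μ : ℤ, ∀ᶠ s in Filter.cofinite, D s + μ * N s ≠ 0 := by
    intro μ
    simp only [hD, hN]
    exact fv_ev3 hβ0 ha10 μ
  have E7 : ∀ μ γ : ℤ, γ ≠ 0 → ∀ᶠ s in Filter.cofinite, N s * (A1 s + μ) + γ * D s ≠ 0 := by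
    intro μ γ hγ
    simp only [hD, hN, hA1]
    exact fv_ev7 hβ0 hκ μ γ hγ
  have E8 : ∀ α γ : ℤ, ∀ᶠ s in Filter.cofinite, α * N s + A2 s + γ * D s ≠ 0 := by
    intro α γ
    simp only [hD, hN, hA2]
    exact fv_ev8 hβ0 ha10 hκ α γ
  have E9 : ∀ μ : ℤ, ∀ᶠ s in Filter.cofinite, A1 s + μ ≠ 0 := by
    intro μ
    simp only [hA1]
    exact fv_ev9 ha10 μ
  have E10 : ∀ V : Vec, (V.x ≠ 0 ∨ V.y ≠ 0) → ∀ k : ℤ, ∀ᶠ s in Filter.cofinite,
      det (C s) V + k * N s ≠ 0 := by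
    intro V hV k
    rw [Filter.eventually_cofinite]
    refine (fin_P3 hf hβ he hV (-k)).subset fun s hs => ?_
    simp only [Set.mem_ofPred_eq, not_not] at hs ⊢
    rw [← hCd, ← hNd]
    linarith
  -- the good parameters
  have hgood : ∀ᶠ s in Filter.cofinite, (D s ≠ 0) ∧ (A1 s + -L ≠ 0) ∧
      (∀ k ∈ ({0, 1, -1} : Finset ℤ),
        (L * N s + (1 * D s + -1 * N s) * A1 s + (-k * L) * D s ≠ 0) ∧
        (L * (L - 1) * N s + (-1 * D s + -(L - 1) * N s) * A1 s + (-k * L) * D s ≠ 0) ∧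
        (-L * N s ^ 2 + (1 * D s + -1 * N s) * A2 s + (-k * L) * (D s * N s) ≠ 0) ∧
        (-(L * (L - 1)) * N s ^ 2 + (-1 * D s + -(L - 1) * N s) * A2 s +
          (-k * L) * (D s * N s) ≠ 0) ∧
        (D s + (-1 - k * L) * N s ≠ 0) ∧ (D s + (L - 1 + k * L) * N s ≠ 0) ∧
        (k ≠ 0 → N s * (A1 s + -L) + (-k) * D s ≠ 0) ∧ (L * N s + A2 s + (-k) * D s ≠ 0)) ∧
      ∀ i ∈ P, i ≠ a → i ≠ b → ∀ k ∈ ({0, 1, -1} : Finset ℤ),
        (det (C s) (fv_comb L (-(det A (v i) + k * L * (v i).n)) 1 (v i) A) +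
          det A (v i) * N s ≠ 0) ∧
        (det (C s) (fv_comb (L * (L - 1)) (det A (v i) - k * L * (v i).n) 1 (v i) A) +
          ((L - 1) * det A (v i)) * N s ≠ 0) ∧
        (det (C s) (fv_comb (-L) (-(k * (v i).n)) 1 (v i) A) + (-det A (v i)) * N s ≠ 0) := by
    have hL0 : L ≠ 0 := by omega
    have hL1 : L - 1 ≠ 0 := by omega
    refine Filter.Eventually.and (by simpa using E3 0) (Filter.Eventually.and (E9 (-L))
      (Filter.Eventually.and ?_ ?_))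
    · refine (Filter.eventually_all_finset _).2 fun k _ => ?_
      refine (E1 _ _ _ _ one_ne_zero).and ((E1 _ _ _ _ (by norm_num)).and
        ((E2 _ _ _ _ one_ne_zero).and ((E2 _ _ _ _ (by norm_num)).and ((E3 _).and
        ((E3 _).and (Filter.Eventually.and ?_ (E8 _ _)))))))
      by_cases hk : k = 0
      · exact Filter.Eventually.of_forall fun s h => absurd hk h
      · filter_upwards [E7 (-L) (-k) (neg_ne_zero.2 hk)] with s hs _
        exact hs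
    · refine (Filter.eventually_all_finset _).2 fun i hi => ?_
      by_cases hia : i = a
      · exact Filter.Eventually.of_forall fun s h => absurd hia h
      by_cases hib : i = b
      · exact Filter.Eventually.of_forall fun s _ h => absurd hib h
      have hδ : det A (v i) ≠ 0 := hpar a hPa i hi (Ne.symm hia) (fun h => hib h.2)
        (fun h => hab h.1)
      have hz : ∀ l m : ℤ, l ≠ 0 → (fv_comb l m 1 (v i) A).x ≠ 0 ∨ (fv_comb l m 1 (v i) A).y ≠ 0 := by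
        intro l m hl
        apply fv_ne_of_det (V := A)
        rw [fv_det_comb, det_self, mul_zero, add_zero]
        refine mul_ne_zero hl ?_
        rw [det_swap]
        exact neg_ne_zero.2 hδ
      have h3 : ∀ᶠ s in Filter.cofinite, ∀ k ∈ ({0, 1, -1} : Finset ℤ),
        (det (C s) (fv_comb L (-(det A (v i) + k * L * (v i).n)) 1 (v i) A) +
          det A (v i) * N s ≠ 0) ∧
        (det (C s) (fv_comb (L * (L - 1)) (det A (v i) - k * L * (v i).n) 1 (v i) A) +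
          ((L - 1) * det A (v i)) * N s ≠ 0) ∧
        (det (C s) (fv_comb (-L) (-(k * (v i).n)) 1 (v i) A) + (-det A (v i)) * N s ≠ 0) := by
        refine (Filter.eventually_all_finset _).2 fun k _ => ?_
        exact (E10 _ (hz _ _ hL0) _).and ((E10 _ (hz _ _ (mul_ne_zero hL0 hL1)) _).and
          (E10 _ (hz _ _ (neg_ne_zero.2 hL0)) _))
      filter_upwards [h3] with s hs _ _
      exact hs
  rw [Filter.eventually_cofinite] at hgood
  obtain ⟨s, M, hMp, hM0, hNM, hsE, ⟨hc1, hc2, hc3⟩, hfar1, hfar2, hfar3, hZ3, hM3, hMP, -⟩ :=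
    stepB_core h h1 h2 h12 hpar1 hpar2 hg hf he (1 + Nb + ∑ p ∈ Z, (p : ℤ)) _ hgood
  simp only [Set.mem_ofPred_eq, not_not] at hsE
  obtain ⟨gD, gA, gk, gi⟩ := hsE
  rw [← hNd] at hNM
  have hMpos : (0 : ℤ) < M := by exact_mod_cast hMp.pos
  have hNpos : 0 < N s := by rw [hNM]; exact hMpos
  have hMint : Prime (M : ℤ) := Nat.prime_iff_prime_int.1 hMp
  have hsumZ : ∀ p ∈ Z, (p : ℤ) ≤ ∑ p ∈ Z, (p : ℤ) := fun p hp =>
    single_le_sum (f := fun p : ℕ => (p : ℤ)) (fun _ _ => Int.natCast_nonneg _) hp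
  have hsum0 : (0 : ℤ) ≤ ∑ p ∈ Z, (p : ℤ) := sum_nonneg fun _ _ => Int.natCast_nonneg _
  have hLpos : 0 < L := by omega
  have hML : ¬ (M : ℤ) ∣ L := fv_not_dvd_small (by omega) (by
    rw [abs_of_pos hLpos]
    omega)
  have hk3 : ∀ k : ℤ, k = 0 ∨ k = 1 ∨ k = -1 → k ∈ ({0, 1, -1} : Finset ℤ) := by
    intro k hk
    simpa using hk
  -- determinants
  obtain ⟨p1, hp1⟩ : ∃ p1 : Vec, p1 = P1 W1 f1 f2 s := ⟨_, rfl⟩
  obtain ⟨p2, hp2⟩ : ∃ p2 : Vec, p2 = P2 W1 W2 f1 f2 e s := ⟨_, rfl⟩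
  have hp3 : C s = P3 W1 W2 f1 f2 e s := hCd s
  rw [← hp1] at hc1 hfar1
  rw [← hp2] at hc2 hfar2
  rw [← hp3] at hc3 hfar3 hZ3 hM3
  have n1 : p1.n = 1 := by rw [hp1]; rfl
  have n2 : p2.n = N s := by rw [hp2, hNd]; rfl
  have n3 : (C s).n = N s := by rw [hp3, hNd]; rfl
  have d12 : det p1 p2 = N s := by rw [hp1, hp2, det_P1_P2, hNd]
  have d13 : det p1 (C s) = -N s := by rw [hp1, hp3, det_P1_P3, hNd]
  have d23 : det p2 (C s) = N s * N s := by rw [hp2, hp3, det_P2_P3, hNd]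
  have d1w : det p1 W1 = W1.n := by rw [hp1, det_P1_W1 hf]
  have d2w : det p2 W2 = e * W2.n * N s := by rw [hp2, det_P2_W2, hNd]
  have dC1 : det (C s) p1 = N s := by rw [det_swap, d13]; ring
  have dC2 : det (C s) p2 = -(N s * N s) := by rw [det_swap, d23]
  have dA1 : det A p1 = -A1 s := by rw [det_swap, hA1d, hp1]
  have dA2 : det A p2 = -A2 s := by rw [det_swap, hA2d, hp2]
  have dCA : det (C s) A = D s := (hDd s).symm
  have dAC : det A (C s) = -D s := by rw [det_swap, dCA]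
  -- the last triangle
  obtain ⟨X1, hX1⟩ : ∃ X1 : Vec, X1 = fv_comb L (-(D s - N s)) (L * D s) (C s) A := ⟨_, rfl⟩
  obtain ⟨X2, hX2⟩ : ∃ X2 : Vec, X2 = fv_comb (L * (L - 1)) (D s + N s * (L - 1)) (L * D s) (C s) A :=
    ⟨_, rfl⟩
  obtain ⟨X3, hX3⟩ : ∃ X3 : Vec, X3 = fv_comb (-L) (-N s) (D s) (C s) A := ⟨_, rfl⟩
  have m1 : X1.n = L * D s := by rw [hX1]; rfl
  have m2 : X2.n = L * D s := by rw [hX2]; rfl
  have m3 : X3.n = D s := by rw [hX3]; rfl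
  have k1 : ∀ V, det X1 V = L * det (C s) V - (D s - N s) * det A V := fun V => by
    rw [hX1, fv_det_comb]
    ring
  have k2 : ∀ V, det X2 V = L * (L - 1) * det (C s) V + (D s + N s * (L - 1)) * det A V :=
    fun V => by rw [hX2, fv_det_comb]
  have k3 : ∀ V, det X3 V = -(L * det (C s) V) - N s * det A V := fun V => by
    rw [hX3, fv_det_comb]
    ring
  have hLD : L * D s ≠ 0 := mul_ne_zero (by omega) gD
  have dAA : det A A = 0 := det_self A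
  have z1 : X1.x ≠ 0 ∨ X1.y ≠ 0 := by
    apply fv_ne_of_det (V := A)
    rw [k1, dCA, dAA, mul_zero, sub_zero]
    exact hLD
  have z2 : X2.x ≠ 0 ∨ X2.y ≠ 0 := by
    apply fv_ne_of_det (V := A)
    rw [k2, dCA, dAA, mul_zero, add_zero]
    exact mul_ne_zero (mul_ne_zero (by omega) (by omega)) gD
  have z3 : X3.x ≠ 0 ∨ X3.y ≠ 0 := by
    apply fv_ne_of_det (V := A)
    rw [k3, dCA, dAA, mul_zero, sub_zero]
    exact neg_ne_zero.2 hLD
  obtain ⟨u1, r1, t1⟩ := fv_exists_redTo X1 (by rw [m1]; exact hLD) z1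
  obtain ⟨u2, r2, t2⟩ := fv_exists_redTo X2 (by rw [m2]; exact hLD) z2
  obtain ⟨u3, r3, t3⟩ := fv_exists_redTo X3 (by rw [m3]; exact gD) z3
  have q1 : FvRedTo p1 p1 := FvRedTo.self (by rw [n1]; exact one_pos)
  have q2 : FvRedTo p2 p2 := FvRedTo.self (by rw [n2]; exact hNpos)
  have q3 : FvRedTo (C s) (C s) := FvRedTo.self (by rw [n3]; exact hNpos)
  have qi : ∀ i ∈ P, FvRedTo (v i) (v i) := fun i hi => FvRedTo.self (h.pos i hi)
  -- denominators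
  have hpD : ∀ p ∈ Z, ¬ (p : ℤ) ∣ L * D s := by
    intro p hp hd
    rcases (Nat.prime_iff_prime_int.1 (h.prime p hp).1).dvd_or_dvd hd with hd | hd
    · exact hNb1 p hp (by rw [add_comm]; exact hd)
    · refine hZ3 p hp a ha (Ne.symm h1a) (Ne.symm h2a) ?_
      rw [← hA, dCA]
      exact hd
  have hMD : ¬ (M : ℤ) ∣ L * D s := by
    intro hd
    rcases hMint.dvd_or_dvd hd with hd | hd
    · exact hML hd
    · refine hM3 a ha (Ne.symm h1a) (Ne.symm h2a) ?_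
      rw [← hA, dCA]
      exact hd
  have hun : ∀ r : Vec, (r = u1 ∨ r = u2 ∨ r = u3) → r.n ∣ L * D s := by
    rintro r (rfl | rfl | rfl)
    · rw [← m1]; exact t1.dvd
    · rw [← m2]; exact t2.dvd
    · exact t3.dvd.trans (by rw [m3]; exact dvd_mul_left _ _)
  have hPcop : ∀ i ∈ P, ∀ x : ℤ, (∀ p ∈ Z, ¬ (p : ℤ) ∣ x) → IsCoprime x (v i).n := by
    intro i hi x hx
    rcases h.den i hi with hn | ⟨p, hp, hn⟩
    · rw [hn]; exact isCoprime_one_right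
    · rw [hn]
      exact ((Nat.prime_iff_prime_int.1 (h.prime p hp).1).coprime_iff_not_dvd.2 (hx p hp)).symm
  have hpM : ∀ p ∈ Z, ¬ (p : ℤ) ∣ (M : ℤ) := by
    intro p hp hd
    have h3 : p = M := (Nat.prime_dvd_prime_iff_eq (h.prime p hp).1 hMp).1
      (Int.natCast_dvd_natCast.1 hd)
    have h4 := hsumZ p hp
    rw [h3] at h4
    omega
  refine ⟨p1, p2, C s, u1, u2, u3, ⟨fv_red_of_coprime q1.1 hc1, fv_red_of_coprime q2.1 hc2,
    fv_red_of_coprime q3.1 hc3, r1, r2, r3⟩, ⟨q1.touch q2 ?_, q1.touch q3 ?_, q2.touch q3 ?_⟩,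
    ⟨t1.touch t2 ?_, t1.touch t3 ?_, t2.touch t3 ?_⟩, ⟨q1.touch (qi w1 hP1) ?_,
    q2.touch (qi w2 hP2) ?_, t1.touch (qi a hPa) ?_, t2.touch (qi b hPb) ?_, t3.touch q3 ?_⟩,
    ⟨t1.far' q1 ?_, t1.far' q2 ?_, t1.far' q3 ?_⟩, ⟨t2.far' q1 ?_, t2.far' q2 ?_, t2.far' q3 ?_⟩,
    ⟨t3.far' q1 ?_, t3.far' q2 ?_⟩, fun i hi => ⟨hfar1 i hi, hfar2 i hi, hfar3 i hi, ?_, ?_, ?_⟩,
    ?_, ?_⟩
  · left; rw [d12, n1, n2, one_mul]
  · right; rw [d13, n1, n3, one_mul]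
  · left; rw [d23, n2, n3]
  · left; rw [m1, m2, hX1, hX2, fv_det_comb_comb, dCA]; ring
  · right; rw [m1, m3, hX1, hX3, fv_det_comb_comb, dCA]; ring
  · left; rw [m2, m3, hX2, hX3, fv_det_comb_comb, dCA]; ring
  · left; rw [← hW1, d1w, n1, one_mul]
  · rw [← hW2, d2w, n2]
    rcases he1 with rfl | rfl
    · left; ring
    · right; ring
  · left; rw [← hA, k1, dCA, dAA, m1, han]; ring
  · left
    have h3 : det X2 (v b) = det X2 A := by simp only [det, hbx, hby]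
    rw [h3, k2, dCA, dAA, m2, hbn, hL]; ring
  · left; rw [k3, det_self, dAC, m3, n3]; ring
  · intro k hk h3
    rw [k1, dC1, dA1, m1, n1] at h3
    exact (gk k (hk3 k hk)).1 (by linear_combination h3)
  · intro k hk h3
    rw [k1, dC2, dA2, m1, n2] at h3
    exact (gk k (hk3 k hk)).2.2.1 (by linear_combination h3)
  · intro k hk h3
    rw [k1, det_self, dAC, m1, n3] at h3
    exact mul_ne_zero gD (gk k (hk3 k hk)).2.2.2.2.1 (by linear_combination h3)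
  · intro k hk h3
    rw [k2, dC1, dA1, m2, n1] at h3
    exact (gk k (hk3 k hk)).2.1 (by linear_combination h3)
  · intro k hk h3
    rw [k2, dC2, dA2, m2, n2] at h3
    exact (gk k (hk3 k hk)).2.2.2.1 (by linear_combination h3)
  · intro k hk h3
    rw [k2, det_self, dAC, m2, n3] at h3
    exact mul_ne_zero gD (gk k (hk3 k hk)).2.2.2.2.2.1 (by linear_combination -h3)
  · intro k hk h3
    rw [k3, dC1, dA1, m3, n1] at h3
    by_cases hk0 : k = 0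
    · subst hk0
      exact mul_ne_zero hNpos.ne' gA (by linear_combination h3)
    · exact (gk k (hk3 k hk)).2.2.2.2.2.2.1 hk0 (by linear_combination h3)
  · intro k hk h3
    rw [k3, dC2, dA2, m3, n2] at h3
    exact mul_ne_zero hNpos.ne' (gk k (hk3 k hk)).2.2.2.2.2.2.2 (by linear_combination h3)
  · intro hia
    refine t1.far' (qi i hi) fun k hk h3 => ?_
    by_cases hib : i = b
    · subst hib
      have h4 : det X1 (v i) = det X1 A := by simp only [det, hbx, hby]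
      rw [h4, k1, dCA, dAA, m1, hbn] at h3
      have h5 : (L * D s) * (1 - k * Nb) = 0 := by linear_combination h3
      rcases mul_eq_zero.1 h5 with h6 | h6
      · exact hLD h6
      · rcases hk with rfl | rfl | rfl <;> omega
    · rw [k1, m1] at h3
      refine (gi i hi hia hib k (hk3 k hk)).1 ?_
      rw [fv_det_comb', dCA]
      linear_combination h3
  · intro hib
    refine t2.far' (qi i hi) fun k hk h3 => ?_
    by_cases hia : i = a
    · subst hia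
      rw [← hA, k2, dCA, dAA, m2, han] at h3
      have h5 : (L * D s) * (L - 1 - k) = 0 := by linear_combination h3
      rcases mul_eq_zero.1 h5 with h6 | h6
      · exact hLD h6
      · rcases hk with rfl | rfl | rfl <;> omega
    · rw [k2, m2] at h3
      refine (gi i hi hia hib k (hk3 k hk)).2.1 ?_
      rw [fv_det_comb', dCA]
      linear_combination h3
  · refine t3.far' (qi i hi) fun k hk h3 => ?_
    by_cases hia : i = a
    · subst hia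
      rw [← hA, k3, dCA, dAA, m3, han] at h3
      have h5 : D s * (L + k) = 0 := by linear_combination -h3
      rcases mul_eq_zero.1 h5 with h6 | h6
      · exact gD h6
      · rcases hk with rfl | rfl | rfl <;> omega
    · by_cases hib : i = b
      · subst hib
        have h4 : det X3 (v i) = det X3 A := by simp only [det, hbx, hby]
        rw [h4, k3, dCA, dAA, m3, hbn] at h3
        have h5 : D s * (L + k * Nb) = 0 := by linear_combination -h3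
        rcases mul_eq_zero.1 h5 with h6 | h6
        · exact gD h6
        · rcases hk with rfl | rfl | rfl <;> omega
      · rw [k3, m3] at h3
        refine (gi i hi hia hib k (hk3 k hk)).2.2 ?_
        rw [fv_det_comb', dCA]
        linear_combination h3
  · rintro i hi q (rfl | rfl | rfl | hq)
    · rw [n1]; exact isCoprime_one_left
    · rw [n2, hNM]; exact hPcop i hi _ hpM
    · rw [n3, hNM]; exact hPcop i hi _ hpM
    · exact (hPcop i hi _ hpD).of_isCoprime_of_dvd_left (hun q hq)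
  · rintro q r hq hr
    have h3 : IsCoprime (M : ℤ) (L * D s) := hMint.coprime_iff_not_dvd.2 hMD
    have h4 : IsCoprime (M : ℤ) r.n := h3.of_isCoprime_of_dvd_right (hun r hr)
    rcases hq with rfl | rfl | rfl
    · rw [n1]; exact isCoprime_one_left
    · rw [n2, hNM]; exact h4
    · rw [n3, hNM]; exact h4

end

end Pool.Agent.Tri
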