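import Mathlib
import Pool.Agent.Tri.PSDefs
import Pool.Agent.Tri.FinalV

set_option autoImplicit false

open Finset

namespace Pool.Agent.Tri

namespace PSV

lemma touch_symm {u w : Vec} (h : Touch u w) : Touch w u := by
  have e : det w u = - det u w := by simp only [det]; ring
  unfold Touch at *
  rw [e, abs_neg, h, mul_comm]

lemma far_symm {u w : Vec} (h : Far u w) : Far w u := by
  have e : det w u = - det u w := by simp only [det]; ring
  unfold Far at *
  rw [e, abs_neg, mul_comm]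
  exact ⟨neg_ne_zero.2 h.1, h.2⟩

lemma det_ne_of_touch {u w : Vec} (h : Touch u w) (hu : 0 < u.n) (hw : 0 < w.n) :
    det u w ≠ 0 := by
  intro h0
  unfold Touch at h
  rw [h0, abs_zero] at h
  have := mul_pos hu hw
  omega

lemma gcd_dvd_of_touch {u w : Vec} (h : Touch u w) :
    ((Int.gcd u.n w.n : ℕ) : ℤ) ^ 2 ∣ det u w := by
  rw [← dvd_abs, h, sq]
  exact mul_dvd_mul (Int.gcd_dvd_left ..) (Int.gcd_dvd_right ..)

lemma gcd_dvd_of_coprime {u w : Vec} (h : IsCoprime u.n w.n) :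
    ((Int.gcd u.n w.n : ℕ) : ℤ) ^ 2 ∣ det u w := by
  rw [Int.isCoprime_iff_gcd_eq_one.1 h]
  simp

lemma red_of_coprime {u : Vec} (hn : 0 < u.n) (h : IsCoprime u.x u.y) : Red u := by
  refine ⟨hn, ?_, ?_⟩
  · by_contra hc
    push Not at hc
    rw [hc.1, hc.2] at h
    obtain ⟨p, q, hpq⟩ := h
    simp at hpq
  · rintro p hp - ⟨hx, hy⟩
    have := h.isUnit_of_dvd' hx hy
    rw [Int.isUnit_iff] at this
    have := hp.two_le
    omega

variable {V : Type*}

/-- All that `Conf` requires of a pair. -/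
def Pair (G : SimpleGraph V) (v : V → Vec) (x y : V) : Prop :=
  (G.Adj x y ↔ Touch (v x) (v y)) ∧
  (det (v x) (v y) ≠ 0 ∨ ((v x).x = (v y).x ∧ (v x).y = (v y).y ∧ (v x).n ≠ (v y).n)) ∧
  ((Int.gcd (v x).n (v y).n : ℕ) : ℤ) ^ 2 ∣ det (v x) (v y)

variable {G : SimpleGraph V} {v : V → Vec} {x y : V}

lemma Pair.symm (h : Pair G v x y) : Pair G v y x := by
  obtain ⟨h1, h2, h3⟩ := h
  have e : det (v y) (v x) = - det (v x) (v y) := by simp only [det]; ring
  refine ⟨?_, ?_, ?_⟩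
  · rw [G.adj_comm, h1]
    exact ⟨touch_symm, touch_symm⟩
  · rcases h2 with h2 | ⟨h4, h5, h6⟩
    · left; rw [e]; exact neg_ne_zero.2 h2
    · right; exact ⟨h4.symm, h5.symm, h6.symm⟩
  · rw [e, dvd_neg, Int.gcd_comm]; exact h3

lemma Pair.of_touch (ha : G.Adj x y) (h : Touch (v x) (v y)) (hx : 0 < (v x).n)
    (hy : 0 < (v y).n) : Pair G v x y :=
  ⟨⟨fun _ => h, fun _ => ha⟩, Or.inl (det_ne_of_touch h hx hy), gcd_dvd_of_touch h⟩

lemma Pair.of_far (ha : ¬ G.Adj x y) (h : Far (v x) (v y))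
    (hc : IsCoprime (v x).n (v y).n) : Pair G v x y :=
  ⟨⟨fun h' => absurd h' ha, fun h' => absurd h' h.2⟩, Or.inl h.1, gcd_dvd_of_coprime hc⟩

lemma conf_of_pair {K : Finset V} (hred : ∀ a ∈ K, Red (v a))
    (h : ∀ a ∈ K, ∀ b ∈ K, a ≠ b → Pair G v a b) : Conf G K v where
  red := hred
  adj a ha b hb hab := (h a ha b hb hab).1
  dist a ha b hb hab := (h a ha b hb hab).2.1
  lat a ha b hb := by
    by_cases hab : a = b
    · subst hab
      have : det (v a) (v a) = 0 := by simp only [det]; ring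
      rw [this]; exact dvd_zero _
    · exact (h a ha b hb hab).2.2

lemma ne_of_card [DecidableEq V] {x y z : V} (h : ({x, y, z} : Finset V).card = 3) :
    x ≠ y ∧ x ≠ z ∧ y ≠ z := by
  refine ⟨?_, ?_, ?_⟩
  · rintro rfl
    rw [insert_eq_of_mem (by simp)] at h
    have := Finset.card_le_two (a := x) (b := z)
    omega
  · rintro rfl
    rw [insert_eq_of_mem (by simp)] at h
    have := Finset.card_le_two (a := y) (b := x)
    omega
  · rintro rfl
    rw [pair_eq_singleton] at h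
    have := Finset.card_le_two (a := x) (b := y)
    omega

variable [DecidableEq V] {K : Finset V} {T : V → Finset V}
  {m : V → V} {B : ℕ} {d a b : V} {P : Finset V} {Z : Finset ℕ} {Sp : Finset V}

theorem core (hK : TriK G K T m)
    (h : PS G K T m B d a b P Z v Sp) (hSp : Spec T a b P Z v Sp) {s1 s2 s3 y1 y2 y3 : V}
    (hs1 : s1 ∈ K) (hT : T s1 = {s1, s2, s3}) (hT' : T y3 = {y1, y2, y3}) (h3 : m s3 = y3)
    (h1 : m s1 = a) (h2 : m s2 = b) (hne : y3 ∉ T s1) (hy1 : m y1 ∈ P) (hy2 : m y2 ∈ P)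
    (hP : P = K \ (T s1 ∪ T y3)) (hspec : m y1 ∉ Sp) :
    ∃ v', Conf G K v' := by
  -- the six new vertices
  have s1T : s1 ∈ T s1 := by rw [hT]; simp
  have s2T : s2 ∈ T s1 := by rw [hT]; simp
  have s3T : s3 ∈ T s1 := by rw [hT]; simp
  have y1T : y1 ∈ T y3 := by rw [hT']; simp
  have y2T : y2 ∈ T y3 := by rw [hT']; simp
  have y3T : y3 ∈ T y3 := by rw [hT']; simp
  have s2K : s2 ∈ K := hK.sub s1 hs1 s2T
  have s3K : s3 ∈ K := hK.sub s1 hs1 s3T
  have y3K : y3 ∈ K := h3 ▸ hK.mK s3 s3K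
  have y1K : y1 ∈ K := hK.sub y3 y3K y1T
  have y2K : y2 ∈ K := hK.sub y3 y3K y2T
  have Ts : ∀ x ∈ T s1, T x = T s1 := hK.part s1 hs1
  have Ty : ∀ x ∈ T y3, T x = T y3 := hK.part y3 y3K
  have disj : ∀ x ∈ T s1, ∀ y ∈ T y3, x ≠ y := by
    rintro x hx y hy rfl
    apply hne
    rw [← Ts x hx, Ty x hy]; exact y3T
  have nPs : ∀ x ∈ T s1, x ∉ P := by
    intro x hx; rw [hP]; simp [hx]
  have nPy : ∀ x ∈ T y3, x ∉ P := by
    intro x hx; rw [hP]; simp [hx]
  have nsP : ∀ i ∈ P, i ∉ T s1 := fun i hi hx => nPs i hx hi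
  have nyP : ∀ i ∈ P, i ∉ T y3 := fun i hi hx => nPy i hx hi
  have minj : ∀ x ∈ K, ∀ y ∈ K, m x = m y → x = y := by
    intro x hx y hy e
    rw [← hK.minv x hx, e, hK.minv y hy]
  have my3 : m y3 = s3 := by rw [← h3]; exact hK.minv s3 s3K
  obtain ⟨s12, s13, s23⟩ := ne_of_card (hT ▸ hK.card s1 hs1)
  obtain ⟨y12, y13, y23⟩ := ne_of_card (hT' ▸ hK.card y3 y3K)
  have e11 := disj s1 s1T y1 y1T
  have e12 := disj s1 s1T y2 y2T
  have e13 := disj s1 s1T y3 y3T
  have e21 := disj s2 s2T y1 y1T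
  have e22 := disj s2 s2T y2 y2T
  have e23 := disj s2 s2T y3 y3T
  have e31 := disj s3 s3T y1 y1T
  have e32 := disj s3 s3T y2 y2T
  have e33 := disj s3 s3T y3 y3T
  obtain ⟨haP, hbP, haT, hSpe, hbx, hby, han, N, hN, hbn, hN1⟩ := id hSp
  have memF : ∀ x ∈ K, m x ∈ P → x ∉ P → m x ∈ Fr m d P := by
    intro x hx hmx hxP
    exact mem_insert_of_mem (mem_filter.2 ⟨hmx, by rw [hK.minv x hx]; exact hxP⟩)
  have w1F : m y1 ∈ Fr m d P := memF y1 y1K hy1 (nPy y1 y1T)
  have w2F : m y2 ∈ Fr m d P := memF y2 y2K hy2 (nPy y2 y2T)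
  have aF : a ∈ Fr m d P := by
    rw [← h1]; exact memF s1 hs1 (by rw [h1]; exact haP) (nPs s1 s1T)
  have bF : b ∈ Fr m d P := by
    rw [← h2]; exact memF s2 s2K (by rw [h2]; exact hbP) (nPs s2 s2T)
  have hab : a ≠ b := by
    rintro rfl
    exact haT (hK.self a (h.PK haP))
  obtain ⟨p1, p2, p3, u1, u2, u3, ⟨rp1, rp2, rp3, ru1, ru2, ru3⟩, ⟨tp12, tp13, tp23⟩,
    ⟨tu12, tu13, tu23⟩, ⟨tp1w, tp2w, tu1a, tu2b, tu3p3⟩, ⟨f11, f12, f13⟩, ⟨f21, f22, f23⟩,
    ⟨f31, f32⟩, hfar, cop, cop2⟩ := finalV h.old w1F w2F aF bF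
      (fun e => y12 (minj y1 y1K y2 y2K e))
      (fun e => e11 (minj y1 y1K s1 hs1 (e.trans h1.symm)).symm)
      (fun e => e21 (minj y1 y1K s2 s2K (e.trans h2.symm)).symm)
      (fun e => e12 (minj y2 y2K s1 hs1 (e.trans h1.symm)).symm)
      (fun e => e22 (minj y2 y2K s2 s2K (e.trans h2.symm)).symm)
      hab han hbx hby hN hbn hN1
      (fun i hi j hj hij hn1 hn2 h0 => by
        rcases (h.par i hi j hj hij h0).2.2 with h' | h'
        · exact hn1 h'
        · exact hn2 h')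
      (fun p hp i hi hiw => h.good p hp i hi (m y1) w1F hiw (fun h' => hspec h'.2))
  have hv : ∃ v' : V → Vec, v' y1 = p1 ∧ v' y2 = p2 ∧ v' y3 = p3 ∧ v' s1 = u1 ∧ v' s2 = u2 ∧
      v' s3 = u3 ∧ ∀ i ∈ P, v' i = v i := by
    refine ⟨fun x => if x = y1 then p1 else if x = y2 then p2 else if x = y3 then p3 else
      if x = s1 then u1 else if x = s2 then u2 else if x = s3 then u3 else v x,
      ?_, ?_, ?_, ?_, ?_, ?_, ?_⟩
    · simp
    · simp [y12.symm]
    · simp [y13.symm, y23.symm]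
    · simp [e11, e12, e13]
    · simp [e21, e22, e23, s12.symm]
    · simp [e31, e32, e33, s13.symm, s23.symm]
    · intro i hi
      have := nsP i hi
      have := nyP i hi
      have i1 : i ≠ y1 := by rintro rfl; exact nyP i hi y1T
      have i2 : i ≠ y2 := by rintro rfl; exact nyP i hi y2T
      have i3 : i ≠ y3 := by rintro rfl; exact nyP i hi y3T
      have i4 : i ≠ s1 := by rintro rfl; exact nsP i hi s1T
      have i5 : i ≠ s2 := by rintro rfl; exact nsP i hi s2T
      have i6 : i ≠ s3 := by rintro rfl; exact nsP i hi s3T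
      simp [i1, i2, i3, i4, i5, i6]
  obtain ⟨v', vy1, vy2, vy3, vs1, vs2, vs3, vP⟩ := hv
  have key : ∀ x ∈ K, x ∈ P ∨ x = s1 ∨ x = s2 ∨ x = s3 ∨ x = y1 ∨ x = y2 ∨ x = y3 := by
    intro x hx
    by_cases hxs : x ∈ T s1
    · rw [hT] at hxs; simp only [mem_insert, mem_singleton] at hxs
      rcases hxs with h | h | h <;> simp [h]
    · by_cases hxy : x ∈ T y3
      · rw [hT'] at hxy; simp only [mem_insert, mem_singleton] at hxy
        rcases hxy with h | h | h <;> simp [h]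
      · left; rw [hP]; simp [hx, hxs, hxy]
  have posP : ∀ i ∈ P, 0 < (v' i).n := by
    intro i hi; rw [vP i hi]; exact h.old.pos i (mem_insert_of_mem hi)
  -- adjacency
  have nadj : ∀ y ∈ K, ∀ x, y ≠ x → x ∉ T y → m y ≠ x → ¬ G.Adj y x := by
    intro y hy x hyx hx hm hadj
    rcases (hK.adj y hy x hyx).1 hadj with h' | h'
    · exact hx h'
    · exact hm h'.symm
  have adjT : ∀ x ∈ K, ∀ y ∈ T x, x ≠ y → G.Adj x y := fun x hx y hy hxy =>
    (hK.adj x hx y hxy).2 (Or.inl hy)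
  have adjm : ∀ x ∈ K, G.Adj x (m x) := fun x hx =>
    (hK.adj x hx (m x) (fun e => hK.mT x hx (by rw [← e]; exact hK.self x hx))).2 (Or.inr rfl)
  -- old pairs
  have old : ∀ x ∈ P, ∀ y ∈ P, x ≠ y → Pair G v' x y := by
    intro x hx y hy hxy
    have hxd := mem_insert_of_mem (a := x) (b := d) hx
    have hyd := mem_insert_of_mem (a := y) (b := d) hy
    have cv : Pair G v x y := by
      refine ⟨h.adj x hx y hy hxy, ?_, ?_⟩
      · by_cases h0 : det (v x) (v y) = 0
        · right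
          have hN2 : (1 : ℤ) < N := by exact_mod_cast (h.old.prime N hN).1.one_lt
          rcases (h.par x hxd y hyd hxy h0).2.2 with ⟨rfl, rfl⟩ | ⟨rfl, rfl⟩
          · refine ⟨hbx.symm, hby.symm, ?_⟩
            rw [han, hbn]; omega
          · refine ⟨hbx, hby, ?_⟩
            rw [han, hbn]; omega
        · exact Or.inl h0
      · by_cases hT2 : y ∈ T x
        · exact gcd_dvd_of_touch ((h.adj x hx y hy hxy).1 (adjT x (h.PK hx) y hT2 hxy))
        · exact gcd_dvd_of_coprime (h.cop x hx y hy hT2)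
    unfold Pair at cv ⊢
    rw [vP x hx, vP y hy]
    exact cv
  -- new against old
  have no : ∀ x ∈ K, x ∉ P → ∀ i ∈ P, i ∉ T x → 0 < (v' x).n →
      (i = m x → Touch (v' x) (v i)) → (i ≠ m x → Far (v' x) (v i)) →
      IsCoprime (v' x).n (v i).n → Pair G v' x i := by
    intro x hx hxP i hi hiT hn ht hf hc
    have hxi : x ≠ i := fun e => hxP (e ▸ hi)
    by_cases him : i = m x
    · refine Pair.of_touch ?_ ?_ hn (posP i hi)
      · rw [him]; exact adjm x hx
      · rw [vP i hi]; exact ht him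
    · refine Pair.of_far (nadj x hx i hxi hiT (Ne.symm him)) ?_ ?_
      · rw [vP i hi]; exact hf him
      · rw [vP i hi]; exact hc
  have insP : ∀ i ∈ P, i ∈ insert d P := fun i hi => mem_insert_of_mem hi
  have ny1 : ∀ i ∈ P, Pair G v' y1 i := by
    intro i hi
    refine no y1 y1K (nPy y1 y1T) i hi ?_ ?_ ?_ ?_ ?_
    · rw [Ty y1 y1T]; exact nyP i hi
    · rw [vy1]; exact rp1.1
    · rintro rfl; rw [vy1]; exact tp1w
    · intro hi'; rw [vy1]; exact (hfar i (insP i hi)).1 hi'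
    · rw [vy1]; exact cop i (insP i hi) p1 (by simp)
  have ny2 : ∀ i ∈ P, Pair G v' y2 i := by
    intro i hi
    refine no y2 y2K (nPy y2 y2T) i hi ?_ ?_ ?_ ?_ ?_
    · rw [Ty y2 y2T]; exact nyP i hi
    · rw [vy2]; exact rp2.1
    · rintro rfl; rw [vy2]; exact tp2w
    · intro hi'; rw [vy2]; exact (hfar i (insP i hi)).2.1 hi'
    · rw [vy2]; exact cop i (insP i hi) p2 (by simp)
  have ny3 : ∀ i ∈ P, Pair G v' y3 i := by
    intro i hi
    refine no y3 y3K (nPy y3 y3T) i hi ?_ ?_ ?_ ?_ ?_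
    · rw [Ty y3 y3T]; exact nyP i hi
    · rw [vy3]; exact rp3.1
    · rintro rfl; rw [my3] at hi; exact absurd hi (nPs s3 s3T)
    · intro hi'; rw [vy3]; exact (hfar i (insP i hi)).2.2.1
    · rw [vy3]; exact cop i (insP i hi) p3 (by simp)
  have ns1 : ∀ i ∈ P, Pair G v' s1 i := by
    intro i hi
    refine no s1 hs1 (nPs s1 s1T) i hi ?_ ?_ ?_ ?_ ?_
    · exact nsP i hi
    · rw [vs1]; exact ru1.1
    · intro hi'; rw [vs1, hi', h1]; exact tu1a
    · intro hi'; rw [vs1]; rw [h1] at hi'; exact (hfar i (insP i hi)).2.2.2.1 hi'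
    · rw [vs1]; exact cop i (insP i hi) u1 (by simp)
  have ns2 : ∀ i ∈ P, Pair G v' s2 i := by
    intro i hi
    refine no s2 s2K (nPs s2 s2T) i hi ?_ ?_ ?_ ?_ ?_
    · rw [Ts s2 s2T]; exact nsP i hi
    · rw [vs2]; exact ru2.1
    · intro hi'; rw [vs2, hi', h2]; exact tu2b
    · intro hi'; rw [vs2]; rw [h2] at hi'; exact (hfar i (insP i hi)).2.2.2.2.1 hi'
    · rw [vs2]; exact cop i (insP i hi) u2 (by simp)
  have ns3 : ∀ i ∈ P, Pair G v' s3 i := by
    intro i hi
    refine no s3 s3K (nPs s3 s3T) i hi ?_ ?_ ?_ ?_ ?_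
    · rw [Ts s3 s3T]; exact nsP i hi
    · rw [vs3]; exact ru3.1
    · intro hi'; rw [hi', h3] at hi; exact absurd hi (nPy y3 y3T)
    · intro hi'; rw [vs3]; exact (hfar i (insP i hi)).2.2.2.2.2
    · rw [vs3]; exact cop i (insP i hi) u3 (by simp)
  -- new pairs in a triangle
  have q12 : Pair G v' y1 y2 := Pair.of_touch (adjT y1 y1K y2 (by rw [Ty y1 y1T]; exact y2T) y12)
    (by rw [vy1, vy2]; exact tp12) (by rw [vy1]; exact rp1.1) (by rw [vy2]; exact rp2.1)
  have q13 : Pair G v' y1 y3 := Pair.of_touch (adjT y1 y1K y3 (by rw [Ty y1 y1T]; exact y3T) y13)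
    (by rw [vy1, vy3]; exact tp13) (by rw [vy1]; exact rp1.1) (by rw [vy3]; exact rp3.1)
  have q23 : Pair G v' y2 y3 := Pair.of_touch (adjT y2 y2K y3 (by rw [Ty y2 y2T]; exact y3T) y23)
    (by rw [vy2, vy3]; exact tp23) (by rw [vy2]; exact rp2.1) (by rw [vy3]; exact rp3.1)
  have r12 : Pair G v' s1 s2 := Pair.of_touch (adjT s1 hs1 s2 s2T s12)
    (by rw [vs1, vs2]; exact tu12) (by rw [vs1]; exact ru1.1) (by rw [vs2]; exact ru2.1)
  have r13 : Pair G v' s1 s3 := Pair.of_touch (adjT s1 hs1 s3 s3T s13)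
    (by rw [vs1, vs3]; exact tu13) (by rw [vs1]; exact ru1.1) (by rw [vs3]; exact ru3.1)
  have r23 : Pair G v' s2 s3 := Pair.of_touch (adjT s2 s2K s3 (by rw [Ts s2 s2T]; exact s3T) s23)
    (by rw [vs2, vs3]; exact tu23) (by rw [vs2]; exact ru2.1) (by rw [vs3]; exact ru3.1)
  -- new pairs across
  have c33 : Pair G v' s3 y3 := Pair.of_touch (by rw [← h3]; exact adjm s3 s3K)
    (by rw [vs3, vy3]; exact tu3p3) (by rw [vs3]; exact ru3.1) (by rw [vy3]; exact rp3.1)
  have cr : ∀ x ∈ K, x ∈ T s1 → ∀ y ∈ T y3, m x ≠ y → Far (v' x) (v' y) →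
      IsCoprime (v' y).n (v' x).n → Pair G v' x y := by
    intro x hx hxT y hy hm hf hc
    refine Pair.of_far (nadj x hx y (disj x hxT y hy) ?_ hm) hf hc.symm
    rw [Ts x hxT]
    exact fun hy' => disj y hy' y hy rfl
  have naP : ∀ y ∈ T y3, m s1 ≠ y := fun y hy e => nPy y hy (by rw [← e, h1]; exact haP)
  have nbP : ∀ y ∈ T y3, m s2 ≠ y := fun y hy e => nPy y hy (by rw [← e, h2]; exact hbP)
  have c11 : Pair G v' s1 y1 := cr s1 hs1 s1T y1 y1T (naP y1 y1T) (by rw [vs1, vy1]; exact f11)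
    (by rw [vs1, vy1]; exact cop2 p1 u1 (by simp) (by simp))
  have c12 : Pair G v' s1 y2 := cr s1 hs1 s1T y2 y2T (naP y2 y2T) (by rw [vs1, vy2]; exact f12)
    (by rw [vs1, vy2]; exact cop2 p2 u1 (by simp) (by simp))
  have c13 : Pair G v' s1 y3 := cr s1 hs1 s1T y3 y3T (naP y3 y3T) (by rw [vs1, vy3]; exact f13)
    (by rw [vs1, vy3]; exact cop2 p3 u1 (by simp) (by simp))
  have c21 : Pair G v' s2 y1 := cr s2 s2K s2T y1 y1T (nbP y1 y1T) (by rw [vs2, vy1]; exact f21)
    (by rw [vs2, vy1]; exact cop2 p1 u2 (by simp) (by simp))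
  have c22 : Pair G v' s2 y2 := cr s2 s2K s2T y2 y2T (nbP y2 y2T) (by rw [vs2, vy2]; exact f22)
    (by rw [vs2, vy2]; exact cop2 p2 u2 (by simp) (by simp))
  have c23 : Pair G v' s2 y3 := cr s2 s2K s2T y3 y3T (nbP y3 y3T) (by rw [vs2, vy3]; exact f23)
    (by rw [vs2, vy3]; exact cop2 p3 u2 (by simp) (by simp))
  have c31 : Pair G v' s3 y1 := cr s3 s3K s3T y1 y1T (by rw [h3]; exact y13.symm)
    (by rw [vs3, vy1]; exact f31)
    (by rw [vs3, vy1]; exact cop2 p1 u3 (by simp) (by simp))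
  have c32 : Pair G v' s3 y2 := cr s3 s3K s3T y2 y2T (by rw [h3]; exact y23.symm)
    (by rw [vs3, vy2]; exact f32)
    (by rw [vs3, vy2]; exact cop2 p2 u3 (by simp) (by simp))
  refine ⟨v', conf_of_pair ?_ ?_⟩
  · intro x hx
    rcases key x hx with h' | h' | h' | h' | h' | h' | h'
    · rw [vP x h']
      exact red_of_coprime (h.old.pos x (insP x h')) (h.old.prim x (insP x h'))
    · rw [h', vs1]; exact ru1
    · rw [h', vs2]; exact ru2
    · rw [h', vs3]; exact ru3
    · rw [h', vy1]; exact rp1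
    · rw [h', vy2]; exact rp2
    · rw [h', vy3]; exact rp3
  · intro x hx y hy hxy
    rcases key x hx with h' | h' | h' | h' | h' | h' | h'
    · rcases key y hy with g | g | g | g | g | g | g
      · exact old x h' y g hxy
      · rw [g]; exact (ns1 x h').symm
      · rw [g]; exact (ns2 x h').symm
      · rw [g]; exact (ns3 x h').symm
      · rw [g]; exact (ny1 x h').symm
      · rw [g]; exact (ny2 x h').symm
      · rw [g]; exact (ny3 x h').symm
    · rw [h'] at hxy ⊢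
      rcases key y hy with g | g | g | g | g | g | g
      · exact ns1 y g
      · exact absurd g.symm hxy
      · rw [g]; exact r12
      · rw [g]; exact r13
      · rw [g]; exact c11
      · rw [g]; exact c12
      · rw [g]; exact c13
    · rw [h'] at hxy ⊢
      rcases key y hy with g | g | g | g | g | g | g
      · exact ns2 y g
      · rw [g]; exact r12.symm
      · exact absurd g.symm hxy
      · rw [g]; exact r23
      · rw [g]; exact c21
      · rw [g]; exact c22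
      · rw [g]; exact c23
    · rw [h'] at hxy ⊢
      rcases key y hy with g | g | g | g | g | g | g
      · exact ns3 y g
      · rw [g]; exact r13.symm
      · rw [g]; exact r23.symm
      · exact absurd g.symm hxy
      · rw [g]; exact c31
      · rw [g]; exact c32
      · rw [g]; exact c33
    · rw [h'] at hxy ⊢
      rcases key y hy with g | g | g | g | g | g | g
      · exact ny1 y g
      · rw [g]; exact c11.symm
      · rw [g]; exact c21.symm
      · rw [g]; exact c31.symm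
      · exact absurd g.symm hxy
      · rw [g]; exact q12
      · rw [g]; exact q13
    · rw [h'] at hxy ⊢
      rcases key y hy with g | g | g | g | g | g | g
      · exact ny2 y g
      · rw [g]; exact c12.symm
      · rw [g]; exact c22.symm
      · rw [g]; exact c32.symm
      · rw [g]; exact q12.symm
      · exact absurd g.symm hxy
      · rw [g]; exact q23
    · rw [h'] at hxy ⊢
      rcases key y hy with g | g | g | g | g | g | g
      · exact ny3 y g
      · rw [g]; exact c13.symm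
      · rw [g]; exact c23.symm
      · rw [g]; exact c33.symm
      · rw [g]; exact q13.symm
      · rw [g]; exact q23.symm
      · exact absurd g.symm hxy

end PSV

section
variable {V : Type*} [DecidableEq V] {G : SimpleGraph V} {K : Finset V} {T : V → Finset V}
  {m : V → V} {B : ℕ} {d a b : V} {P : Finset V} {Z : Finset ℕ} {v : V → Vec} {Sp : Finset V}

/-- Last two triangles in the simple case. `T s1 = {s1, s2, s3}` is the last triangle,
`{y1, y2, y3}` with `y3 = m s3` the last but one. -/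
theorem PS.finalV (hK : TriK G K T m) (hB : 4 * K.card + 18 ≤ B)
    (h : PS G K T m B d a b P Z v Sp) (hSp : Spec T a b P Z v Sp) {s1 s2 s3 y1 y2 y3 : V}
    (hs1 : s1 ∈ K) (hT : T s1 = {s1, s2, s3}) (hT' : T y3 = {y1, y2, y3}) (h3 : m s3 = y3)
    (h1 : m s1 = a) (h2 : m s2 = b) (hne : y3 ∉ T s1) (hy1 : m y1 ∈ P) (hy2 : m y2 ∈ P)
    (hd : d ∈ T s1) (hP : P = K \ (T s1 ∪ T y3))
    (hspec : ¬ (m y1 ∈ Sp ∧ m y2 ∈ Sp)) :
    ∃ v', Conf G K v' := by
  by_cases hc : m y1 ∈ Sp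
  · have hc2 : m y2 ∉ Sp := fun h' => hspec ⟨hc, h'⟩
    have hT2 : T y3 = {y2, y1, y3} := by rw [hT', Finset.insert_comm]
    exact PSV.core hK h hSp hs1 hT hT2 h3 h1 h2 hne hy2 hy1 hP hc2
  · exact PSV.core hK h hSp hs1 hT hT' h3 h1 h2 hne hy1 hy2 hP hc

end

end Pool.Agent.Tri
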