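import Mathlib
import Pool.Agent.Tri.PSDefs

set_option autoImplicit false

open Finset

namespace Pool.Agent.Tri


variable {V : Type*} [DecidableEq V] {G : SimpleGraph V} {K : Finset V} {T : V → Finset V}
  {m : V → V} {B : ℕ} {d a b : V} {P : Finset V} {Z : Finset ℕ} {v : V → Vec} {Sp : Finset V}

lemma psstep_swap (u w : Vec) : det u w = - det w u := by simp only [det]; ring

lemma psstep_touch {u w : Vec} (h : Touch u w) : Touch w u := by
  unfold Touch at *
  rw [psstep_swap, abs_neg, h, mul_comm]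

lemma psstep_far {u w : Vec} (h : Far u w) : Far w u := by
  unfold Far at *
  rw [psstep_swap w u, abs_neg, mul_comm w.n]
  exact ⟨by simpa using h.1, h.2⟩

lemma psstep_ne {u w : Vec} (h : Touch u w) (hu : 0 < u.n) (hw : 0 < w.n) : det u w ≠ 0 := by
  intro h0
  unfold Touch at h
  rw [h0, abs_zero] at h
  have := mul_pos hu hw
  omega

lemma psstep_dvd {u w : Vec} {p : ℤ} (h : p ∣ det u w) : p ∣ det w u := by
  rw [psstep_swap]
  exact (dvd_neg).2 h

/-- The empty placement. -/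
theorem PS.empty (hB : 14 ≤ B) : PS G K T m B d a b ∅ ∅ (fun _ => ⟨0, 1, 1⟩) ∅ := by
  have hF : Fr m d (∅ : Finset V) = {d} := by
    unfold Fr
    rw [Finset.filter_empty]
    rfl
  constructor
  · exact Finset.empty_subset _
  · intro x hx
    exact absurd hx (Finset.notMem_empty x)
  · exact Finset.notMem_empty d
  · rfl
  · rw [hF]
    constructor
    · intro i hi
      exact hi
    · intro i _
      exact one_pos
    · intro i _
      exact isCoprime_one_right
    · intro i _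
      exact Or.inl rfl
    · intro p hp
      exact absurd hp (Finset.notMem_empty p)
    · rw [Finset.card_singleton]
      omega
  · intro x hx
    exact absurd hx (Finset.notMem_empty x)
  · intro x hx y hy hxy
    have h1 : x = d := Finset.mem_singleton.1 hx
    have h2 : y = d := Finset.mem_singleton.1 hy
    exact absurd (h1.trans h2.symm) hxy
  · intro p hp
    exact absurd hp (Finset.notMem_empty p)
  · intro x hx
    exact absurd hx (Finset.notMem_empty x)
  · intro x hx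
    exact absurd hx (Finset.notMem_empty x)
  · exact Or.inl rfl

/-- The roles of `a` and `b` are symmetric. -/
theorem PS.symm (h : PS G K T m B d a b P Z v Sp) : PS G K T m B d b a P Z v Sp where
  PK := h.PK
  uni := h.uni
  dP := h.dP
  dn := h.dn
  old := h.old
  adj := h.adj
  par x hx y hy hxy h0 := by
    obtain ⟨h1, h2, h3⟩ := h.par x hx y hy hxy h0
    exact ⟨h1, h2, h3.symm⟩
  good := h.good
  cop := h.cop
  one x hx hx2 hS := h.one x hx hx2.symm hS
  sp := by
    rcases h.sp with h1 | h1 | h1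
    · exact Or.inl h1
    · exact Or.inr (Or.inr h1)
    · exact Or.inr (Or.inl h1)

lemma PS.spP (h : PS G K T m B d a b P Z v Sp) : Sp ⊆ P := by
  rcases h.sp with h1 | h1 | h1
  · rw [h1]
    exact Finset.empty_subset _
  · obtain ⟨ha, hb, -, hS, -⟩ := h1
    rw [hS]
    intro y hy
    rcases Finset.mem_insert.1 hy with rfl | hy
    · exact ha
    · exact h.uni b hb hy
  · obtain ⟨ha, hb, -, hS, -⟩ := h1
    rw [hS]
    intro y hy
    rcases Finset.mem_insert.1 hy with rfl | hy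
    · exact ha
    · exact h.uni a hb hy

lemma psstep_spec {a b : V} {Z' : Finset ℕ} {v' : V → Vec} {x : V} (h : Spec T a b P Z v Sp)
    (hv : ∀ i ∈ P, v' i = v i) (hZ : Z ⊆ Z')
    (hZ2 : ∀ p ∈ Z', p ∉ Z → ∀ q ∈ Z, ¬ (p : ℤ) ∣ (q : ℤ) + 1) :
    Spec T a b (P ∪ T x) Z' v' Sp := by
  obtain ⟨ha, hb, hab, hS, hx, hy, hn, N, hN, hbn, hNp⟩ := h
  refine ⟨Finset.mem_union_left _ ha, Finset.mem_union_left _ hb, hab, hS, ?_, ?_, ?_, N, hZ hN,
    ?_, ?_⟩
  · rw [hv a ha, hv b hb, hx]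
  · rw [hv a ha, hv b hb, hy]
  · rw [hv a ha, hn]
  · rw [hv b hb, hbn]
  · intro p hp
    by_cases hpZ : p ∈ Z
    · exact hNp p hpZ
    · exact hZ2 p hp hpZ N hN

/-- Adding a triangle: the conditions on the new vectors. -/
theorem PS.add (hK : TriK G K T m) (hB : 4 * K.card + 18 ≤ B)
    (h : PS G K T m B d a b P Z v Sp) {x : V} (hx : x ∈ K) (hxP : x ∉ P) (hdx : d ∉ T x)
    {Z' : Finset ℕ} {v' : V → Vec} (hv : ∀ i, i ∉ T x → v' i = v i) (hZ : Z ⊆ Z')
    (hZ1 : ∀ p ∈ Z', p.Prime ∧ B < p)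
    (hZ2 : ∀ p ∈ Z', p ∉ Z → ∀ q ∈ Z, ¬ (p : ℤ) ∣ (q : ℤ) + 1)
    (hpos : ∀ i ∈ T x, 0 < (v' i).n) (hprim : ∀ i ∈ T x, IsCoprime (v' i).x (v' i).y)
    (hden : ∀ i ∈ T x, (v' i).n = 1 ∨ ∃ p ∈ Z', (v' i).n = (p : ℤ))
    (htri : ∀ i ∈ T x, ∀ j ∈ T x, i ≠ j → Touch (v' i) (v' j))
    (hlink : ∀ i ∈ T x, m i ∈ P → Touch (v' i) (v (m i)))
    (hfar : ∀ i ∈ T x, ∀ j ∈ P, j ≠ m i → Far (v' i) (v j))
    (hd0 : ∀ i ∈ T x, det (v' i) (v d) ≠ 0)
    (hg0 : ∀ p ∈ Z', p ∉ Z → ∀ i ∈ insert d P, ∀ j ∈ insert d P, det (v i) (v j) ≠ 0 →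
      ¬ (p : ℤ) ∣ det (v i) (v j))
    (hg1 : ∀ p ∈ Z', ∀ i ∈ T x, ∀ j ∈ T x, i ≠ j → m i ∉ P → m j ∉ P →
      ¬ (p : ℤ) ∣ det (v' i) (v' j))
    (hg2 : ∀ p ∈ Z', ∀ i ∈ T x, m i ∉ P → ∀ j ∈ Fr m d P, (j = d ∨ m j ∉ T x) →
      ¬ (p : ℤ) ∣ det (v' i) (v j))
    (hcop : ∀ i ∈ T x, ∀ j ∈ P, IsCoprime (v' i).n (v j).n)
    (hone : ∀ i ∈ T x, (i = a ∨ i = b) → (v' i).n = 1) :
    PS G K T m B d a b (P ∪ T x) Z' v' Sp := by
  have hTK : T x ⊆ K := hK.sub x hx
  have hdisj : ∀ i ∈ T x, i ∉ P := by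
    intro i hi hiP
    have h1 := h.uni i hiP
    rw [hK.part x hx i hi] at h1
    exact hxP (h1 (hK.self x hx))
  have hvP : ∀ i ∈ P, v' i = v i := fun i hi => hv i fun h1 => hdisj i h1 hi
  have hvd : v' d = v d := hv d hdx
  have hvdP : ∀ i ∈ insert d P, v' i = v i := by
    intro i hi
    rcases Finset.mem_insert.1 hi with rfl | hi
    · exact hvd
    · exact hvP i hi
  have hPT : ∀ i, i ∈ P ∪ T x → i ∈ P ∨ i ∈ T x := fun i hi => Finset.mem_union.1 hi
  have hdPT : ∀ i, i ∈ insert d (P ∪ T x) → i ∈ insert d P ∨ i ∈ T x := by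
    intro i hi
    rcases Finset.mem_insert.1 hi with h1 | hi
    · exact Or.inl (Finset.mem_insert.2 (Or.inl h1))
    · rcases hPT i hi with h1 | h1
      · exact Or.inl (Finset.mem_insert_of_mem h1)
      · exact Or.inr h1
  have hPuK : P ∪ T x ⊆ K := Finset.union_subset h.PK hTK
  have hFr : Fr m d (P ∪ T x) ⊆ insert d (P ∪ T x) :=
    Finset.insert_subset_insert d (Finset.filter_subset _ _)
  have hFrc : (Fr m d (P ∪ T x)).card ≤ K.card + 1 := by
    unfold Fr
    refine (Finset.card_insert_le _ _).trans ?_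
    have := Finset.card_le_card ((Finset.filter_subset (fun x_1 => m x_1 ∉ P ∪ T x) (P ∪ T x)).trans
      hPuK)
    omega
  -- elements of the new set of free vertices
  have hFrm : ∀ i ∈ Fr m d (P ∪ T x), (i ∈ Fr m d P ∧ (i = d ∨ m i ∉ T x)) ∨
      (i ∈ T x ∧ m i ∉ P) := by
    intro i hi
    rcases Finset.mem_insert.1 hi with h1 | hi
    · exact Or.inl ⟨Finset.mem_insert.2 (Or.inl h1), Or.inl h1⟩
    · obtain ⟨h1, h2⟩ := Finset.mem_filter.1 hi
      rw [Finset.mem_union, not_or] at h2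
      rcases hPT i h1 with h3 | h3
      · exact Or.inl ⟨Finset.mem_insert_of_mem (Finset.mem_filter.2 ⟨h3, h2.1⟩), Or.inr h2.2⟩
      · exact Or.inr ⟨h3, h2.1⟩
  have hFrP : Fr m d P ⊆ insert d P := h.old.sub
  -- determinants of new and old
  have hne : ∀ i ∈ T x, ∀ j ∈ insert d P, det (v' i) (v j) ≠ 0 := by
    intro i hi j hj
    rcases Finset.mem_insert.1 hj with rfl | hj
    · exact hd0 i hi
    · by_cases hjm : j = m i
      · rw [hjm] at hj ⊢
        exact psstep_ne (hlink i hi hj) (hpos i hi) (h.old.pos _ (Finset.mem_insert_of_mem hj))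
      · exact (hfar i hi j hj hjm).1
  have hSpP := h.spP
  constructor
  · exact hPuK
  · intro y hy
    rcases hPT y hy with h1 | h1
    · exact (h.uni y h1).trans Finset.subset_union_left
    · rw [hK.part x hx y h1]
      exact Finset.subset_union_right
  · intro hd
    rcases hPT d hd with h1 | h1
    · exact h.dP h1
    · exact hdx h1
  · rw [hvd]
    exact h.dn
  · constructor
    · exact hFr
    · intro i hi
      rcases hdPT i hi with h1 | h1
      · rw [hvdP i h1]
        exact h.old.pos i h1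
      · exact hpos i h1
    · intro i hi
      rcases hdPT i hi with h1 | h1
      · rw [hvdP i h1]
        exact h.old.prim i h1
      · exact hprim i h1
    · intro i hi
      rcases hdPT i hi with h1 | h1
      · rw [hvdP i h1]
        rcases h.old.den i h1 with h2 | ⟨p, hp, h2⟩
        · exact Or.inl h2
        · exact Or.inr ⟨p, hZ hp, h2⟩
      · exact hden i h1
    · exact hZ1
    · omega
  · -- adjacency
    have key : ∀ i ∈ T x, ∀ j ∈ P, (G.Adj i j ↔ Touch (v' i) (v' j)) := by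
      intro i hi j hj
      have hij : i ≠ j := by
        rintro rfl
        exact hdisj i hi hj
      rw [hK.adj i (hTK hi) j hij, hK.part x hx i hi, hvP j hj]
      constructor
      · rintro (h1 | h1)
        · exact absurd hj (hdisj j h1)
        · rw [h1] at hj ⊢
          exact hlink i hi hj
      · intro h1
        by_contra h2
        rw [not_or] at h2
        exact (hfar i hi j hj h2.2).2 h1
    intro y hy z hz hyz
    rcases hPT y hy with h1 | h1 <;> rcases hPT z hz with h2 | h2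
    · rw [hvP y h1, hvP z h2]
      exact h.adj y h1 z h2 hyz
    · rw [G.adj_comm, key z h2 y h1]
      exact ⟨psstep_touch, psstep_touch⟩
    · exact key y h1 z h2
    · rw [hK.adj y (hTK h1) z hyz, hK.part x hx y h1]
      exact ⟨fun _ => htri y h1 z h2 hyz, fun _ => Or.inl h2⟩
  · intro y hy z hz hyz h0
    rcases hdPT y hy with h1 | h1 <;> rcases hdPT z hz with h2 | h2
    · rw [hvdP y h1, hvdP z h2] at h0
      exact h.par y h1 z h2 hyz h0
    · exfalso
      rw [hvdP y h1, psstep_swap, neg_eq_zero] at h0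
      exact hne z h2 y h1 h0
    · exfalso
      rw [hvdP z h2] at h0
      exact hne y h1 z h2 h0
    · exact absurd h0 (psstep_ne (htri y h1 z h2 hyz) (hpos y h1) (hpos z h2))
  · intro p hp y hy z hz hyz hS
    rcases hFrm y hy with ⟨h1, h1'⟩ | ⟨h1, h1'⟩ <;> rcases hFrm z hz with ⟨h2, h2'⟩ | ⟨h2, h2'⟩
    · rw [hvdP y (hFrP h1), hvdP z (hFrP h2)]
      by_cases hpZ : p ∈ Z
      · exact h.good p hpZ y h1 z h2 hyz hS
      · refine hg0 p hp hpZ y (hFrP h1) z (hFrP h2) fun h0 => hS ?_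
        obtain ⟨h3, h4, -⟩ := h.par y (hFrP h1) z (hFrP h2) hyz h0
        exact ⟨h3, h4⟩
    · rw [hvdP y (hFrP h1)]
      intro h3
      exact hg2 p hp z h2 h2' y h1 h1' (psstep_dvd h3)
    · rw [hvdP z (hFrP h2)]
      exact hg2 p hp y h1 h1' z h2 h2'
    · exact hg1 p hp y h1 z h2 hyz h1' h2'
  · intro y hy z hz hyz
    rcases hPT y hy with h1 | h1 <;> rcases hPT z hz with h2 | h2
    · rw [hvP y h1, hvP z h2]
      exact h.cop y h1 z h2 hyz
    · rw [hvP y h1]
      exact (hcop z h2 y h1).symm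
    · rw [hvP z h2]
      exact hcop y h1 z h2
    · rw [hK.part x hx y h1] at hyz
      exact absurd h2 hyz
  · intro y hy hyab hS
    rcases hPT y hy with h1 | h1
    · rw [hvP y h1]
      exact h.one y h1 hyab hS
    · exact hone y h1 hyab
  · rcases h.sp with h1 | h1 | h1
    · exact Or.inl h1
    · exact Or.inr (Or.inl (psstep_spec h1 hvP hZ hZ2))
    · exact Or.inr (Or.inr (psstep_spec h1 hvP hZ hZ2))

end Pool.Agent.Tri
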