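import Mathlib
import Pool.Agent.Tri.Core
import Pool.Agent.Tri.Sel

set_option autoImplicit false

open Finset

namespace Pool.Agent.Tri

variable {ι : Type*} [DecidableEq ι] {P F : Finset ι} {Z : Finset ℕ} {B : ℕ} {v : ι → Vec}

lemma sa_far {u V : Vec} (hu : u.n = 1) (h0 : det u V ≠ 0) (h1 : det u V ≠ V.n)
    (h2 : det u V ≠ -V.n) : Far u V := by
  refine ⟨h0, ?_⟩
  rw [hu, one_mul]
  intro h
  rcases abs_eq_abs.1 (h.trans (by
    rw [abs_of_nonneg]
    rw [← h]; exact abs_nonneg _ : V.n = |V.n|)) with h3 | h3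
  · exact h1 h3
  · exact h2 h3

theorem stepA (h : Old P F Z B v) {w : ι} (hw : w ∈ F)
    (hpar : ∀ i ∈ P, i ≠ w → det (v i) (v w) ≠ 0) :
    ∃ u1 u2 u3 : Vec, (u1.n = 1 ∧ u2.n = 1 ∧ u3.n = 1) ∧
      (IsCoprime u1.x u1.y ∧ IsCoprime u2.x u2.y ∧ IsCoprime u3.x u3.y) ∧
      (Touch u1 u2 ∧ Touch u1 u3 ∧ Touch u2 u3) ∧ Touch u1 (v w) ∧
      (∀ i ∈ P, i ≠ w → Far u1 (v i)) ∧ (∀ i ∈ P, Far u2 (v i) ∧ Far u3 (v i)) ∧
      (∀ p ∈ Z, ∀ i ∈ F, ¬ (p : ℤ) ∣ det u2 (v i) ∧ ¬ (p : ℤ) ∣ det u3 (v i)) ∧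
      (∀ p ∈ Z, ∀ i ∈ F, i ≠ w → ¬ (p : ℤ) ∣ det (v i) (v w) → ¬ (p : ℤ) ∣ det u1 (v i)) := by
  have hwP : w ∈ P := h.sub hw
  set W := v w with hW
  have hs : ∀ x y : Vec, det x y = - det y x := det_swap
  have hp1 : ∀ i ∈ P, i ≠ w → det W (v i) ≠ 0 := by
    intro i hi hiw h0
    apply hpar i hi hiw
    rw [hs, h0, neg_zero]
  obtain ⟨c1, c2, hc⟩ := h.prim w hwP
  obtain ⟨f1, f2, hf⟩ : ∃ f1 f2 : ℤ, f1 * W.y - f2 * W.x = 1 :=
    ⟨c2, -c1, by linear_combination hc⟩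
  have hn1pos : 0 < W.n := h.pos w hwP
  have hZ : ∀ p ∈ Z, p.Prime := fun p hp => (h.prime p hp).1
  -- first choice
  let q1 : ι → ℤ × ℤ × ℤ := fun i => (0, det W (v i), W.n * (f1 * (v i).y - f2 * (v i).x))
  let Q1 : ℕ → Finset (ℤ × ℤ × ℤ) := fun p =>
    insert ((0 : ℤ), (1 : ℤ), (0 : ℤ))
      (((F.erase w).filter (fun i => ¬ (p : ℤ) ∣ det (v i) W)).image q1)
  have hQ1card : ∀ p ∈ Z, 2 * (Q1 p).card + 1 < p := by
    intro p hp
    have e1 : (Q1 p).card ≤ F.card := by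
      refine le_trans (card_insert_le _ _) ?_
      have e2 : (((F.erase w).filter (fun i => ¬ (p : ℤ) ∣ det (v i) W)).image q1).card ≤
          (F.erase w).card := le_trans card_image_le (card_filter_le _ _)
      have e3 := card_erase_add_one hw
      omega
    have e4 := (h.prime p hp).2
    have e5 := h.bound
    omega
  have hQ1 : ∀ p ∈ Z, ∀ q ∈ Q1 p, ¬ ((p : ℤ) ∣ q.1 ∧ (p : ℤ) ∣ q.2.1 ∧ (p : ℤ) ∣ q.2.2) := by
    intro p hp q hq
    rcases mem_insert.1 hq with rfl | hq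
    · rintro ⟨-, h1, -⟩
      have := Int.eq_one_of_dvd_one (by positivity) h1
      have h2 := (hZ p hp).one_lt
      omega
    · obtain ⟨i, hi, rfl⟩ := mem_image.1 hq
      rintro ⟨-, h1, -⟩
      apply (mem_filter.1 hi).2
      rw [hs]
      exact (dvd_neg).2 h1
  let E1 : Set ℤ := ⋃ i ∈ (P.erase w : Finset ι), ({s | det (P1 W f1 f2 s) (v i) = 0} ∪
      ({s | det (P1 W f1 f2 s) (v i) = (v i).n} ∪
        {s | det (P1 W f1 f2 s) (v i) = -(v i).n}))
  have hE1 : E1.Finite := by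
    refine Set.Finite.biUnion (Finset.finite_toSet _) ?_
    intro i hi
    have hi' := mem_erase.1 (Finset.mem_coe.1 hi)
    have hV := hp1 i hi'.2 hi'.1
    exact (fin_P1 hV 0).union ((fin_P1 hV _).union (fin_P1 hV _))
  obtain ⟨s, N, -, -, -, hsE, hsQ⟩ := sel Z hZ Q1 hQ1card hQ1 1 1 isCoprime_one_left
    one_ne_zero E1 hE1 0
  set u1 := P1 W f1 f2 s with hu1
  have hu1n : u1.n = 1 := rfl
  have hsn : IsCoprime W.n s := by
    rcases h.den w hwP with h1 | ⟨p, hp, h1⟩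
    · rw [show W.n = 1 from h1]
      exact isCoprime_one_left
    · rw [show W.n = (p : ℤ) from h1]
      refine ((Nat.prime_iff_prime_int.1 (hZ p hp)).irreducible.coprime_iff_not_dvd).2 ?_
      have := hsQ p hp (0, 1, 0) (mem_insert_self _ _)
      simpa using this
  have hu1W : det u1 W = W.n := det_P1_W1 hf s
  have hu1f : f1 * u1.y - f2 * u1.x = s := by
    simp only [hu1, P1]
    linear_combination s * hf
  have hcop1 : IsCoprime u1.x u1.y := by
    obtain ⟨c, d, hcd⟩ := hsn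
    refine ⟨c * W.y - d * f2, d * f1 - c * W.x, ?_⟩
    have e1 : u1.x * W.y - u1.y * W.x = W.n := hu1W
    linear_combination c * e1 + d * hu1f + hcd
  have hdet1 : ∀ i ∈ P, det u1 (v i) ≠ 0 := by
    intro i hi
    by_cases hiw : i = w
    · rw [hiw]
      show det u1 W ≠ 0
      rw [hu1W]
      exact hn1pos.ne'
    · intro h0
      apply hsE
      exact Set.mem_biUnion (mem_coe.2 (mem_erase.2 ⟨hiw, hi⟩)) (Or.inl h0)
  have hfar1 : ∀ i ∈ P, i ≠ w → Far u1 (v i) := by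
    intro i hi hiw
    refine sa_far hu1n (hdet1 i hi) ?_ ?_
    · intro h0
      apply hsE
      exact Set.mem_biUnion (mem_coe.2 (mem_erase.2 ⟨hiw, hi⟩)) (Or.inr (Or.inl h0))
    · intro h0
      apply hsE
      exact Set.mem_biUnion (mem_coe.2 (mem_erase.2 ⟨hiw, hi⟩)) (Or.inr (Or.inr h0))
  -- the basis (u1, h)
  obtain ⟨a, b, hab⟩ := hcop1
  set hv : Vec := ⟨-b, a, 1⟩ with hhv
  have hbas : det u1 hv = 1 := by
    simp only [det, hhv]
    linear_combination hab
  have hxy : ∀ V : Vec, V.x = det u1 V * hv.x - det hv V * u1.x ∧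
      V.y = det u1 V * hv.y - det hv V * u1.y := by
    intro V
    have e1 : u1.x * hv.y - u1.y * hv.x = 1 := hbas
    constructor
    · simp only [det]
      linear_combination (-V.x) * e1
    · simp only [det]
      linear_combination (-V.y) * e1
  -- second choice
  let q2 : ι → ℤ × ℤ × ℤ := fun i => (0, det u1 (v i), det hv (v i))
  let q3 : ι → ℤ × ℤ × ℤ := fun i => (0, -det u1 (v i), -det u1 (v i) - det hv (v i))
  let Q2 : ℕ → Finset (ℤ × ℤ × ℤ) := fun _ => F.image q2 ∪ F.image q3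
  have hQ2card : ∀ p ∈ Z, 2 * (Q2 p).card + 1 < p := by
    intro p hp
    have e1 : (Q2 p).card ≤ F.card + F.card :=
      le_trans (card_union_le _ _) (Nat.add_le_add card_image_le card_image_le)
    have e4 := (h.prime p hp).2
    have e5 := h.bound
    omega
  have hprim : ∀ p ∈ Z, ∀ i ∈ F, ¬ ((p : ℤ) ∣ det u1 (v i) ∧ (p : ℤ) ∣ det hv (v i)) := by
    rintro p hp i hi ⟨h1, h2⟩
    obtain ⟨e1, e2⟩ := hxy (v i)
    obtain ⟨c, d, hcd⟩ := h.prim i (h.sub hi)
    have h3 : (p : ℤ) ∣ (v i).x := by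
      rw [e1]
      exact dvd_sub (Dvd.dvd.mul_right h1 _) (Dvd.dvd.mul_right h2 _)
    have h4 : (p : ℤ) ∣ (v i).y := by
      rw [e2]
      exact dvd_sub (Dvd.dvd.mul_right h1 _) (Dvd.dvd.mul_right h2 _)
    have h5 : (p : ℤ) ∣ 1 := by
      rw [← hcd]
      exact dvd_add (Dvd.dvd.mul_left h3 _) (Dvd.dvd.mul_left h4 _)
    have := Int.eq_one_of_dvd_one (by positivity) h5
    have h6 := (hZ p hp).one_lt
    omega
  have hQ2 : ∀ p ∈ Z, ∀ q ∈ Q2 p, ¬ ((p : ℤ) ∣ q.1 ∧ (p : ℤ) ∣ q.2.1 ∧ (p : ℤ) ∣ q.2.2) := by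
    intro p hp q hq
    rcases mem_union.1 hq with hq | hq
    · obtain ⟨i, hi, rfl⟩ := mem_image.1 hq
      rintro ⟨-, h1, h2⟩
      exact hprim p hp i hi ⟨h1, h2⟩
    · obtain ⟨i, hi, rfl⟩ := mem_image.1 hq
      rintro ⟨-, h1, h2⟩
      have h3 : (p : ℤ) ∣ det u1 (v i) := (dvd_neg).1 h1
      refine hprim p hp i hi ⟨h3, ?_⟩
      have h4 : det hv (v i) = -det u1 (v i) - (-det u1 (v i) - det hv (v i)) := by ring
      rw [h4]
      exact dvd_sub h1 h2
  have hfin : ∀ (i : ι), i ∈ P → ∀ c k : ℤ, {r : ℤ | c + r * det u1 (v i) = k}.Finite := by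
    intro i hi c k
    apply (finite_lin (a := c - k) (b := det u1 (v i)) (Or.inr (hdet1 i hi))).subset
    intro r hr
    simp only [Set.mem_ofPred_eq] at hr ⊢
    linarith
  let E2 : Set ℤ := ⋃ i ∈ (P : Finset ι), (({r | det hv (v i) + r * det u1 (v i) = 0} ∪
      ({r | det hv (v i) + r * det u1 (v i) = (v i).n} ∪
        {r | det hv (v i) + r * det u1 (v i) = -(v i).n})) ∪
      ({r | det u1 (v i) + det hv (v i) + r * det u1 (v i) = 0} ∪
      ({r | det u1 (v i) + det hv (v i) + r * det u1 (v i) = (v i).n} ∪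
        {r | det u1 (v i) + det hv (v i) + r * det u1 (v i) = -(v i).n})))
  have hE2 : E2.Finite := by
    refine Set.Finite.biUnion (Finset.finite_toSet _) ?_
    intro i hi
    have hi' : i ∈ P := hi
    exact ((hfin i hi' _ _).union ((hfin i hi' _ _).union (hfin i hi' _ _))).union
      ((hfin i hi' _ _).union ((hfin i hi' _ _).union (hfin i hi' _ _)))
  obtain ⟨r, N', -, -, -, hrE, hrQ⟩ := sel Z hZ Q2 hQ2card hQ2 1 1 isCoprime_one_left
    one_ne_zero E2 hE2 0
  set u2 : Vec := ⟨hv.x + r * u1.x, hv.y + r * u1.y, 1⟩ with hu2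
  set u3 : Vec := ⟨-u1.x - u2.x, -u1.y - u2.y, 1⟩ with hu3
  have hd2 : ∀ V : Vec, det u2 V = det hv V + r * det u1 V := by
    intro V
    simp only [det, hu2]
    ring
  have hd3 : ∀ V : Vec, det u3 V = -(det u1 V + det hv V + r * det u1 V) := by
    intro V
    simp only [det, hu3, hu2]
    ring
  have h12 : det u1 u2 = 1 := by
    rw [← hbas]
    simp only [det, hu2]
    ring
  have h13 : det u1 u3 = -1 := by
    rw [← h12]
    simp only [det, hu3]
    ring
  have h23 : det u2 u3 = 1 := by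
    rw [← h12]
    simp only [det, hu3]
    ring
  refine ⟨u1, u2, u3, ⟨rfl, rfl, rfl⟩, ⟨⟨a, b, hab⟩, ?_, ?_⟩, ⟨?_, ?_, ?_⟩, ?_, hfar1, ?_, ?_, ?_⟩
  · refine ⟨-u1.y, u1.x, ?_⟩
    have e1 : u1.x * u2.y - u1.y * u2.x = 1 := h12
    linear_combination e1
  · refine ⟨u1.y, -u1.x, ?_⟩
    have e1 : u1.x * u3.y - u1.y * u3.x = -1 := h13
    linear_combination -e1
  · show |det u1 u2| = 1 * 1
    rw [h12]
    norm_num
  · show |det u1 u3| = 1 * 1
    rw [h13]
    norm_num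
  · show |det u2 u3| = 1 * 1
    rw [h23]
    norm_num
  · show |det u1 W| = 1 * W.n
    rw [hu1W, one_mul, abs_of_pos hn1pos]
  · intro i hi
    have hmem : ∀ r' : ℤ, (r' ∈ (({r | det hv (v i) + r * det u1 (v i) = 0} ∪
      ({r | det hv (v i) + r * det u1 (v i) = (v i).n} ∪
        {r | det hv (v i) + r * det u1 (v i) = -(v i).n})) ∪
      ({r | det u1 (v i) + det hv (v i) + r * det u1 (v i) = 0} ∪
      ({r | det u1 (v i) + det hv (v i) + r * det u1 (v i) = (v i).n} ∪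
        {r | det u1 (v i) + det hv (v i) + r * det u1 (v i) = -(v i).n})) : Set ℤ)) → r' ∈ E2 :=
      fun r' hr' => Set.mem_biUnion (mem_coe.2 hi) hr'
    constructor
    · refine sa_far rfl ?_ ?_ ?_
      · rw [hd2]
        exact fun h0 => hrE (hmem r (Or.inl (Or.inl h0)))
      · rw [hd2]
        exact fun h0 => hrE (hmem r (Or.inl (Or.inr (Or.inl h0))))
      · rw [hd2]
        exact fun h0 => hrE (hmem r (Or.inl (Or.inr (Or.inr h0))))
    · refine sa_far rfl ?_ ?_ ?_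
      · rw [hd3]
        intro h0
        exact hrE (hmem r (Or.inr (Or.inl (neg_eq_zero.1 h0))))
      · rw [hd3]
        intro h0
        exact hrE (hmem r (Or.inr (Or.inr (Or.inr (by
          show det u1 (v i) + det hv (v i) + r * det u1 (v i) = -(v i).n
          linarith)))))
      · rw [hd3]
        intro h0
        exact hrE (hmem r (Or.inr (Or.inr (Or.inl (neg_inj.1 h0)))))
  · intro p hp i hi
    constructor
    · rw [hd2]
      have := hrQ p hp (q2 i) (mem_union_left _ (mem_image_of_mem _ hi))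
      intro h0
      apply this
      show (p : ℤ) ∣ 0 * r ^ 2 + det u1 (v i) * r + det hv (v i)
      have e : 0 * r ^ 2 + det u1 (v i) * r + det hv (v i) = det hv (v i) + r * det u1 (v i) := by
        ring
      rw [e]
      exact h0
    · rw [hd3]
      have := hrQ p hp (q3 i) (mem_union_right _ (mem_image_of_mem _ hi))
      intro h0
      apply this
      show (p : ℤ) ∣ 0 * r ^ 2 + -det u1 (v i) * r + (-det u1 (v i) - det hv (v i))
      have e : 0 * r ^ 2 + -det u1 (v i) * r + (-det u1 (v i) - det hv (v i)) =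
        -(det u1 (v i) + det hv (v i) + r * det u1 (v i)) := by
        ring
      rw [e]
      exact h0
  · intro p hp i hi hiw hnd
    have := hsQ p hp (q1 i) (mem_insert_of_mem (mem_image_of_mem _
      (mem_filter.2 ⟨mem_erase.2 ⟨hiw, hi⟩, hnd⟩)))
    intro h0
    apply this
    show (p : ℤ) ∣ 0 * s ^ 2 + det W (v i) * s + W.n * (f1 * (v i).y - f2 * (v i).x)
    have e : 0 * s ^ 2 + det W (v i) * s + W.n * (f1 * (v i).y - f2 * (v i).x) =
        det u1 (v i) := by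
      rw [hu1, det_P1]
      ring
    rw [e]
    exact h0

end Pool.Agent.Tri
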