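import Mathlib
import Pool.Agent.Tri.PSAdd
import Pool.Agent.Tri.StepA
import Pool.Agent.Tri.StepB

set_option autoImplicit false

open Finset

namespace Pool.Agent.Tri

variable {V : Type*} [DecidableEq V] {G : SimpleGraph V} {K : Finset V} {T : V → Finset V}
  {m : V → V} {B : ℕ} {d a b : V} {P : Finset V} {Z : Finset ℕ} {v : V → Vec} {Sp : Finset V}

lemma psstep_one {u w : Vec} (h : Touch u w) (hu : u.n = 1) (hw : w.n = 1) {p : ℕ}
    (hp : p.Prime) : ¬ (p : ℤ) ∣ det u w := by
  intro h1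
  have h2 : (p : ℤ) ∣ |det u w| := (dvd_abs _ _).2 h1
  unfold Touch at h
  rw [h, hu, hw, one_mul] at h2
  have h3 : (p : ℤ) ∣ ((1 : ℕ) : ℤ) := by simpa using h2
  rw [Int.natCast_dvd_natCast] at h3
  exact hp.one_lt.ne' (Nat.dvd_one.1 h3)

/-- Placing an integral triangle with at most one link. -/
theorem PS.stepInt (hK : TriK G K T m) (hB : 4 * K.card + 18 ≤ B)
    (h : PS G K T m B d a b P Z v Sp) {y1 y2 z w : V} (hx : y1 ∈ K) (hxP : y1 ∉ P)
    (hT : T y1 = {y1, y2, z}) (h12 : y1 ≠ y2) (h1z : y1 ≠ z) (h2z : y2 ≠ z)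
    (hdx : d ∉ T y1) (hw : w ∈ Fr m d P)
    (hpar : ∀ i ∈ insert d P, i ≠ w → det (v i) (v w) ≠ 0)
    (hm1 : m y1 ∈ P → w = m y1) (hw2 : ∀ j ∈ P, j ≠ m y1 → j ≠ w)
    (hm2 : m y2 ∉ P) (hmz : m z ∉ P)
    (hwd : m y1 ∉ P → w = d) :
    ∃ (Z' : Finset ℕ) (v' : V → Vec), PS G K T m B d a b (P ∪ T y1) Z' v' Sp := by
  obtain ⟨u1, u2, u3, ⟨n1, n2, n3⟩, ⟨c1, c2, c3⟩, ⟨t12, t13, t23⟩, tw, f1, f23, g23, g1⟩ :=
    stepA h.old hw hpar
  let v' : V → Vec := fun i => if i = y1 then u1 else if i = y2 then u2 else if i = z then u3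
    else v i
  have e1 : v' y1 = u1 := if_pos rfl
  have e2 : v' y2 = u2 := by
    show (if y2 = y1 then u1 else if y2 = y2 then u2 else if y2 = z then u3 else v y2) = u2
    rw [if_neg h12.symm, if_pos rfl]
  have e3 : v' z = u3 := by
    show (if z = y1 then u1 else if z = y2 then u2 else if z = z then u3 else v z) = u3
    rw [if_neg h1z.symm, if_neg h2z.symm, if_pos rfl]
  have hmem : ∀ i, i ∈ T y1 ↔ i = y1 ∨ i = y2 ∨ i = z := by
    intro i
    rw [hT]
    simp
  have hall : ∀ {Q : V → Prop}, Q y1 → Q y2 → Q z → ∀ i ∈ T y1, Q i := by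
    intro Q q1 q2 q3 i hi
    rcases (hmem i).1 hi with rfl | rfl | rfl
    · exact q1
    · exact q2
    · exact q3
  have hn : ∀ i ∈ T y1, (v' i).n = 1 := hall (by rw [e1, n1]) (by rw [e2, n2]) (by rw [e3, n3])
  have hdP : d ∈ insert d P := Finset.mem_insert_self _ _
  have hdF : d ∈ Fr m d P := Finset.mem_insert_self _ _
  have hdSp : d ∉ Sp := fun h1 => h.dP (h.spP h1)
  have hwP : w ∈ insert d P := h.old.sub hw
  have htri : ∀ i ∈ T y1, ∀ j ∈ T y1, i ≠ j → Touch (v' i) (v' j) := by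
    intro i hi j hj hij
    rcases (hmem i).1 hi with rfl | rfl | rfl <;> rcases (hmem j).1 hj with rfl | rfl | rfl
    · exact absurd rfl hij
    · rw [e1, e2]; exact t12
    · rw [e1, e3]; exact t13
    · rw [e1, e2]; exact psstep_touch t12
    · exact absurd rfl hij
    · rw [e2, e3]; exact t23
    · rw [e1, e3]; exact psstep_touch t13
    · rw [e2, e3]; exact psstep_touch t23
    · exact absurd rfl hij
  refine ⟨Z, v', PS.add hK hB h hx hxP hdx ?_ (Finset.Subset.refl Z) h.old.prime ?_ ?_ ?_ ?_ htri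
    ?_ ?_ ?_ ?_ ?_ ?_ ?_ ?_⟩
  · intro i hi
    rw [hmem, not_or, not_or] at hi
    show (if i = y1 then u1 else if i = y2 then u2 else if i = z then u3 else v i) = v i
    rw [if_neg hi.1, if_neg hi.2.1, if_neg hi.2.2]
  · intro p hp hp2
    exact absurd hp hp2
  · intro i hi
    rw [hn i hi]
    exact one_pos
  · exact hall (by rw [e1]; exact c1) (by rw [e2]; exact c2) (by rw [e3]; exact c3)
  · intro i hi
    exact Or.inl (hn i hi)
  · refine hall (fun h1 => ?_) (fun h1 => absurd h1 hm2) (fun h1 => absurd h1 hmz)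
    rw [e1, ← hm1 h1]
    exact tw
  · refine hall (fun j hj hjm => ?_) (fun j hj _ => ?_) (fun j hj _ => ?_)
    · rw [e1]
      exact f1 j (Finset.mem_insert_of_mem hj) (hw2 j hj hjm)
    · rw [e2]
      exact (f23 j (Finset.mem_insert_of_mem hj)).1
    · rw [e3]
      exact (f23 j (Finset.mem_insert_of_mem hj)).2
  · refine hall ?_ ?_ ?_
    · rw [e1]
      by_cases hdw : d = w
      · rw [hdw]
        exact psstep_ne tw (by rw [n1]; exact one_pos) (h.old.pos w hwP)
      · exact (f1 d hdP hdw).1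
    · rw [e2]
      exact (f23 d hdP).1.1
    · rw [e3]
      exact (f23 d hdP).2.1
  · intro p hp hp2
    exact absurd hp hp2
  · intro p hp i hi j hj hij _ _
    exact psstep_one (htri i hi j hj hij) (hn i hi) (hn j hj) (h.old.prime p hp).1
  · intro p hp
    refine hall (fun h1 j hj _ => ?_) (fun _ j hj _ => ?_) (fun _ j hj _ => ?_)
    · have hwd' := hwd h1
      rw [e1]
      by_cases hjd : j = d
      · rw [hjd, ← hwd']
        refine psstep_one tw n1 ?_ (h.old.prime p hp).1
        rw [hwd', h.dn]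
      · have hjw : j ≠ w := by
          rw [hwd']
          exact hjd
        refine g1 p hp j hj hjw ?_
        rw [hwd']
        exact h.good p hp j hj d hdF hjd fun h2 => hdSp h2.2
    · rw [e2]
      exact (g23 p hp j hj).1
    · rw [e3]
      exact (g23 p hp j hj).2
  · intro i hi j _
    rw [hn i hi]
    exact isCoprime_one_left
  · intro i hi _
    exact hn i hi

/-- Place a further triangle `T x` with at most two links to `P`. -/
theorem PS.step (hK : TriK G K T m) (hB : 4 * K.card + 18 ≤ B)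
    (h : PS G K T m B d a b P Z v Sp) {x z : V} (hx : x ∈ K) (hxP : x ∉ P) (hdx : d ∉ T x)
    (hz : z ∈ T x) (hmz : m z ∉ P)
    (hab : ∀ c, (c = a ∨ c = b) → c ∈ T x → m c ∉ P ∧ c ≠ z)
    (hmab : ∀ y ∈ T x, m y ≠ a ∧ m y ≠ b)
    (hspec : ∀ y1 ∈ T x, ∀ y2 ∈ T x, y1 ≠ y2 → m y1 ∈ Sp → m y2 ∈ Sp → False) :
    ∃ (Z' : Finset ℕ) (v' : V → Vec), PS G K T m B d a b (P ∪ T x) Z' v' Sp := by
  have hTK : T x ⊆ K := hK.sub x hx
  have hdisj : ∀ i ∈ T x, i ∉ P := by
    intro i hi hiP
    have h1 := h.uni i hiP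
    rw [hK.part x hx i hi] at h1
    exact hxP (h1 (hK.self x hx))
  -- the three vertices
  obtain ⟨y1, y2, hy1, hy2, h12, h1z, h2z, hT, hor⟩ : ∃ y1 y2 : V, y1 ∈ T x ∧ y2 ∈ T x ∧
      y1 ≠ y2 ∧ y1 ≠ z ∧ y2 ≠ z ∧ T x = {y1, y2, z} ∧
      ((m y1 ∈ P ∧ m y2 ∈ P ∧ m y1 ∉ Sp) ∨ m y2 ∉ P) := by
    have hcard := hK.card x hx
    have h1 : ((T x).erase z).card = 2 := by
      rw [Finset.card_erase_of_mem hz, hcard]
    obtain ⟨p, q, hpq, hE⟩ := Finset.card_eq_two.1 h1
    have hp : p ∈ (T x).erase z := by rw [hE]; simp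
    have hq : q ∈ (T x).erase z := by rw [hE]; simp
    have hp1 := Finset.ne_of_mem_erase hp
    have hq1 := Finset.ne_of_mem_erase hq
    have hp2 := Finset.mem_of_mem_erase hp
    have hq2 := Finset.mem_of_mem_erase hq
    have hTe : T x = {p, q, z} := by
      rw [← Finset.insert_erase hz, hE]
      ext i
      simp only [Finset.mem_insert, Finset.mem_singleton]
      tauto
    have hTe' : T x = {q, p, z} := by
      rw [hTe]
      ext i
      simp only [Finset.mem_insert, Finset.mem_singleton]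
      tauto
    by_cases hmq : m q ∈ P
    · by_cases hmp : m p ∈ P
      · by_cases hs : m p ∈ Sp
        · refine ⟨q, p, hq2, hp2, hpq.symm, hq1, hp1, hTe', Or.inl ⟨hmq, hmp, fun h2 => ?_⟩⟩
          exact hspec q hq2 p hp2 hpq.symm h2 hs
        · exact ⟨p, q, hp2, hq2, hpq, hp1, hq1, hTe, Or.inl ⟨hmp, hmq, hs⟩⟩
      · exact ⟨q, p, hq2, hp2, hpq.symm, hq1, hp1, hTe', Or.inr hmp⟩
    · exact ⟨p, q, hp2, hq2, hpq, hp1, hq1, hTe, Or.inr hmq⟩
  have hTy : T y1 = T x := hK.part x hx y1 hy1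
  have hmemF : ∀ y ∈ T x, m y ∈ P → m y ∈ Fr m d P := by
    intro y hy hyP
    refine Finset.mem_insert_of_mem (Finset.mem_filter.2 ⟨hyP, ?_⟩)
    rw [hK.minv y (hTK hy)]
    exact hdisj y hy
  have hpar : ∀ y ∈ T x, m y ∈ P → ∀ i ∈ insert d P, i ≠ m y → det (v i) (v (m y)) ≠ 0 := by
    intro y hy hyP i hi hiy h0
    obtain ⟨-, -, h3⟩ := h.par i hi (m y) (Finset.mem_insert_of_mem hyP) hiy h0
    rcases h3 with ⟨-, h4⟩ | ⟨-, h4⟩
    · exact (hmab y hy).2 h4
    · exact (hmab y hy).1 h4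
  rcases hor with ⟨hm1, hm2, hS1⟩ | hm2
  · -- two links
    have hmm : m y1 ≠ m y2 := by
      intro h1
      have h2 := hK.minv y1 (hTK hy1)
      rw [h1, hK.minv y2 (hTK hy2)] at h2
      exact h12 h2.symm
    obtain ⟨N, u1, u2, u3, hNp, hN0, ⟨n1, n2, n3⟩, ⟨c1, c2, c3⟩, ⟨t12, t13, t23⟩, tw1, tw2, f1, f2,
      f3, g1, g2, g3⟩ := stepB h.old (hmemF y1 hy1 hm1) (hmemF y2 hy2 hm2) hmm
        (hpar y1 hy1 hm1) (hpar y2 hy2 hm2)
        (fun p hp i hi hiw => h.good p hp i hi (m y1) (hmemF y1 hy1 hm1) hiw fun h2 => hS1 h2.2)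
        ((B : ℤ) + ∑ p ∈ Z, (p : ℤ) + 1)
    have hsum : ∀ p ∈ Z, (p : ℤ) ≤ ∑ p ∈ Z, (p : ℤ) := fun p hp =>
      Finset.single_le_sum (f := fun p : ℕ => (p : ℤ)) (fun i _ => Int.natCast_nonneg i) hp
    have hsum0 : (0 : ℤ) ≤ ∑ p ∈ Z, (p : ℤ) := Finset.sum_nonneg fun i _ => Int.natCast_nonneg i
    have hB0 : (0 : ℤ) ≤ B := Int.natCast_nonneg B
    have hNB : B < N := by
      have : (B : ℤ) < N := by linarith
      exact_mod_cast this
    have hNZ : ∀ q ∈ Z, (q : ℤ) + 1 < N := by
      intro q hq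
      have := hsum q hq
      linarith
    have hNnZ : N ∉ Z := by
      intro h1
      have := hNZ N h1
      linarith
    have hN0' : (0 : ℤ) < N := by linarith
    let v' : V → Vec := fun i => if i = y1 then u1 else if i = y2 then u2 else if i = z then u3
      else v i
    have e1 : v' y1 = u1 := if_pos rfl
    have e2 : v' y2 = u2 := by
      show (if y2 = y1 then u1 else if y2 = y2 then u2 else if y2 = z then u3 else v y2) = u2
      rw [if_neg h12.symm, if_pos rfl]
    have e3 : v' z = u3 := by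
      show (if z = y1 then u1 else if z = y2 then u2 else if z = z then u3 else v z) = u3
      rw [if_neg h1z.symm, if_neg h2z.symm, if_pos rfl]
    have hmem : ∀ i, i ∈ T x ↔ i = y1 ∨ i = y2 ∨ i = z := by
      intro i
      rw [hT]
      simp
    have hall : ∀ {Q : V → Prop}, Q y1 → Q y2 → Q z → ∀ i ∈ T x, Q i := by
      intro Q q1 q2 q3 i hi
      rcases (hmem i).1 hi with rfl | rfl | rfl
      · exact q1
      · exact q2
      · exact q3
    have hdP : d ∈ insert d P := Finset.mem_insert_self _ _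
    have htri : ∀ i ∈ T x, ∀ j ∈ T x, i ≠ j → Touch (v' i) (v' j) := by
      intro i hi j hj hij
      rcases (hmem i).1 hi with rfl | rfl | rfl <;> rcases (hmem j).1 hj with rfl | rfl | rfl
      · exact absurd rfl hij
      · rw [e1, e2]; exact t12
      · rw [e1, e3]; exact t13
      · rw [e1, e2]; exact psstep_touch t12
      · exact absurd rfl hij
      · rw [e2, e3]; exact t23
      · rw [e1, e3]; exact psstep_touch t13
      · rw [e2, e3]; exact psstep_touch t23
      · exact absurd rfl hij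
    have hcopN : ∀ j ∈ P, IsCoprime (N : ℤ) (v j).n := by
      intro j hj
      rcases h.old.den j (Finset.mem_insert_of_mem hj) with h2 | ⟨q, hq, h2⟩
      · rw [h2]
        exact isCoprime_one_right
      · rw [h2, Nat.isCoprime_iff_coprime]
        refine (Nat.coprime_primes hNp (h.old.prime q hq).1).2 ?_
        rintro rfl
        exact hNnZ hq
    have hdm : ∀ y ∈ T x, m y ∈ P → d ≠ m y := by
      intro y _ hyP h1
      rw [← h1] at hyP
      exact h.dP hyP
    refine ⟨insert N Z, v', PS.add hK hB h hx hxP hdx ?_ (Finset.subset_insert N Z) ?_ ?_ ?_ ?_ ?_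
      htri ?_ ?_ ?_ ?_ ?_ ?_ ?_ ?_⟩
    · intro i hi
      rw [hmem, not_or, not_or] at hi
      show (if i = y1 then u1 else if i = y2 then u2 else if i = z then u3 else v i) = v i
      rw [if_neg hi.1, if_neg hi.2.1, if_neg hi.2.2]
    · intro p hp
      rcases Finset.mem_insert.1 hp with rfl | hp
      · exact ⟨hNp, hNB⟩
      · exact h.old.prime p hp
    · intro p hp hp2 q hq h3
      rcases Finset.mem_insert.1 hp with rfl | hp
      · have h4 := Int.le_of_dvd (by have := Int.natCast_nonneg q; linarith) h3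
        have h5 := hNZ q hq
        linarith
      · exact hp2 hp
    · exact hall (by rw [e1, n1]; exact one_pos) (by rw [e2, n2]; exact hN0')
        (by rw [e3, n3]; exact hN0')
    · exact hall (by rw [e1]; exact c1) (by rw [e2]; exact c2) (by rw [e3]; exact c3)
    · refine hall (Or.inl ?_) (Or.inr ⟨N, Finset.mem_insert_self _ _, ?_⟩)
        (Or.inr ⟨N, Finset.mem_insert_self _ _, ?_⟩)
      · rw [e1, n1]
      · rw [e2, n2]
      · rw [e3, n3]
    · refine hall (fun _ => ?_) (fun _ => ?_) (fun h1 => absurd h1 hmz)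
      · rw [e1]
        exact tw1
      · rw [e2]
        exact tw2
    · refine hall (fun j hj hjm => ?_) (fun j hj hjm => ?_) (fun j hj _ => ?_)
      · rw [e1]
        exact f1 j (Finset.mem_insert_of_mem hj) hjm
      · rw [e2]
        exact f2 j (Finset.mem_insert_of_mem hj) hjm
      · rw [e3]
        exact f3 j (Finset.mem_insert_of_mem hj)
    · refine hall ?_ ?_ ?_
      · rw [e1]
        exact (f1 d hdP (hdm y1 hy1 hm1)).1
      · rw [e2]
        exact (f2 d hdP (hdm y2 hy2 hm2)).1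
      · rw [e3]
        exact (f3 d hdP).1
    · intro p hp hp2 i hi j hj hij
      rcases Finset.mem_insert.1 hp with rfl | hp
      · exact g3 i hi j hj hij
      · exact absurd hp hp2
    · intro p _ i hi j hj hij hmi hmj
      exfalso
      rcases (hmem i).1 hi with rfl | rfl | rfl
      · exact hmi hm1
      · exact hmi hm2
      · rcases (hmem j).1 hj with rfl | rfl | rfl
        · exact hmj hm1
        · exact hmj hm2
        · exact hij rfl
    · intro p hp
      refine hall (fun h1 => absurd hm1 h1) (fun h1 => absurd hm2 h1) (fun _ j hj hjd => ?_)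
      have hj1 : j ≠ m y1 := by
        rintro rfl
        rcases hjd with h2 | h2
        · exact hdm y1 hy1 hm1 h2.symm
        · rw [hK.minv y1 (hTK hy1)] at h2
          exact h2 hy1
      have hj2 : j ≠ m y2 := by
        rintro rfl
        rcases hjd with h2 | h2
        · exact hdm y2 hy2 hm2 h2.symm
        · rw [hK.minv y2 (hTK hy2)] at h2
          exact h2 hy2
      rw [e3]
      rcases Finset.mem_insert.1 hp with rfl | hp
      · exact g2 j hj hj1 hj2
      · exact g1 p hp j hj hj1 hj2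
    · refine hall (fun j hj => ?_) (fun j hj => ?_) (fun j hj => ?_)
      · rw [e1, n1]
        exact isCoprime_one_left
      · rw [e2, n2]
        exact hcopN j hj
      · rw [e3, n3]
        exact hcopN j hj
    · intro i hi hiab
      obtain ⟨h1, h2⟩ := hab i hiab hi
      rcases (hmem i).1 hi with rfl | rfl | rfl
      · exact absurd hm1 h1
      · exact absurd hm2 h1
      · exact absurd rfl h2
  · -- at most one link
    have hx1 : y1 ∈ K := hTK hy1
    have hx1P : y1 ∉ P := hdisj y1 hy1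
    have hdx1 : d ∉ T y1 := by rwa [hTy]
    by_cases hm1 : m y1 ∈ P
    · have := PS.stepInt hK hB h hx1 hx1P (hTy.trans hT) h12 h1z h2z hdx1 (hmemF y1 hy1 hm1)
        (hpar y1 hy1 hm1) (fun _ => rfl) (fun j _ hj => hj) hm2 hmz (fun h1 => absurd hm1 h1)
      rwa [hTy] at this
    · have hdd : ∀ i ∈ insert d P, i ≠ d → det (v i) (v d) ≠ 0 := by
        intro i hi hid h0
        obtain ⟨-, h2, -⟩ := h.par i hi d (Finset.mem_insert_self _ _) hid h0
        exact h.dP (h.spP h2)
      have := PS.stepInt hK hB h hx1 hx1P (hTy.trans hT) h12 h1z h2z hdx1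
        (Finset.mem_insert_self d _) hdd (fun h1 => absurd h1 hm1)
        (fun j hj _ h2 => h.dP (h2 ▸ hj)) hm2 hmz (fun _ => rfl)
      rwa [hTy] at this

end Pool.Agent.Tri
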