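import Mathlib
import Pool.Agent.Tri.Core
import Pool.Agent.Tri.Sel

set_option autoImplicit false

open Finset

namespace Pool.Agent.Tri

variable {ι : Type*} [DecidableEq ι] {P F : Finset ι} {Z : Finset ℕ} {B : ℕ} {v : ι → Vec}

/-- A positive number which is `1` or a prime not dividing `b` is prime to `b`. -/
lemma sp_coprime_of_den {n b : ℤ} (hn : n = 1 ∨ ∃ p : ℕ, p.Prime ∧ n = (p : ℤ) ∧ ¬ (p : ℤ) ∣ b) :
    IsCoprime n b := by
  rcases hn with rfl | ⟨p, hp, rfl, hb⟩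
  · exact isCoprime_one_left
  · exact ((Nat.prime_iff_prime_int.1 hp).irreducible.coprime_iff_not_dvd).2 hb

lemma sp_not_dvd_of_small {N : ℕ} {d : ℤ} (hd : d ≠ 0) (h : |d| < (N : ℤ)) : ¬ (N : ℤ) ∣ d := by
  intro h1
  exact hd (Int.eq_zero_of_abs_lt_dvd h1 h)

/-- Bounds for finitely many numbers. -/
lemma sp_exists_big {κ : Type*} (T : Finset κ) (g : κ → ℤ) (S0 : ℤ) :
    ∃ S1 : ℤ, S0 ≤ S1 ∧ ∀ i ∈ T, g i ≤ S1 := by
  classical
  induction T using Finset.induction_on with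
  | empty => exact ⟨S0, le_refl _, by simp⟩
  | insert a T _ ih =>
    obtain ⟨S1, h1, h2⟩ := ih
    refine ⟨max S1 (g a), le_trans h1 (le_max_left _ _), ?_⟩
    intro i hi
    rcases Finset.mem_insert.1 hi with rfl | hi
    · exact le_max_right _ _
    · exact le_trans (h2 i hi) (le_max_left _ _)

theorem stepP (h : Old P F Z B v) {w a : ι} (hw : w ∈ F) (ha : a ∈ F) (hwa : w ≠ a)
    (han : (v a).n = 1)
    (hpar1 : ∀ i ∈ P, i ≠ w → det (v i) (v w) ≠ 0)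
    (hpar2 : ∀ i ∈ P, i ≠ a → det (v i) (v a) ≠ 0)
    (hg : ∀ p ∈ Z, ∀ i ∈ F, i ≠ w → ¬ (p : ℤ) ∣ det (v i) (v w)) (S0 : ℤ) :
    ∃ (N : ℕ) (u1 b u3 : Vec), N.Prime ∧ S0 < (N : ℤ) ∧ (∀ p ∈ Z, ¬ (p : ℤ) ∣ (N : ℤ) + 1) ∧
      (b.x = (v a).x ∧ b.y = (v a).y ∧ b.n = N) ∧ (u1.n = 1 ∧ u3.n = N) ∧
      (IsCoprime u1.x u1.y ∧ IsCoprime u3.x u3.y) ∧
      (Touch u1 b ∧ Touch u1 u3 ∧ Touch b u3) ∧ Touch u1 (v w) ∧
      (∀ i ∈ P, i ≠ w → Far u1 (v i)) ∧ (∀ i ∈ P, i ≠ a → Far b (v i)) ∧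
      (∀ i ∈ P, Far u3 (v i)) ∧
      (∀ p ∈ Z, ∀ i ∈ F, i ≠ w → ¬ (p : ℤ) ∣ det u1 (v i)) ∧
      (∀ i ∈ F, i ≠ w → i ≠ a → ¬ (N : ℤ) ∣ det u1 (v i)) ∧
      (∀ p ∈ Z, ∀ i ∈ F, i ≠ a → (i = w → (v w).n = 1) → ¬ (p : ℤ) ∣ det u3 (v i)) ∧
      (∀ i ∈ F, i ≠ a → ¬ (N : ℤ) ∣ det u3 (v i)) ∧
      (∀ i ∈ P, ∀ j ∈ P, det (v i) (v j) ≠ 0 → ¬ (N : ℤ) ∣ det (v i) (v j)) := by
  have hwP : w ∈ P := h.sub hw
  have haP : a ∈ P := h.sub ha
  set W1 := v w with hW1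
  set W2 := v a with hW2
  -- swapped nonvanishing statements
  have hs : ∀ x y : Vec, det x y = - det y x := det_swap
  have hp1 : ∀ i ∈ P, i ≠ w → det W1 (v i) ≠ 0 := by
    intro i hi hiw h0
    apply hpar1 i hi hiw
    rw [hs, h0, neg_zero]
  have hp2 : ∀ i ∈ P, i ≠ a → det W2 (v i) ≠ 0 := by
    intro i hi hia h0
    apply hpar2 i hi hia
    rw [hs, h0, neg_zero]
  have hg1 : ∀ p ∈ Z, ∀ i ∈ F, i ≠ w → ¬ (p : ℤ) ∣ det W1 (v i) := by
    intro p hp i hi hiw h0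
    apply hg p hp i hi hiw
    rw [hs]; exact (dvd_neg).2 h0
  have hβ : det W1 W2 ≠ 0 := hp1 a haP hwa.symm
  have hβp : ∀ p ∈ Z, ¬ (p : ℤ) ∣ det W1 W2 := fun p hp => hg1 p hp a ha hwa.symm
  -- the auxiliary vector f
  obtain ⟨c1, c2, hc⟩ := h.prim w hwP
  obtain ⟨f1, f2, hf⟩ : ∃ f1 f2 : ℤ, f1 * W1.y - f2 * W1.x = 1 :=
    ⟨c2, -c1, by linear_combination hc⟩
  set α := f1 * W2.y - f2 * W2.x with hα
  set β := det W1 W2 with hβdef
  have hn1pos : 0 < W1.n := h.pos w hwP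
  -- coprimality
  have hn1β : IsCoprime W1.n β := by
    apply sp_coprime_of_den
    rcases h.den w hwP with h1 | ⟨p, hp, h1⟩
    · exact Or.inl h1
    · exact Or.inr ⟨p, (h.prime p hp).1, h1, hβp p hp⟩
  have hαβ : IsCoprime α β := by
    obtain ⟨d1, d2, hd⟩ := h.prim a haP
    refine ⟨d1 * W1.x + d2 * W1.y, -(d1 * f1 + d2 * f2), ?_⟩
    simp only [hα, hβdef, det]
    have hd' : d1 * W2.x + d2 * W2.y = 1 := hd
    linear_combination hd' + (d1 * W2.x + d2 * W2.y) * hf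
  have hab : IsCoprime (W1.n * α) β := hn1β.mul_left hαβ
  -- the quadratics
  have hquad : ∀ i : ι, ∃ q : ℤ × ℤ × ℤ, q.1 = -(β * det W1 (v i)) ∧
      ∀ s, det (P3 W1 W2 f1 f2 0 s) (v i) = q.1 * s ^ 2 + q.2.1 * s + q.2.2 := by
    intro i
    obtain ⟨b, c, hbc⟩ := quad_P3 (W1 := W1) (W2 := W2) (f1 := f1) (f2 := f2) (e := 0) (v i)
    exact ⟨(-(β * det W1 (v i)), b, c), rfl, hbc⟩
  choose q hq1 hq using hquad
  set Q : Finset (ℤ × ℤ × ℤ) :=
    ((F.erase w).erase a).image q ∪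
      ((F.erase w).image (fun i => ((0 : ℤ), det W1 (v i), W1.n * (f1 * (v i).y - f2 * (v i).x))) ∪
      {((0 : ℤ), (1 : ℤ), (0 : ℤ)), ((0 : ℤ), β, W1.n * α + 1),
        ((0 : ℤ), -(β * W1.n), -(W1.n * α) * W1.n + β)}) with hQdef
  have hQcard : Q.card ≤ 2 * F.card := by
    have h1 : Q.card ≤ ((F.erase w).erase a).card + ((F.erase w).card + 3) := by
      refine le_trans (card_union_le _ _) (Nat.add_le_add card_image_le ?_)
      refine le_trans (card_union_le _ _) (Nat.add_le_add card_image_le ?_)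
      exact card_le_three
    have h2 : (F.erase w).card = F.card - 1 := card_erase_of_mem hw
    have h3 : ((F.erase w).erase a).card = F.card - 1 - 1 := by
      rw [card_erase_of_mem (mem_erase.2 ⟨hwa.symm, ha⟩), h2]
    have h4 : 2 ≤ F.card := by
      have : ({w, a} : Finset ι).card ≤ F.card := card_le_card (by
        intro x hx
        rcases mem_insert.1 hx with rfl | hx
        · exact hw
        · rw [mem_singleton.1 hx]; exact ha)
      rwa [card_pair hwa] at this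
    omega
  -- exceptional set
  set E : Set ℤ :=
    (⋃ i ∈ (P.erase w : Finset ι), ({s | det (P1 W1 f1 f2 s) (v i) = 0} ∪
      ({s | det (P1 W1 f1 f2 s) (v i) = (v i).n} ∪
        {s | det (P1 W1 f1 f2 s) (v i) = -(v i).n}))) ∪
    (⋃ i ∈ P, ({s | det (P3 W1 W2 f1 f2 0 s) (v i) = 0 * NN W1 W2 f1 f2 s} ∪
      ({s | det (P3 W1 W2 f1 f2 0 s) (v i) = (v i).n * NN W1 W2 f1 f2 s} ∪
        {s | det (P3 W1 W2 f1 f2 0 s) (v i) = (-(v i).n) * NN W1 W2 f1 f2 s}))) with hEdef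
  have hEfin : E.Finite := by
    refine Set.Finite.union (Set.Finite.biUnion (Finset.finite_toSet _) ?_)
      (Set.Finite.biUnion (Finset.finite_toSet _) ?_)
    · intro i hi
      have hi' := mem_erase.1 (Finset.mem_coe.1 hi)
      have hV := hp1 i hi'.2 hi'.1
      exact (fin_P1 hV 0).union ((fin_P1 hV _).union (fin_P1 hV _))
    · intro i hi
      have hi' : i ∈ P := hi
      have hV : (v i).x ≠ 0 ∨ (v i).y ≠ 0 := by
        by_contra hcon
        push Not at hcon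
        obtain ⟨c, d, hcd⟩ := h.prim i hi'
        rw [hcon.1, hcon.2] at hcd
        simp at hcd
      have he : det W1 W2 ≠ 0 * W1.n * W2.n := by
        rw [zero_mul, zero_mul]; exact hβ
      exact (fin_P3 hf hβ he hV 0).union ((fin_P3 hf hβ he hV _).union (fin_P3 hf hβ he hV _))
  -- the lower bound
  obtain ⟨S1, hS1, hS1n⟩ := sp_exists_big P (fun i => (v i).n) S0
  obtain ⟨S2, hS2, hS2d⟩ := sp_exists_big (P ×ˢ P) (fun i => |det (v i.1) (v i.2)|) S1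
  obtain ⟨s, N, hN, hNS, hNeq, hsE, hsQ⟩ := sel Z (fun p hp => (h.prime p hp).1) (fun _ => Q)
    (by
      intro p hp
      have h1 := (h.prime p hp).2
      have h2 := h.bound
      omega)
    (by
      intro p hp x hx
      have hpp := Nat.prime_iff_prime_int.1 (h.prime p hp).1
      simp only [hQdef, mem_union, mem_image, mem_insert, mem_singleton] at hx
      rintro ⟨h1, h2, h3⟩
      rcases hx with ⟨i, hi, rfl⟩ | ⟨i, hi, rfl⟩ | rfl | rfl | rfl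
      · have hi1 := mem_erase.1 (mem_erase.1 hi).2
        rw [hq1] at h1
        rcases hpp.dvd_or_dvd ((dvd_neg).1 h1) with h4 | h4
        · exact hβp p hp h4
        · exact hg1 p hp i hi1.2 hi1.1 h4
      · have hi1 := mem_erase.1 hi
        exact hg1 p hp i hi1.2 hi1.1 h2
      · exact hpp.not_dvd_one h2
      · exact hβp p hp h2
      · rcases hpp.dvd_or_dvd ((dvd_neg).1 h2) with h4 | h4
        · exact hβp p hp h4
        · apply hβp p hp
          have h5 := dvd_add h3 (Dvd.dvd.mul_left h4 (W1.n * α))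
          have h6 : -(W1.n * α) * W1.n + β + W1.n * α * W1.n = β := by ring
          rwa [h6] at h5)
    (W1.n * α) β hab hβ E hEfin S2
  have hNN : NN W1 W2 f1 f2 s = N := by
    rw [NN_eq, ← hNeq]; simp only [hα, hβdef]; ring
  have hNp := Nat.prime_iff_prime_int.1 hN
  have hNdet : ∀ i ∈ P, ∀ j ∈ P, |det (v i) (v j)| < (N : ℤ) := by
    intro i hi j hj
    exact lt_of_le_of_lt (hS2d (i, j) (mem_product.2 ⟨hi, hj⟩)) hNS
  have hNn : ∀ i ∈ P, (v i).n < (N : ℤ) := by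
    intro i hi
    exact lt_of_le_of_lt (le_trans (hS1n i hi) hS2) hNS
  have hNpos : (0 : ℤ) < N := by exact_mod_cast hN.pos
  have hNβ : ¬ (N : ℤ) ∣ β := sp_not_dvd_of_small hβ (hNdet w hwP a haP)
  have hND : ∀ i ∈ P, i ≠ a → ¬ (N : ℤ) ∣ det W2 (v i) := fun i hi hia =>
    sp_not_dvd_of_small (hp2 i hi hia) (hNdet a haP i hi)
  have hNn1 : ¬ (N : ℤ) ∣ W1.n := sp_not_dvd_of_small hn1pos.ne' (by
    rw [abs_of_pos hn1pos]; exact hNn w hwP)
  -- membership facts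
  have hQ1 : ∀ p ∈ Z, ∀ i ∈ F, i ≠ w → i ≠ a → ¬ (p : ℤ) ∣ det (P3 W1 W2 f1 f2 0 s) (v i) := by
    intro p hp i hi hiw hia
    rw [hq i s]
    exact hsQ p hp (q i) (by
      simp only [hQdef, mem_union]
      exact Or.inl (mem_image_of_mem _ (mem_erase.2 ⟨hia, mem_erase.2 ⟨hiw, hi⟩⟩)))
  have hQ2 : ∀ p ∈ Z, ∀ i ∈ F, i ≠ w → ¬ (p : ℤ) ∣ det (P1 W1 f1 f2 s) (v i) := by
    intro p hp i hi hiw
    have h1 := hsQ p hp ((0 : ℤ), det W1 (v i), W1.n * (f1 * (v i).y - f2 * (v i).x)) (by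
      simp only [hQdef, mem_union]
      exact Or.inr (Or.inl (mem_image.2 ⟨i, mem_erase.2 ⟨hiw, hi⟩, rfl⟩)))
    rw [det_P1]
    simp only at h1
    intro h2
    apply h1
    have h3 : (0 : ℤ) * s ^ 2 + det W1 (v i) * s + W1.n * (f1 * (v i).y - f2 * (v i).x) =
        W1.n * (f1 * (v i).y - f2 * (v i).x) + s * det W1 (v i) := by ring
    rw [h3]; exact h2
  have hQ3 : ∀ p ∈ Z, ¬ (p : ℤ) ∣ s := by
    intro p hp
    have h1 := hsQ p hp ((0 : ℤ), (1 : ℤ), (0 : ℤ)) (by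
      exact mem_union_right _ (mem_union_right _ (by simp)))
    simpa using h1
  have hQ4 : ∀ p ∈ Z, ¬ (p : ℤ) ∣ (N : ℤ) + 1 := by
    intro p hp
    have h1 := hsQ p hp ((0 : ℤ), β, W1.n * α + 1) (by
      exact mem_union_right _ (mem_union_right _ (by simp)))
    simp only at h1
    have h3 : (0 : ℤ) * s ^ 2 + β * s + (W1.n * α + 1) = (N : ℤ) + 1 := by
      rw [← hNeq]; ring
    rw [h3] at h1
    exact h1
  have hQ5 : ∀ p ∈ Z, ¬ (p : ℤ) ∣ det (P3 W1 W2 f1 f2 0 s) W1 := by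
    intro p hp
    have h1 := hsQ p hp ((0 : ℤ), -(β * W1.n), -(W1.n * α) * W1.n + β) (by
      exact mem_union_right _ (mem_union_right _ (by simp)))
    simp only at h1
    rw [det_P3_W1 hf, hNN, ← hNeq]
    have h3 : (0 : ℤ) * s ^ 2 + -(β * W1.n) * s + (-(W1.n * α) * W1.n + β) =
        -(W1.n * α + β * s) * W1.n + (det W1 W2 - 0 * W1.n * W2.n) := by
      rw [← hβdef]; ring
    rw [h3] at h1
    exact h1
  -- far facts
  have hE1 : ∀ i ∈ P, i ≠ w → Far (P1 W1 f1 f2 s) (v i) := by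
    intro i hi hiw
    have hnE : s ∉ ({s | det (P1 W1 f1 f2 s) (v i) = 0} ∪
      ({s | det (P1 W1 f1 f2 s) (v i) = (v i).n} ∪
        {s | det (P1 W1 f1 f2 s) (v i) = -(v i).n}) : Set ℤ) := by
      intro hcon
      apply hsE
      exact Or.inl (Set.mem_biUnion (mem_erase.2 ⟨hiw, hi⟩) hcon)
    simp only [Set.mem_union, Set.mem_ofPred_eq, not_or] at hnE
    refine ⟨hnE.1, ?_⟩
    intro habs
    have hone : (P1 W1 f1 f2 s).n = 1 := rfl
    rw [hone, one_mul] at habs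
    rcases abs_choice (det (P1 W1 f1 f2 s) (v i)) with h1 | h1
    · rw [h1] at habs; exact hnE.2.1 habs
    · rw [h1] at habs; exact hnE.2.2 (by linarith)
  have hE3 : ∀ i ∈ P, Far (P3 W1 W2 f1 f2 0 s) (v i) := by
    intro i hi
    have hnE : s ∉ ({s | det (P3 W1 W2 f1 f2 0 s) (v i) = 0 * NN W1 W2 f1 f2 s} ∪
      ({s | det (P3 W1 W2 f1 f2 0 s) (v i) = (v i).n * NN W1 W2 f1 f2 s} ∪
        {s | det (P3 W1 W2 f1 f2 0 s) (v i) = (-(v i).n) * NN W1 W2 f1 f2 s}) : Set ℤ) := by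
      intro hcon
      apply hsE
      exact Or.inr (Set.mem_biUnion hi hcon)
    simp only [Set.mem_union, Set.mem_ofPred_eq, not_or, zero_mul] at hnE
    refine ⟨hnE.1, ?_⟩
    intro habs
    have hn3 : (P3 W1 W2 f1 f2 0 s).n = NN W1 W2 f1 f2 s := rfl
    rw [hn3] at habs
    rcases abs_choice (det (P3 W1 W2 f1 f2 0 s) (v i)) with h1 | h1
    · rw [h1] at habs; exact hnE.2.1 (by linarith)
    · rw [h1] at habs; exact hnE.2.2 (by linarith)
  -- P2
  have hP2x : (P2 W1 W2 f1 f2 0 s).x = W2.x := by simp [P2]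
  have hP2y : (P2 W1 W2 f1 f2 0 s).y = W2.y := by simp [P2]
  have hP2d : ∀ V : Vec, det (P2 W1 W2 f1 f2 0 s) V = det W2 V := by
    intro V; simp only [det, hP2x, hP2y]
  refine ⟨N, P1 W1 f1 f2 s, P2 W1 W2 f1 f2 0 s, P3 W1 W2 f1 f2 0 s, hN,
    lt_of_le_of_lt (le_trans hS1 hS2) hNS, hQ4, ⟨hP2x, hP2y, hNN⟩, ⟨rfl, hNN⟩, ⟨?_, ?_⟩,
    ⟨?_, ?_, ?_⟩, ?_, hE1, ?_, hE3, hQ2, ?_, ?_, ?_, ?_⟩
  · -- primitivity of P1
    have hn1s : IsCoprime W1.n s := by
      apply sp_coprime_of_den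
      rcases h.den w hwP with h1 | ⟨p, hp, h1⟩
      · exact Or.inl h1
      · exact Or.inr ⟨p, (h.prime p hp).1, h1, hQ3 p hp⟩
    obtain ⟨c, d, hcd⟩ := hn1s
    refine ⟨c * W1.y - d * f2, -(c * W1.x) + d * f1, ?_⟩
    simp only [P1]
    linear_combination hcd + (c * W1.n + d * s) * hf
  · -- primitivity of P3
    have hcop : IsCoprime (N : ℤ) (det (P3 W1 W2 f1 f2 0 s) W1) := by
      refine (hNp.irreducible.coprime_iff_not_dvd).2 ?_
      intro h1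
      rw [det_P3_W1 hf, hNN] at h1
      apply hNβ
      have h2 : -(N : ℤ) * W1.n + (det W1 W2 - 0 * W1.n * W2.n) = β + (N : ℤ) * (-W1.n) := by
        rw [← hβdef]; ring
      rw [h2] at h1
      exact (dvd_add_left (Dvd.intro _ rfl)).1 h1
    obtain ⟨c, d, hcd⟩ := hcop
    have h13 := det_P1_P3 (W1 := W1) (W2 := W2) (f1 := f1) (f2 := f2) (e := 0) s
    rw [hNN] at h13
    set u1 := P1 W1 f1 f2 s with hu1
    set u3 := P3 W1 W2 f1 f2 0 s with hu3
    refine ⟨c * u1.y + d * W1.y, -(c * u1.x) - d * W1.x, ?_⟩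
    simp only [det] at h13 hcd
    linear_combination hcd - c * h13
  · -- Touch u1 b
    have h1 := det_P1_P2 (W1 := W1) (W2 := W2) (f1 := f1) (f2 := f2) (e := 0) s
    simp only [Touch]
    rw [h1, hNN, abs_of_pos hNpos]
    have h2 : (P2 W1 W2 f1 f2 0 s).n = NN W1 W2 f1 f2 s := rfl
    have h3 : (P1 W1 f1 f2 s).n = 1 := rfl
    rw [h2, h3, hNN, one_mul]
  · have h1 := det_P1_P3 (W1 := W1) (W2 := W2) (f1 := f1) (f2 := f2) (e := 0) s
    simp only [Touch]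
    rw [h1, hNN, abs_neg, abs_of_pos hNpos]
    have h2 : (P3 W1 W2 f1 f2 0 s).n = NN W1 W2 f1 f2 s := rfl
    have h3 : (P1 W1 f1 f2 s).n = 1 := rfl
    rw [h2, h3, hNN, one_mul]
  · have h1 := det_P2_P3 (W1 := W1) (W2 := W2) (f1 := f1) (f2 := f2) (e := 0) s
    simp only [Touch]
    rw [h1, hNN, abs_of_pos (mul_pos hNpos hNpos)]
    have h2 : (P3 W1 W2 f1 f2 0 s).n = NN W1 W2 f1 f2 s := rfl
    have h3 : (P2 W1 W2 f1 f2 0 s).n = NN W1 W2 f1 f2 s := rfl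
    rw [h2, h3, hNN]
  · have h1 := det_P1_W1 (W1 := W1) (f1 := f1) (f2 := f2) hf s
    simp only [Touch]
    rw [h1, abs_of_pos hn1pos]
    have h3 : (P1 W1 f1 f2 s).n = 1 := rfl
    rw [h3, one_mul]
  · -- Far b
    intro i hi hia
    simp only [Far]
    rw [hP2d]
    refine ⟨hp2 i hi hia, ?_⟩
    have h2 : (P2 W1 W2 f1 f2 0 s).n = NN W1 W2 f1 f2 s := rfl
    rw [h2, hNN]
    have h3 := hNdet a haP i hi
    have h4 := h.pos i hi
    have h5 : (N : ℤ) ≤ N * (v i).n := by nlinarith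
    intro h6
    have h7 : |det W2 (v i)| = N * (v i).n := h6
    have h8 : |det W2 (v i)| < N := h3
    linarith
  · -- new prime and P1
    intro i hi hiw hia h1
    rw [← hNN] at h1
    have h2 := dvd_P1 (W2 := W2) hf h1
    rw [hNN] at h2
    rcases hNp.dvd_or_dvd h2 with h3 | h3
    · exact hNn1 h3
    · exact hND i (h.sub hi) hia h3
  · intro p hp i hi hia hiw1
    by_cases hiw : i = w
    · rw [hiw]; exact hQ5 p hp
    · exact hQ1 p hp i hi hiw hia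
  · intro i hi hia h1
    rw [← hNN] at h1
    have h2 := dvd_P3 (e := 0) hf h1
    rw [hNN, zero_mul, zero_mul, sub_zero] at h2
    rcases hNp.dvd_or_dvd h2 with h3 | h3
    · exact hNβ h3
    · exact hND i (h.sub hi) hia h3
  · intro i hi j hj hij
    exact sp_not_dvd_of_small hij (hNdet i hi j hj)

end Pool.Agent.Tri
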