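import Mathlib
import Pool.Agent.Tri.PSDefs
import Pool.Agent.Tri.PSAdd
import Pool.Agent.Tri.StepP

set_option autoImplicit false

open Finset Pool.Agent.Helper7.Dio

namespace Pool.Agent.Tri

variable {V : Type*} [DecidableEq V] {G : SimpleGraph V} {K : Finset V} {T : V → Finset V}
  {m : V → V} {B : ℕ} {d a b : V} {P : Finset V} {Z : Finset ℕ} {v : V → Vec} {Sp : Finset V}

/-- Place the triangle of `b`, with `v b` parallel to `v a`. -/
theorem PS.stepP (hK : TriK G K T m) (hB : 4 * K.card + 18 ≤ B)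
    (h : PS G K T m B d a b P Z v ∅) {z : V} (hb : b ∈ K) (hbP : b ∉ P) (ha : a ∈ P)
    (hma : m a ∉ P) (hmb : m b ∉ P) (hdb : d ∉ T b) (hz : z ∈ T b) (hzb : z ≠ b) (hmz : m z ∉ P)
    (hmab : ∀ y ∈ T b, m y ≠ a ∧ m y ≠ b) :
    ∃ (Z' : Finset ℕ) (v' : V → Vec), PS G K T m B d a b (P ∪ T b) Z' v' (insert a (T b)) := by
  classical
  have hTK : T b ⊆ K := hK.sub b hb
  have hdisj : ∀ i ∈ T b, i ∉ P := by
    intro i hi hiP
    have h1 := h.uni i hiP
    rw [hK.part b hb i hi] at h1
    exact hbP (h1 (hK.self b hb))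
  have hbT := hK.self b hb
  -- the third vertex
  obtain ⟨y, hyT, hyb, hyz, hT3⟩ : ∃ y ∈ T b, y ≠ b ∧ y ≠ z ∧ ∀ i ∈ T b, i = y ∨ i = b ∨ i = z := by
    have hc : (((T b).erase b).erase z).card = 1 := by
      rw [card_erase_of_mem (mem_erase.2 ⟨hzb, hz⟩), card_erase_of_mem hbT, hK.card b hb]
    obtain ⟨y, hy⟩ := card_eq_one.1 hc
    have hy1 : y ∈ ((T b).erase b).erase z := by
      rw [hy]
      exact mem_singleton_self y
    obtain ⟨h1, h2⟩ := mem_erase.1 hy1
    obtain ⟨h3, h4⟩ := mem_erase.1 h2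
    refine ⟨y, h4, h3, h1, ?_⟩
    intro i hi
    by_cases hib : i = b
    · exact Or.inr (Or.inl hib)
    · by_cases hiz : i = z
      · exact Or.inr (Or.inr hiz)
      · left
        have : i ∈ ((T b).erase b).erase z := mem_erase.2 ⟨hiz, mem_erase.2 ⟨hib, hi⟩⟩
        rw [hy] at this
        exact mem_singleton.1 this
  have hFrP : Fr m d P ⊆ insert d P := h.old.sub
  have hpar : ∀ i ∈ insert d P, ∀ j ∈ insert d P, i ≠ j → det (v i) (v j) ≠ 0 := by
    intro i hi j hj hij h0
    obtain ⟨h1, -⟩ := h.par i hi j hj hij h0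
    exact absurd h1 (notMem_empty i)
  have hgood : ∀ p ∈ Z, ∀ i ∈ Fr m d P, ∀ j ∈ Fr m d P, i ≠ j → ¬ (p : ℤ) ∣ det (v i) (v j) := by
    intro p hp i hi j hj hij
    exact h.good p hp i hi j hj hij fun h1 => absurd h1.1 (notMem_empty i)
  have haF : a ∈ Fr m d P := mem_insert_of_mem (mem_filter.2 ⟨ha, hma⟩)
  have had : a ≠ d := by
    rintro rfl
    exact h.dP ha
  have haT : a ∉ T b := fun h1 => hdisj a h1 ha
  have hdF : d ∈ Fr m d P := mem_insert_self d _
  -- the vertex `w`
  obtain ⟨w, hwF, hwa, hw1, hw2⟩ : ∃ w ∈ Fr m d P, w ≠ a ∧ (m y ∈ P → w = m y) ∧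
      (m y ∉ P → w = d) := by
    by_cases hmy : m y ∈ P
    · refine ⟨m y, mem_insert_of_mem (mem_filter.2 ⟨hmy, ?_⟩), (hmab y hyT).1, fun _ => rfl,
        fun h1 => absurd hmy h1⟩
      rw [hK.minv y (hTK hyT)]
      exact hdisj y hyT
    · exact ⟨d, hdF, had.symm, fun h1 => absurd h1 hmy, fun _ => rfl⟩
  have han : (v a).n = 1 := h.one a ha (Or.inl rfl) rfl
  obtain ⟨N, u1, bb, u3, hN, hNS, hN1, ⟨hbx, hby, hbn⟩, ⟨hn1, hn3⟩, ⟨hp1, hp3⟩, ⟨t12, t13, t23⟩,
    t1w, far1, far2, far3, g1, g1N, g3, g3N, gN⟩ := _root_.Pool.Agent.Tri.stepP h.old hwF haF hwa han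
      (fun i hi hiw => hpar i hi w (hFrP hwF) hiw) (fun i hi hia => hpar i hi a (hFrP haF) hia)
      (fun p hp i hi hiw => hgood p hp i hi w hwF hiw) ((B : ℤ) + ∑ p ∈ Z, (p : ℤ))
  have hNp : 0 < (N : ℤ) := by exact_mod_cast hN.pos
  have hsum0 : 0 ≤ ∑ p ∈ Z, (p : ℤ) := sum_nonneg fun p _ => by positivity
  have hNB : B < N := by
    have : (B : ℤ) < N := by linarith
    exact_mod_cast this
  have hNZ : ∀ p ∈ Z, p < N := by
    intro p hp
    have h1 : (p : ℤ) ≤ ∑ p ∈ Z, (p : ℤ) :=
      single_le_sum (f := fun p : ℕ => (p : ℤ)) (fun p _ => by positivity) hp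
    have : (p : ℤ) < N := by linarith
    exact_mod_cast this
  set v' : V → Vec := fun i => if i = y then u1 else if i = b then bb else if i = z then u3 else v i
    with hv'
  have vy : v' y = u1 := by simp [hv']
  have vb : v' b = bb := by simp [hv', hyb.symm]
  have vz : v' z = u3 := by simp [hv', hyz.symm, hzb]
  have hv : ∀ i, i ∉ T b → v' i = v i := by
    intro i hi
    have h1 : i ≠ y := by rintro rfl; exact hi hyT
    have h2 : i ≠ b := by rintro rfl; exact hi hbT
    have h3 : i ≠ z := by rintro rfl; exact hi hz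
    simp [hv', h1, h2, h3]
  clear_value v'
  have hvP : ∀ i ∈ P, v' i = v i := fun i hi => hv i fun h1 => hdisj i h1 hi
  have hvdP : ∀ i ∈ insert d P, v' i = v i := by
    intro i hi
    rcases mem_insert.1 hi with rfl | hi
    · exact hv _ hdb
    · exact hvP i hi
  have hPT : ∀ i, i ∈ P ∪ T b → i ∈ P ∨ i ∈ T b := fun i hi => mem_union.1 hi
  have hdPT : ∀ i, i ∈ insert d (P ∪ T b) → i ∈ insert d P ∨ i ∈ T b := by
    intro i hi
    rcases mem_insert.1 hi with h1 | hi
    · exact Or.inl (mem_insert.2 (Or.inl h1))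
    · rcases hPT i hi with h1 | h1
      · exact Or.inl (mem_insert_of_mem h1)
      · exact Or.inr h1
  have hPuK : P ∪ T b ⊆ K := union_subset h.PK hTK
  have hFr : Fr m d (P ∪ T b) ⊆ insert d (P ∪ T b) :=
    insert_subset_insert d (filter_subset _ _)
  have hFrc : (Fr m d (P ∪ T b)).card ≤ K.card + 1 := by
    unfold Fr
    refine (card_insert_le _ _).trans ?_
    have := card_le_card ((filter_subset (fun x_1 => m x_1 ∉ P ∪ T b) (P ∪ T b)).trans hPuK)
    omega
  have hFrm : ∀ i ∈ Fr m d (P ∪ T b), (i ∈ Fr m d P ∧ (i = d ∨ m i ∉ T b)) ∨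
      (i ∈ T b ∧ m i ∉ P) := by
    intro i hi
    rcases mem_insert.1 hi with h1 | hi
    · exact Or.inl ⟨mem_insert.2 (Or.inl h1), Or.inl h1⟩
    · obtain ⟨h1, h2⟩ := mem_filter.1 hi
      rw [mem_union, not_or] at h2
      rcases hPT i h1 with h3 | h3
      · exact Or.inl ⟨mem_insert_of_mem (mem_filter.2 ⟨h3, h2.1⟩), Or.inr h2.2⟩
      · exact Or.inr ⟨h3, h2.1⟩
  -- data of the new vectors
  have hpos : ∀ i ∈ T b, 0 < (v' i).n := by
    intro i hi
    rcases hT3 i hi with rfl | rfl | rfl
    · rw [vy, hn1]; exact one_pos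
    · rw [vb, hbn]; exact hNp
    · rw [vz, hn3]; exact hNp
  have hposP : ∀ i ∈ insert d P, 0 < (v i).n := fun i hi => h.old.pos i hi
  have hden : ∀ i ∈ T b, (v' i).n = 1 ∨ (v' i).n = (N : ℤ) := by
    intro i hi
    rcases hT3 i hi with rfl | rfl | rfl
    · left; rw [vy, hn1]
    · right; rw [vb, hbn]
    · right; rw [vz, hn3]
  have hbb : ∀ u : Vec, det bb u = det (v a) u := by
    intro u
    simp only [det, hbx, hby]
  have htri : ∀ i ∈ T b, ∀ j ∈ T b, i ≠ j → Touch (v' i) (v' j) := by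
    intro i hi j hj hij
    rcases hT3 i hi with rfl | rfl | rfl <;> rcases hT3 j hj with rfl | rfl | rfl
    · exact absurd rfl hij
    · rw [vy, vb]; exact t12
    · rw [vy, vz]; exact t13
    · rw [vy, vb]; exact psstep_touch t12
    · exact absurd rfl hij
    · rw [vb, vz]; exact t23
    · rw [vy, vz]; exact psstep_touch t13
    · rw [vb, vz]; exact psstep_touch t23
    · exact absurd rfl hij
  have hlink : ∀ i ∈ T b, m i ∈ P → Touch (v' i) (v (m i)) := by
    intro i hi hmi
    rcases hT3 i hi with rfl | rfl | rfl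
    · rw [vy, ← hw1 hmi]; exact t1w
    · exact absurd hmi hmb
    · exact absurd hmi hmz
  have hfar : ∀ i ∈ T b, ∀ j ∈ P, j ≠ m i → ¬ (i = b ∧ j = a) → Far (v' i) (v j) := by
    intro i hi j hj hjm hba
    rcases hT3 i hi with rfl | rfl | rfl
    · rw [vy]
      refine far1 j (mem_insert_of_mem hj) ?_
      by_cases hmi : m i ∈ P
      · rw [hw1 hmi]; exact hjm
      · rw [hw2 hmi]
        rintro rfl
        exact h.dP hj
    · rw [vb]
      refine far2 j (mem_insert_of_mem hj) ?_
      rintro rfl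
      exact hba ⟨rfl, rfl⟩
    · rw [vz]
      exact far3 j (mem_insert_of_mem hj)
  -- the only parallel pair
  have hne : ∀ i ∈ T b, ∀ j ∈ insert d P, ¬ (i = b ∧ j = a) → det (v' i) (v j) ≠ 0 := by
    intro i hi j hj hba
    rcases hT3 i hi with rfl | rfl | rfl
    · rw [vy]
      by_cases hjw : j = w
      · rw [hjw]
        exact psstep_ne t1w (by rw [hn1]; exact one_pos) (hposP w (hFrP hwF))
      · exact (far1 j hj hjw).1
    · rw [vb]
      refine (far2 j hj ?_).1
      rintro rfl
      exact hba ⟨rfl, rfl⟩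
    · rw [vz]
      exact (far3 j hj).1
  have h0ab : det (v' b) (v a) = 0 := by
    rw [vb, hbb]
    simp only [det]
    ring
  have hone1 : ∀ p : ℕ, p.Prime → ∀ u u' : Vec, Touch u u' → u.n = 1 → u'.n = 1 →
      ¬ (p : ℤ) ∣ det u u' := by
    intro p hp u u' ht hu hu' hd
    unfold Touch at ht
    rw [hu, hu', one_mul] at ht
    have h1 : (p : ℤ) ∣ 1 := by
      rw [← ht]
      exact (dvd_abs _ _).2 hd
    have h2 : (p : ℤ) ≤ 1 := Int.le_of_dvd one_pos h1
    have h3 : 1 < (p : ℤ) := by exact_mod_cast hp.one_lt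
    omega
  have hmixed : ∀ p ∈ insert N Z, ∀ i ∈ T b, m i ∉ P → ∀ j ∈ Fr m d P, (j = d ∨ m j ∉ T b) →
      j ≠ a → ¬ (p : ℤ) ∣ det (v' i) (v j) := by
    intro p hp i hi hmi j hj hj' hja
    have hpp : p.Prime := by
      rcases mem_insert.1 hp with rfl | hp
      · exact hN
      · exact (h.old.prime p hp).1
    rcases hT3 i hi with rfl | rfl | rfl
    · -- `y` is unlinked, `w = d`
      have hwd := hw2 hmi
      rw [vy]
      by_cases hjw : j = w
      · rw [hjw]
        refine hone1 p hpp _ _ t1w hn1 ?_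
        rw [hwd, h.dn]
      · rcases mem_insert.1 hp with rfl | hp
        · exact g1N j hj hjw hja
        · exact g1 p hp j hj hjw
    · rw [vb, hbb]
      rcases mem_insert.1 hp with rfl | hp
      · exact gN a (hFrP haF) j (hFrP hj) (hpar a (hFrP haF) j (hFrP hj) hja.symm)
      · exact hgood p hp a haF j hj hja.symm
    · rw [vz]
      rcases mem_insert.1 hp with rfl | hp
      · exact g3N j hj hja
      · refine g3 p hp j hj hja ?_
        intro hjw
        by_cases hmy : m y ∈ P
        · exfalso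
          rcases hj' with hj' | hj'
          · rw [← hjw, hj'] at hw1
            apply h.dP
            rw [hw1 hmy]
            exact hmy
          · apply hj'
            rw [hjw, hw1 hmy, hK.minv y (hTK hyT)]
            exact hyT
        · rw [hw2 hmy, h.dn]
  refine ⟨insert N Z, v', ?_⟩
  constructor
  · exact hPuK
  · intro i hi
    rcases hPT i hi with h1 | h1
    · exact (h.uni i h1).trans subset_union_left
    · rw [hK.part b hb i h1]
      exact subset_union_right
  · intro hd
    rcases hPT d hd with h1 | h1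
    · exact h.dP h1
    · exact hdb h1
  · rw [hvdP d (mem_insert_self d P)]
    exact h.dn
  · constructor
    · exact hFr
    · intro i hi
      rcases hdPT i hi with h1 | h1
      · rw [hvdP i h1]
        exact h.old.pos i h1
      · exact hpos i h1
    · intro i hi
      rcases hdPT i hi with h1 | h1
      · rw [hvdP i h1]
        exact h.old.prim i h1
      · rcases hT3 i h1 with rfl | rfl | rfl
        · rw [vy]; exact hp1
        · rw [vb, hbx, hby]
          exact h.old.prim a (hFrP haF)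
        · rw [vz]; exact hp3
    · intro i hi
      rcases hdPT i hi with h1 | h1
      · rw [hvdP i h1]
        rcases h.old.den i h1 with h2 | ⟨p, hp, h2⟩
        · exact Or.inl h2
        · exact Or.inr ⟨p, mem_insert_of_mem hp, h2⟩
      · rcases hden i h1 with h2 | h2
        · exact Or.inl h2
        · exact Or.inr ⟨N, mem_insert_self N Z, h2⟩
    · intro p hp
      rcases mem_insert.1 hp with rfl | hp
      · exact ⟨hN, hNB⟩
      · exact h.old.prime p hp
    · omega
  · -- adjacency
    have key : ∀ i ∈ T b, ∀ j ∈ P, (G.Adj i j ↔ Touch (v' i) (v' j)) := by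
      intro i hi j hj
      have hij : i ≠ j := by
        rintro rfl
        exact hdisj i hi hj
      rw [hK.adj i (hTK hi) j hij, hK.part b hb i hi, hvP j hj]
      constructor
      · rintro (h1 | h1)
        · exact absurd hj (hdisj j h1)
        · rw [h1] at hj ⊢
          exact hlink i hi hj
      · intro h1
        by_contra h2
        rw [not_or] at h2
        by_cases hba : i = b ∧ j = a
        · obtain ⟨rfl, rfl⟩ := hba
          exact psstep_ne h1 (hpos i hi) (hposP j (mem_insert_of_mem hj)) h0ab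
        · exact (hfar i hi j hj h2.2 hba).2 h1
    intro i hi j hj hij
    rcases hPT i hi with h1 | h1 <;> rcases hPT j hj with h2 | h2
    · rw [hvP i h1, hvP j h2]
      exact h.adj i h1 j h2 hij
    · rw [G.adj_comm, key j h2 i h1]
      exact ⟨psstep_touch, psstep_touch⟩
    · exact key i h1 j h2
    · rw [hK.adj i (hTK h1) j hij, hK.part b hb i h1]
      exact ⟨fun _ => htri i h1 j h2 hij, fun _ => Or.inl h2⟩
  · intro i hi j hj hij h0
    have haSp : a ∈ insert a (T b) := mem_insert_self _ _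
    have hbSp : b ∈ insert a (T b) := mem_insert_of_mem hbT
    rcases hdPT i hi with h1 | h1 <;> rcases hdPT j hj with h2 | h2
    · rw [hvdP i h1, hvdP j h2] at h0
      exact absurd h0 (hpar i h1 j h2 hij)
    · rw [hvdP i h1, psstep_swap, neg_eq_zero] at h0
      by_cases hba : j = b ∧ i = a
      · obtain ⟨rfl, rfl⟩ := hba
        exact ⟨haSp, hbSp, Or.inl ⟨rfl, rfl⟩⟩
      · exact absurd h0 (hne j h2 i h1 hba)
    · rw [hvdP j h2] at h0
      by_cases hba : i = b ∧ j = a
      · obtain ⟨rfl, rfl⟩ := hba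
        exact ⟨hbSp, haSp, Or.inr ⟨rfl, rfl⟩⟩
      · exact absurd h0 (hne i h1 j h2 hba)
    · exact absurd h0 (psstep_ne (htri i h1 j h2 hij) (hpos i h1) (hpos j h2))
  · intro p hp i hi j hj hij hS
    rcases hFrm i hi with ⟨h1, h1'⟩ | ⟨h1, h1'⟩ <;> rcases hFrm j hj with ⟨h2, h2'⟩ | ⟨h2, h2'⟩
    · rw [hvdP i (hFrP h1), hvdP j (hFrP h2)]
      rcases mem_insert.1 hp with rfl | hp
      · exact gN i (hFrP h1) j (hFrP h2) (hpar i (hFrP h1) j (hFrP h2) hij)
      · exact hgood p hp i h1 j h2 hij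
    · rw [hvdP i (hFrP h1)]
      intro h3
      refine hmixed p hp j h2 h2' i h1 h1' ?_ (psstep_dvd h3)
      rintro rfl
      exact hS ⟨mem_insert_self _ _, mem_insert_of_mem h2⟩
    · rw [hvdP j (hFrP h2)]
      refine hmixed p hp i h1 h1' j h2 h2' ?_
      rintro rfl
      exact hS ⟨mem_insert_of_mem h1, mem_insert_self _ _⟩
    · exact absurd ⟨mem_insert_of_mem h1, mem_insert_of_mem h2⟩ hS
  · have hc : ∀ i ∈ T b, ∀ j ∈ P, IsCoprime (v' i).n (v j).n := by
      intro i hi j hj
      rcases hden i hi with h1 | h1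
      · rw [h1]; exact isCoprime_one_left
      · rcases h.old.den j (mem_insert_of_mem hj) with h2 | ⟨p, hp, h2⟩
        · rw [h2]; exact isCoprime_one_right
        · rw [h1, h2, Nat.isCoprime_iff_coprime]
          refine (Nat.coprime_primes hN (h.old.prime p hp).1).2 ?_
          have := hNZ p hp
          omega
    intro i hi j hj hij
    rcases hPT i hi with h1 | h1 <;> rcases hPT j hj with h2 | h2
    · rw [hvP i h1, hvP j h2]
      exact h.cop i h1 j h2 hij
    · rw [hvP i h1]
      exact (hc j h2 i h1).symm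
    · rw [hvP j h2]
      exact hc i h1 j h2
    · rw [hK.part b hb i h1] at hij
      exact absurd h2 hij
  · intro i _ _ hS
    exact absurd (mem_insert_self a (T b)) (by rw [hS]; exact notMem_empty a)
  · right
    left
    refine ⟨mem_union_left _ ha, mem_union_right _ hbT, haT, rfl, ?_, ?_, ?_, N,
      mem_insert_self N Z, ?_, ?_⟩
    · rw [vb, hvP a ha, hbx]
    · rw [vb, hvP a ha, hby]
    · rw [hvP a ha, han]
    · rw [vb, hbn]
    · intro p hp
      rcases mem_insert.1 hp with rfl | hp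
      · intro h1
        have h2 : (p : ℤ) ∣ 1 := (dvd_add_right (dvd_refl _)).1 h1
        have h3 : (p : ℤ) ≤ 1 := Int.le_of_dvd one_pos h2
        have h4 : 1 < (p : ℤ) := by exact_mod_cast hN.one_lt
        omega
      · exact hN1 p hp

end Pool.Agent.Tri
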