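import Mathlib
import Pool.Agent.Tri.Defs

set_option autoImplicit false

open Finset Pool.Agent.Helper7.Dio

namespace Pool.Agent.Tri

/-- A condition which can be made a nonsquare in every progression. -/
def PGood (g : ℤ → ℤ) : Prop := (∀ s t, (s - t) ∣ g s - g t) ∧
  ∀ r Q X : ℤ, 0 < Q → ∃ t, X ≤ t ∧ Q ∣ t - r ∧ 0 < g t ∧ ¬ IsSquare (g t)

theorem pgood_all {ι : Type*} (I : Finset ι) (g : ι → ℤ → ℤ) (hg : ∀ i ∈ I, PGood (g i))
    (X : ℤ) : ∃ t Q : ℤ, 0 < Q ∧ X ≤ t ∧ ∀ i ∈ I, ∀ t', Q ∣ t' - t → ¬ IsSquare (g i t') := by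
  classical
  induction I using Finset.induction_on with
  | empty => exact ⟨X, 1, one_pos, le_rfl, by simp⟩
  | insert i I hi ih =>
    obtain ⟨t, Q, hQ, _, h1⟩ := ih fun j hj => hg j (mem_insert_of_mem hj)
    obtain ⟨h2, h3⟩ := hg i (mem_insert_self _ _)
    obtain ⟨t1, h4, h5, h6, h7⟩ := h3 t Q X hQ
    obtain ⟨m, hm, h8⟩ := nonsq_mod h6 h7
    refine ⟨t1, Q * m, by positivity, h4, ?_⟩
    intro j hj t' ht'
    rcases Finset.mem_insert.1 hj with rfl | hj
    · apply h8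
      exact ((Dvd.intro_left _ rfl).trans ht').trans (h2 t' t1)
    · apply h1 j hj
      have : t' - t = (t' - t1) + (t1 - t) := by ring
      rw [this]
      exact dvd_add ((Dvd.intro _ rfl).trans ht') h5

theorem not_sq_between {A N : ℤ} (_hA : 0 ≤ A) (h1 : A ^ 2 < N) (h2 : N < (A + 1) ^ 2) :
    ¬ IsSquare N := by
  rintro ⟨s, rfl⟩
  have h3 : A < |s| := by
    apply lt_of_pow_lt_pow_left₀ 2 (abs_nonneg s)
    rw [sq_abs]
    nlinarith
  have h4 : |s| < A + 1 := by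
    apply lt_of_pow_lt_pow_left₀ 2 (by linarith)
    rw [sq_abs]
    nlinarith
  omega

theorem pgood_lin {a b : ℤ} (ha : 0 < a) : PGood fun t => a * t + b := by
  constructor
  · intro s t
    exact ⟨a, by ring⟩
  · intro r Q X hQ
    -- a large member of the progression
    set w : ℤ := |X| + |b| + (a * Q) ^ 2 + |r| + 1 with hw
    have hw1 : 0 < w := by positivity
    set t := r + Q * w with ht
    have h1 : w - |r| ≤ t := by
      have : w ≤ Q * w := by nlinarith
      have := neg_abs_le r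
      linarith
    have hX : X ≤ t := by
      have := le_abs_self X
      have := abs_nonneg b
      have : 0 ≤ (a * Q) ^ 2 := by positivity
      linarith
    have ht0 : 0 ≤ t := by
      have := abs_nonneg X
      have := abs_nonneg b
      have : 0 ≤ (a * Q) ^ 2 := by positivity
      linarith
    have hb : (a * Q) ^ 2 < a * t + b := by
      have h2 : |b| + (a * Q) ^ 2 + 1 ≤ t := by
        have := abs_nonneg X
        linarith
      have h3 : t ≤ a * t := by nlinarith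
      have := neg_abs_le b
      linarith
    by_cases hs : IsSquare (a * t + b)
    · refine ⟨t + Q, by linarith, ⟨w + 1, by rw [ht]; ring⟩, ?_, ?_⟩
      · have : 0 ≤ (a * Q) ^ 2 := by positivity
        have : 0 < a * Q := by positivity
        show 0 < a * (t + Q) + b
        nlinarith
      · obtain ⟨s, hs⟩ := hs
        have hs' : a * t + b = |s| ^ 2 := by rw [sq_abs, hs]; ring
        have h4 : a * Q < |s| := by
          apply lt_of_pow_lt_pow_left₀ 2 (abs_nonneg s)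
          rw [← hs']
          exact hb
        have h5 : 0 < a * Q := by positivity
        refine not_sq_between (A := |s|) (abs_nonneg s) ?_ ?_
        · rw [← hs']
          show a * t + b < a * (t + Q) + b
          nlinarith
        · show a * (t + Q) + b < _
          have : a * (t + Q) + b = |s| ^ 2 + a * Q := by linarith
          rw [this]
          nlinarith
    · refine ⟨t, hX, ⟨w, by rw [ht]; ring⟩, ?_, hs⟩
      have : 0 ≤ (a * Q) ^ 2 := by positivity
      show 0 < a * t + b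
      linarith

theorem cub_aux1 {k C z : ℤ} (hk : 1 ≤ k) (hz : k + |C| < z) : 0 < k * z ^ 2 + C := by
  have h0 := abs_nonneg C
  have h1 : 1 ≤ z := by linarith
  have h2 : z ≤ z ^ 2 := by nlinarith
  have h3 : 1 * z ^ 2 ≤ k * z ^ 2 := mul_le_mul_of_nonneg_right hk (by positivity)
  have h4 := neg_abs_le C
  linarith

theorem cub_aux2 {k C z : ℤ} (hk : 1 ≤ k) (hz : k + |C| < z) : k * z ^ 2 + C ≤ z ^ 3 := by
  have h0 := abs_nonneg C
  have h1 : 1 ≤ z := by linarith
  have h2 : 1 ≤ z ^ 2 := by nlinarith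
  have h3 : C ≤ |C| * z ^ 2 := (le_abs_self C).trans (le_mul_of_one_le_right h0 h2)
  have h5 : (k + |C|) * z ^ 2 ≤ z * z ^ 2 := mul_le_mul_of_nonneg_right hz.le (by positivity)
  have h6 : z * z ^ 2 = z ^ 3 := by ring
  have h7 : (k + |C|) * z ^ 2 = k * z ^ 2 + |C| * z ^ 2 := by ring
  linarith

theorem cub_aux3 {m e r z : ℤ} (hm : 1 ≤ m) (he : 1 ≤ e) (hr : 0 ≤ r) (hz : 1 ≤ z) :
    z ^ 3 ≤ e * (2 * m ^ 2 * z ^ 3 + 3 * m * r * z) := by
  have h0 : 0 ≤ z ^ 3 := by positivity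
  have h1 : 1 ≤ m ^ 2 := one_le_pow₀ hm
  have h2 : 1 * z ^ 3 ≤ m ^ 2 * z ^ 3 := mul_le_mul_of_nonneg_right h1 h0
  have h3 : 0 ≤ 3 * m * r * z := by positivity
  have h4 : z ^ 3 ≤ 2 * m ^ 2 * z ^ 3 + 3 * m * r * z := by linarith
  have h5 : 0 ≤ 2 * m ^ 2 * z ^ 3 + 3 * m * r * z := h0.trans h4
  exact h4.trans (le_mul_of_one_le_left h5 he)

theorem pgood_cub {m e c : ℤ} (hm : 0 < m) (he : 0 < e) :
    PGood fun t => e ^ 2 * m * (4 * t ^ 3 + t) + c := by
  constructor
  · intro s t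
    exact ⟨e ^ 2 * m * (4 * (s ^ 2 + s * t + t ^ 2) + 1), by ring⟩
  · intro r0 Q X hQ
    obtain ⟨r, hr, hr0⟩ : ∃ r, r = r0 + Q * |r0| ∧ 0 ≤ r := by
      refine ⟨_, rfl, ?_⟩
      have h1 := neg_abs_le r0
      have h2 : 1 * |r0| ≤ Q * |r0| := mul_le_mul_of_nonneg_right hQ (abs_nonneg r0)
      linarith
    obtain ⟨k, hk, hk1⟩ : ∃ k, k = e ^ 2 * (3 * m ^ 2 * r ^ 2 + m ^ 2) ∧ 1 ≤ k := by
      refine ⟨_, rfl, ?_⟩
      have h3 : 0 < e ^ 2 * (3 * m ^ 2 * r ^ 2 + m ^ 2) := by positivity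
      linarith
    obtain ⟨C, hC⟩ : ∃ C, C = e ^ 2 * (4 * m * r ^ 3 + m * r) + c := ⟨_, rfl⟩
    obtain ⟨w, hw, hw1⟩ : ∃ w, w = k + |C| + |X| + 1 ∧ 1 ≤ w := by
      refine ⟨_, rfl, ?_⟩
      have := abs_nonneg C
      have := abs_nonneg X
      linarith
    obtain ⟨z, hz, hzw⟩ : ∃ z, z = Q * w ∧ w ≤ z := by
      refine ⟨_, rfl, ?_⟩
      have : 1 * w ≤ Q * w := mul_le_mul_of_nonneg_right hQ (by linarith)
      linarith
    have hz1 : 1 ≤ z := le_trans hw1 hzw
    have hkz : k + |C| < z := by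
      have := abs_nonneg X
      linarith
    obtain ⟨A, hA⟩ : ∃ A, A = e * (2 * m ^ 2 * z ^ 3 + 3 * m * r * z) := ⟨_, rfl⟩
    have hval : e ^ 2 * m * (4 * (m * z ^ 2 + r) ^ 3 + (m * z ^ 2 + r)) + c =
        A ^ 2 + (k * z ^ 2 + C) := by
      rw [hA, hk, hC]
      ring
    have h3 := cub_aux3 (m := m) (e := e) (by linarith) (by linarith) hr0 hz1
    rw [← hA] at h3
    have hz3 : 0 ≤ z ^ 3 := by positivity
    have hA0 : 0 ≤ A := hz3.trans h3
    have hD1 := cub_aux1 hk1 hkz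
    have hD2 := cub_aux2 hk1 hkz
    refine ⟨m * z ^ 2 + r, ?_, ?_, ?_, ?_⟩
    · have h1 : 1 * z ^ 2 ≤ m * z ^ 2 := mul_le_mul_of_nonneg_right hm (by positivity)
      have h2 := le_abs_self X
      have h4 := abs_nonneg C
      have h5 : z ≤ z ^ 2 := by nlinarith
      linarith
    · refine ⟨m * w * z + |r0|, ?_⟩
      rw [hr, hz]
      ring
    · show 0 < e ^ 2 * m * (4 * (m * z ^ 2 + r) ^ 3 + (m * z ^ 2 + r)) + c
      rw [hval]
      have : 0 ≤ A ^ 2 := sq_nonneg A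
      linarith
    · show ¬ IsSquare (e ^ 2 * m * (4 * (m * z ^ 2 + r) ^ 3 + (m * z ^ 2 + r)) + c)
      rw [hval]
      refine not_sq_between hA0 (by linarith) ?_
      have : (A + 1) ^ 2 = A ^ 2 + (2 * A + 1) := by ring
      rw [this]
      linarith

/-- The six labels. -/
def plb (i : Fin 6) (t : ℤ) : ℤ :=
  match i with
  | 0 => t - 1
  | 1 => t + 1
  | 2 => 4 * t
  | 3 => 4 * t ^ 3 + t + 1
  | 4 => 4 * t ^ 3 + t - 1
  | 5 => 4 * (4 * t ^ 3 + t)

theorem pgood_lb {m : ℤ} (hm : 0 < m) (i : Fin 6) : PGood fun t => m * plb i t + 1 := by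
  fin_cases i
  · have : (fun t => m * plb 0 t + 1) = fun t : ℤ => m * t + (1 - m) := by
      funext t
      simp only [plb]
      ring
    show PGood fun t => m * plb 0 t + 1
    rw [this]
    exact pgood_lin hm
  · have : (fun t => m * plb 1 t + 1) = fun t : ℤ => m * t + (m + 1) := by
      funext t
      simp only [plb]
      ring
    show PGood fun t => m * plb 1 t + 1
    rw [this]
    exact pgood_lin hm
  · have : (fun t => m * plb 2 t + 1) = fun t : ℤ => (4 * m) * t + 1 := by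
      funext t
      simp only [plb]
      ring
    show PGood fun t => m * plb 2 t + 1
    rw [this]
    exact pgood_lin (by linarith)
  · have : (fun t => m * plb 3 t + 1) = fun t : ℤ => 1 ^ 2 * m * (4 * t ^ 3 + t) + (m + 1) := by
      funext t
      simp only [plb]
      ring
    show PGood fun t => m * plb 3 t + 1
    rw [this]
    exact pgood_cub hm one_pos
  · have : (fun t => m * plb 4 t + 1) = fun t : ℤ => 1 ^ 2 * m * (4 * t ^ 3 + t) + (1 - m) := by
      funext t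
      simp only [plb]
      ring
    show PGood fun t => m * plb 4 t + 1
    rw [this]
    exact pgood_cub hm one_pos
  · have : (fun t => m * plb 5 t + 1) = fun t : ℤ => 2 ^ 2 * m * (4 * t ^ 3 + t) + 1 := by
      funext t
      simp only [plb]
      ring
    show PGood fun t => m * plb 5 t + 1
    rw [this]
    exact pgood_cub hm two_pos

theorem plb_ns_ay {t : ℤ} (ht : 100 ≤ t) : ¬ IsSquare ((t - 1) * (4 * t ^ 3 + t - 1) + 1) := by
  refine not_sq_between (A := 2 * t ^ 2 - t - 1) (by nlinarith) ?_ ?_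
  · nlinarith [sq_nonneg t]
  · nlinarith [sq_nonneg t]

theorem plb_ns_az {t : ℤ} (ht : 100 ≤ t) : ¬ IsSquare ((t - 1) * (4 * (4 * t ^ 3 + t)) + 1) := by
  refine not_sq_between (A := 4 * t ^ 2 - 2 * t - 1) (by nlinarith) ?_ ?_
  · nlinarith [sq_nonneg t]
  · nlinarith [sq_nonneg t]

theorem plb_ns_bx {t : ℤ} (ht : 100 ≤ t) : ¬ IsSquare ((t + 1) * (4 * t ^ 3 + t + 1) + 1) := by
  refine not_sq_between (A := 2 * t ^ 2 + t) (by nlinarith) ?_ ?_
  · nlinarith [sq_nonneg t]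
  · nlinarith [sq_nonneg t]

theorem plb_ns_bz {t : ℤ} (ht : 100 ≤ t) : ¬ IsSquare ((t + 1) * (4 * (4 * t ^ 3 + t)) + 1) := by
  refine not_sq_between (A := 4 * t ^ 2 + 2 * t) (by nlinarith) ?_ ?_
  · nlinarith [sq_nonneg t]
  · nlinarith [sq_nonneg t]

theorem plb_ns_cx {t : ℤ} (ht : 100 ≤ t) : ¬ IsSquare (4 * t * (4 * t ^ 3 + t + 1) + 1) := by
  refine not_sq_between (A := 4 * t ^ 2) (by nlinarith) ?_ ?_
  · nlinarith [sq_nonneg t]
  · nlinarith [sq_nonneg t]

theorem plb_ns_cy {t : ℤ} (ht : 100 ≤ t) : ¬ IsSquare (4 * t * (4 * t ^ 3 + t - 1) + 1) := by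
  refine not_sq_between (A := 4 * t ^ 2) (by nlinarith) ?_ ?_
  · nlinarith [sq_nonneg t]
  · nlinarith [sq_nonneg t]

theorem prism_extend {V : Type*} [DecidableEq V] {G : SimpleGraph V} {S : Finset V} {f : V → ℤ}
    (h : State G S ∅ f) {a b c x y z : V} (hnd : [a, b, c, x, y, z].Nodup)
    (hS : a ∉ S ∧ b ∉ S ∧ c ∉ S ∧ x ∉ S ∧ y ∉ S ∧ z ∉ S)
    (hab : G.Adj a b) (hac : G.Adj a c) (hbc : G.Adj b c) (hxy : G.Adj x y) (hxz : G.Adj x z)
    (hyz : G.Adj y z) (hax : G.Adj a x) (hby : G.Adj b y) (hcz : G.Adj c z)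
    (hay : ¬ G.Adj a y) (haz : ¬ G.Adj a z) (hbx : ¬ G.Adj b x) (hbz : ¬ G.Adj b z)
    (hcx : ¬ G.Adj c x) (hcy : ¬ G.Adj c y)
    (hsep : ∀ w ∈ S, ¬ G.Adj a w ∧ ¬ G.Adj b w ∧ ¬ G.Adj c w ∧ ¬ G.Adj x w ∧ ¬ G.Adj y w ∧
      ¬ G.Adj z w) :
    ∃ f', State G ({a, b, c, x, y, z} ∪ S) ∅ f' := by
  classical
  have hbig := h.big
  obtain ⟨X, hX48, hX⟩ := exists_bound S f (fun u hu => by have := hbig u hu; linarith)
  obtain ⟨t, Q, _, htX, hC⟩ := pgood_all ((S.image f ∪ {12}) ×ˢ (univ : Finset (Fin 6)))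
    (fun i t => i.1 * plb i.2 t + 1) (by
      rintro ⟨m, i⟩ hi
      rw [mem_product] at hi
      refine pgood_lb ?_ i
      have h1 := hi.1
      simp only [mem_union, mem_image, mem_singleton] at h1
      rcases h1 with ⟨u, hu, rfl⟩ | rfl
      · have := hbig u hu
        linarith
      · norm_num) (X + 100)
  have ht : 100 ≤ t := by linarith
  have hns : ∀ u ∈ S, ∀ i : Fin 6, ¬ IsSquare (plb i t * f u + 1) := by
    intro u hu i
    have := hC (f u, i) (by
      rw [mem_product]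
      exact ⟨mem_union_left _ (mem_image_of_mem _ hu), mem_univ _⟩) t (by simp)
    rw [mul_comm]
    exact this
  have hns12 : ∀ i : Fin 6, ¬ IsSquare (12 * plb i t + 1) := by
    intro i
    exact hC (12, i) (by
      rw [mem_product]
      exact ⟨mem_union_right _ (mem_singleton_self _), mem_univ _⟩) t (by simp)
  have hsmall : ∀ u ∈ S, f u < t - 1 := by
    intro u hu
    have := hX u hu
    have := hbig u hu
    linarith
  have ht3 : 10000 * t ≤ t ^ 3 := by
    have h1 : 10000 ≤ t ^ 2 := by nlinarith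
    have h2 : 10000 * t ≤ t ^ 2 * t := mul_le_mul_of_nonneg_right h1 (by linarith)
    have h3 : t ^ 2 * t = t ^ 3 := by ring
    linarith
  have hord : t - 1 < t + 1 ∧ t + 1 < 4 * t ∧ 4 * t < 4 * t ^ 3 + t - 1 ∧
      4 * t ^ 3 + t - 1 < 4 * t ^ 3 + t + 1 ∧ 4 * t ^ 3 + t + 1 < 4 * (4 * t ^ 3 + t) := by
    refine ⟨by linarith, by linarith, by linarith, by linarith, by linarith⟩
  obtain ⟨o1, o2, o3, o4, o5⟩ := hord
  simp only [List.nodup_cons, List.mem_cons, List.not_mem_nil, or_false, not_or, not_false_eq_true,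
    List.nodup_nil, and_true] at hnd
  obtain ⟨⟨nab, nac, nax, nay, naz⟩, ⟨nbc, nbx, nby, nbz⟩, ⟨ncx, ncy, ncz⟩, ⟨nxy, nxz⟩, nyz⟩ := hnd
  obtain ⟨haS, hbS, hcS, hxS, hyS, hzS⟩ := hS
  set f' : V → ℤ := fun u => if u = a then t - 1 else if u = b then t + 1 else if u = c then 4 * t
    else if u = x then 4 * t ^ 3 + t + 1 else if u = y then 4 * t ^ 3 + t - 1 else
    if u = z then 4 * (4 * t ^ 3 + t) else f u with hf'
  have fa : f' a = t - 1 := by simp [hf']
  have fb : f' b = t + 1 := by simp [hf', Ne.symm nab]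
  have fc : f' c = 4 * t := by simp [hf', Ne.symm nac, Ne.symm nbc]
  have fx : f' x = 4 * t ^ 3 + t + 1 := by simp [hf', Ne.symm nax, Ne.symm nbx, Ne.symm ncx]
  have fy : f' y = 4 * t ^ 3 + t - 1 := by
    simp [hf', Ne.symm nay, Ne.symm nby, Ne.symm ncy, Ne.symm nxy]
  have fz : f' z = 4 * (4 * t ^ 3 + t) := by
    simp [hf', Ne.symm naz, Ne.symm nbz, Ne.symm ncz, Ne.symm nxz, Ne.symm nyz]
  have hff : ∀ u ∈ S, f' u = f u := by
    intro u hu
    have h1 : u ≠ a := by rintro rfl; exact haS hu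
    have h2 : u ≠ b := by rintro rfl; exact hbS hu
    have h3 : u ≠ c := by rintro rfl; exact hcS hu
    have h4 : u ≠ x := by rintro rfl; exact hxS hu
    have h5 : u ≠ y := by rintro rfl; exact hyS hu
    have h6 : u ≠ z := by rintro rfl; exact hzS hu
    simp [hf', h1, h2, h3, h4, h5, h6]
  have sab : IsSquare ((t - 1) * (t + 1) + 1) := ⟨t, by ring⟩
  have sac : IsSquare ((t - 1) * (4 * t) + 1) := ⟨2 * t - 1, by ring⟩
  have sbc : IsSquare ((t + 1) * (4 * t) + 1) := ⟨2 * t + 1, by ring⟩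
  have sxy : IsSquare ((4 * t ^ 3 + t + 1) * (4 * t ^ 3 + t - 1) + 1) :=
    ⟨4 * t ^ 3 + t, by ring⟩
  have sxz : IsSquare ((4 * t ^ 3 + t + 1) * (4 * (4 * t ^ 3 + t)) + 1) :=
    ⟨2 * (4 * t ^ 3 + t) + 1, by ring⟩
  have syz : IsSquare ((4 * t ^ 3 + t - 1) * (4 * (4 * t ^ 3 + t)) + 1) :=
    ⟨2 * (4 * t ^ 3 + t) - 1, by ring⟩
  have sax : IsSquare ((t - 1) * (4 * t ^ 3 + t + 1) + 1) := ⟨2 * t ^ 2 - t, by ring⟩
  have sby : IsSquare ((t + 1) * (4 * t ^ 3 + t - 1) + 1) := ⟨2 * t ^ 2 + t, by ring⟩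
  have scz : IsSquare (4 * t * (4 * (4 * t ^ 3 + t)) + 1) := ⟨8 * t ^ 2 + 1, by ring⟩
  have nay' := plb_ns_ay ht
  have naz' := plb_ns_az ht
  have nbx' := plb_ns_bx ht
  have nbz' := plb_ns_bz ht
  have ncx' := plb_ns_cx ht
  have ncy' := plb_ns_cy ht
  refine ⟨f', h.extend hff ?_ ?_ ?_ ?_⟩
  · intro u hu
    simp only [mem_insert, mem_singleton] at hu
    rcases hu with rfl | rfl | rfl | rfl | rfl | rfl
    · rw [fa]; linarith
    · rw [fb]; linarith
    · rw [fc]; linarith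
    · rw [fx]; linarith
    · rw [fy]; linarith
    · rw [fz]; linarith
  · intro u hu w hw
    have hwt := hsmall w hw
    obtain ⟨e1, e2, e3, e4, e5, e6⟩ := hsep w hw
    simp only [mem_insert, mem_singleton] at hu
    rcases hu with rfl | rfl | rfl | rfl | rfl | rfl
    · rw [fa]
      exact ⟨by intro h; linarith, fun h1 => absurd h1 e1, fun h1 => absurd h1 (hns w hw 0)⟩
    · rw [fb]
      exact ⟨by intro h; linarith, fun h1 => absurd h1 e2, fun h1 => absurd h1 (hns w hw 1)⟩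
    · rw [fc]
      exact ⟨by intro h; linarith, fun h1 => absurd h1 e3, fun h1 => absurd h1 (hns w hw 2)⟩
    · rw [fx]
      exact ⟨by intro h; linarith, fun h1 => absurd h1 e4, fun h1 => absurd h1 (hns w hw 3)⟩
    · rw [fy]
      exact ⟨by intro h; linarith, fun h1 => absurd h1 e5, fun h1 => absurd h1 (hns w hw 4)⟩
    · rw [fz]
      exact ⟨by intro h; linarith, fun h1 => absurd h1 e6, fun h1 => absurd h1 (hns w hw 5)⟩
  · -- symmetric relation, so it suffices to look at ordered pairs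
    have sym : ∀ u w : V, (f' u ≠ f' w ∧ (G.Adj u w ↔ IsSquare (f' u * f' w + 1))) →
        (f' w ≠ f' u ∧ (G.Adj w u ↔ IsSquare (f' w * f' u + 1))) := by
      rintro u w ⟨h1, h2⟩
      exact ⟨h1.symm, by rw [G.adj_comm, mul_comm]; exact h2⟩
    have pab : f' a ≠ f' b ∧ (G.Adj a b ↔ IsSquare (f' a * f' b + 1)) := by
      rw [fa, fb]; exact ⟨by intro h; linarith, fun _ => sab, fun _ => hab⟩
    have pac : f' a ≠ f' c ∧ (G.Adj a c ↔ IsSquare (f' a * f' c + 1)) := by
      rw [fa, fc]; exact ⟨by intro h; linarith, fun _ => sac, fun _ => hac⟩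
    have pbc : f' b ≠ f' c ∧ (G.Adj b c ↔ IsSquare (f' b * f' c + 1)) := by
      rw [fb, fc]; exact ⟨by intro h; linarith, fun _ => sbc, fun _ => hbc⟩
    have pxy : f' x ≠ f' y ∧ (G.Adj x y ↔ IsSquare (f' x * f' y + 1)) := by
      rw [fx, fy]; exact ⟨by intro h; linarith, fun _ => sxy, fun _ => hxy⟩
    have pxz : f' x ≠ f' z ∧ (G.Adj x z ↔ IsSquare (f' x * f' z + 1)) := by
      rw [fx, fz]; exact ⟨by intro h; linarith, fun _ => sxz, fun _ => hxz⟩
    have pyz : f' y ≠ f' z ∧ (G.Adj y z ↔ IsSquare (f' y * f' z + 1)) := by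
      rw [fy, fz]; exact ⟨by intro h; linarith, fun _ => syz, fun _ => hyz⟩
    have pax : f' a ≠ f' x ∧ (G.Adj a x ↔ IsSquare (f' a * f' x + 1)) := by
      rw [fa, fx]; exact ⟨by intro h; linarith, fun _ => sax, fun _ => hax⟩
    have pay : f' a ≠ f' y ∧ (G.Adj a y ↔ IsSquare (f' a * f' y + 1)) := by
      rw [fa, fy]; exact ⟨by intro h; linarith, fun h => absurd h hay, fun h => absurd h nay'⟩
    have paz : f' a ≠ f' z ∧ (G.Adj a z ↔ IsSquare (f' a * f' z + 1)) := by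
      rw [fa, fz]; exact ⟨by intro h; linarith, fun h => absurd h haz, fun h => absurd h naz'⟩
    have pbx : f' b ≠ f' x ∧ (G.Adj b x ↔ IsSquare (f' b * f' x + 1)) := by
      rw [fb, fx]; exact ⟨by intro h; linarith, fun h => absurd h hbx, fun h => absurd h nbx'⟩
    have pby : f' b ≠ f' y ∧ (G.Adj b y ↔ IsSquare (f' b * f' y + 1)) := by
      rw [fb, fy]; exact ⟨by intro h; linarith, fun _ => sby, fun _ => hby⟩
    have pbz : f' b ≠ f' z ∧ (G.Adj b z ↔ IsSquare (f' b * f' z + 1)) := by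
      rw [fb, fz]; exact ⟨by intro h; linarith, fun h => absurd h hbz, fun h => absurd h nbz'⟩
    have pcx : f' c ≠ f' x ∧ (G.Adj c x ↔ IsSquare (f' c * f' x + 1)) := by
      rw [fc, fx]; exact ⟨by intro h; linarith, fun h => absurd h hcx, fun h => absurd h ncx'⟩
    have pcy : f' c ≠ f' y ∧ (G.Adj c y ↔ IsSquare (f' c * f' y + 1)) := by
      rw [fc, fy]; exact ⟨by intro h; linarith, fun h => absurd h hcy, fun h => absurd h ncy'⟩
    have pcz : f' c ≠ f' z ∧ (G.Adj c z ↔ IsSquare (f' c * f' z + 1)) := by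
      rw [fc, fz]; exact ⟨by intro h; linarith, fun _ => scz, fun _ => hcz⟩
    intro u hu w hw huw
    simp only [mem_insert, mem_singleton] at hu hw
    clear_value f'
    rcases hu with hu | hu | hu | hu | hu | hu <;> rcases hw with hw | hw | hw | hw | hw | hw <;>
      rw [hu, hw] <;> first
        | exact absurd (hu.trans hw.symm) huw
        | assumption
        | (apply sym; assumption)
  · intro u hu
    simp only [mem_insert, mem_singleton] at hu
    rcases hu with rfl | rfl | rfl | rfl | rfl | rfl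
    · rw [fa]; exact hns12 0
    · rw [fb]; exact hns12 1
    · rw [fc]; exact hns12 2
    · rw [fx]; exact hns12 3
    · rw [fy]; exact hns12 4
    · rw [fz]; exact hns12 5

end Pool.Agent.Tri
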