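import Mathlib
import Pool.Agent.Tri.Defs
import Pool.Agent.Tri.TriK

set_option autoImplicit false

open Finset Pool.Agent.Helper7.Dio

namespace Pool.Agent.Tri

theorem exists_triK {V : Type*} [Fintype V] [DecidableEq V] {G : SimpleGraph V}
    [DecidableRel G.Adj] {K : Finset V} (hcl : Closed G K)
    (hdeg : ∀ x ∈ K, (univ.filter (G.Adj x)).card = 3)
    (htri : ∀ x ∈ K, ∃ a b, G.Adj x a ∧ G.Adj x b ∧ G.Adj a b)
    (hnd : ∀ a ∈ K, ∀ b c d, a ≠ d → G.Adj a b → G.Adj a c → G.Adj b c → G.Adj d b →
      G.Adj d c → False) :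
    ∃ T m, TriK G K T m := by
  classical
  set T : V → Finset V := fun x =>
    univ.filter (fun y => y = x ∨ (G.Adj x y ∧ ∃ z, G.Adj x z ∧ G.Adj y z)) with hT
  have hTmem : ∀ x y, y ∈ T x ↔ (y = x ∨ (G.Adj x y ∧ ∃ z, G.Adj x z ∧ G.Adj y z)) := by
    intro x y
    simp [hT]
  -- at most three neighbours
  have h4 : ∀ x ∈ K, ∀ a b c d, G.Adj x a → G.Adj x b → G.Adj x c → G.Adj x d → a ≠ b → a ≠ c →
      b ≠ c → d = a ∨ d = b ∨ d = c := by
    intro x hx a b c d ha hb hc hd hab hac hbc
    by_contra hcon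
    push Not at hcon
    obtain ⟨h1, h2, h3⟩ := hcon
    have hsub : ({a, b, c, d} : Finset V) ⊆ univ.filter (G.Adj x) := by
      intro y hy
      simp only [mem_insert, mem_singleton] at hy
      rw [mem_filter]
      refine ⟨mem_univ _, ?_⟩
      rcases hy with rfl | rfl | rfl | rfl
      · exact ha
      · exact hb
      · exact hc
      · exact hd
    have hcard : ({a, b, c, d} : Finset V).card = 4 := by
      rw [card_insert_of_notMem, card_insert_of_notMem, card_insert_of_notMem, card_singleton]
      · simpa using fun h => h3 h.symm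
      · simp only [mem_insert, mem_singleton, not_or]
        exact ⟨hbc, fun h => h2 h.symm⟩
      · simp only [mem_insert, mem_singleton, not_or]
        exact ⟨hab, hac, fun h => h1 h.symm⟩
    have := card_le_card hsub
    rw [hcard, hdeg x hx] at this
    omega
  have hTeq : ∀ x ∈ K, ∀ a b, G.Adj x a → G.Adj x b → G.Adj a b → T x = {x, a, b} := by
    intro x hx a b ha hb hab
    ext y
    rw [hTmem]
    simp only [mem_insert, mem_singleton]
    constructor
    · rintro (h | ⟨hy, z, hz, hyz⟩)
      · exact Or.inl h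
      · right
        by_contra hcon
        push Not at hcon
        obtain ⟨hya, hyb⟩ := hcon
        rcases h4 x hx a b y z ha hb hy hz hab.ne (Ne.symm hya) (Ne.symm hyb) with rfl | rfl | rfl
        · exact hnd b (hcl x hx b hb) x z y (Ne.symm hyb) hb.symm hab.symm ha hy.symm hyz
        · exact hnd a (hcl x hx a ha) x z y (Ne.symm hya) ha.symm hab hb hy.symm hyz
        · exact hyz.ne rfl
    · rintro (h | rfl | rfl)
      · exact Or.inl h
      · exact Or.inr ⟨ha, b, hb, hab⟩
      · exact Or.inr ⟨hb, a, ha, hab.symm⟩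
  have hex : ∀ x ∈ K, ∃ c, G.Adj x c ∧ c ∉ T x := by
    intro x hx
    obtain ⟨a, b, ha, hb, hab⟩ := htri x hx
    by_contra hcon
    push Not at hcon
    have hsub : univ.filter (G.Adj x) ⊆ {a, b} := by
      intro y hy
      rw [mem_filter] at hy
      have h1 := hcon y hy.2
      rw [hTeq x hx a b ha hb hab] at h1
      simp only [mem_insert, mem_singleton] at h1 ⊢
      rcases h1 with rfl | h1
      · exact absurd rfl hy.2.ne
      · exact h1
    have h1 := card_le_card hsub
    rw [hdeg x hx] at h1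
    have h2 : ({a, b} : Finset V).card ≤ 2 := card_le_two
    omega
  have huni : ∀ x ∈ K, ∀ c c', G.Adj x c → c ∉ T x → G.Adj x c' → c' ∉ T x → c = c' := by
    intro x hx c c' hc hcT hc' hcT'
    obtain ⟨a, b, ha, hb, hab⟩ := htri x hx
    rw [hTeq x hx a b ha hb hab] at hcT hcT'
    simp only [mem_insert, mem_singleton, not_or] at hcT hcT'
    rcases h4 x hx a b c c' ha hb hc hc' hab.ne (Ne.symm hcT.2.1) (Ne.symm hcT.2.2) with h | h | h
    · exact absurd h hcT'.2.1
    · exact absurd h hcT'.2.2
    · exact h.symm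
  set m : V → V := fun x => if h : ∃ c, G.Adj x c ∧ c ∉ T x then h.choose else x with hm
  have hm1 : ∀ x ∈ K, G.Adj x (m x) ∧ m x ∉ T x := by
    intro x hx
    have h := hex x hx
    simp only [hm, dif_pos h]
    exact h.choose_spec
  refine ⟨T, m, ⟨?_, ?_, ?_, ?_, ?_, ?_, ?_, ?_⟩⟩
  · intro x _
    rw [hTmem]
    exact Or.inl rfl
  · intro x hx
    obtain ⟨a, b, ha, hb, hab⟩ := htri x hx
    rw [hTeq x hx a b ha hb hab]
    rw [card_insert_of_notMem, card_insert_of_notMem, card_singleton]
    · simpa using hab.ne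
    · simp only [mem_insert, mem_singleton, not_or]
      exact ⟨ha.ne, hb.ne⟩
  · intro x hx y hy
    rw [hTmem] at hy
    rcases hy with rfl | ⟨hy, _⟩
    · exact hx
    · exact hcl x hx y hy
  · intro x hx y hy
    obtain ⟨a, b, ha, hb, hab⟩ := htri x hx
    rw [hTeq x hx a b ha hb hab] at hy ⊢
    simp only [mem_insert, mem_singleton] at hy
    rcases hy with rfl | rfl | rfl
    · exact hTeq y hx a b ha hb hab
    · rw [hTeq y (hcl x hx y ha) x b ha.symm hab hb]
      ext w
      simp only [mem_insert, mem_singleton]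
      tauto
    · rw [hTeq y (hcl x hx y hb) x a hb.symm hab.symm ha]
      ext w
      simp only [mem_insert, mem_singleton]
      tauto
  · intro x hx
    exact hcl x hx _ (hm1 x hx).1
  · intro x hx
    obtain ⟨h1, h2⟩ := hm1 x hx
    have h3 := hcl x hx _ h1
    obtain ⟨h5, h6⟩ := hm1 _ h3
    refine huni _ h3 _ _ h5 h6 h1.symm ?_
    intro h7
    rw [hTmem] at h7
    rcases h7 with h7 | ⟨_, z, hz, hxz⟩
    · exact h1.ne h7
    · apply h2
      rw [hTmem]
      exact Or.inr ⟨h1, z, hxz, hz⟩
  · intro x hx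
    exact (hm1 x hx).2
  · intro x hx y hxy
    constructor
    · intro h
      by_cases hy : y ∈ T x
      · exact Or.inl hy
      · exact Or.inr (huni x hx _ _ h hy (hm1 x hx).1 (hm1 x hx).2)
    · rintro (h | rfl)
      · rw [hTmem] at h
        rcases h with rfl | h
        · exact absurd rfl hxy
        · exact h.1
      · exact (hm1 x hx).1

end Pool.Agent.Tri
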