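import Mathlib
import Pool.Agent.Tri.PSStep
import Pool.Agent.Tri.PSStepP
import Pool.Agent.Tri.PSFinalD
import Pool.Agent.Tri.PSFinalV
import Pool.Agent.Tri.Grow
import Pool.Agent.Tri.Struct
import Pool.Agent.Tri.Label
import Pool.Agent.Tri.Prism

set_option autoImplicit false

open Finset Pool.Agent.Helper7.Dio

namespace Pool.Agent.Tri

variable {V : Type*} [DecidableEq V] {G : SimpleGraph V} {K : Finset V} {T : V → Finset V}
  {m : V → V}

namespace TriK

omit [DecidableEq V] in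
lemma eqT (hK : TriK G K T m) {x y : V} (hx : x ∈ K) (h : y ∈ T x) : x ∈ T y := by
  rw [hK.part x hx y h]; exact hK.self x hx

omit [DecidableEq V] in
lemma disj (hK : TriK G K T m) {W : Finset V} (hW : Uni T W) {x : V}
    (hx : x ∈ K) (hxW : x ∉ W) {y : V} (hy : y ∈ T x) : y ∉ W := by
  intro hyW
  have h1 : T y ⊆ W := hW y hyW
  rw [hK.part x hx y hy] at h1
  exact hxW (h1 (hK.self x hx))

omit [DecidableEq V] in
lemma uniT (hK : TriK G K T m) {x : V} (hx : x ∈ K) : Uni T (T x) := by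
  intro y hy
  rw [hK.part x hx y hy]

omit [DecidableEq V] in
lemma minj (hK : TriK G K T m) {x y : V} (hx : x ∈ K) (hy : y ∈ K) (h : m x = m y) : x = y := by
  rw [← hK.minv x hx, ← hK.minv y hy, h]

/-- Write a triangle as three distinct vertices, the first two given. -/
lemma three (hK : TriK G K T m) {x y : V} (hx : x ∈ K) (hy : y ∈ T x) (hxy : x ≠ y) :
    ∃ z, z ≠ x ∧ z ≠ y ∧ T x = {x, y, z} := by
  have hc := hK.card x hx
  have hxy' : ({x, y} : Finset V) ⊆ T x := by
    intro w hw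
    simp only [mem_insert, mem_singleton] at hw
    rcases hw with rfl | rfl
    · exact hK.self _ hx
    · exact hy
  have hc2 : (T x \ {x, y}).card = 1 := by
    rw [card_sdiff_of_subset hxy', hc, card_pair hxy]
  obtain ⟨z, hz⟩ := card_eq_one.1 hc2
  have hzm : z ∈ T x \ {x, y} := by rw [hz]; exact mem_singleton_self z
  simp only [mem_sdiff, mem_insert, mem_singleton, not_or] at hzm
  refine ⟨z, hzm.2.1, hzm.2.2, ?_⟩
  ext w
  simp only [mem_insert, mem_singleton]
  constructor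
  · intro hw
    by_cases h1 : w = x
    · exact Or.inl h1
    · by_cases h2 : w = y
      · exact Or.inr (Or.inl h2)
      · have : w ∈ T x \ {x, y} := by simp [hw, h1, h2]
        rw [hz] at this
        exact Or.inr (Or.inr (mem_singleton.1 this))
  · rintro (rfl | rfl | rfl)
    · exact hK.self _ hx
    · exact hy
    · exact hzm.1

omit [DecidableEq V] in
lemma exists_other (hK : TriK G K T m) {x : V} (hx : x ∈ K) : ∃ y ∈ T x, x ≠ y := by
  have h1 : 1 < (T x).card := by rw [hK.card x hx]; norm_num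
  obtain ⟨y, hy, hyx⟩ := exists_mem_ne h1 x
  exact ⟨y, hy, hyx.symm⟩

end TriK

/-- Double link case. -/
theorem conf_digon (hK : TriK G K T m) (hL : Linked K T m) {x1 x2 x3 : V} (hx1 : x1 ∈ K)
    (hT : T x1 = {x1, x2, x3}) (h12 : T (m x1) = T (m x2)) (h13 : T (m x3) ≠ T (m x1)) :
    ∃ v, Conf G K v := by
  classical
  have hc := hK.card x1 hx1
  have hd : x1 ≠ x2 ∧ x1 ≠ x3 ∧ x2 ≠ x3 := by
    rw [hT] at hc
    refine ⟨?_, ?_, ?_⟩
    · rintro rfl
      have : ({x1, x1, x3} : Finset V).card ≤ 2 := by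
        simpa using card_le_two (a := x1) (b := x3)
      omega
    · rintro rfl
      have : ({x1, x2, x1} : Finset V).card ≤ 2 := by
        have h : ({x1, x2, x1} : Finset V) = {x2, x1} := by
          ext w; simp only [mem_insert, mem_singleton]; tauto
        rw [h]; exact card_le_two
      omega
    · rintro rfl
      have : ({x1, x2, x2} : Finset V).card ≤ 2 := by
        simpa using card_le_two (a := x1) (b := x2)
      omega
  have hx2T : x2 ∈ T x1 := by rw [hT]; simp
  have hx3T : x3 ∈ T x1 := by rw [hT]; simp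
  have hx2 : x2 ∈ K := hK.sub x1 hx1 hx2T
  have hx3 : x3 ∈ K := hK.sub x1 hx1 hx3T
  have hT2 : T x2 = T x1 := hK.part x1 hx1 x2 hx2T
  have hT3 : T x3 = T x1 := hK.part x1 hx1 x3 hx3T
  have hm1 := hK.mK x1 hx1
  have hm2 := hK.mK x2 hx2
  have hm3 := hK.mK x3 hx3
  have hm1T := hK.mT x1 hx1
  have hm2m1 : m x2 ∈ T (m x1) := by rw [h12]; exact hK.self _ hm2
  have hm12 : m x1 ≠ m x2 := fun h => hd.1 (hK.minj hx1 hx2 h)
  obtain ⟨y3, hy31, hy32, hTy⟩ := hK.three hm1 hm2m1 hm12
  have hy3T : y3 ∈ T (m x1) := by rw [hTy]; simp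
  have hy3 : y3 ∈ K := hK.sub _ hm1 hy3T
  set U0 := T x1 ∪ T (m x1) with hU0
  have hU0K : U0 ⊆ K := union_subset (hK.sub x1 hx1) (hK.sub _ hm1)
  have hU0u : Uni T U0 := by
    intro w hw
    rcases mem_union.1 hw with h | h
    · rw [hK.part x1 hx1 w h]; exact subset_union_left
    · rw [hK.part _ hm1 w h]; exact subset_union_right
  set B := 4 * K.card + 18 with hB
  -- growth
  have key := grow hK (K' := K) (U0 := U0) hU0K (subset_refl K) hU0u (fun w hw => hK.sub w hw)
    (fun W h0 hWK hWu hWne => hL W ⟨x1, h0 (mem_union_left _ (hK.self x1 hx1))⟩ hWK hWu hWne)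
    (fun U => ∃ Z v, PS G K T m B x1 x1 x1 (K \ U) Z v ∅)
    ⟨∅, _, by rw [sdiff_self]; exact PS.empty (by omega)⟩ ?_
  · obtain ⟨Z, v, h⟩ := key
    refine PS.finalD (x1 := x1) (x2 := x2) (x3 := x3) (y3 := y3) hK hB.ge h hx1 hT hTy hm1T ?_ ?_
      (mem_union_left _ (hK.self x1 hx1)) rfl
    · rw [mem_sdiff, hU0, mem_union]
      refine ⟨hm3, ?_⟩
      rintro (h1 | h1)
      · rw [← hT3] at h1; exact hK.mT x3 hx3 h1
      · exact h13 (hK.part _ hm1 _ h1)
    · rw [mem_sdiff, hU0, mem_union]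
      refine ⟨hK.mK y3 hy3, ?_⟩
      rintro (h1 | h1)
      · rw [hT] at h1
        simp only [mem_insert, mem_singleton] at h1
        rcases h1 with h1 | h1 | h1
        · apply hy31; rw [← h1, hK.minv y3 hy3]
        · apply hy32; rw [← h1, hK.minv y3 hy3]
        · apply h13
          rw [← h1, hK.minv y3 hy3]
          exact hK.part _ hm1 _ hy3T
      · rw [← hK.part _ hm1 _ hy3T] at h1
        exact hK.mT y3 hy3 h1
  · intro U x hU0U hUK hUu hxK hxU hmxU hC
    obtain ⟨Z, v, h⟩ := hC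
    have hsub : T x ⊆ K := hK.sub x hxK
    have hdisj : ∀ y ∈ T x, y ∉ U := fun y hy => hK.disj hUu hxK hxU hy
    have hPeq : K \ (U ∪ T x) ∪ T x = K \ U := by
      ext w
      simp only [mem_union, mem_sdiff]
      constructor
      · rintro (⟨h1, h2⟩ | h1)
        · exact ⟨h1, fun h3 => h2 (Or.inl h3)⟩
        · exact ⟨hsub h1, hdisj w h1⟩
      · rintro ⟨h1, h2⟩
        by_cases h3 : w ∈ T x
        · exact Or.inr h3
        · exact Or.inl ⟨h1, fun h4 => h4.elim h2 h3⟩
    have hx1U : x1 ∈ U := hU0U (mem_union_left _ (hK.self x1 hx1))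
    have hm1U : m x1 ∈ U := hU0U (mem_union_right _ (hK.self _ hm1))
    obtain ⟨Z', v', h'⟩ := PS.step (x := x) (z := x) hK hB.ge h hxK
      (by simp [hK.self x hxK]) (fun h1 => hdisj _ h1 hx1U) (hK.self x hxK)
      (by simp [hmxU]) (by
        rintro c (rfl | rfl) hc <;> exact absurd hx1U (hdisj _ hc))
      (by
        intro y hy
        have : m y ≠ x1 := by
          intro h1
          apply hdisj y hy
          rw [← hK.minv y (hsub hy), h1]; exact hm1U
        exact ⟨this, this⟩)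
      (by intro y1 _ y2 _ _ h1; simp at h1)
    exact ⟨Z', v', by rwa [hPeq] at h'⟩


/-- Simple case: no two links between the same pair of triangles. -/
theorem conf_simple (hK : TriK G K T m) (hL : Linked K T m) (hne : K.Nonempty)
    (hs : ∀ x ∈ K, ∀ y ∈ T x, x ≠ y → T (m x) ≠ T (m y)) :
    ∃ v, Conf G K v := by
  classical
  obtain ⟨s1, hs1, hLs⟩ := noncut hK hL hne
  obtain ⟨s2, hs2T, hs12⟩ := hK.exists_other hs1
  obtain ⟨s3, hs31, hs32, hTs⟩ := hK.three hs1 hs2T hs12
  have hs3T : s3 ∈ T s1 := by rw [hTs]; simp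
  have hs2 : s2 ∈ K := hK.sub s1 hs1 hs2T
  have hs3 : s3 ∈ K := hK.sub s1 hs1 hs3T
  have hT2 : T s2 = T s1 := hK.part s1 hs1 s2 hs2T
  have hT3 : T s3 = T s1 := hK.part s1 hs1 s3 hs3T
  set a := m s1 with ha
  set b := m s2 with hb
  set y3 := m s3 with hy3def
  have haK : a ∈ K := hK.mK s1 hs1
  have hbK : b ∈ K := hK.mK s2 hs2
  have hy3 : y3 ∈ K := hK.mK s3 hs3
  have hma : m a = s1 := hK.minv s1 hs1
  have hmb : m b = s2 := hK.minv s2 hs2
  have hmy3 : m y3 = s3 := hK.minv s3 hs3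
  have haT : a ∉ T s1 := hK.mT s1 hs1
  have hbT : b ∉ T s1 := by rw [← hT2]; exact hK.mT s2 hs2
  have hyT : y3 ∉ T s1 := by rw [← hT3]; exact hK.mT s3 hs3
  have hTab : T a ≠ T b := hs s1 hs1 s2 hs2T hs12
  have hTay : T a ≠ T y3 := hs s1 hs1 s3 hs3T hs31.symm
  have hTby : T b ≠ T y3 := hs s2 hs2 s3 (by rw [hT2]; exact hs3T) hs32.symm
  set K' := K \ T s1 with hK'
  have hK'K : K' ⊆ K := sdiff_subset
  have hK'u : Uni T K' := by
    intro w hw u hu
    have hwK := hK'K hw
    rw [hK', mem_sdiff] at hw ⊢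
    refine ⟨hK.sub w hwK hu, fun h1 => hw.2 ?_⟩
    have h2 : T u = T s1 := hK.part s1 hs1 u h1
    have h3 : T u = T w := hK.part w hwK u hu
    rw [← h2, h3]; exact hK.self w hwK
  have haK' : a ∈ K' := by rw [hK', mem_sdiff]; exact ⟨haK, haT⟩
  have hbK' : b ∈ K' := by rw [hK', mem_sdiff]; exact ⟨hbK, hbT⟩
  have hyK' : y3 ∈ K' := by rw [hK', mem_sdiff]; exact ⟨hy3, hyT⟩
  have hU0K : T y3 ⊆ K' := hK'u y3 hyK'
  set B := 4 * K.card + 18 with hB
  -- a special set never contains two links of one triangle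
  have hspec : ∀ (P Sp : Finset V) (Z : Finset ℕ) (v : V → Vec), PS G K T m B s1 a b P Z v Sp →
      ∀ x ∈ K, x ∉ T s1 → ∀ y1 ∈ T x, ∀ y2 ∈ T x, y1 ≠ y2 → m y1 ∈ Sp → m y2 ∈ Sp → False := by
    intro P Sp Z v h x hxK hxs y1 hy1 y2 hy2 hy12 h1 h2
    have hy1K := hK.sub x hxK hy1
    have hy2K := hK.sub x hxK hy2
    have hnot : ∀ y ∈ T x, m y ≠ a ∧ m y ≠ b := by
      intro y hy
      have hyK := hK.sub x hxK hy
      constructor
      · intro h3
        apply hxs
        have h4 : y = s1 := hK.minj hyK hs1 h3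
        subst h4
        exact hK.eqT hxK hy
      · intro h3
        apply hxs
        have h4 : y = s2 := hK.minj hyK hs2 h3
        subst h4
        rw [← hT2]
        exact hK.eqT hxK hy
    have hsx := hs y1 hy1K y2 (by rw [hK.part x hxK y1 hy1]; exact hy2) hy12
    rcases h.sp with h3 | h3 | h3
    · rw [h3] at h1; simp at h1
    · obtain ⟨_, _, _, h4, _⟩ := h3
      rw [h4, mem_insert] at h1 h2
      have h5 := h1.resolve_left (hnot y1 hy1).1
      have h6 := h2.resolve_left (hnot y2 hy2).1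
      apply hsx
      rw [hK.part b hbK _ h5, hK.part b hbK _ h6]
    · obtain ⟨_, _, _, h4, _⟩ := h3
      rw [h4, mem_insert] at h1 h2
      have h5 := h1.resolve_left (hnot y1 hy1).2
      have h6 := h2.resolve_left (hnot y2 hy2).2
      apply hsx
      rw [hK.part a haK _ h5, hK.part a haK _ h6]
  have key := grow hK (K' := K') (U0 := T y3) hU0K hK'K (hK.uniT hy3) hK'u
    (fun W h0 hWK hWu hWne => hLs W ⟨y3, h0 (hK.self y3 hy3)⟩ hWK hWu hWne)
    (fun U => ∃ Z v Sp, PS G K T m B s1 a b (K' \ U) Z v Sp ∧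
      (a ∈ K' \ U → b ∈ K' \ U → Sp ≠ ∅))
    ⟨∅, _, ∅, by rw [sdiff_self]; exact PS.empty (by omega), by simp⟩ ?_
  · obtain ⟨Z, v, Sp, h, hSp⟩ := key
    have haP : a ∈ K' \ T y3 := by
      rw [mem_sdiff]
      exact ⟨haK', fun h1 => hTay (hK.part y3 hy3 a h1)⟩
    have hbP : b ∈ K' \ T y3 := by
      rw [mem_sdiff]
      exact ⟨hbK', fun h1 => hTby (hK.part y3 hy3 b h1)⟩
    have hP : K' \ T y3 = K \ (T s1 ∪ T y3) := by rw [hK', sdiff_sdiff_left]; rfl
    obtain ⟨y1, hy1T, hy31⟩ := hK.exists_other hy3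
    obtain ⟨y2, hy23, hy21, hTy⟩ := hK.three hy3 hy1T hy31
    have hy2T : y2 ∈ T y3 := by rw [hTy]; simp
    have hTy' : T y3 = {y1, y2, y3} := by
      rw [hTy]; ext w; simp only [mem_insert, mem_singleton]; tauto
    have hlink : ∀ y ∈ T y3, y ≠ y3 → m y ∈ K' \ T y3 := by
      intro y hy hyne
      have hyK := hK.sub y3 hy3 hy
      rw [hP, mem_sdiff, mem_union]
      refine ⟨hK.mK y hyK, ?_⟩
      rintro (h1 | h1)
      · rw [hTs] at h1
        simp only [mem_insert, mem_singleton] at h1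
        rcases h1 with h1 | h1 | h1
        · have h2 : y = a := by rw [ha, ← h1, hK.minv y hyK]
          rw [h2] at hy
          exact (mem_sdiff.1 haP).2 hy
        · have h2 : y = b := by rw [hb, ← h1, hK.minv y hyK]
          rw [h2] at hy
          exact (mem_sdiff.1 hbP).2 hy
        · apply hyne; rw [hy3def, ← h1, hK.minv y hyK]
      · rw [← hK.part y3 hy3 y hy] at h1
        exact hK.mT y hyK h1
    have hy3s : y3 ∉ T s1 := hyT
    have hns : ¬ (m y1 ∈ Sp ∧ m y2 ∈ Sp) := by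
      rintro ⟨h1, h2⟩
      exact hspec _ Sp Z v h y3 hy3 hyT y1 hy1T y2 hy2T hy21.symm h1 h2
    have hSp' := hSp haP hbP
    rcases h.sp with h3 | h3 | h3
    · exact absurd h3 hSp'
    · exact PS.finalV (s1 := s1) (s2 := s2) (s3 := s3) (y1 := y1) (y2 := y2) (y3 := y3) hK hB.ge h h3
        hs1 hTs hTy' rfl rfl rfl hyT (hlink y1 hy1T hy31.symm) (hlink y2 hy2T hy23)
        (hK.self s1 hs1) hP hns
    · have hTs2 : T s2 = {s2, s1, s3} := by
        rw [hT2, hTs]; ext w; simp only [mem_insert, mem_singleton]; tauto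
      exact PS.finalV (s1 := s2) (s2 := s1) (s3 := s3) (y1 := y1) (y2 := y2) (y3 := y3) hK hB.ge
        h.symm h3 hs2 hTs2 hTy' rfl rfl rfl (by rw [hT2]; exact hyT)
        (hlink y1 hy1T hy31.symm) (hlink y2 hy2T hy23)
        (by rw [hT2]; exact hK.self s1 hs1) (by rw [hT2]; exact hP) hns
  · intro U x hU0U hUK' hUu hxK' hxU hmxU hC
    obtain ⟨Z, v, Sp, h, hSp⟩ := hC
    have hxK : x ∈ K := hK'K hxK'
    have hsub : T x ⊆ K := hK.sub x hxK
    have hsub' : T x ⊆ K' := hK'u x hxK'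
    have hdisj : ∀ y ∈ T x, y ∉ U := fun y hy => hK.disj hUu hxK hxU hy
    have hPeq : K' \ (U ∪ T x) ∪ T x = K' \ U := by
      ext w
      simp only [mem_union, mem_sdiff]
      constructor
      · rintro (⟨h1, h2⟩ | h1)
        · exact ⟨h1, fun h3 => h2 (Or.inl h3)⟩
        · exact ⟨hsub' h1, hdisj w h1⟩
      · rintro ⟨h1, h2⟩
        by_cases h3 : w ∈ T x
        · exact Or.inr h3
        · exact Or.inl ⟨h1, fun h4 => h4.elim h2 h3⟩
    have hs1K' : s1 ∉ K' := fun h1 => (mem_sdiff.1 h1).2 (hK.self s1 hs1)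
    have hs2K' : s2 ∉ K' := fun h1 => (mem_sdiff.1 h1).2 hs2T
    have hs1Tx : s1 ∉ T x := fun h1 => hs1K' (hsub' h1)
    have hxs1 : x ∉ T s1 := (mem_sdiff.1 hxK').2
    have hs1U : s1 ∉ U := fun h1 => hs1K' (hUK' h1)
    have hs2U : s2 ∉ U := fun h1 => hs2K' (hUK' h1)
    have hxa : a ≠ x := by
      rintro h1; rw [← h1, hma] at hmxU; exact hs1U hmxU
    have hxb : b ≠ x := by
      rintro h1; rw [← h1, hmb] at hmxU; exact hs2U hmxU
    have hmP : ∀ w, w ∉ K' → w ∉ K' \ (U ∪ T x) := fun w hw h1 => hw (mem_sdiff.1 h1).1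
    have hmxP : m x ∉ K' \ (U ∪ T x) := by
      rw [mem_sdiff, mem_union]; tauto
    have hmaP : m a ∉ K' \ (U ∪ T x) := by rw [hma]; exact hmP _ hs1K'
    have hmbP : m b ∉ K' \ (U ∪ T x) := by rw [hmb]; exact hmP _ hs2K'
    have hxP : x ∉ K' \ (U ∪ T x) := by
      rw [mem_sdiff, mem_union]; have := hK.self x hxK; tauto
    have hmab : ∀ y ∈ T x, m y ≠ a ∧ m y ≠ b := by
      intro y hy
      have hyK := hsub hy
      constructor
      · intro h3
        have h4 : y = s1 := hK.minj hyK hs1 h3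
        exact hs1K' (hsub' (h4 ▸ hy))
      · intro h3
        have h4 : y = s2 := hK.minj hyK hs2 h3
        exact hs2K' (hsub' (h4 ▸ hy))
    by_cases hA : a ∈ T x ∧ b ∈ K' \ (U ∪ T x)
    · -- place the triangle of `a`, with `b` already there
      have hTa : T a = T x := hK.part x hxK a hA.1
      have haP : a ∉ K' \ (U ∪ T x) := by rw [mem_sdiff, mem_union]; have := hA.1; tauto
      have hSe : Sp = ∅ := by
        rcases h.sp with h3 | h3 | h3
        · exact h3
        · exact absurd h3.1 haP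
        · exact absurd h3.2.1 haP
      subst hSe
      obtain ⟨Z', v', h'⟩ := PS.stepP (a := b) (b := a) (z := x) hK hB.ge h.symm haK haP hA.2 hmbP
        hmaP (by rw [hTa]; exact hs1Tx) (by rw [hTa]; exact hK.self x hxK) (Ne.symm hxa) hmxP
        (by rw [hTa]; intro y hy; exact ⟨(hmab y hy).2, (hmab y hy).1⟩)
      rw [hTa, hPeq] at h'
      exact ⟨Z', v', _, h'.symm, fun _ _ => by simp⟩
    · by_cases hA2 : b ∈ T x ∧ a ∈ K' \ (U ∪ T x)
      · have hTb : T b = T x := hK.part x hxK b hA2.1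
        have hbP : b ∉ K' \ (U ∪ T x) := by rw [mem_sdiff, mem_union]; have := hA2.1; tauto
        have hSe : Sp = ∅ := by
          rcases h.sp with h3 | h3 | h3
          · exact h3
          · exact absurd h3.2.1 hbP
          · exact absurd h3.1 hbP
        subst hSe
        obtain ⟨Z', v', h'⟩ := PS.stepP (z := x) hK hB.ge h hbK hbP hA2.2 hmaP
          hmbP (by rw [hTb]; exact hs1Tx) (by rw [hTb]; exact hK.self x hxK) (Ne.symm hxb) hmxP
          (by rw [hTb]; exact hmab)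
        rw [hTb, hPeq] at h'
        exact ⟨Z', v', _, h', fun _ _ => by simp⟩
      · obtain ⟨Z', v', h'⟩ := PS.step (x := x) (z := x) hK hB.ge h hxK hxP hs1Tx
          (hK.self x hxK) hmxP
          (by
            rintro c (rfl | rfl) hc
            · exact ⟨hmaP, hxa⟩
            · exact ⟨hmbP, hxb⟩) hmab
          (fun y1 hy1 y2 hy2 hy12 h1 h2 => hspec _ Sp Z v h x hxK hxs1 y1 hy1 y2 hy2 hy12 h1 h2)
        rw [hPeq] at h'
        refine ⟨Z', v', Sp, h', fun h1 h2 => ?_⟩
        rw [← hPeq, mem_union] at h1 h2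
        rcases h1 with h1 | h1
        · rcases h2 with h2 | h2
          · exact hSp h1 h2
          · exact absurd ⟨h2, h1⟩ hA2
        · rcases h2 with h2 | h2
          · exact absurd ⟨h1, h2⟩ hA
          · exact absurd (by rw [hK.part x hxK a h1, hK.part x hxK b h2]) hTab

end Pool.Agent.Tri
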