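import Mathlib
import Pool.Agent.Tri.Asm

set_option autoImplicit false

open Finset Pool.Agent.Helper7.Dio

namespace Pool.Agent.Tri

variable {V : Type*} [DecidableEq V] [Fintype V] {G : SimpleGraph V} [DecidableRel G.Adj]

/-- A component is linked. -/
lemma linked_comp {v : V} {T : V → Finset V} {m : V → V} (hK : TriK G (comp G v) T m) :
    Linked (comp G v) T m := by
  intro W hWne hWK hWu hWneK
  obtain ⟨y, hy⟩ := hWne
  obtain ⟨x, hxK, hxW⟩ : ∃ x ∈ comp G v, x ∉ W := by
    by_contra hcon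
    push Not at hcon
    exact hWneK (Finset.Subset.antisymm hWK hcon)
  have hyx : G.Reachable y x := (mem_comp.1 (hWK hy)).symm.trans (mem_comp.1 hxK)
  obtain ⟨u, hu, w, hw, huw⟩ := exists_exit hy hxW hyx
  have huK := hWK hu
  have hwK : w ∈ comp G v := closed_comp v u huK w huw
  rcases (hK.adj u huK w huw.ne).1 huw with h1 | h1
  · exact absurd (hWu u hu h1) hw
  · exact ⟨w, hwK, hw, by rw [h1, hK.minv u huK]; exact hu⟩

/-- One component at a time: all vertices of the component lie in triangles. -/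
theorem extend_tri (hdeg : ∀ v, (univ.filter (G.Adj v)).card ≤ 3) {S : Finset V} {f : V → ℤ}
    (hS : Closed G S) (h : State G S ∅ f) {v : V} (hv : v ∉ S)
    (hlow : ¬ ∃ w, G.Reachable v w ∧ (univ.filter (G.Adj w)).card ≤ 2)
    (hdia : ¬ ∃ a b c d : V, G.Reachable v a ∧ a ≠ d ∧ G.Adj a b ∧ G.Adj a c ∧ G.Adj b c ∧
        G.Adj d b ∧ G.Adj d c)
    (htri : ∀ w, G.Reachable v w → ∃ a b, G.Adj w a ∧ G.Adj w b ∧ G.Adj a b) :
    ∃ f' : V → ℤ, State G (comp G v ∪ S) ∅ f' := by
  set K := comp G v with hKdef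
  have hclK : Closed G K := closed_comp v
  have hvK : v ∈ K := mem_comp.2 (SimpleGraph.Reachable.refl v)
  have hno : ∀ x ∈ K, ∀ y ∈ S, ¬ G.Adj x y :=
    fun x hx y hy hxy => comp_disjoint hS hv hx (hS y hy x hxy.symm)
  have hnS : ∀ x ∈ K, x ∉ S := fun x hx => comp_disjoint hS hv hx
  obtain ⟨T, m, hK⟩ := exists_triK hclK
    (fun x hx => by
      have h1 := hdeg x
      have h2 : ¬ (univ.filter (G.Adj x)).card ≤ 2 := fun h3 => hlow ⟨x, mem_comp.1 hx, h3⟩
      omega)
    (fun x hx => htri x (mem_comp.1 hx))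
    (fun a ha b c d had hab hac hbc hdb hdc =>
      hdia ⟨a, b, c, d, mem_comp.1 ha, had, hab, hac, hbc, hdb, hdc⟩)
  have hL : Linked K T m := linked_comp hK
  by_cases hs : ∀ x ∈ K, ∀ y ∈ T x, x ≠ y → T (m x) ≠ T (m y)
  · obtain ⟨w, hw⟩ := conf_simple hK hL ⟨v, hvK⟩ hs
    exact hw.extend h hnS hno
  · push Not at hs
    obtain ⟨x1, hx1, x2, hx2T, hx12, h12⟩ := hs
    obtain ⟨x3, hx31, hx32, hT⟩ := hK.three hx1 hx2T hx12
    by_cases h13 : T (m x3) = T (m x1)
    · -- prism
      have hx3T : x3 ∈ T x1 := by rw [hT]; simp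
      have hx2 : x2 ∈ K := hK.sub x1 hx1 hx2T
      have hx3 : x3 ∈ K := hK.sub x1 hx1 hx3T
      have hT2 : T x2 = T x1 := hK.part x1 hx1 x2 hx2T
      have hT3 : T x3 = T x1 := hK.part x1 hx1 x3 hx3T
      have hm1 := hK.mK x1 hx1
      have hm2 := hK.mK x2 hx2
      have hm3 := hK.mK x3 hx3
      have hm1T := hK.mT x1 hx1
      have hm2T : m x2 ∉ T x1 := by rw [← hT2]; exact hK.mT x2 hx2
      have hm3T : m x3 ∉ T x1 := by rw [← hT3]; exact hK.mT x3 hx3
      have hm2m1 : m x2 ∈ T (m x1) := by rw [h12]; exact hK.self _ hm2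
      have hm3m1 : m x3 ∈ T (m x1) := by rw [← h13]; exact hK.self _ hm3
      have hm12 : m x1 ≠ m x2 := fun h => hx12 (hK.minj hx1 hx2 h)
      have hm13 : m x1 ≠ m x3 := fun h => hx31 (hK.minj hx1 hx3 h).symm
      have hm23 : m x2 ≠ m x3 := fun h => hx32 (hK.minj hx2 hx3 h).symm
      have hTm : T (m x1) = {m x1, m x2, m x3} := by
        symm
        apply Finset.eq_of_subset_of_card_le
        · intro w hw
          simp only [mem_insert, mem_singleton] at hw
          rcases hw with rfl | rfl | rfl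
          · exact hK.self _ hm1
          · exact hm2m1
          · exact hm3m1
        · rw [hK.card _ hm1]
          have : ({m x1, m x2, m x3} : Finset V).card = 3 :=
            Finset.card_eq_three.2 ⟨_, _, _, hm12, hm13, hm23, rfl⟩
          omega
      have hKeq : K = {x1, x2, x3, m x1, m x2, m x3} := by
        have hU : T x1 ∪ T (m x1) = K := by
          by_contra hne
          have hWu : Uni T (T x1 ∪ T (m x1)) := by
            intro w hw
            rcases mem_union.1 hw with h | h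
            · rw [hK.part x1 hx1 w h]; exact subset_union_left
            · rw [hK.part _ hm1 w h]; exact subset_union_right
          obtain ⟨x, hxK, hxW, hmx⟩ := hL _ ⟨x1, mem_union_left _ (hK.self x1 hx1)⟩
            (union_subset (hK.sub x1 hx1) (hK.sub _ hm1)) hWu hne
          apply hxW
          rw [mem_union] at hmx ⊢
          rcases hmx with h1 | h1
          · right
            rw [hT] at h1
            simp only [mem_insert, mem_singleton] at h1
            have hxx := hK.minv x hxK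
            rcases h1 with h1 | h1 | h1
            · rw [h1] at hxx; rw [← hxx]; exact hK.self _ hm1
            · rw [h1] at hxx; rw [← hxx]; exact hm2m1
            · rw [h1] at hxx; rw [← hxx]; exact hm3m1
          · left
            rw [hTm] at h1
            simp only [mem_insert, mem_singleton] at h1
            rcases h1 with h1 | h1 | h1
            · rw [hK.minj hxK hx1 h1]; exact hK.self _ hx1
            · rw [hK.minj hxK hx2 h1]; exact hx2T
            · rw [hK.minj hxK hx3 h1]; exact hx3T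
        rw [← hU, hTm, hT]
        ext w
        simp only [mem_union, mem_insert, mem_singleton]
        tauto
      have hadjT : ∀ x ∈ K, ∀ y ∈ T x, x ≠ y → G.Adj x y :=
        fun x hx y hy hxy => (hK.adj x hx y hxy).2 (Or.inl hy)
      have hadjm : ∀ x ∈ K, G.Adj x (m x) := fun x hx =>
        (hK.adj x hx (m x) (fun h => hK.mT x hx (by rw [← h]; exact hK.self x hx))).2 (Or.inr rfl)
      have hnadj : ∀ x ∈ K, ∀ y ∈ K, m y ∉ T x → m x ≠ m y → ¬ G.Adj x (m y) := by
        intro x hx y hy h1 h2 h3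
        rcases (hK.adj x hx (m y) h3.ne).1 h3 with h4 | h4
        · exact h1 h4
        · exact h2 h4.symm
      have hn1 : ∀ x ∈ T x1, ∀ y ∈ T x1, x ≠ y → ¬ G.Adj x (m y) := by
        intro x hx y hy hxy
        have hxK := hK.sub x1 hx1 hx
        have hyK := hK.sub x1 hx1 hy
        refine hnadj x hxK y hyK ?_ (fun h => hxy (hK.minj hxK hyK h))
        rw [hK.part x1 hx1 x hx, ← hK.part x1 hx1 y hy]
        exact hK.mT y hyK
      have hx1T := hK.self x1 hx1
      have hne1 : ∀ x ∈ T x1, ∀ y ∈ T x1, x ≠ m y := by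
        intro x hx y hy hxy
        have hyK := hK.sub x1 hx1 hy
        apply hK.mT y hyK
        rw [hK.part x1 hx1 y hy, ← hxy]; exact hx
      obtain ⟨f', h'⟩ := prism_extend (a := x1) (b := x2) (c := x3) (x := m x1) (y := m x2)
        (z := m x3) h (by
          simp only [List.nodup_cons, List.mem_cons, List.not_mem_nil, or_false, not_or,
            not_false_eq_true, List.nodup_nil, and_true]
          exact ⟨⟨hx12, hx31.symm, hne1 _ hx1T _ hx1T, hne1 _ hx1T _ hx2T, hne1 _ hx1T _ hx3T⟩,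
            ⟨hx32.symm, hne1 _ hx2T _ hx1T, hne1 _ hx2T _ hx2T, hne1 _ hx2T _ hx3T⟩,
            ⟨hne1 _ hx3T _ hx1T, hne1 _ hx3T _ hx2T, hne1 _ hx3T _ hx3T⟩, ⟨hm12, hm13⟩, hm23⟩)
        ⟨hnS _ hx1, hnS _ hx2, hnS _ hx3, hnS _ hm1, hnS _ hm2, hnS _ hm3⟩
        (hadjT _ hx1 _ hx2T hx12) (hadjT _ hx1 _ hx3T hx31.symm)
        (hadjT _ hx2 _ (by rw [hT2]; exact hx3T) hx32.symm)
        (hadjT _ hm1 _ hm2m1 hm12) (hadjT _ hm1 _ hm3m1 hm13)
        (hadjT _ hm2 _ (by rw [← h12]; exact hm3m1) hm23)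
        (hadjm _ hx1) (hadjm _ hx2) (hadjm _ hx3)
        (hn1 _ hx1T _ hx2T hx12) (hn1 _ hx1T _ hx3T hx31.symm)
        (hn1 _ hx2T _ hx1T hx12.symm) (hn1 _ hx2T _ hx3T hx32.symm)
        (hn1 _ hx3T _ hx1T hx31) (hn1 _ hx3T _ hx2T hx32)
        (fun w hw => ⟨hno _ hx1 w hw, hno _ hx2 w hw, hno _ hx3 w hw, hno _ hm1 w hw,
          hno _ hm2 w hw, hno _ hm3 w hw⟩)
      rw [← hKeq] at h'
      exact ⟨f', h'⟩
    · obtain ⟨w, hw⟩ := conf_digon hK hL hx1 hT h12 h13
      exact hw.extend h hnS hno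

/-- The induction over components. -/
theorem tri_main (hdeg : ∀ v, (univ.filter (G.Adj v)).card ≤ 3)
    (hcomp : ∀ v : V, (∃ w, G.Reachable v w ∧ (univ.filter (G.Adj w)).card ≤ 2) ∨
      (∃ a b c d : V, G.Reachable v a ∧ a ≠ d ∧ G.Adj a b ∧ G.Adj a c ∧ G.Adj b c ∧
        G.Adj d b ∧ G.Adj d c) ∨
      ∀ w, G.Reachable v w → ∃ a b, G.Adj w a ∧ G.Adj w b ∧ G.Adj a b) (n : ℕ) :
    ∀ S : Finset V, (univ \ S).card = n → Closed G S → (∃ f, State G S ∅ f) →
      ∃ f, State G univ ∅ f := by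
  induction n using Nat.strong_induction_on with
  | _ n ih =>
    intro S hn hS hf
    by_cases hSu : S = univ
    · subst hSu; exact hf
    · obtain ⟨v, hv⟩ : ∃ v, v ∉ S := by
        by_contra hcon
        push Not at hcon
        exact hSu (Finset.eq_univ_of_forall hcon)
      obtain ⟨f, hf⟩ := hf
      have hlt : ∀ T : Finset V, (∃ x ∈ T, x ∉ S) → (univ \ (T ∪ S)).card < n := by
        rintro T ⟨x, hxT, hxS⟩
        rw [← hn]
        apply Finset.card_lt_card
        rw [Finset.ssubset_iff_of_subset (Finset.sdiff_subset_sdiff (Finset.Subset.refl _)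
          Finset.subset_union_right)]
        exact ⟨x, by simp [hxS], by simp [hxT]⟩
      have hvK : v ∈ comp G v := mem_comp.2 (SimpleGraph.Reachable.refl v)
      by_cases hlow : ∃ w, G.Reachable v w ∧ (univ.filter (G.Adj w)).card ≤ 2
      · obtain ⟨w, hvw, hw2⟩ := hlow
        obtain ⟨f', h'⟩ := extend_low hdeg hS hf hv hvw hw2
        exact ih _ (hlt (comp G v) ⟨v, hvK, hv⟩) _ rfl ((closed_comp v).union hS) ⟨f', h'⟩
      · by_cases hdia : ∃ a b c d : V, G.Reachable v a ∧ a ≠ d ∧ G.Adj a b ∧ G.Adj a c ∧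
          G.Adj b c ∧ G.Adj d b ∧ G.Adj d c
        · obtain ⟨a, b, c, d, hva, had, hab, hac, hbc, hdb, hdc⟩ := hdia
          by_cases hnad : G.Adj a d
          · obtain ⟨f', h', hcl⟩ := extend_K4 hdeg hS hf hv hva hab hac hbc hdb hdc had hnad
            exact ih _ (hlt {a, b, c, d} ⟨a, by simp, comp_disjoint hS hv (mem_comp.2 hva)⟩) _ rfl
              hcl ⟨f', h'⟩
          · obtain ⟨f', h'⟩ := extend_diamond hdeg hS hf hv hva hab hac hbc hdb hdc had hnad
            exact ih _ (hlt (comp G v) ⟨v, hvK, hv⟩) _ rfl ((closed_comp v).union hS) ⟨f', h'⟩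
        · rcases hcomp v with h1 | h1 | h1
          · exact absurd h1 hlow
          · exact absurd h1 hdia
          · obtain ⟨f', h'⟩ := extend_tri hdeg hS hf hv hlow hdia h1
            exact ih _ (hlt (comp G v) ⟨v, hvK, hv⟩) _ rfl ((closed_comp v).union hS) ⟨f', h'⟩

end Pool.Agent.Tri
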