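import Mathlib
import Pool.Agent.Results.MP_72d9c6_nt.TriangleComponents

set_option autoImplicit false

namespace Pool.Agent.Tri

/-- The truncated tetrahedron: vertices `3 a + b`, triangles `{3 a, 3 a + 1, 3 a + 2}`. -/
def ttBool (u v : Fin 12) : Bool :=
  (u != v && u.val / 3 == v.val / 3) ||
    (u.val, v.val) ∈ [(0, 3), (3, 0), (1, 6), (6, 1), (2, 9), (9, 2), (4, 7), (7, 4), (5, 10),
      (10, 5), (8, 11), (11, 8)]

def tt : SimpleGraph (Fin 12) where
  Adj u v := ttBool u v = true
  symm := ⟨by decide⟩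
  loopless := ⟨by decide⟩

instance : DecidableRel tt.Adj := fun u v => inferInstanceAs (Decidable (ttBool u v = true))

/-- The hypotheses of the theorem hold for the truncated tetrahedron (third alternative; it has
no vertex of degree at most two and no diamond). -/
example : (∀ v : Fin 12, (tt.neighborSet v).ncard ≤ 3) ∧
    (∀ w : Fin 12, ∃ a b : Fin 12, tt.Adj w a ∧ tt.Adj w b ∧ tt.Adj a b) := by
  constructor
  · intro v
    rw [Set.ncard_eq_toFinset_card']
    revert v
    decide
  · decide

example : ∃ f : Fin 12 → ℕ, Function.Injective f ∧ (∀ v, 0 < f v) ∧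
    ∀ u v : Fin 12, u ≠ v → (tt.Adj u v ↔ IsSquare (f u * f v + 1)) :=
  Pool.Agent.Results.MP_72d9c6_nt.TriangleComponents.result _ tt
    (by
      intro v
      rw [Set.ncard_eq_toFinset_card']
      revert v
      decide)
    (fun _ => Or.inr (Or.inr fun w _ =>
      (by decide : ∀ w : Fin 12, ∃ a b : Fin 12, tt.Adj w a ∧ tt.Adj w b ∧ tt.Adj a b) w))

end Pool.Agent.Tri
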